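import Pool.Agent.Helper16.Jones.Defs

set_option autoImplicit false

/-!
# Unbalanced Kauffman states
-/

namespace Pool.Agent.Helper16.Jones

namespace KnotDiagram

variable {n : ℕ} (D : KnotDiagram n)

/-- The state obtained from `s` by changing the smoothings at the crossings of `Z`. -/
def change (s : Fin n → Bool) (Z : Finset (Fin n)) : Fin n → Bool :=
  fun c => if c ∈ Z then !(s c) else s c

/-- `Z` is a nonempty union of cycles of the state graph of `s`. -/
def IsCycleUnion (s : Fin n → Bool) (Z : Finset (Fin n)) : Prop :=
  Z.Nonempty ∧ ∀ c ∈ Z, ∃ C ⊆ Z, D.IsEven s C ∧ c ∈ C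

/-- `|Z| + |s_Z| - |s| = 2 N(Z)`, where `s_Z` is `s` changed on `Z`. -/
noncomputable def excess (s : Fin n → Bool) (Z : Finset (Fin n)) : ℤ :=
  (Z.card : ℤ) + D.circles (change s Z) - D.circles s

/-- The state `s` is unbalanced: `N(Z) < |A(Z) - B(Z)|` for every nonempty union `Z` of cycles of
its state graph, `A(Z)` and `B(Z)` being the numbers of `A`- and of `B`-smoothings in `Z`. -/
def Unbalanced (s : Fin n → Bool) : Prop :=
  ∀ Z : Finset (Fin n), D.IsCycleUnion s Z →
    D.excess s Z < 2 * |(num s true Z : ℤ) - num s false Z|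

/-- The state `s` is strictly unbalanced: it is unbalanced, and `N(Z) + 1 < |A(Z) - B(Z)|` if
`A(Z)` and `B(Z)` are at least two. -/
def StrictlyUnbalanced (s : Fin n → Bool) : Prop :=
  D.Unbalanced s ∧ ∀ Z : Finset (Fin n), D.IsCycleUnion s Z → 2 ≤ num s true Z →
    2 ≤ num s false Z → D.excess s Z + 2 < 2 * |(num s true Z : ℤ) - num s false Z|

/-- The map `r` divides the crossings into classes such that every cycle of the state graph of `s`
which goes through a crossing goes through its whole class (for instance: the twist regions of the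
diagram, if the smoothings of `s` cut each of them across). -/
def Series (s : Fin n → Bool) {m : ℕ} (r : Fin n → Fin m) : Prop :=
  ∀ C : Finset (Fin n), D.IsEven s C → ∀ c d : Fin n, r c = r d → c ∈ C → d ∈ C

end KnotDiagram

end Pool.Agent.Helper16.Jones
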