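import Pool.Agent.Helper16.Jones.Sys

set_option autoImplicit false
set_option linter.unusedSectionVars false

/-!
# Double counting over the cells (classes of `off s X`)
-/

namespace Pool.Agent.Helper16.Jones

open Pool.Agent.Helper16.Knotoid

variable {ι R : Type} [Fintype ι] [DecidableEq ι] [Fintype R] [DecidableEq R]

namespace Sys

variable (S : Sys ι R)

lemma cells_mem_Pos {s : ι → Bool} {c : ι} : c ∈ Pos s ↔ s c = true := by simp [Pos]

lemma cells_mem_Neg {s : ι → Bool} {c : ι} : c ∈ Neg s ↔ s c = false := by simp [Neg]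

lemma cells_mem_cut {s : ι → Bool} {W : Finset R} {c : ι} :
    c ∈ S.cut s W ↔ ¬ ((S.p c (s c)).1 ∈ W ↔ (S.p c (s c)).2 ∈ W) := by simp [cut]

lemma cut_symmDiff_aux (s : ι → Bool) (W W' : Finset R) :
    S.cut s (symmDiff W W') = symmDiff (S.cut s W) (S.cut s W') := by
  ext c
  simp only [cells_mem_cut, Finset.mem_symmDiff]
  tauto

/-- the regions of a set of cells -/
noncomputable def cellRegs (s : ι → Bool) (X : Finset ι) (G : Set (Quot (S.Rel (off s X)))) :
    Finset R := by
  classical exact Finset.univ.filter fun x => Quot.mk _ x ∈ G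

lemma mem_cellRegs {s : ι → Bool} {X : Finset ι} {G : Set (Quot (S.Rel (off s X)))} {x : R} :
    x ∈ S.cellRegs s X G ↔ Quot.mk _ x ∈ G := by
  classical
  simp [cellRegs]

lemma cells_mk_eq {s : ι → Bool} {X : Finset ι} {c : ι} (hc : c ∉ X) :
    Quot.mk (S.Rel (off s X)) (S.p c (s c)).1 = Quot.mk (S.Rel (off s X)) (S.p c (s c)).2 :=
  Quot.sound ⟨c, s c, by simp [off, hc], rfl⟩

lemma cells_bridge_iff {s : ι → Bool} {X : Finset ι} {c : ι} (hc : c ∈ X) :
    S.Bridge s X c ↔ Quot.mk (S.Rel (off s X)) (S.p c (s c)).1 =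
      Quot.mk (S.Rel (off s X)) (S.p c (s c)).2 := by
  unfold Bridge
  rw [Finset.insert_eq_self.2 hc]

lemma mem_cut_cellRegs {s : ι → Bool} {X : Finset ι} {G : Set (Quot (S.Rel (off s X)))} {c : ι} :
    c ∈ S.cut s (S.cellRegs s X G) ↔
      ¬ (Quot.mk (S.Rel (off s X)) (S.p c (s c)).1 ∈ G ↔
        Quot.mk (S.Rel (off s X)) (S.p c (s c)).2 ∈ G) := by
  rw [cells_mem_cut, mem_cellRegs, mem_cellRegs]

lemma cut_cellRegs_subset {s : ι → Bool} {X : Finset ι} (G : Set (Quot (S.Rel (off s X)))) :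
    S.cut s (S.cellRegs s X G) ⊆ X := by
  intro c hc
  by_contra hcX
  rw [mem_cut_cellRegs, S.cells_mk_eq hcX] at hc
  exact hc Iff.rfl

/-- the boundary of a cell -/
noncomputable def cellCut (s : ι → Bool) (X : Finset ι) (q : Quot (S.Rel (off s X))) : Finset ι :=
  S.cut s (S.cellRegs s X {q})

lemma cellCut_subset {s : ι → Bool} {X : Finset ι} (q : Quot (S.Rel (off s X))) :
    S.cellCut s X q ⊆ X := S.cut_cellRegs_subset _

lemma mem_cellCut {s : ι → Bool} {X : Finset ι} {q : Quot (S.Rel (off s X))} {c : ι} :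
    c ∈ S.cellCut s X q ↔
      ¬ (Quot.mk (S.Rel (off s X)) (S.p c (s c)).1 = q ↔
        Quot.mk (S.Rel (off s X)) (S.p c (s c)).2 = q) := by
  rw [cellCut, mem_cut_cellRegs, Set.mem_singleton_iff, Set.mem_singleton_iff]

lemma mem_cellCut_iff {s : ι → Bool} {X : Finset ι} {q : Quot (S.Rel (off s X))} {c : ι}
    (hc : c ∈ X) (hb : ¬ S.Bridge s X c) :
    c ∈ S.cellCut s X q ↔ Quot.mk (S.Rel (off s X)) (S.p c (s c)).1 = q ∨
        Quot.mk (S.Rel (off s X)) (S.p c (s c)).2 = q := by
  rw [S.cells_bridge_iff hc] at hb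
  rw [mem_cellCut]
  constructor
  · intro h
    by_contra h'
    push Not at h'
    exact h (iff_of_false h'.1 h'.2)
  · rintro (h | h) h'
    · exact hb (h.trans (h'.1 h).symm)
    · exact hb ((h'.2 h).trans h.symm)

lemma notMem_cellCut {s : ι → Bool} {X : Finset ι} {q : Quot (S.Rel (off s X))} {c : ι}
    (hc : c ∈ X) (hb : S.Bridge s X c) : c ∉ S.cellCut s X q := by
  rw [S.cells_bridge_iff hc] at hb
  rw [mem_cellCut, hb]
  tauto

/-- a union of cells with empty cut is closed under the full relation -/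
lemma cells_full_closed {s : ι → Bool} {W : Finset R} (h : S.cut s W = ∅) {x y : R}
    (hxy : Quot.mk (S.Rel fun c => some (s c)) x = Quot.mk (S.Rel fun c => some (s c)) y) :
    x ∈ W ↔ y ∈ W := by
  have h1 : ∀ a b : R, S.Rel (fun c => some (s c)) a b → (a ∈ W) = (b ∈ W) := by
    rintro a b ⟨c, t, ht, hab⟩
    have ht' : s c = t := by simpa using ht
    subst ht'
    have h2 : c ∉ S.cut s W := by rw [h]; simp
    rw [cells_mem_cut, not_not, hab] at h2
    exact propext h2
  have h2 := congrArg (Quot.lift (fun a : R => (a ∈ W)) h1) hxy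
  exact iff_of_eq h2

theorem cl_off_of_bridges {s : ι → Bool} (X : Finset ι) (h : ∀ c ∈ X, S.Bridge s X c) :
    S.cl (off s X) = S.full s := by
  have h1 : ∀ c, Quot.mk (S.Rel (off s X)) (S.p c (s c)).1 =
      Quot.mk (S.Rel (off s X)) (S.p c (s c)).2 := by
    intro c
    by_cases hc : c ∈ X
    · exact (S.cells_bridge_iff hc).1 (h c hc)
    · exact S.cells_mk_eq hc
  refine Nat.card_congr ⟨Quot.lift (fun x => Quot.mk _ x) ?_, Quot.lift (fun x => Quot.mk _ x) ?_,
    ?_, ?_⟩
  · rintro a b ⟨c, t, ht, hab⟩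
    refine Quot.sound ⟨c, t, ?_, hab⟩
    unfold off at ht
    split_ifs at ht
    exact ht
  · rintro a b ⟨c, t, ht, hab⟩
    have ht' : s c = t := by simpa using ht
    subst ht'
    have := h1 c
    rw [hab] at this
    exact this
  · rintro ⟨x⟩; rfl
  · rintro ⟨x⟩; rfl

section counting

variable (s : ι → Bool) (X : Finset ι)

noncomputable instance instFintypeCell : Fintype (Quot (S.Rel (off s X))) := Fintype.ofFinite _

noncomputable instance instDecidableEqCell : DecidableEq (Quot (S.Rel (off s X))) :=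
  Classical.decEq _

open Classical in
lemma sum_cellCut (Z : Finset ι) :
    ∑ q : Quot (S.Rel (off s X)), (S.cellCut s X q ∩ Z).card =
      2 * ((X ∩ Z).filter fun c => ¬ S.Bridge s X c).card := by
  have h1 : ∀ q : Quot (S.Rel (off s X)), (S.cellCut s X q ∩ Z).card =
      ∑ c ∈ X ∩ Z, if c ∈ S.cellCut s X q then 1 else 0 := by
    intro q
    rw [← Finset.card_filter]
    congr 1
    ext c
    have := S.cellCut_subset (s := s) (X := X) q
    simp only [Finset.mem_inter, Finset.mem_filter]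
    constructor
    · rintro ⟨h1, h2⟩; exact ⟨⟨this h1, h2⟩, h1⟩
    · rintro ⟨⟨_, h2⟩, h1⟩; exact ⟨h1, h2⟩
  simp only [h1]
  rw [Finset.sum_comm, Finset.card_filter, Finset.mul_sum]
  refine Finset.sum_congr rfl fun c hc => ?_
  have hcX : c ∈ X := (Finset.mem_inter.1 hc).1
  rw [← Finset.card_filter]
  by_cases hb : S.Bridge s X c
  · rw [if_neg (not_not.2 hb), mul_zero, Finset.card_eq_zero]
    ext q
    simp [S.notMem_cellCut hcX hb]
  · rw [if_pos hb, mul_one]
    have h2 : (Finset.univ.filter fun q => c ∈ S.cellCut s X q) =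
        {Quot.mk (S.Rel (off s X)) (S.p c (s c)).1,
          Quot.mk (S.Rel (off s X)) (S.p c (s c)).2} := by
      ext q
      simp only [Finset.mem_filter, Finset.mem_univ, true_and, S.mem_cellCut_iff hcX hb,
        Finset.mem_insert, Finset.mem_singleton]
      tauto
    rw [h2, Finset.card_pair ((S.cells_bridge_iff hcX).not.1 hb)]

open Classical in
/-- the cells with non-empty boundary -/
noncomputable def bigCells : Finset (Quot (S.Rel (off s X))) :=
  Finset.univ.filter fun q => (S.cellCut s X q).Nonempty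

open Classical in
lemma mem_bigCells {q : Quot (S.Rel (off s X))} : q ∈ S.bigCells s X ↔ (S.cellCut s X q).Nonempty := by
  simp [bigCells]

/-- the map to the classes of the full relation -/
def cellToFull : Quot (S.Rel (off s X)) → Quot (S.Rel fun c => some (s c)) :=
  Quot.map id (by
    rintro a b ⟨c, t, ht, hab⟩
    refine ⟨c, t, ?_, hab⟩
    unfold off at ht
    split_ifs at ht
    exact ht)

lemma cellToFull_surjective : Function.Surjective (S.cellToFull s X) := by
  rintro ⟨x⟩
  exact ⟨Quot.mk _ x, rfl⟩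

/-- a cell with empty boundary is a full class -/
lemma eq_of_cellToFull_eq {q q' : Quot (S.Rel (off s X))} (hq : q ∉ S.bigCells s X)
    (h : S.cellToFull s X q = S.cellToFull s X q') : q = q' := by
  obtain ⟨x, rfl⟩ := Quot.exists_rep q
  obtain ⟨y, rfl⟩ := Quot.exists_rep q'
  rw [mem_bigCells, Finset.not_nonempty_iff_eq_empty] at hq
  have h1 := (S.cells_full_closed (s := s) hq (x := x) (y := y) h).1 (by
    rw [mem_cellRegs]; exact rfl)
  rw [mem_cellRegs] at h1
  exact (Set.mem_singleton_iff.1 h1).symm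

open Classical in
lemma card_smallCells_lt (hne : (S.bigCells s X).Nonempty) :
    ((S.bigCells s X)ᶜ).card + 1 ≤ S.full s := by
  obtain ⟨q0, hq0⟩ := hne
  have : Fintype (Quot (S.Rel fun c => some (s c))) := Fintype.ofFinite _
  have h1 : (((S.bigCells s X)ᶜ).image (S.cellToFull s X)).card = ((S.bigCells s X)ᶜ).card := by
    apply Finset.card_image_of_injOn
    intro q hq q' _ h
    exact S.eq_of_cellToFull_eq s X (by simpa using hq) h
  have h2 : S.cellToFull s X q0 ∉ ((S.bigCells s X)ᶜ).image (S.cellToFull s X) := by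
    rw [Finset.mem_image]
    rintro ⟨q, hq, h⟩
    have := S.eq_of_cellToFull_eq s X (by simpa using hq) h
    rw [this] at hq
    exact (Finset.mem_compl.1 hq) hq0
  have h3 := Finset.card_le_univ (insert (S.cellToFull s X q0) (((S.bigCells s X)ᶜ).image (S.cellToFull s X)))
  rw [Finset.card_insert_of_notMem h2, h1] at h3
  unfold full cl
  rwa [Nat.card_eq_fintype_card]

/-- if the bound of `card_smallCells_lt` is sharp then all cells with non-empty boundary lie in one
full class -/
lemma cellToFull_eq_of_sharp (hs : S.full s ≤ ((S.bigCells s X)ᶜ).card + 1)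
    {q q' : Quot (S.Rel (off s X))} (hq : q ∈ S.bigCells s X) (hq' : q' ∈ S.bigCells s X) :
    S.cellToFull s X q = S.cellToFull s X q' := by
  classical
  by_contra hne
  have : Fintype (Quot (S.Rel fun c => some (s c))) := Fintype.ofFinite _
  have h1 : (((S.bigCells s X)ᶜ).image (S.cellToFull s X)).card = ((S.bigCells s X)ᶜ).card := by
    apply Finset.card_image_of_injOn
    intro q hq q' _ h
    exact S.eq_of_cellToFull_eq s X (by simpa using hq) h
  have h2 : ∀ q0 ∈ S.bigCells s X, S.cellToFull s X q0 ∉ ((S.bigCells s X)ᶜ).image (S.cellToFull s X) := by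
    intro q0 hq0
    rw [Finset.mem_image]
    rintro ⟨q, hq, h⟩
    have := S.eq_of_cellToFull_eq s X (by simpa using hq) h
    rw [this] at hq
    exact (Finset.mem_compl.1 hq) hq0
  have h3 := Finset.card_le_univ (insert (S.cellToFull s X q) (insert (S.cellToFull s X q')
    (((S.bigCells s X)ᶜ).image (S.cellToFull s X))))
  rw [Finset.card_insert_of_notMem, Finset.card_insert_of_notMem (h2 q' hq'), h1] at h3
  · unfold full cl at hs
    rw [Nat.card_eq_fintype_card] at hs
    omega
  · rw [Finset.mem_insert, not_or]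
    exact ⟨hne, h2 q hq⟩

end counting

lemma sum_bigCells (s : ι → Bool) (X : Finset ι) (f : Quot (S.Rel (off s X)) → ℕ)
    (hf : ∀ q, q ∉ S.bigCells s X → f q = 0) : ∑ q ∈ S.bigCells s X, f q = ∑ q, f q := by
  classical
  exact Finset.sum_subset (Finset.subset_univ _) fun q _ hq => hf q hq

lemma cellCut_inter_of_small {s : ι → Bool} {X : Finset ι} {q : Quot (S.Rel (off s X))}
    (hq : q ∉ S.bigCells s X) (Z : Finset ι) : (S.cellCut s X q ∩ Z).card = 0 := by
  rw [mem_bigCells, Finset.not_nonempty_iff_eq_empty] at hq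
  rw [hq]
  simp

open Classical in
lemma cells_ineq {s : ι → Bool} (hs : S.Sparse s) (X : Finset ι)
    (h : ∀ c ∈ X ∩ Neg s, ¬ S.Bridge s X c) :
    (X ∩ Neg s).card + (S.bigCells s X).card ≤
      ((X ∩ Pos s).filter fun c => ¬ S.Bridge s X c).card := by
  have h1 := S.sum_cellCut s X (Neg s)
  have h2 := S.sum_cellCut s X (Pos s)
  rw [Finset.filter_true_of_mem h] at h1
  rw [← S.sum_bigCells s X _ fun q hq => S.cellCut_inter_of_small hq _] at h1 h2
  have h3 : ∑ q ∈ S.bigCells s X, ((S.cellCut s X q ∩ Neg s).card + 2) ≤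
      ∑ q ∈ S.bigCells s X, (S.cellCut s X q ∩ Pos s).card :=
    Finset.sum_le_sum fun q hq => hs _ ((S.mem_bigCells s X).1 hq)
  rw [Finset.sum_add_distrib, Finset.sum_const, smul_eq_mul, h1, h2] at h3
  omega

lemma bigCells_nonempty {s : ι → Bool} {X : Finset ι} (hne : ∃ c ∈ X, ¬ S.Bridge s X c) :
    (S.bigCells s X).Nonempty := by
  obtain ⟨c, hc, hb⟩ := hne
  refine ⟨Quot.mk (S.Rel (off s X)) (S.p c (s c)).1, (S.mem_bigCells s X).2 ⟨c, ?_⟩⟩
  rw [S.mem_cellCut_iff hc hb]
  exact Or.inl rfl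

lemma cells_cl_eq (s : ι → Bool) (X : Finset ι) :
    S.cl (off s X) = (S.bigCells s X).card + ((S.bigCells s X)ᶜ).card := by
  classical
  rw [Finset.card_add_card_compl]
  unfold cl
  rw [Nat.card_eq_fintype_card]

open Classical in
theorem cells_bound {s : ι → Bool} (hs : S.Sparse s) (X : Finset ι)
    (h : ∀ c ∈ X ∩ Neg s, ¬ S.Bridge s X c) (hne : ∃ c ∈ X, ¬ S.Bridge s X c) :
    (X ∩ Neg s).card + S.cl (off s X) + 1 ≤
      ((X ∩ Pos s).filter fun c => ¬ S.Bridge s X c).card + S.full s := by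
  have h1 := S.cells_ineq hs X h
  have h2 := S.card_smallCells_lt s X (S.bigCells_nonempty hne)
  rw [S.cells_cl_eq]
  omega

/-- parallel crossings -/
def CellPar (s : ι → Bool) (e f : ι) : Prop := ∃ W, S.cut s W = symmDiff {e} {f}

lemma CellPar.refl {s : ι → Bool} (e : ι) : S.CellPar s e e :=
  ⟨∅, by ext c; simp [cells_mem_cut]⟩

lemma CellPar.symm {s : ι → Bool} {e f : ι} (h : S.CellPar s e f) : S.CellPar s f e := by
  obtain ⟨W, hW⟩ := h
  exact ⟨W, by rw [hW, symmDiff_comm]⟩

lemma CellPar.trans {s : ι → Bool} {e f g : ι} (h : S.CellPar s e f) (h' : S.CellPar s f g) :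
    S.CellPar s e g := by
  obtain ⟨W, hW⟩ := h
  obtain ⟨W', hW'⟩ := h'
  refine ⟨symmDiff W W', ?_⟩
  rw [cut_symmDiff_aux, hW, hW', symmDiff_assoc, symmDiff_symmDiff_cancel_left]

lemma cells_card_symmDiff_le {A B : Finset ι} {e f : ι} (he : e ∈ A) (hf : f ∈ B)
    (hA : A.card = 3) (hB : B.card = 3) :
    (symmDiff (symmDiff A B) (symmDiff {e} {f})).card ≤ 4 := by
  have h1 : symmDiff (symmDiff A B) (symmDiff {e} {f}) ⊆ (A.erase e) ∪ (B.erase f) := by
    intro x
    simp only [Finset.mem_symmDiff, Finset.mem_singleton, Finset.mem_union, Finset.mem_erase]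
    by_cases hxe : x = e
    · subst hxe
      by_cases hxf : x = f
      · subst hxf
        simp [he, hf]
      · simp only [he, hxf]
        tauto
    · by_cases hxf : x = f
      · subst hxf
        simp only [hf, hxe]
        tauto
      · simp only [hxe, hxf]
        tauto
  calc _ ≤ ((A.erase e) ∪ (B.erase f)).card := Finset.card_le_card h1
    _ ≤ (A.erase e).card + (B.erase f).card := Finset.card_union_le _ _
    _ = 4 := by rw [Finset.card_erase_of_mem he, Finset.card_erase_of_mem hf, hA, hB]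

lemma not_cellPar_of_cells {s : ι → Bool} (hs' : S.Strict s) {W₁ W₂ : Finset R} {d d' e f : ι}
    (hdd : d ≠ d') (hA : S.cut s W₁ ∩ Neg s = {d}) (hA3 : (S.cut s W₁ ∩ Pos s).card = 3)
    (hB : S.cut s W₂ ∩ Neg s = {d'}) (hB3 : (S.cut s W₂ ∩ Pos s).card = 3)
    (he : e ∈ S.cut s W₁ ∩ Pos s) (hf : f ∈ S.cut s W₂ ∩ Pos s) : ¬ S.CellPar s e f := by
  rintro ⟨W, hW⟩
  set Wt := symmDiff (symmDiff W₁ W₂) W with hWt
  have hcut : S.cut s Wt = symmDiff (symmDiff (S.cut s W₁) (S.cut s W₂))
      (symmDiff {e} {f}) := by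
    rw [hWt, cut_symmDiff_aux, cut_symmDiff_aux, hW]
  have hne : ∀ x ∈ Neg s, x ≠ e ∧ x ≠ f := by
    intro x hx
    rw [cells_mem_Neg] at hx
    constructor
    · rintro rfl
      have := cells_mem_Pos.1 (Finset.mem_inter.1 he).2
      simp [hx] at this
    · rintro rfl
      have := cells_mem_Pos.1 (Finset.mem_inter.1 hf).2
      simp [hx] at this
  have hA' : ∀ x ∈ Neg s, (x ∈ S.cut s W₁ ↔ x = d) := by
    intro x hx
    rw [← Finset.mem_singleton, ← hA, Finset.mem_inter, and_iff_left hx]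
  have hB' : ∀ x ∈ Neg s, (x ∈ S.cut s W₂ ↔ x = d') := by
    intro x hx
    rw [← Finset.mem_singleton, ← hB, Finset.mem_inter, and_iff_left hx]
  have hd : d ∈ Neg s := by
    have : d ∈ S.cut s W₁ ∩ Neg s := by rw [hA]; exact Finset.mem_singleton_self d
    exact (Finset.mem_inter.1 this).2
  have hd' : d' ∈ Neg s := by
    have : d' ∈ S.cut s W₂ ∩ Neg s := by rw [hB]; exact Finset.mem_singleton_self d'
    exact (Finset.mem_inter.1 this).2
  have hN : S.cut s Wt ∩ Neg s = {d, d'} := by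
    ext x
    rw [Finset.mem_inter, hcut, Finset.mem_insert, Finset.mem_singleton]
    by_cases hx : x ∈ Neg s
    · rw [and_iff_left hx, Finset.mem_symmDiff, Finset.mem_symmDiff, Finset.mem_symmDiff,
        Finset.mem_singleton, Finset.mem_singleton, hA' x hx, hB' x hx]
      have h1 := (hne x hx).1
      have h2 := (hne x hx).2
      constructor
      · tauto
      · rintro (h | h)
        · have h3 : ¬ x = d' := fun h' => hdd (h.symm.trans h')
          tauto
        · have h3 : ¬ x = d := fun h' => hdd (h'.symm.trans h)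
          tauto
    · constructor
      · exact fun h => absurd h.2 hx
      · rintro (rfl | rfl)
        · exact absurd hd hx
        · exact absurd hd' hx
  have hPle : (S.cut s Wt ∩ Pos s).card ≤ 4 := by
    refine le_trans (Finset.card_le_card ?_) (cells_card_symmDiff_le he hf hA3 hB3)
    intro x hx
    rw [Finset.mem_inter, hcut] at hx
    obtain ⟨hx1, hx2⟩ := hx
    rw [Finset.mem_symmDiff, Finset.mem_symmDiff] at hx1 ⊢
    rw [Finset.mem_inter, Finset.mem_inter, and_iff_left hx2, and_iff_left hx2]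
    exact hx1
  have h14 := hs' Wt (by rw [hN, Finset.card_pair hdd])
  rw [hN, Finset.card_pair hdd] at h14
  omega

lemma cellPar_of_two {s : ι → Bool} {W : Finset R} (h0 : S.cut s W ∩ Neg s = ∅)
    (h2 : (S.cut s W ∩ Pos s).card = 2) {e f : ι} (he : e ∈ S.cut s W) (hf : f ∈ S.cut s W) :
    S.CellPar s f e := by
  have hP : S.cut s W ∩ Pos s = S.cut s W := by
    rw [Finset.inter_eq_left]
    intro x hx
    by_contra hxP
    have : x ∈ S.cut s W ∩ Neg s := by
      rw [Finset.mem_inter, cells_mem_Neg]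
      rw [cells_mem_Pos] at hxP
      exact ⟨hx, by simpa using hxP⟩
    rw [h0] at this
    simp at this
  rw [hP] at h2
  by_cases hef : f = e
  · subst hef
    exact CellPar.refl S f
  · refine ⟨W, ?_⟩
    have h3 : ({f, e} : Finset ι) = S.cut s W := by
      apply Finset.eq_of_subset_of_card_le
      · intro x hx
        rw [Finset.mem_insert, Finset.mem_singleton] at hx
        rcases hx with rfl | rfl
        · exact hf
        · exact he
      · rw [h2, Finset.card_pair hef]
    rw [← h3]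
    ext x
    rw [Finset.mem_insert, Finset.mem_symmDiff, Finset.mem_singleton, Finset.mem_singleton]
    constructor
    · rintro (h | h)
      · exact Or.inl ⟨h, fun h' => hef (h.symm.trans h')⟩
      · exact Or.inr ⟨h, fun h' => hef (h'.symm.trans h)⟩
    · rintro (h | h)
      · exact Or.inl h.1
      · exact Or.inr h.1

theorem cells_strict {s : ι → Bool} (hs : S.Sparse s) (hs' : S.Strict s) (X : Finset ι)
    (h : ∀ c ∈ X, ¬ S.Bridge s X c) (h2 : 2 ≤ (X ∩ Neg s).card) :
    (X ∩ Neg s).card + S.cl (off s X) + 2 ≤ (X ∩ Pos s).card + S.full s := by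
  classical
  by_contra hcon
  push Not at hcon
  have hXP : ((X ∩ Pos s).filter fun c => ¬ S.Bridge s X c) = X ∩ Pos s :=
    Finset.filter_true_of_mem fun c hc => h c (Finset.mem_inter.1 hc).1
  have hXN : ∀ c ∈ X ∩ Neg s, ¬ S.Bridge s X c := fun c hc => h c (Finset.mem_inter.1 hc).1
  have h1 := S.cells_ineq hs X hXN
  rw [hXP] at h1
  obtain ⟨c, c', hcc⟩ : ∃ c c', c ∈ X ∩ Neg s ∧ c' ∈ X ∩ Neg s ∧ c ≠ c' := by
    obtain ⟨c, hc, c', hc', hne⟩ := Finset.one_lt_card.1 h2
    exact ⟨c, c', hc, hc', hne⟩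
  obtain ⟨hc, hc', hne⟩ := hcc
  have hbig : (S.bigCells s X).Nonempty :=
    S.bigCells_nonempty ⟨c, (Finset.mem_inter.1 hc).1, h c (Finset.mem_inter.1 hc).1⟩
  have h3 := S.card_smallCells_lt s X hbig
  rw [S.cells_cl_eq] at hcon
  have hsharp : S.full s ≤ ((S.bigCells s X)ᶜ).card + 1 := by omega
  have heq : (X ∩ Neg s).card + (S.bigCells s X).card = (X ∩ Pos s).card := by omega
  -- every big cell has exactly two more positive than negative crossings
  have hcell : ∀ q ∈ S.bigCells s X, (S.cellCut s X q ∩ Neg s).card + 2 = (S.cellCut s X q ∩ Pos s).card := by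
    have h4 := S.sum_cellCut s X (Neg s)
    have h5 := S.sum_cellCut s X (Pos s)
    rw [Finset.filter_true_of_mem hXN] at h4
    rw [hXP] at h5
    rw [← S.sum_bigCells s X _ fun q hq => S.cellCut_inter_of_small hq _] at h4 h5
    have h6 : ∑ q ∈ S.bigCells s X, ((S.cellCut s X q ∩ Neg s).card + 2) =
        ∑ q ∈ S.bigCells s X, (S.cellCut s X q ∩ Pos s).card := by
      rw [Finset.sum_add_distrib, Finset.sum_const, smul_eq_mul, h4, h5]
      omega
    exact (Finset.sum_eq_sum_iff_of_le fun q hq => hs _ ((S.mem_bigCells s X).1 hq)).1 h6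
  have hneg : ∀ q ∈ S.bigCells s X, (S.cellCut s X q ∩ Neg s).card ≤ 1 := by
    intro q hq
    by_contra h7
    push Not at h7
    have h8 : 2 ≤ (S.cellCut s X q ∩ Neg s).card := h7
    have := hs' _ h8
    have h9 := hcell q hq
    unfold cellCut at h8 h9
    omega
  have mem_big_of : ∀ {q e}, e ∈ S.cellCut s X q → q ∈ S.bigCells s X := fun {q e} he =>
    (S.mem_bigCells s X).2 ⟨e, he⟩
  -- a cell through a negative crossing
  have hthree : ∀ {q d}, d ∈ Neg s → d ∈ S.cellCut s X q →
      S.cellCut s X q ∩ Neg s = {d} ∧ (S.cellCut s X q ∩ Pos s).card = 3 := by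
    intro q d hd hdq
    have h10 := hneg q (mem_big_of hdq)
    have h11 := hcell q (mem_big_of hdq)
    have h12 : d ∈ S.cellCut s X q ∩ Neg s := Finset.mem_inter.2 ⟨hdq, hd⟩
    have h13 : (S.cellCut s X q ∩ Neg s).card = 1 :=
      le_antisymm h10 (Finset.card_pos.2 ⟨d, h12⟩)
    obtain ⟨d', hd'⟩ := Finset.card_eq_one.1 h13
    rw [hd'] at h12
    rw [Finset.mem_singleton] at h12
    subst h12
    exact ⟨hd', by omega⟩
  -- the claim
  have claim : ∀ {d d' q q' e f}, d ∈ Neg s → d' ∈ Neg s → d ≠ d' → d ∈ S.cellCut s X q →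
      d' ∈ S.cellCut s X q' → e ∈ S.cellCut s X q ∩ Pos s → f ∈ S.cellCut s X q' ∩ Pos s →
      ¬ S.CellPar s e f := fun hd hd' hdd hdq hdq' he hf =>
    S.not_cellPar_of_cells hs' hdd (hthree hd hdq).1 (hthree hd hdq).2 (hthree hd' hdq').1
      (hthree hd' hdq').2 he hf
  have hcN := (Finset.mem_inter.1 hc).2
  have hcX := (Finset.mem_inter.1 hc).1
  have hcN' := (Finset.mem_inter.1 hc').2
  have hcX' := (Finset.mem_inter.1 hc').1
  -- the set of cells
  let G : Set (Quot (S.Rel (off s X))) := {q | (S.cellCut s X q).Nonempty ∧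
    ∀ e ∈ S.cellCut s X q ∩ Pos s, ∃ q', c ∈ S.cellCut s X q' ∧ ∃ f ∈ S.cellCut s X q' ∩ Pos s, S.CellPar s e f}
  have hGc : ∀ q, c ∈ S.cellCut s X q → q ∈ G := fun q hq =>
    ⟨⟨c, hq⟩, fun e he => ⟨q, hq, e, he, CellPar.refl S e⟩⟩
  have hkey : ∀ {q q' e}, e ∈ S.cellCut s X q → e ∈ S.cellCut s X q' → q ∈ G → q' ∈ G := by
    intro q q' e heq' heq'' hq
    by_cases heN : e ∈ Neg s
    · by_cases hec : e = c
      · exact hGc q' (hec ▸ heq'')
      · exfalso
        obtain ⟨f, hf⟩ := Finset.card_pos.1 (by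
          rw [(hthree heN heq').2]; norm_num : 0 < (S.cellCut s X q ∩ Pos s).card)
        obtain ⟨q2, hq2, g, hg, hpar⟩ := hq.2 f hf
        exact claim heN hcN hec heq' hq2 hf hg hpar
    · have heP : e ∈ Pos s := by
        rw [cells_mem_Pos]
        rw [cells_mem_Neg] at heN
        simpa using heN
      obtain ⟨q2, hq2, g, hg, hpar⟩ := hq.2 e (Finset.mem_inter.2 ⟨heq', heP⟩)
      by_cases hcq' : c ∈ S.cellCut s X q'
      · exact hGc q' hcq'
      have hempty : S.cellCut s X q' ∩ Neg s = ∅ := by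
        rw [Finset.eq_empty_iff_forall_notMem]
        intro d hd
        rw [Finset.mem_inter] at hd
        have hdc : d ≠ c := by rintro rfl; exact hcq' hd.1
        exact claim hd.2 hcN hdc hd.1 hq2 (Finset.mem_inter.2 ⟨heq'', heP⟩) hg hpar
      have hcard := hcell q' (mem_big_of heq'')
      rw [hempty, Finset.card_empty, zero_add] at hcard
      refine ⟨⟨e, heq''⟩, fun f hf => ⟨q2, hq2, g, hg, ?_⟩⟩
      exact CellPar.trans S (S.cellPar_of_two hempty hcard.symm heq'' (Finset.mem_inter.1 hf).1) hpar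
  have hcutG : S.cut s (S.cellRegs s X G) = ∅ := by
    rw [Finset.eq_empty_iff_forall_notMem]
    intro e he
    have heX := S.cut_cellRegs_subset _ he
    rw [mem_cut_cellRegs] at he
    have h15 : e ∈ S.cellCut s X (Quot.mk (S.Rel (off s X)) (S.p e (s e)).1) :=
      (S.mem_cellCut_iff heX (h e heX)).2 (Or.inl rfl)
    have h16 : e ∈ S.cellCut s X (Quot.mk (S.Rel (off s X)) (S.p e (s e)).2) :=
      (S.mem_cellCut_iff heX (h e heX)).2 (Or.inr rfl)
    exact he ⟨hkey h15 h16, hkey h16 h15⟩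
  -- the two cells of `c` and `c'`
  have h17 : c ∈ S.cellCut s X (Quot.mk (S.Rel (off s X)) (S.p c (s c)).1) :=
    (S.mem_cellCut_iff hcX (h c hcX)).2 (Or.inl rfl)
  have h18 : c' ∈ S.cellCut s X (Quot.mk (S.Rel (off s X)) (S.p c' (s c')).1) :=
    (S.mem_cellCut_iff hcX' (h c' hcX')).2 (Or.inl rfl)
  have h19 := S.cellToFull_eq_of_sharp s X hsharp (mem_big_of h17) (mem_big_of h18)
  have h20 := (S.cells_full_closed (s := s) hcutG (x := (S.p c (s c)).1) (y := (S.p c' (s c')).1)
    h19).1 (by rw [mem_cellRegs]; exact hGc _ h17)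
  rw [mem_cellRegs] at h20
  obtain ⟨f, hf⟩ := Finset.card_pos.1 (by
    rw [(hthree hcN' h18).2]; norm_num :
      0 < (S.cellCut s X (Quot.mk (S.Rel (off s X)) (S.p c' (s c')).1) ∩ Pos s).card)
  obtain ⟨q2, hq2, g, hg, hpar⟩ := h20.2 f hf
  exact claim hcN' hcN (Ne.symm hne) h18 hq2 hf hg hpar

end Sys

end Pool.Agent.Helper16.Jones
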