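import Pool.Agent.Helper16.Jones.Sys

set_option autoImplicit false
set_option linter.unusedSectionVars false

/-!
# Numbers of classes of a region system

Module J1 of the sparse-state theorem: the number of classes of regions when smoothings are added,
bridges, Euler's inequality and formula.
-/

namespace Pool.Agent.Helper16.Jones

open Pool.Agent.Helper16.Knotoid

variable {ι R : Type} [Fintype ι] [DecidableEq ι] [Fintype R] [DecidableEq R]

namespace Sys

variable (S : Sys ι R)

omit [Fintype ι] [DecidableEq ι] [Fintype R] [DecidableEq R] in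
lemma rel_mono {u u' : ι → Option Bool} (h : ∀ c b, u c = some b → u' c = some b) {x y : R}
    (hr : S.Rel u x y) : S.Rel u' x y := by
  obtain ⟨c, b, h1, h2⟩ := hr
  exact ⟨c, b, h c b h1, h2⟩

omit [Fintype ι] [DecidableEq ι] [Fintype R] [DecidableEq R] in
lemma mk_mono {u u' : ι → Option Bool} (h : ∀ c b, u c = some b → u' c = some b) {x y : R}
    (hr : Quot.mk (S.Rel u) x = Quot.mk (S.Rel u) y) :
    Quot.mk (S.Rel u') x = Quot.mk (S.Rel u') y :=
  congrArg (Quot.map id fun _ _ h1 => S.rel_mono h h1) hr

omit [Fintype ι] [DecidableEq ι] [Fintype R] [DecidableEq R] in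
lemma mk_eq {u : ι → Option Bool} {c : ι} {b : Bool} (h : u c = some b) :
    Quot.mk (S.Rel u) (S.p c b).1 = Quot.mk (S.Rel u) (S.p c b).2 :=
  Quot.sound ⟨c, b, h, rfl⟩

omit [Fintype ι] [DecidableEq ι] [Fintype R] [DecidableEq R] in
lemma lift_eq {α : Type*} {u : ι → Option Bool} (φ : R → α)
    (hφ : ∀ c b, u c = some b → φ (S.p c b).1 = φ (S.p c b).2) {x y : R}
    (hr : Quot.mk (S.Rel u) x = Quot.mk (S.Rel u) y) : φ x = φ y := by
  have h1 : ∀ a b, S.Rel u a b → φ a = φ b := by
    rintro a b ⟨c, d, h2, h3⟩
    have h4 := hφ c d h2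
    rw [h3] at h4
    exact h4
  exact congrArg (Quot.lift φ h1) hr

omit [Fintype ι] [DecidableEq ι] [DecidableEq R] in
theorem cl_mono {u u' : ι → Option Bool} (h : ∀ c b, u c = some b → u' c = some b) :
    S.cl u' ≤ S.cl u := by
  apply Nat.card_le_card_of_surjective (Quot.map id fun _ _ h1 => S.rel_mono h h1)
  rintro ⟨x⟩
  exact ⟨Quot.mk _ x, rfl⟩

omit [Fintype ι] [DecidableEq R] in
theorem cl_update (u : ι → Option Bool) (c : ι) (b : Bool) (hu : u c = none) :
    (S.cl (Function.update u c (some b)) = S.cl u ∧
      Quot.mk (S.Rel u) (S.p c b).1 = Quot.mk (S.Rel u) (S.p c b).2) ∨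
    (S.cl (Function.update u c (some b)) + 1 = S.cl u ∧
      Quot.mk (S.Rel u) (S.p c b).1 ≠ Quot.mk (S.Rel u) (S.p c b).2) := by
  classical
  set u' := Function.update u c (some b) with hu'
  have hmono : ∀ d e, u d = some e → u' d = some e := by
    intro d e h
    have hd : d ≠ c := by
      rintro rfl
      rw [hu] at h
      exact absurd h (by simp)
    rw [hu', Function.update_of_ne hd]
    exact h
  have hcases : ∀ x y, S.Rel u' x y → S.Rel u x y ∨ S.p c b = (x, y) := by
    rintro x y ⟨d, e, h1, h2⟩
    by_cases hd : d = c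
    · subst hd
      rw [hu', Function.update_self, Option.some.injEq] at h1
      subst h1
      exact Or.inr h2
    · rw [hu', Function.update_of_ne hd] at h1
      exact Or.inl ⟨d, e, h1, h2⟩
  have hnew : Quot.mk (S.Rel u') (S.p c b).1 = Quot.mk (S.Rel u') (S.p c b).2 :=
    S.mk_eq (by rw [hu', Function.update_self])
  by_cases hq : Quot.mk (S.Rel u) (S.p c b).1 = Quot.mk (S.Rel u) (S.p c b).2
  · left
    refine ⟨le_antisymm (S.cl_mono hmono) ?_, hq⟩
    have hwd : ∀ x y, S.Rel u' x y → Quot.mk (S.Rel u) x = Quot.mk (S.Rel u) y := by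
      intro x y h
      rcases hcases x y h with h1 | h1
      · exact Quot.sound h1
      · rw [h1] at hq
        exact hq
    apply Nat.card_le_card_of_surjective (Quot.lift (fun x => Quot.mk (S.Rel u) x) hwd)
    rintro ⟨x⟩
    exact ⟨Quot.mk _ x, rfl⟩
  · right
    refine ⟨?_, hq⟩
    set qx := Quot.mk (S.Rel u) (S.p c b).1 with hqx
    set qy := Quot.mk (S.Rel u) (S.p c b).2 with hqy
    let f : Quot (S.Rel u) → {q : Quot (S.Rel u) // q ≠ qy} := fun q =>
      if h : q = qy then ⟨qx, hq⟩ else ⟨q, h⟩
    have hf1 : f qy = ⟨qx, hq⟩ := dif_pos rfl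
    have hf2 : ∀ q (h : q ≠ qy), f q = ⟨q, h⟩ := fun q h => dif_neg h
    have hwd : ∀ x y, S.Rel u' x y → f (Quot.mk (S.Rel u) x) = f (Quot.mk (S.Rel u) y) := by
      intro x y h
      rcases hcases x y h with h1 | h1
      · rw [Quot.sound h1]
      · have e1 : Quot.mk (S.Rel u) x = qx := by rw [hqx, h1]
        have e2 : Quot.mk (S.Rel u) y = qy := by rw [hqy, h1]
        rw [e1, e2, hf1, hf2 qx hq]
    let g : Quot (S.Rel u') → {q : Quot (S.Rel u) // q ≠ qy} :=
      Quot.lift (fun x => f (Quot.mk (S.Rel u) x)) hwd
    let h : {q : Quot (S.Rel u) // q ≠ qy} → Quot (S.Rel u') := fun q =>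
      Quot.map id (fun _ _ h1 => S.rel_mono hmono h1) q.1
    have e : Quot (S.Rel u') ≃ {q : Quot (S.Rel u) // q ≠ qy} :=
      { toFun := g
        invFun := h
        left_inv := by
          rintro ⟨x⟩
          show h (f (Quot.mk (S.Rel u) x)) = Quot.mk (S.Rel u') x
          by_cases hx : Quot.mk (S.Rel u) x = qy
          · rw [hx, hf1]
            show Quot.mk (S.Rel u') (S.p c b).1 = _
            rw [hnew]
            exact (S.mk_mono hmono hx).symm
          · rw [hf2 _ hx]
            rfl
        right_inv := by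
          rintro ⟨⟨x⟩, hx⟩
          show f (Quot.mk (S.Rel u) x) = _
          rw [hf2 _ hx] }
    have h1 : S.cl u' = Nat.card {q : Quot (S.Rel u) // q ≠ qy} := Nat.card_congr e
    have h2 : S.cl u = Nat.card (Option {q : Quot (S.Rel u) // q ≠ qy}) :=
      Nat.card_congr (Equiv.optionSubtypeNe qy).symm
    rw [h1, h2, Finite.card_option]

omit [Fintype ι] in
lemma off_mono {s : ι → Bool} {Y Y' : Finset ι} (h : Y ⊆ Y') :
    ∀ c b, off s Y' c = some b → off s Y c = some b := by
  intro c b h1
  unfold off at h1 ⊢
  by_cases hc : c ∈ Y'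
  · rw [if_pos hc] at h1
    exact absurd h1 (by simp)
  · rw [if_neg hc] at h1
    rw [if_neg (fun h2 => hc (h h2))]
    exact h1

omit [Fintype ι] [Fintype R] [DecidableEq R] in
theorem bridge_mono {s : ι → Bool} {Y Y' : Finset ι} {c : ι} (h : Y ⊆ Y')
    (hb : S.Bridge s Y' c) : S.Bridge s Y c :=
  S.mk_mono (off_mono (Finset.insert_subset_insert c h)) hb

omit [Fintype ι] [Fintype R] [DecidableEq R] in
lemma off_eq {s : ι → Bool} {Y : Finset ι} {c : ι} (h : c ∉ Y) : off s Y c = some (s c) :=
  if_neg h

omit [Fintype ι] [Fintype R] [DecidableEq R] in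
lemma of_off {s : ι → Bool} {Y : Finset ι} {c : ι} {b : Bool} (h : off s Y c = some b) :
    c ∉ Y ∧ s c = b := by
  unfold off at h
  by_cases hc : c ∈ Y
  · rw [if_pos hc] at h
    exact absurd h (by simp)
  · rw [if_neg hc, Option.some.injEq] at h
    exact ⟨hc, h⟩

/-- a crossing is a bridge iff it is in no cycle -/
theorem bridge_iff_cut {s : ι → Bool} {Y : Finset ι} {c : ι} :
    S.Bridge s Y c ↔ ∀ W, S.cut s W ⊆ insert c Y → c ∉ S.cut s W := by
  classical
  constructor
  · intro hb W hW hc
    unfold cut at hc
    rw [Finset.mem_filter] at hc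
    apply hc.2
    have h1 := S.lift_eq (u := off s (insert c Y)) (fun r => r ∈ W) (by
      intro d b hd
      obtain ⟨hd1, rfl⟩ := of_off hd
      have h2 : d ∉ S.cut s W := fun h => hd1 (hW h)
      unfold cut at h2
      rw [Finset.mem_filter, not_and, not_not] at h2
      exact propext (h2 (Finset.mem_univ d))) hb
    exact iff_of_eq h1
  · intro h
    have h1 := h (Finset.univ.filter fun r => Quot.mk (S.Rel (off s (insert c Y))) r =
      Quot.mk (S.Rel (off s (insert c Y))) (S.p c (s c)).1) (by
        intro d hd
        by_contra hdY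
        unfold cut at hd
        rw [Finset.mem_filter] at hd
        apply hd.2
        rw [Finset.mem_filter, Finset.mem_filter]
        have h2 := S.mk_eq (off_eq (s := s) hdY)
        rw [h2]
        simp)
    unfold cut at h1
    rw [Finset.mem_filter, not_and, not_not] at h1
    have h2 := h1 (Finset.mem_univ c)
    rw [Finset.mem_filter, Finset.mem_filter] at h2
    exact ((h2.mp ⟨Finset.mem_univ _, rfl⟩).2).symm

omit [DecidableEq ι] [Fintype R] in
lemma mem_cut {s : ι → Bool} {W : Finset R} {c : ι} :
    c ∈ S.cut s W ↔ ¬ ((S.p c (s c)).1 ∈ W ↔ (S.p c (s c)).2 ∈ W) := by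
  unfold cut
  rw [Finset.mem_filter]
  simp

theorem cut_symmDiff (s : ι → Bool) (W W' : Finset R) :
    S.cut s (symmDiff W W') = symmDiff (S.cut s W) (S.cut s W') := by
  ext c
  rw [Finset.mem_symmDiff, mem_cut, mem_cut, mem_cut, Finset.mem_symmDiff, Finset.mem_symmDiff]
  tauto

theorem cl_off_empty (s : ι → Bool) : S.cl (off s ∅) = S.full s := by
  have h : off s ∅ = fun c => some (s c) := by
    funext c
    exact off_eq (Finset.notMem_empty c)
  rw [h, full]

lemma off_update {s : ι → Bool} {Y : Finset ι} {c : ι} (hc : c ∉ Y) :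
    Function.update (off s (insert c Y)) c (some (s c)) = off s Y := by
  funext d
  by_cases hd : d = c
  · subst hd
    rw [Function.update_self, off_eq hc]
  · rw [Function.update_of_ne hd]
    unfold off
    by_cases h : d ∈ Y
    · rw [if_pos h, if_pos (Finset.mem_insert_of_mem h)]
    · rw [if_neg h, if_neg (by rw [Finset.mem_insert]; tauto)]

open Classical in
theorem cl_off_insert {s : ι → Bool} {Y : Finset ι} {c : ι} (hc : c ∉ Y) :
    S.cl (off s (insert c Y)) = S.cl (off s Y) + (if S.Bridge s Y c then 0 else 1) := by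
  have h0 : off s (insert c Y) c = none := by
    unfold off
    rw [if_pos (Finset.mem_insert_self c Y)]
  have h := S.cl_update (off s (insert c Y)) c (s c) h0
  rw [off_update hc] at h
  rcases h with ⟨h1, h2⟩ | ⟨h1, h2⟩
  · have h3 : S.Bridge s Y c := h2
    rw [if_pos h3, h1, add_zero]
  · have h3 : ¬ S.Bridge s Y c := h2
    rw [if_neg h3, h1]

variable {S} {χ : R → Bool}

/-- the state `sw s Y` without the smoothing at `c` -/
def hole (s : ι → Bool) (Y : Finset ι) (c : ι) : ι → Option Bool :=
  Function.update (fun d => some (sw s Y d)) c none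

lemma hole_self (s : ι → Bool) (Y : Finset ι) (c : ι) : hole s Y c c = none :=
  Function.update_self _ _ _

lemma full_sw {s : ι → Bool} {Y : Finset ι} {c : ι} (hc : c ∉ Y) :
    S.full (sw s Y) = S.cl (Function.update (hole s Y c) c (some (s c))) := by
  unfold full
  congr 1
  funext d
  by_cases hd : d = c
  · subst hd
    rw [Function.update_self]
    unfold sw
    rw [if_neg hc]
  · rw [Function.update_of_ne hd, hole, Function.update_of_ne hd]

lemma full_sw_insert {s : ι → Bool} {Y : Finset ι} {c : ι} (hc : c ∉ Y) :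
    S.full (sw s (insert c Y)) = S.cl (Function.update (hole s Y c) c (some (!s c))) := by
  unfold full
  congr 1
  funext d
  by_cases hd : d = c
  · subst hd
    rw [Function.update_self]
    unfold sw
    rw [if_pos (Finset.mem_insert_self d Y)]
  · rw [Function.update_of_ne hd, hole, Function.update_of_ne hd]
    unfold sw
    by_cases h : d ∈ Y
    · rw [if_pos h, if_pos (Finset.mem_insert_of_mem h)]
    · rw [if_neg h, if_neg (by rw [Finset.mem_insert]; tauto)]

lemma sw_sw {s : ι → Bool} {Y : Finset ι} {c : ι} (hc : c ∉ Y) :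
    sw (sw s Y) {c} = sw s (insert c Y) := by
  funext d
  unfold sw
  by_cases hd : d = c
  · subst hd
    rw [if_pos (Finset.mem_singleton_self d), if_neg hc, if_pos (Finset.mem_insert_self d Y)]
  · rw [if_neg (by rw [Finset.mem_singleton]; exact hd)]
    by_cases h : d ∈ Y
    · rw [if_pos h, if_pos (Finset.mem_insert_of_mem h)]
    · rw [if_neg h, if_neg (by rw [Finset.mem_insert]; tauto)]

lemma full_ne (hP : S.IsPlanar χ) {s : ι → Bool} {Y : Finset ι} {c : ι} (hc : c ∉ Y) :
    S.full (sw s (insert c Y)) ≠ S.full (sw s Y) := by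
  rw [← sw_sw hc]
  exact hP.switch _ _

lemma off_le_hole {s : ι → Bool} {Y : Finset ι} {c : ι} :
    ∀ d b, off s (insert c Y) d = some b → hole s Y c d = some b := by
  intro d b h
  obtain ⟨h1, rfl⟩ := of_off h
  rw [Finset.mem_insert, not_or] at h1
  rw [hole, Function.update_of_ne h1.1]
  unfold sw
  rw [if_neg h1.2]

theorem full_sw_insert_bridge (hP : S.IsPlanar χ) {s : ι → Bool} {Y : Finset ι} {c : ι}
    (hc : c ∉ Y) (hb : S.Bridge s Y c) : S.full (sw s (insert c Y)) + 1 = S.full (sw s Y) := by
  have h1 := S.cl_update (hole s Y c) c (s c) (hole_self s Y c)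
  have h2 := S.cl_update (hole s Y c) c (!s c) (hole_self s Y c)
  rw [← full_sw hc] at h1
  rw [← full_sw_insert hc] at h2
  have h3 := full_ne hP (s := s) hc
  have h4 := S.mk_mono (off_le_hole (s := s) (Y := Y) (c := c)) hb
  rcases h1 with ⟨h1, -⟩ | ⟨h1, h5⟩
  · rcases h2 with ⟨h2, -⟩ | ⟨h2, -⟩ <;> omega
  · exact absurd h4 h5

theorem full_sw_insert_le {s : ι → Bool} {Y : Finset ι} {c : ι} (hc : c ∉ Y) :
    S.full (sw s (insert c Y)) ≤ S.full (sw s Y) + 1 := by
  have h1 := S.cl_update (hole s Y c) c (s c) (hole_self s Y c)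
  have h2 := S.cl_update (hole s Y c) c (!s c) (hole_self s Y c)
  rw [← full_sw hc] at h1
  rw [← full_sw_insert hc] at h2
  omega

theorem full_sw_le {s : ι → Bool} {Y : Finset ι} {c : ι} (hc : c ∉ Y) :
    S.full (sw s Y) ≤ S.full (sw s (insert c Y)) + 1 := by
  have h1 := S.cl_update (hole s Y c) c (s c) (hole_self s Y c)
  have h2 := S.cl_update (hole s Y c) c (!s c) (hole_self s Y c)
  rw [← full_sw hc] at h1
  rw [← full_sw_insert hc] at h2
  omega

lemma sw_empty (s : ι → Bool) : sw s ∅ = s := by
  funext c
  unfold sw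
  rw [if_neg (Finset.notMem_empty c)]

/-- Euler's inequality -/
theorem loop_bound (hP : S.IsPlanar χ) (s : ι → Bool) (Y : Finset ι) :
    S.full (sw s Y) + Y.card + S.full s ≤ 2 * S.cl (off s Y) := by
  classical
  induction Y using Finset.induction_on with
  | empty => rw [sw_empty, cl_off_empty, Finset.card_empty]; omega
  | insert c Y hc ih =>
    rw [Finset.card_insert_of_notMem hc, S.cl_off_insert hc]
    by_cases hb : S.Bridge s Y c
    · rw [if_pos hb]
      have := full_sw_insert_bridge hP hc hb
      omega
    · rw [if_neg hb]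
      have := full_sw_insert_le (S := S) (s := s) hc
      omega

theorem loop_parity (hP : S.IsPlanar χ) (s : ι → Bool) (Y : Finset ι) :
    (S.full (sw s Y) + Y.card) % 2 = S.full s % 2 := by
  classical
  induction Y using Finset.induction_on with
  | empty => rw [sw_empty, Finset.card_empty, add_zero]
  | insert c Y hc ih =>
    rw [Finset.card_insert_of_notMem hc]
    have h1 := full_sw_insert_le (S := S) (s := s) hc
    have h2 := full_sw_le (S := S) (s := s) hc
    have h3 := full_ne hP (s := s) hc
    omega

/-- Euler's formula for crossings whose merged regions have the same colour -/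
theorem loop_exact (hP : S.IsPlanar χ) (s : ι → Bool) (Y : Finset ι)
    (hcol : ∀ c ∈ Y, ∀ d ∈ Y, χ (S.p c (s c)).1 = χ (S.p d (s d)).1) :
    S.full (sw s Y) + Y.card + S.full s = 2 * S.cl (off s Y) := by
  classical
  induction Y using Finset.induction_on with
  | empty => rw [sw_empty, cl_off_empty, Finset.card_empty]; omega
  | insert c Y hc ih =>
    have ih' := ih (fun a ha b hb => hcol a (Finset.mem_insert_of_mem ha) b
      (Finset.mem_insert_of_mem hb))
    rw [Finset.card_insert_of_notMem hc, S.cl_off_insert hc]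
    by_cases hb : S.Bridge s Y c
    · rw [if_pos hb]
      have := full_sw_insert_bridge hP hc hb
      omega
    · rw [if_neg hb]
      have h1 := S.cl_update (hole s Y c) c (s c) (hole_self s Y c)
      have h2 := S.cl_update (hole s Y c) c (!s c) (hole_self s Y c)
      rw [← full_sw hc] at h1
      rw [← full_sw_insert hc] at h2
      have h3 := full_ne hP (s := s) hc
      have h4 : Quot.mk (S.Rel (hole s Y c)) (S.p c (s c)).1 ≠
          Quot.mk (S.Rel (hole s Y c)) (S.p c (s c)).2 := by
        intro h5
        apply hb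
        set a := χ (S.p c (s c)).1 with ha
        have h6 := S.lift_eq (u := hole s Y c) (fun r => χ r = a ∧
          Quot.mk (S.Rel (off s (insert c Y))) (S.p c (s c)).1 =
          Quot.mk (S.Rel (off s (insert c Y))) r) (by
            intro d b hd
            apply propext
            have hdc : d ≠ c := by
              rintro rfl
              rw [hole_self] at hd
              exact absurd hd (by simp)
            rw [hole, Function.update_of_ne hdc, Option.some.injEq] at hd
            unfold sw at hd
            by_cases hdY : d ∈ Y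
            · rw [if_pos hdY] at hd
              subst hd
              have h7 : χ (S.p d (!s d)).1 ≠ a := by
                rw [ha, hcol c (Finset.mem_insert_self c Y) d (Finset.mem_insert_of_mem hdY)]
                have h8 := hP.col_ne d
                cases s d
                · exact h8
                · exact h8.symm
              have h8 : χ (S.p d (!s d)).2 ≠ a := by
                rw [← hP.col]
                exact h7
              constructor
              · intro h; exact absurd h.1 h7
              · intro h; exact absurd h.1 h8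
            · rw [if_neg hdY] at hd
              subst hd
              have h7 : d ∉ insert c Y := by rw [Finset.mem_insert]; tauto
              rw [hP.col d (s d), S.mk_eq (off_eq (s := s) h7)]) h5
        have h7 := (iff_of_eq h6).mp ⟨rfl, rfl⟩
        exact h7.2
      rcases h1 with ⟨-, h5⟩ | ⟨h1, -⟩
      · exact absurd h5 h4
      · omega

end Sys

end Pool.Agent.Helper16.Jones
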