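import Pool.Agent.Helper16.Jones.Sys

set_option autoImplicit false

/-! # Free and bridge negative crossings (definitions of module J3) -/

namespace Pool.Agent.Helper16.Jones

open LaurentPolynomial Pool.Agent.Helper16.Knotoid

variable {ι R : Type} [Fintype ι] [DecidableEq ι] [Fintype R] [DecidableEq R]

namespace Sys

variable (S : Sys ι R)

open Classical in
/-- the negative crossings on a cycle of `A ∪ Neg s` -/
noncomputable def Free (S : Sys ι R) (s : ι → Bool) (A : Finset ι) : Finset ι :=
  (Neg s).filter fun c => ¬ S.Bridge s (A ∪ Neg s) c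

open Classical in
/-- the negative bridges of `A ∪ Neg s` -/
noncomputable def Br (S : Sys ι R) (s : ι → Bool) (A : Finset ι) : Finset ι :=
  (Neg s).filter fun c => S.Bridge s (A ∪ Neg s) c

/-- the top exponent of the term `(A, B)` -/
noncomputable def expo (S : Sys ι R) (s : ι → Bool) (A B : Finset ι) : ℤ :=
  (Fintype.card ι : ℤ) - 2 * (Neg s).card - 2 * A.card + 2 * B.card - 4 * (S.Br s A).card +
    2 * (S.full (sw s (A ∪ B)) : ℤ) - 4

end Sys

end Pool.Agent.Helper16.Jones
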