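import Pool.Agent.Helper16.Jones.Cells
import Pool.Agent.Helper16.Jones.Classes
import Pool.Agent.Helper16.Jones.ExpandDefs

set_option autoImplicit false

/-!
# The expansion of the bracket at a sparse state
-/

namespace Pool.Agent.Helper16.Jones

open LaurentPolynomial Pool.Agent.Helper16.Knotoid

variable {ι R : Type} [Fintype ι] [DecidableEq ι] [Fintype R] [DecidableEq R]

namespace Sys

variable (S : Sys ι R)

variable {S} {χ : R → Bool}

theorem free_subset (s : ι → Bool) (A : Finset ι) : S.Free s A ⊆ Neg s := by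
  classical
  exact Finset.filter_subset _ _

theorem br_subset (s : ι → Bool) (A : Finset ι) : S.Br s A ⊆ Neg s := by
  classical
  exact Finset.filter_subset _ _

theorem disj_pos_neg (s : ι → Bool) : Disjoint (Pos s) (Neg s) := by
  rw [Finset.disjoint_left]
  intro c hc hc'
  have h1 := (Finset.mem_filter.mp hc).2
  have h2 := (Finset.mem_filter.mp hc').2
  rw [h1] at h2
  exact absurd h2 (by decide)

theorem disj_free_br (s : ι → Bool) (A : Finset ι) : Disjoint (S.Free s A) (S.Br s A) := by
  classical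
  rw [Finset.disjoint_left]
  intro c hc hc'
  exact (Finset.mem_filter.mp hc).2 (Finset.mem_filter.mp hc').2

theorem free_union_br (s : ι → Bool) (A : Finset ι) : S.Free s A ∪ S.Br s A = Neg s := by
  classical
  ext c
  rw [Finset.mem_union]
  constructor
  · rintro (h | h)
    · exact free_subset s A h
    · exact br_subset s A h
  · intro h
    by_cases hb : S.Bridge s (A ∪ Neg s) c
    · exact Or.inr (Finset.mem_filter.mpr ⟨h, hb⟩)
    · exact Or.inl (Finset.mem_filter.mpr ⟨h, hb⟩)

theorem card_free_add_br (s : ι → Bool) (A : Finset ι) :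
    (S.Free s A).card + (S.Br s A).card = (Neg s).card := by
  rw [← free_union_br (S := S) s A, Finset.card_union_of_disjoint (disj_free_br s A)]

/-- switching bridges -/
theorem full_sw_union (hP : S.IsPlanar χ) {s : ι → Bool} {A B : Finset ι} (hA : A ⊆ Pos s)
    (hB : B ⊆ S.Free s A) (Z : Finset ι) (hZ : Z ⊆ S.Br s A) :
    S.full (sw s (A ∪ B ∪ Z)) + Z.card = S.full (sw s (A ∪ B)) := by
  classical
  induction Z using Finset.induction_on with
  | empty => simp
  | insert c Z hc ih =>
    have hcB : c ∈ S.Br s A := hZ (Finset.mem_insert_self c Z)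
    have hZ' : Z ⊆ S.Br s A := (Finset.subset_insert c Z).trans hZ
    have h1 : A ∪ B ∪ Z ⊆ A ∪ Neg s := by
      intro x hx
      rw [Finset.mem_union, Finset.mem_union] at hx
      rw [Finset.mem_union]
      rcases hx with (hx | hx) | hx
      · exact Or.inl hx
      · exact Or.inr (free_subset s A (hB hx))
      · exact Or.inr (br_subset s A (hZ' hx))
    have hbr : S.Bridge s (A ∪ B ∪ Z) c := S.bridge_mono h1 (Finset.mem_filter.mp hcB).2
    have hcn : c ∉ A ∪ B ∪ Z := by
      intro hx
      rw [Finset.mem_union, Finset.mem_union] at hx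
      rcases hx with (hx | hx) | hx
      · exact Finset.disjoint_left.mp (disj_pos_neg s) (hA hx) (br_subset s A hcB)
      · exact Finset.disjoint_left.mp (disj_free_br s A) (hB hx) hcB
      · exact hc hx
    have h2 := full_sw_insert_bridge hP hcn hbr
    have h3 : A ∪ B ∪ insert c Z = insert c (A ∪ B ∪ Z) := by
      ext x
      simp only [Finset.mem_union, Finset.mem_insert]
      tauto
    rw [h3, Finset.card_insert_of_notMem hc]
    have h4 := ih hZ'
    omega

/-- the exponents of `dd` in `br_expand` are not truncated -/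
theorem br_card_le (hP : S.IsPlanar χ) {s : ι → Bool} {A B : Finset ι} (hA : A ⊆ Pos s)
    (hB : B ⊆ S.Free s A) : 2 + (S.Br s A).card ≤ S.full (sw s (A ∪ B)) := by
  have h1 := full_sw_union hP hA hB (S.Br s A) (Finset.Subset.refl _)
  have h2 := hP.two_le (sw s (A ∪ B ∪ S.Br s A))
  omega

/-- the sign exponent -/
theorem sum_sign (s : ι → Bool) (A C : Finset ι) (hA : A ⊆ Pos s) (hC : C ⊆ Neg s) :
    (∑ c, if sw s (A ∪ C) c then (1 : ℤ) else -1) =
      (Fintype.card ι : ℤ) - 2 * (Neg s).card - 2 * A.card + 2 * C.card := by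
  have h1 : ∀ c, (if sw s (A ∪ C) c then (1 : ℤ) else -1) =
      1 - 2 * (if c ∈ Neg s then 1 else 0) - 2 * (if c ∈ A then 1 else 0) +
        2 * (if c ∈ C then 1 else 0) := by
    intro c
    by_cases hcN : c ∈ Neg s
    · have hs : s c = false := (Finset.mem_filter.mp hcN).2
      have hcA : c ∉ A := fun h => Finset.disjoint_left.mp (disj_pos_neg s) (hA h) hcN
      by_cases hcC : c ∈ C
      · simp [sw, hs, hcN, hcA, hcC]
      · simp [sw, hs, hcN, hcA, hcC]
    · have hs : s c = true := by
        by_contra h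
        apply hcN
        exact Finset.mem_filter.mpr ⟨Finset.mem_univ c, by simpa using h⟩
      have hcC : c ∉ C := fun h => hcN (hC h)
      by_cases hcA : c ∈ A
      · simp [sw, hs, hcN, hcA, hcC]
      · simp [sw, hs, hcN, hcA, hcC]
  rw [Finset.sum_congr rfl fun c _ => h1 c, Finset.sum_add_distrib, Finset.sum_sub_distrib,
    Finset.sum_sub_distrib, ← Finset.mul_sum, ← Finset.mul_sum, ← Finset.mul_sum]
  simp

/-- reindexing of the states -/
theorem sum_states {M : Type*} [AddCommMonoid M] (s : ι → Bool) (f : (ι → Bool) → M) :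
    ∑ s' : ι → Bool, f s' = ∑ A ∈ (Pos s).powerset, ∑ C ∈ (Neg s).powerset, f (sw s (A ∪ C)) := by
  rw [← Finset.sum_product']
  symm
  refine Finset.sum_bij' (fun p _ => sw s (p.1 ∪ p.2))
    (fun s' _ => ((Pos s).filter fun c => s' c = false, (Neg s).filter fun c => s' c = true))
    (fun _ _ => Finset.mem_univ _) ?_ ?_ ?_ (fun _ _ => rfl)
  · intro s' _
    rw [Finset.mem_product, Finset.mem_powerset, Finset.mem_powerset]
    exact ⟨Finset.filter_subset _ _, Finset.filter_subset _ _⟩
  · rintro ⟨A, C⟩ hp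
    rw [Finset.mem_product, Finset.mem_powerset, Finset.mem_powerset] at hp
    obtain ⟨hA, hC⟩ := hp
    simp only at hA hC
    have hA' : ∀ c ∈ A, s c = true := fun c hc => (Finset.mem_filter.mp (hA hc)).2
    have hC' : ∀ c ∈ C, s c = false := fun c hc => (Finset.mem_filter.mp (hC hc)).2
    simp only [Prod.mk.injEq]
    constructor
    · ext c
      simp only [Pos, Finset.mem_filter, Finset.mem_univ, true_and, sw, Finset.mem_union]
      by_cases h1 : c ∈ A
      · simp [h1, hA' c h1]
      · by_cases h2 : c ∈ C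
        · simp [h1, h2, hC' c h2]
        · simp [h1, h2]
    · ext c
      simp only [Neg, Finset.mem_filter, Finset.mem_univ, true_and, sw, Finset.mem_union]
      by_cases h1 : c ∈ A
      · have : c ∉ C := fun h => by
          have h3 := hA' c h1
          rw [hC' c h] at h3
          exact absurd h3 (by decide)
        simp [h1, hA' c h1, this]
      · by_cases h2 : c ∈ C
        · simp [h1, h2, hC' c h2]
        · simp [h1, h2]
  · intro s' _
    funext c
    simp only [sw, Pos, Neg, Finset.mem_union, Finset.mem_filter, Finset.mem_univ, true_and]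
    rcases Bool.eq_false_or_eq_true (s c) with h1 | h1 <;>
      rcases Bool.eq_false_or_eq_true (s' c) with h2 | h2 <;> simp [h1, h2]

/-- splitting the subsets of `Neg s` -/
theorem sum_neg {M : Type*} [AddCommMonoid M] (s : ι → Bool) (A : Finset ι)
    (f : Finset ι → M) :
    ∑ C ∈ (Neg s).powerset, f C =
      ∑ B ∈ (S.Free s A).powerset, ∑ Z ∈ (S.Br s A).powerset, f (B ∪ Z) := by
  rw [← Finset.sum_product']
  symm
  refine Finset.sum_bij' (fun p _ => p.1 ∪ p.2)
    (fun C _ => (C ∩ S.Free s A, C ∩ S.Br s A)) ?_ ?_ ?_ ?_ (fun _ _ => rfl)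
  · rintro ⟨B, Z⟩ hp
    rw [Finset.mem_product, Finset.mem_powerset, Finset.mem_powerset] at hp
    rw [Finset.mem_powerset]
    exact Finset.union_subset (hp.1.trans (free_subset s A)) (hp.2.trans (br_subset s A))
  · intro C _
    rw [Finset.mem_product, Finset.mem_powerset, Finset.mem_powerset]
    exact ⟨Finset.inter_subset_right, Finset.inter_subset_right⟩
  · rintro ⟨B, Z⟩ hp
    rw [Finset.mem_product, Finset.mem_powerset, Finset.mem_powerset] at hp
    obtain ⟨hB, hZ⟩ := hp
    simp only at hB hZ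
    have hd := Finset.disjoint_left.mp (disj_free_br (S := S) s A)
    simp only [Prod.mk.injEq]
    constructor
    · ext c
      rw [Finset.mem_inter, Finset.mem_union]
      constructor
      · rintro ⟨h | h, h'⟩
        · exact h
        · exact absurd (hZ h) (hd h')
      · intro h
        exact ⟨Or.inl h, hB h⟩
    · ext c
      rw [Finset.mem_inter, Finset.mem_union]
      constructor
      · rintro ⟨h | h, h'⟩
        · exact absurd h' (hd (hB h))
        · exact h
      · intro h
        exact ⟨Or.inr h, hZ h⟩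
  · intro C hC
    rw [Finset.mem_powerset] at hC
    show C ∩ S.Free s A ∪ C ∩ S.Br s A = C
    rw [← Finset.inter_union_distrib_left, free_union_br, Finset.inter_eq_left.mpr hC]

theorem T_two_add_dd : (T 2 : LaurentPolynomial ℤ) + dd = -T (-2) := by
  rw [dd]; ring

theorem br_expand (hP : S.IsPlanar χ) (s : ι → Bool) :
    S.br = ∑ A ∈ (Pos s).powerset, ∑ B ∈ (S.Free s A).powerset,
      (-1) ^ (S.Br s A).card *
        T ((Fintype.card ι : ℤ) - 2 * (Neg s).card - 2 * A.card + 2 * B.card -
          2 * (S.Br s A).card) *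
        dd ^ (S.full (sw s (A ∪ B)) - 2 - (S.Br s A).card) := by
  rw [br, sum_states s]
  refine Finset.sum_congr rfl fun A hA => ?_
  rw [Finset.mem_powerset] at hA
  rw [sum_neg (S := S) s A]
  refine Finset.sum_congr rfl fun B hB => ?_
  rw [Finset.mem_powerset] at hB
  have hle := br_card_le hP hA hB
  obtain ⟨m, hm⟩ : ∃ m, S.full (sw s (A ∪ B)) = m + 2 + (S.Br s A).card :=
    ⟨S.full (sw s (A ∪ B)) - 2 - (S.Br s A).card, by omega⟩
  have hm' : S.full (sw s (A ∪ B)) - 2 - (S.Br s A).card = m := by omega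
  rw [hm']
  have hterm : ∀ Z ∈ (S.Br s A).powerset,
      T (∑ c, if sw s (A ∪ (B ∪ Z)) c then (1 : ℤ) else -1) *
        dd ^ (S.full (sw s (A ∪ (B ∪ Z))) - 2) =
      (T ((Fintype.card ι : ℤ) - 2 * (Neg s).card - 2 * A.card + 2 * B.card) * dd ^ m) *
        ((T 2 : LaurentPolynomial ℤ) ^ Z.card * dd ^ ((S.Br s A).card - Z.card)) := by
    intro Z hZ
    rw [Finset.mem_powerset] at hZ
    have hdisj : Disjoint B Z := Finset.disjoint_of_subset_left hB
      (Finset.disjoint_of_subset_right hZ (disj_free_br s A))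
    rw [sum_sign s A (B ∪ Z) hA (Finset.union_subset (hB.trans (free_subset s A))
      (hZ.trans (br_subset s A))), Finset.card_union_of_disjoint hdisj]
    have h1 := full_sw_union hP hA hB Z hZ
    rw [Finset.union_assoc] at h1
    have h2 := Finset.card_le_card hZ
    have h3 : S.full (sw s (A ∪ (B ∪ Z))) - 2 = m + ((S.Br s A).card - Z.card) := by omega
    rw [h3, pow_add, T_pow, Nat.cast_add]
    have h4 : (Fintype.card ι : ℤ) - 2 * (Neg s).card - 2 * A.card + 2 * (B.card + Z.card) =
        ((Fintype.card ι : ℤ) - 2 * (Neg s).card - 2 * A.card + 2 * B.card) + Z.card * 2 := by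
      ring
    rw [h4, T_add]
    ring
  rw [Finset.sum_congr rfl hterm, ← Finset.mul_sum, Finset.sum_pow_mul_eq_add_pow,
    T_two_add_dd, neg_pow, T_pow]
  have h5 : (Fintype.card ι : ℤ) - 2 * (Neg s).card - 2 * A.card + 2 * B.card -
      2 * (S.Br s A).card = ((Fintype.card ι : ℤ) - 2 * (Neg s).card - 2 * A.card +
      2 * B.card) + ((S.Br s A).card : ℤ) * (-2) := by ring
  rw [h5, T_add (((Fintype.card ι : ℤ) - 2 * (Neg s).card - 2 * A.card + 2 * B.card))
    (((S.Br s A).card : ℤ) * (-2))]
  generalize (T ((Fintype.card ι : ℤ) - 2 * (Neg s).card - 2 * A.card + 2 * B.card) :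
    LaurentPolynomial ℤ) = X1
  generalize (T (((S.Br s A).card : ℤ) * (-2)) : LaurentPolynomial ℤ) = X2
  ring

theorem free_not_bridge {s : ι → Bool} {A : Finset ι} {c : ι} (hc : c ∈ S.Free s A) :
    ¬ S.Bridge s (A ∪ S.Free s A) c := by
  classical
  have hcN : c ∈ Neg s := free_subset s A hc
  have h1 : ¬ S.Bridge s (A ∪ Neg s) c := (Finset.mem_filter.mp hc).2
  rw [S.bridge_iff_cut] at h1 ⊢
  push Not at h1 ⊢
  obtain ⟨W, hW, hcW⟩ := h1
  refine ⟨W, ?_, hcW⟩
  have hW' : S.cut s W ⊆ A ∪ Neg s := by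
    intro x hx
    rcases Finset.mem_insert.mp (hW hx) with rfl | h
    · exact Finset.mem_union_right _ hcN
    · exact h
  intro x hx
  apply Finset.mem_insert_of_mem
  rcases Finset.mem_union.mp (hW' hx) with h | h
  · exact Finset.mem_union_left _ h
  · apply Finset.mem_union_right
    refine Finset.mem_filter.mpr ⟨h, ?_⟩
    rw [S.bridge_iff_cut]
    push Not
    exact ⟨W, hW'.trans (Finset.subset_insert _ _), hx⟩

theorem inter_neg {s : ι → Bool} {A : Finset ι} (hA : A ⊆ Pos s) :
    (A ∪ S.Free s A) ∩ Neg s = S.Free s A := by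
  ext x
  rw [Finset.mem_inter, Finset.mem_union]
  constructor
  · rintro ⟨h | h, h'⟩
    · exact absurd h' (Finset.disjoint_left.mp (disj_pos_neg s) (hA h))
    · exact h
  · intro h
    exact ⟨Or.inr h, free_subset s A h⟩

theorem inter_pos {s : ι → Bool} {A : Finset ι} (hA : A ⊆ Pos s) :
    (A ∪ S.Free s A) ∩ Pos s = A := by
  ext x
  rw [Finset.mem_inter, Finset.mem_union]
  constructor
  · rintro ⟨h | h, h'⟩
    · exact h
    · exact absurd (free_subset s A h) (Finset.disjoint_left.mp (disj_pos_neg s) h')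
  · intro h
    exact ⟨Or.inl h, hA h⟩

theorem cl_off_mono {s : ι → Bool} {Y Y' : Finset ι} (h : Y ⊆ Y') :
    S.cl (off s Y) ≤ S.cl (off s Y') := by
  apply S.cl_mono
  intro c b hc
  unfold off at hc ⊢
  by_cases h1 : c ∈ Y'
  · rw [if_pos h1] at hc
    exact absurd hc (by simp)
  · rw [if_neg h1] at hc
    rw [if_neg (fun h2 => h1 (h h2))]
    exact hc

theorem card_AB {s : ι → Bool} {A B : Finset ι} (hA : A ⊆ Pos s) (hB : B ⊆ S.Free s A) :
    (A ∪ B).card = A.card + B.card := by
  apply Finset.card_union_of_disjoint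
  exact Finset.disjoint_of_subset_left hA
    (Finset.disjoint_of_subset_right (hB.trans (free_subset s A)) (disj_pos_neg s))

theorem expo_le (hP : S.IsPlanar χ) {s : ι → Bool} (hs : S.Sparse s) {A B : Finset ι}
    (hA : A ⊆ Pos s) (hB : B ⊆ S.Free s A) (hne : A.Nonempty) :
    S.expo s A B ≤ S.topDeg s - 4 := by
  classical
  have h1 := loop_bound hP s (A ∪ B)
  rw [card_AB hA hB] at h1
  have h2 : S.cl (off s (A ∪ B)) ≤ S.cl (off s (A ∪ S.Free s A)) :=
    cl_off_mono (Finset.union_subset_union (Finset.Subset.refl A) hB)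
  have h3 := card_free_add_br (S := S) s A
  have h4 : (S.Free s A).card + S.cl (off s (A ∪ S.Free s A)) + 1 ≤ A.card + S.full s := by
    by_cases hbr : ∃ c ∈ A ∪ S.Free s A, ¬ S.Bridge s (A ∪ S.Free s A) c
    · have h5 := S.cells_bound hs (A ∪ S.Free s A) (by
        intro c hc
        rw [inter_neg hA] at hc
        exact free_not_bridge hc) hbr
      rw [inter_neg hA, inter_pos hA] at h5
      have h6 : (A.filter fun c => ¬ S.Bridge s (A ∪ S.Free s A) c).card ≤ A.card :=
        Finset.card_filter_le _ _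
      omega
    · push Not at hbr
      have h5 : S.Free s A = ∅ := by
        rw [Finset.eq_empty_iff_forall_notMem]
        intro c hc
        exact free_not_bridge hc (hbr c (Finset.mem_union_right _ hc))
      have h6 := S.cl_off_of_bridges (A ∪ S.Free s A) hbr
      have h7 : 1 ≤ A.card := hne.card_pos
      rw [h6, h5, Finset.card_empty]
      omega
  unfold expo topDeg
  omega

theorem free_empty (hP : S.IsPlanar χ) {s : ι → Bool} (hs : S.Sparse s) :
    S.Free s ∅ = ∅ ∧ S.expo s ∅ ∅ = S.topDeg s := by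
  classical
  have h0 : S.Free s ∅ = ∅ := by
    rw [Finset.eq_empty_iff_forall_notMem]
    intro c hc
    have h1 : ¬ S.Bridge s (∅ ∪ Neg s) c := (Finset.mem_filter.mp hc).2
    rw [S.bridge_iff_cut] at h1
    push Not at h1
    obtain ⟨W, hW, hcW⟩ := h1
    have hcN : c ∈ Neg s := free_subset s ∅ hc
    have hW' : S.cut s W ⊆ Neg s := by
      intro x hx
      rcases Finset.mem_insert.mp (hW hx) with rfl | h
      · exact hcN
      · rwa [Finset.empty_union] at h
    have h2 := hs W ⟨c, hcW⟩
    have h3 : S.cut s W ∩ Pos s = ∅ := by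
      rw [Finset.eq_empty_iff_forall_notMem]
      intro x hx
      rw [Finset.mem_inter] at hx
      exact Finset.disjoint_left.mp (disj_pos_neg s) hx.2 (hW' hx.1)
    rw [h3, Finset.card_empty] at h2
    omega
  refine ⟨h0, ?_⟩
  have h3 := card_free_add_br (S := S) s ∅
  rw [h0, Finset.card_empty] at h3
  have h4 : sw s (∅ ∪ ∅) = s := by
    funext c
    simp [sw]
  unfold expo topDeg
  rw [h4]
  simp only [Finset.card_empty]
  omega

/-- the coefficients of one term -/
theorem term_coeff (hP : S.IsPlanar χ) {s : ι → Bool} {A B : Finset ι} (hA : A ⊆ Pos s)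
    (hB : B ⊆ S.Free s A) (j : ℤ) :
    ((-1) ^ (S.Br s A).card *
        T ((Fintype.card ι : ℤ) - 2 * (Neg s).card - 2 * A.card + 2 * B.card -
          2 * (S.Br s A).card) *
        dd ^ (S.full (sw s (A ∪ B)) - 2 - (S.Br s A).card) : LaurentPolynomial ℤ).coeff j =
      (-1) ^ (S.Br s A).card * (dd ^ (S.full (sw s (A ∪ B)) - 2 - (S.Br s A).card)).coeff
        (2 * ((S.full (sw s (A ∪ B)) - 2 - (S.Br s A).card : ℕ) : ℤ) + (j - S.expo s A B)) := by
  have hle := br_card_le hP hA hB
  have h1 : ∀ (k : ℕ) (p : LaurentPolynomial ℤ), ((-1) ^ k * p).coeff j = (-1) ^ k * p.coeff j := by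
    intro k p
    rcases Nat.even_or_odd k with hk | hk
    · rw [hk.neg_one_pow, hk.neg_one_pow, one_mul, one_mul]
    · rw [hk.neg_one_pow, hk.neg_one_pow, neg_one_mul, neg_one_mul]
      rfl
  rw [mul_assoc, h1, coeff_T_mul]
  congr 2
  unfold expo
  omega

theorem expo_cases (hP : S.IsPlanar χ) {s : ι → Bool} (hs : S.Sparse s) {A B : Finset ι}
    (hA : A ⊆ Pos s) (hB : B ⊆ S.Free s A) :
    (A = ∅ ∧ B = ∅ ∧ S.expo s A B = S.topDeg s) ∨ (A.Nonempty ∧ S.expo s A B ≤ S.topDeg s - 4) := by
  rcases A.eq_empty_or_nonempty with rfl | hne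
  · obtain ⟨h1, h2⟩ := free_empty hP hs
    rw [h1, Finset.subset_empty] at hB
    subst hB
    exact Or.inl ⟨rfl, rfl, h2⟩
  · exact Or.inr ⟨hne, expo_le hP hs hA hB hne⟩

theorem br_coeff (hP : S.IsPlanar χ) (s : ι → Bool) (j : ℤ) :
    S.br.coeff j = ∑ A ∈ (Pos s).powerset, ∑ B ∈ (S.Free s A).powerset,
      (-1) ^ (S.Br s A).card * (dd ^ (S.full (sw s (A ∪ B)) - 2 - (S.Br s A).card)).coeff
        (2 * ((S.full (sw s (A ∪ B)) - 2 - (S.Br s A).card : ℕ) : ℤ) + (j - S.expo s A B)) := by
  rw [br_expand hP s, coeff_sum_apply]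
  refine Finset.sum_congr rfl fun A hA => ?_
  rw [coeff_sum_apply]
  refine Finset.sum_congr rfl fun B hB => ?_
  exact term_coeff hP (Finset.mem_powerset.mp hA) (Finset.mem_powerset.mp hB) j

theorem br_coeff_gt (hP : S.IsPlanar χ) {s : ι → Bool} (hs : S.Sparse s) (j : ℤ)
    (hj : S.topDeg s < j) : S.br.coeff j = 0 := by
  rw [br_coeff hP s]
  refine Finset.sum_eq_zero fun A hA => Finset.sum_eq_zero fun B hB => ?_
  rw [coeff_dd_pow_of_lt, mul_zero]
  have h1 := expo_cases hP hs (Finset.mem_powerset.mp hA) (Finset.mem_powerset.mp hB)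
  rcases h1 with ⟨-, -, h⟩ | ⟨-, h⟩ <;> omega

theorem full_pow {s : ι → Bool} (hP : S.IsPlanar χ) {A B : Finset ι} (hA : A ⊆ Pos s)
    (hB : B ⊆ S.Free s A) :
    (-1 : ℤ) ^ (S.Br s A).card * (-1) ^ (S.full (sw s (A ∪ B)) - 2 - (S.Br s A).card) =
      (-1) ^ S.full s * (-1) ^ (A.card + B.card) := by
  have hle := br_card_le hP hA hB
  have hpar := loop_parity hP s (A ∪ B)
  rw [card_AB hA hB] at hpar
  rw [← pow_add, ← pow_add]
  have h1 : (S.Br s A).card + (S.full (sw s (A ∪ B)) - 2 - (S.Br s A).card) + 2 =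
      S.full (sw s (A ∪ B)) := by omega
  have h2 : (-1 : ℤ) ^ ((S.Br s A).card + (S.full (sw s (A ∪ B)) - 2 - (S.Br s A).card)) =
      (-1) ^ S.full (sw s (A ∪ B)) := by
    rw [← h1, pow_add _ _ 2]
    norm_num
  rw [h2]
  apply neg_one_pow_congr
  rw [Nat.even_iff, Nat.even_iff]
  omega

theorem br_coeff_top (hP : S.IsPlanar χ) {s : ι → Bool} (hs : S.Sparse s) :
    S.br.coeff (S.topDeg s) = (-1) ^ S.full s := by
  obtain ⟨h0, h1⟩ := free_empty hP hs
  rw [br_coeff hP s, Finset.sum_eq_single_of_mem ∅ (Finset.empty_mem_powerset _), h0,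
    Finset.powerset_empty, Finset.sum_singleton, h1, sub_self, add_zero, coeff_dd_pow_top,
    full_pow hP (Finset.empty_subset _) (Finset.empty_subset _)]
  · simp
  · intro A hA hne
    refine Finset.sum_eq_zero fun B hB => ?_
    rw [coeff_dd_pow_of_lt, mul_zero]
    rcases expo_cases hP hs (Finset.mem_powerset.mp hA) (Finset.mem_powerset.mp hB) with
      ⟨h, -, -⟩ | ⟨-, h⟩
    · exact absurd h hne
    · omega

theorem br_coeff_second (hP : S.IsPlanar χ) {s : ι → Bool} (hs : S.Sparse s) :
    S.br.coeff (S.topDeg s - 4) = (-1) ^ S.full s *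
      (((S.full s : ℤ) - 2 - (Neg s).card) +
        ∑ A ∈ (Pos s).powerset, ∑ B ∈ (S.Free s A).powerset,
          if S.expo s A B = S.topDeg s - 4 then (-1) ^ (A.card + B.card) else 0) := by
  obtain ⟨h0, h1⟩ := free_empty hP hs
  have hmem : ∅ ∈ (Pos s).powerset := Finset.empty_mem_powerset _
  have h3 := card_free_add_br (S := S) s ∅
  rw [h0, Finset.card_empty, zero_add] at h3
  have h4 : sw s (∅ ∪ ∅) = s := by
    funext c
    simp [sw]
  rw [br_coeff hP s, ← Finset.add_sum_erase _ _ hmem, ← Finset.add_sum_erase _ _ hmem, h0,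
    Finset.powerset_empty, Finset.sum_singleton, Finset.sum_singleton, h1]
  rw [if_neg (by omega), zero_add, mul_add]
  congr 1
  · have h5 : S.topDeg s - 4 - S.topDeg s = -4 := by ring
    have h6 := full_pow hP (Finset.empty_subset (Pos s)) (Finset.empty_subset (S.Free s ∅))
    have hle := br_card_le hP (Finset.empty_subset (Pos s)) (Finset.empty_subset (S.Free s ∅))
    rw [h5, ← sub_eq_add_neg, coeff_dd_pow_four, ← mul_assoc, h6]
    rw [h4] at hle ⊢
    rw [h3] at hle ⊢
    have h7 : ((S.full s - 2 - (Neg s).card : ℕ) : ℤ) = (S.full s : ℤ) - 2 - (Neg s).card := by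
      omega
    rw [h7]
    simp
  · rw [Finset.mul_sum]
    refine Finset.sum_congr rfl fun A hA => ?_
    rw [Finset.mul_sum]
    refine Finset.sum_congr rfl fun B hB => ?_
    rw [Finset.mem_erase] at hA
    have hA' := Finset.mem_powerset.mp hA.2
    have hB' := Finset.mem_powerset.mp hB
    have h8 : S.expo s A B ≤ S.topDeg s - 4 := by
      rcases expo_cases hP hs hA' hB' with ⟨h, -, -⟩ | ⟨-, h⟩
      · exact absurd h hA.1
      · exact h
    by_cases h9 : S.expo s A B = S.topDeg s - 4
    · rw [if_pos h9, h9, sub_self, add_zero, coeff_dd_pow_top, full_pow hP hA' hB']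
    · rw [if_neg h9, coeff_dd_pow_of_lt, mul_zero, mul_zero]
      have : S.expo s A B < S.topDeg s - 4 := lt_of_le_of_ne h8 h9
      omega

end Sys

end Pool.Agent.Helper16.Jones
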