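import Pool.Agent.Helper16.Jones.Sys

set_option autoImplicit false

/-! # Parallel crossings and 4-cycles of a state (definitions of module J4) -/

namespace Pool.Agent.Helper16.Jones

open LaurentPolynomial Pool.Agent.Helper16.Knotoid

variable {ι R : Type} [Fintype ι] [DecidableEq ι] [Fintype R] [DecidableEq R]

namespace Sys

variable (S : Sys ι R)

/-- parallel crossings -/
def Par (S : Sys ι R) (s : ι → Bool) (e f : ι) : Prop := e = f ∨ ∃ W, S.cut s W = {e, f}

open Classical in
/-- the parallel class of a positive crossing -/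
noncomputable def key (S : Sys ι R) (s : ι → Bool) (e : ι) : Finset ι :=
  (Pos s).filter fun f => S.Par s e f

open Classical in
/-- the 4-cycles through the negative crossing `c`, as triples of parallel classes -/
noncomputable def quads (S : Sys ι R) (s : ι → Bool) (c : ι) : Finset (Finset (Finset ι)) :=
  ((Pos s).image (S.key s)).powerset.filter fun 𝒯 =>
    𝒯.card = 3 ∧ ∃ e₁ ∈ Pos s, ∃ e₂ ∈ Pos s, ∃ e₃ ∈ Pos s,
      𝒯 = {S.key s e₁, S.key s e₂, S.key s e₃} ∧ ∃ W, S.cut s W = {c, e₁, e₂, e₃}

end Sys

end Pool.Agent.Helper16.Jones
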