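import Pool.Agent.Helper16.Jones.Classes
import Pool.Agent.Helper16.Jones.Cells
import Pool.Agent.Helper16.Jones.Expand
import Pool.Agent.Helper16.Jones.PhiDefs

set_option autoImplicit false

/-!
# The terms of second highest degree at a strictly sparse state
-/

namespace Pool.Agent.Helper16.Jones

open LaurentPolynomial Pool.Agent.Helper16.Knotoid

variable {ι R : Type} [Fintype ι] [DecidableEq ι] [Fintype R] [DecidableEq R]

namespace Sys

variable (S : Sys ι R)

/-- the alternating sum over the sets with given set of values -/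
theorem sum_image_eq {α β : Type} [DecidableEq α] [DecidableEq β] (P : Finset α) (f : α → β)
    (K : Finset β) (hK : K ⊆ P.image f) :
    ∑ A ∈ P.powerset, (if A.image f = K then (-1 : ℤ) ^ A.card else 0) = (-1) ^ K.card := by
  classical
  induction K using Finset.strongInduction with
  | H K ih =>
    -- the sum over the sets with values in `K`
    have h1 : ∑ A ∈ P.powerset, (if A.image f ⊆ K then (-1 : ℤ) ^ A.card else 0) =
        if K = ∅ then 1 else 0 := by
      rw [← Finset.sum_filter]
      have h2 : P.powerset.filter (fun A => A.image f ⊆ K) =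
          (P.filter fun x => f x ∈ K).powerset := by
        ext A
        simp only [Finset.mem_filter, Finset.mem_powerset, Finset.subset_iff, Finset.mem_image]
        constructor
        · rintro ⟨h, h'⟩ x hx
          exact ⟨h hx, h' ⟨x, hx, rfl⟩⟩
        · intro h
          refine ⟨fun x hx => (h hx).1, ?_⟩
          rintro _ ⟨x, hx, rfl⟩
          exact (h hx).2
      rw [h2, Finset.sum_powerset_neg_one_pow_card]
      refine if_congr ?_ rfl rfl
      constructor
      · intro h
        rw [Finset.eq_empty_iff_forall_notMem]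
        intro y hy
        obtain ⟨x, hx, rfl⟩ := Finset.mem_image.1 (hK hy)
        have : x ∈ P.filter fun x => f x ∈ K := Finset.mem_filter.2 ⟨hx, hy⟩
        rw [h] at this
        simp at this
      · intro h
        subst h
        simp
    have h3 : ∑ A ∈ P.powerset, (if A.image f ⊆ K then (-1 : ℤ) ^ A.card else 0) =
        ∑ L ∈ K.powerset, ∑ A ∈ P.powerset, (if A.image f = L then (-1 : ℤ) ^ A.card else 0) := by
      rw [Finset.sum_comm]
      refine Finset.sum_congr rfl fun A _ => ?_
      rw [Finset.sum_ite_eq]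
      simp only [Finset.mem_powerset]
    rw [h3] at h1
    have h4 : K.powerset = insert K K.ssubsets := by
      ext L
      simp only [Finset.mem_powerset, Finset.mem_insert, Finset.mem_ssubsets]
      exact ⟨fun h => (eq_or_ssubset_of_subset h).imp id id, fun h => h.elim (fun e => e ▸ subset_rfl)
        fun h => h.1⟩
    have h5 : ∑ L ∈ K.ssubsets, ∑ A ∈ P.powerset,
        (if A.image f = L then (-1 : ℤ) ^ A.card else 0) = ∑ L ∈ K.ssubsets, (-1 : ℤ) ^ L.card :=
      Finset.sum_congr rfl fun L hL => by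
        have hL' := Finset.mem_ssubsets.1 hL
        exact ih L hL' (hL'.1.trans hK)
    have h6 : K ∉ K.ssubsets := fun h => (Finset.mem_ssubsets.1 h).2 subset_rfl
    rw [h4, Finset.sum_insert h6, h5] at h1
    have h7 := Finset.sum_powerset_neg_one_pow_card (x := K)
    rw [h4, Finset.sum_insert h6] at h7
    linarith

variable {S} {χ : R → Bool}

/-- the cuts of a state -/
def PhCut (S : Sys ι R) (s : ι → Bool) (C : Finset ι) : Prop := ∃ W, S.cut s W = C

theorem PhCut.symmDiff {s : ι → Bool} {C D : Finset ι} (hC : S.PhCut s C) (hD : S.PhCut s D) :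
    S.PhCut s (symmDiff C D) := by
  obtain ⟨W, rfl⟩ := hC
  obtain ⟨W', rfl⟩ := hD
  exact ⟨_, S.cut_symmDiff s W W'⟩

theorem Sparse.ph_le {s : ι → Bool} (hs : S.Sparse s) {C : Finset ι} (hC : S.PhCut s C)
    (hne : C.Nonempty) : (C ∩ Neg s).card + 2 ≤ (C ∩ Pos s).card := by
  obtain ⟨W, rfl⟩ := hC
  exact hs W hne

theorem Strict.ph_le {s : ι → Bool} (hs : S.Strict s) {C : Finset ι} (hC : S.PhCut s C)
    (h2 : 2 ≤ (C ∩ Neg s).card) : (C ∩ Neg s).card + 3 ≤ (C ∩ Pos s).card := by
  obtain ⟨W, rfl⟩ := hC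
  exact hs W h2

theorem ph_mem_Pos {s : ι → Bool} {c : ι} : c ∈ Pos s ↔ s c = true := by simp [Pos]

theorem ph_mem_Neg {s : ι → Bool} {c : ι} : c ∈ Neg s ↔ s c = false := by simp [Neg]

theorem ph_Pos_not_Neg {s : ι → Bool} {c : ι} (h : c ∈ Pos s) : c ∉ Neg s := by
  rw [ph_mem_Pos] at h
  rw [ph_mem_Neg, h]
  simp

theorem ph_mem_Pos_or_Neg (s : ι → Bool) (c : ι) : c ∈ Pos s ∨ c ∈ Neg s := by
  rw [ph_mem_Pos, ph_mem_Neg]
  cases s c <;> simp

theorem ph_isCut_colour (hP : S.IsPlanar χ) {s : ι → Bool} {C : Finset ι} (h : S.PhCut s C)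
    (a : Bool) : S.PhCut s (C.filter fun c => χ (S.p c (s c)).1 = a) := by
  obtain ⟨W, rfl⟩ := h
  refine ⟨W.filter fun x => χ x = a, ?_⟩
  ext c
  have hcol := hP.col c (s c)
  simp only [cut, Finset.mem_filter, Finset.mem_univ, true_and]
  rw [← hcol]
  by_cases h : χ (S.p c (s c)).1 = a
  · simp [h]
  · simp [h]

theorem ph_not_bridge_iff {s : ι → Bool} {Y : Finset ι} {c : ι} :
    ¬ S.Bridge s Y c ↔ ∃ D, S.PhCut s D ∧ D ⊆ insert c Y ∧ c ∈ D := by
  rw [S.bridge_iff_cut]
  constructor
  · intro h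
    by_contra h'
    refine h fun W hW hc => h' ⟨_, ⟨W, rfl⟩, hW, hc⟩
  · rintro ⟨_, ⟨W, rfl⟩, hD, hc⟩ h
    exact h W hD hc

/-! ### Parallel crossings -/

theorem ph_par_refl (s : ι → Bool) (e : ι) : S.Par s e e := Or.inl rfl

theorem ph_par_symm {s : ι → Bool} {e f : ι} (h : S.Par s e f) : S.Par s f e := by
  rcases h with h | ⟨W, h⟩
  · exact Or.inl h.symm
  · exact Or.inr ⟨W, by rw [h, Finset.pair_comm]⟩

theorem ph_symmDiff_pair {e f g : ι} (h1 : e ≠ f) (h2 : f ≠ g) (h3 : e ≠ g) :
    symmDiff ({e, f} : Finset ι) {f, g} = {e, g} := by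
  ext x
  simp only [Finset.mem_symmDiff, Finset.mem_insert, Finset.mem_singleton]
  constructor
  · rintro (⟨h | h, h'⟩ | ⟨h | h, h'⟩) <;> simp_all
  · rintro (h | h) <;> subst h <;> simp_all [Ne.symm]

theorem ph_par_trans {s : ι → Bool} {e f g : ι} (h : S.Par s e f) (h' : S.Par s f g) :
    S.Par s e g := by
  by_cases h1 : e = f
  · exact h1 ▸ h'
  by_cases h2 : f = g
  · exact h2 ▸ h
  by_cases h3 : e = g
  · exact Or.inl h3
  have c1 : S.PhCut s {e, f} := h.resolve_left h1
  have c2 : S.PhCut s {f, g} := h'.resolve_left h2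
  have := c1.symmDiff c2
  rw [ph_symmDiff_pair h1 h2 h3] at this
  exact Or.inr this

theorem ph_mem_key {s : ι → Bool} {e f : ι} : f ∈ S.key s e ↔ f ∈ Pos s ∧ S.Par s e f := by
  classical
  simp [key]

theorem ph_key_eq_iff {s : ι → Bool} {e f : ι} (hf : f ∈ Pos s) :
    S.key s e = S.key s f ↔ S.Par s e f := by
  constructor
  · intro h
    have : f ∈ S.key s f := ph_mem_key.2 ⟨hf, ph_par_refl s f⟩
    rw [← h] at this
    exact (ph_mem_key.1 this).2
  · intro h
    ext x
    rw [ph_mem_key, ph_mem_key]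
    exact ⟨fun hx => ⟨hx.1, ph_par_trans (ph_par_symm h) hx.2⟩, fun hx => ⟨hx.1, ph_par_trans h hx.2⟩⟩

/-- parallel positive crossings have the same colour -/
theorem ph_par_colour (hP : S.IsPlanar χ) {s : ι → Bool} (hs : S.Sparse s) {e f : ι}
    (h : S.Par s e f) : χ (S.p e (s e)).1 = χ (S.p f (s f)).1 := by
  by_contra hne
  rcases h with h | h
  · exact hne (by rw [h])
  have hc := ph_isCut_colour hP h (χ (S.p e (s e)).1)
  have he : e ∈ ({e, f} : Finset ι).filter fun c => χ (S.p c (s c)).1 = χ (S.p e (s e)).1 := by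
    simp
  have h1 := hs.ph_le hc ⟨e, he⟩
  have h2 : ({e, f} : Finset ι).filter (fun c => χ (S.p c (s c)).1 = χ (S.p e (s e)).1) ⊆ {e} := by
    intro x hx
    rw [Finset.mem_filter, Finset.mem_insert, Finset.mem_singleton] at hx
    rcases hx with ⟨rfl | rfl, hx⟩
    · simp
    · exact absurd hx.symm hne
  have h3 := Finset.card_le_card (Finset.inter_subset_left.trans h2 :
    _ ∩ Pos s ⊆ ({e} : Finset ι))
  rw [Finset.card_singleton] at h3
  omega

/-! ### The rank -/

/-- the rank of a set of crossings -/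
noncomputable def phrk (S : Sys ι R) (s : ι → Bool) (Y : Finset ι) : ℤ :=
  (Y.card : ℤ) + S.full s - S.cl (off s Y)

theorem ph_rk_empty (s : ι → Bool) : S.phrk s ∅ = 0 := by
  simp [phrk, S.cl_off_empty]

theorem ph_rk_insert_bridge {s : ι → Bool} {Y : Finset ι} {c : ι} (hc : c ∉ Y)
    (h : S.Bridge s Y c) : S.phrk s (insert c Y) = S.phrk s Y + 1 := by
  have := S.cl_off_insert (s := s) hc
  rw [if_pos h] at this
  rw [phrk, phrk, Finset.card_insert_of_notMem hc]
  push_cast
  omega

theorem ph_rk_insert_not_bridge {s : ι → Bool} {Y : Finset ι} {c : ι}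
    (h : ¬ S.Bridge s Y c) : S.phrk s (insert c Y) = S.phrk s Y := by
  by_cases hc : c ∈ Y
  · rw [Finset.insert_eq_of_mem hc]
  have := S.cl_off_insert (s := s) hc
  rw [if_neg h] at this
  rw [phrk, phrk, Finset.card_insert_of_notMem hc]
  push_cast
  omega

theorem ph_rk_le_insert {s : ι → Bool} (Y : Finset ι) (c : ι) :
    S.phrk s Y ≤ S.phrk s (insert c Y) := by
  by_cases hb : S.Bridge s Y c
  · by_cases hc : c ∈ Y
    · rw [Finset.insert_eq_of_mem hc]
    · rw [ph_rk_insert_bridge hc hb]
      omega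
  · rw [ph_rk_insert_not_bridge hb]

theorem ph_rk_mono {s : ι → Bool} {Y Y' : Finset ι} (h : Y ⊆ Y') : S.phrk s Y ≤ S.phrk s Y' := by
  have key : ∀ T : Finset ι, S.phrk s Y ≤ S.phrk s (T ∪ Y) := by
    intro T
    induction T using Finset.induction_on with
    | empty => simp
    | insert a T _ ih =>
      rw [Finset.insert_union]
      exact ih.trans (ph_rk_le_insert _ _)
  have := key Y'
  rwa [Finset.union_eq_left.2 h] at this

theorem ph_rk_span {s : ι → Bool} {Y₀ Y : Finset ι} (h : Y₀ ⊆ Y)
    (hsp : ∀ y ∈ Y, y ∉ Y₀ → ∃ D, S.PhCut s D ∧ D ⊆ insert y Y₀ ∧ y ∈ D) :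
    S.phrk s Y = S.phrk s Y₀ := by
  have key : ∀ T ⊆ Y, S.phrk s (T ∪ Y₀) = S.phrk s Y₀ := by
    intro T
    induction T using Finset.induction_on with
    | empty => intro _; simp
    | insert a T _ ih =>
      intro hT
      rw [Finset.insert_union]
      by_cases ha : a ∈ Y₀
      · rw [Finset.insert_eq_of_mem (Finset.mem_union_right _ ha)]
        exact ih fun x hx => hT (Finset.mem_insert_of_mem hx)
      · obtain ⟨D, hD, hD', haD⟩ := hsp a (hT (Finset.mem_insert_self _ _)) ha
        rw [ph_rk_insert_not_bridge, ih fun x hx => hT (Finset.mem_insert_of_mem hx)]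
        exact ph_not_bridge_iff.2 ⟨D, hD, hD'.trans
          (Finset.insert_subset_insert _ Finset.subset_union_right), haD⟩
  have := key Y subset_rfl
  rwa [Finset.union_eq_left.2 h] at this

theorem ph_rk_indep {s : ι → Bool} {Y : Finset ι}
    (h : ∀ D, S.PhCut s D → D ⊆ Y → D = ∅) : S.phrk s Y = Y.card := by
  induction Y using Finset.induction_on with
  | empty => simp [ph_rk_empty]
  | insert a Y ha ih =>
    have hb : S.Bridge s Y a := by
      by_contra hb
      obtain ⟨D, hD, hD', haD⟩ := ph_not_bridge_iff.1 hb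
      rw [h D hD hD'] at haD
      simp at haD
    rw [ph_rk_insert_bridge ha hb, ih fun D hD hD' => h D hD (hD'.trans (Finset.subset_insert _ _)),
      Finset.card_insert_of_notMem ha]
    push_cast
    ring

theorem ph_rk_le_add {s : ι → Bool} {Y Y' : Finset ι} (h : Y ⊆ Y') :
    S.phrk s Y' ≤ S.phrk s Y + ((Y'.card : ℤ) - Y.card) := by
  have : S.cl (off s Y) ≤ S.cl (off s Y') := by
    refine S.cl_mono fun c b hc => ?_
    by_cases hY : c ∈ Y'
    · simp [off, hY] at hc
    · have hY2 : c ∉ Y := fun h' => hY (h h')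
      rw [off, if_neg hY] at hc
      rw [off, if_neg hY2]
      exact hc
  rw [phrk, phrk]
  omega

theorem ph_disjoint_Pos_Neg (s : ι → Bool) : Disjoint (Pos s) (Neg s) :=
  Finset.disjoint_left.2 fun _ h => ph_Pos_not_Neg h

theorem ph_Free_subset {s : ι → Bool} {A : Finset ι} : S.Free s A ⊆ Neg s := by
  classical
  exact Finset.filter_subset _ _

theorem ph_mem_Free {s : ι → Bool} {A : Finset ι} {c : ι} :
    c ∈ S.Free s A ↔ c ∈ Neg s ∧ ∃ D, S.PhCut s D ∧ D ⊆ A ∪ Neg s ∧ c ∈ D := by
  classical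
  rw [Free, Finset.mem_filter]
  refine and_congr_right fun hc => ?_
  rw [ph_not_bridge_iff, Finset.insert_eq_of_mem (Finset.mem_union_right _ hc)]

theorem ph_expo_formula {s : ι → Bool} {A B : Finset ι} (hA : A ⊆ Pos s) (hB : B ⊆ Neg s) :
    S.topDeg s - S.expo s A B = 4 * (S.phrk s (A ∪ B) - B.card - (S.Free s A).card) +
      2 * (2 * (S.cl (off s (A ∪ B)) : ℤ) - S.full (sw s (A ∪ B)) - (A ∪ B).card - S.full s) := by
  classical
  have h1 : (A ∪ B).card = A.card + B.card :=
    Finset.card_union_of_disjoint (Finset.disjoint_of_subset_left hA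
      (Finset.disjoint_of_subset_right hB (ph_disjoint_Pos_Neg s)))
  have h2 : (S.Br s A).card + (S.Free s A).card = (Neg s).card := by
    rw [Br, Free]
    exact Finset.card_filter_add_card_filter_not _
  rw [topDeg, expo, phrk, h1]
  push_cast
  have h3 : ((Neg s).card : ℤ) = (S.Br s A).card + (S.Free s A).card := by
    rw [← h2]
    push_cast
    ring
  rw [h3]
  ring

/-- the cuts inside `A ∪ Neg s` can be moved to representatives of the parallel classes -/
theorem ph_reduce {s : ι → Bool} {A E : Finset ι} (hA : A ⊆ Pos s) (hE : E ⊆ A)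
    (hAE : ∀ f ∈ A, ∃ e ∈ E, S.Par s e f) (n : ℕ) : ∀ C : Finset ι, S.PhCut s C →
      C ∩ Pos s ⊆ A → (C ∩ (A \ E)).card = n →
      ∃ D, S.PhCut s D ∧ D ∩ Neg s = C ∩ Neg s ∧ D ∩ Pos s ⊆ E := by
  induction n using Nat.strong_induction_on with
  | _ n ih =>
    intro C hC hCA hn
    by_cases h0 : C ∩ (A \ E) = ∅
    · refine ⟨C, hC, rfl, fun x hx => ?_⟩
      by_contra hxE
      have : x ∈ C ∩ (A \ E) :=
        Finset.mem_inter.2 ⟨(Finset.mem_inter.1 hx).1, Finset.mem_sdiff.2 ⟨hCA hx, hxE⟩⟩
      rw [h0] at this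
      simp at this
    · obtain ⟨f, hf⟩ := Finset.nonempty_iff_ne_empty.2 h0
      obtain ⟨hfC, hf2⟩ := Finset.mem_inter.1 hf
      obtain ⟨hfA, hfE⟩ := Finset.mem_sdiff.1 hf2
      obtain ⟨e, heE, hpar⟩ := hAE f hfA
      have hef : e ≠ f := fun h => hfE (h ▸ heE)
      have hcut : S.PhCut s {e, f} := hpar.resolve_left hef
      have heN : e ∉ Neg s := ph_Pos_not_Neg (hA (hE heE))
      have hfN : f ∉ Neg s := ph_Pos_not_Neg (hA hfA)
      have hC' := hC.symmDiff hcut
      have e1 : symmDiff C {e, f} ∩ Neg s = C ∩ Neg s := by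
        ext x
        simp only [Finset.mem_inter, Finset.mem_symmDiff, Finset.mem_insert, Finset.mem_singleton]
        constructor
        · rintro ⟨⟨h, _⟩ | ⟨rfl | rfl, _⟩, h'⟩
          · exact ⟨h, h'⟩
          · exact absurd h' heN
          · exact absurd h' hfN
        · rintro ⟨h, h'⟩
          refine ⟨Or.inl ⟨h, ?_⟩, h'⟩
          rintro (rfl | rfl)
          · exact heN h'
          · exact hfN h'
      have e2 : symmDiff C {e, f} ∩ Pos s ⊆ A := by
        intro x hx
        simp only [Finset.mem_inter, Finset.mem_symmDiff, Finset.mem_insert,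
          Finset.mem_singleton] at hx
        rcases hx with ⟨⟨h, _⟩ | ⟨rfl | rfl, _⟩, h'⟩
        · exact hCA (Finset.mem_inter.2 ⟨h, h'⟩)
        · exact hE heE
        · exact hfA
      have e3 : (symmDiff C {e, f} ∩ (A \ E)).card < n := by
        rw [← hn]
        refine Finset.card_lt_card ⟨fun x hx => ?_, fun h => ?_⟩
        · simp only [Finset.mem_inter, Finset.mem_symmDiff, Finset.mem_insert,
            Finset.mem_singleton, Finset.mem_sdiff] at hx ⊢
          rcases hx with ⟨⟨h, _⟩ | ⟨rfl | rfl, _⟩, h'⟩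
          · exact ⟨h, h'⟩
          · exact absurd heE h'.2
          · exact ⟨hfC, h'⟩
        · have := h hf
          simp only [Finset.mem_inter, Finset.mem_symmDiff, Finset.mem_insert,
            Finset.mem_singleton] at this
          rcases this with ⟨⟨_, h⟩ | ⟨_, h⟩, _⟩
          · exact h (Or.inr trivial)
          · exact h hfC
      obtain ⟨D, hD, hD1, hD2⟩ := ih _ e3 _ hC' e2 rfl
      exact ⟨D, hD, hD1.trans e1, hD2⟩

/-- a cut without negative crossing that meets at most one positive crossing is empty -/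
theorem ph_cut_empty_of_card {s : ι → Bool} (hs : S.Sparse s) {C : Finset ι} (hC : S.PhCut s C)
    (h : (C ∩ Pos s).card ≤ (C ∩ Neg s).card + 1) : C = ∅ := by
  by_contra hne
  have := hs.ph_le hC (Finset.nonempty_iff_ne_empty.2 hne)
  omega

/-- one direction of `phi_iff` -/
theorem ph_phi_mp (hP : S.IsPlanar χ) {s : ι → Bool} (hs : S.Sparse s) (hs' : S.Strict s)
    {A B : Finset ι} (hA : A ⊆ Pos s) (hB : B ⊆ S.Free s A)
    (he : S.expo s A B = S.topDeg s - 4) :
    (B = ∅ ∧ (A.image (S.key s)).card = 1) ∨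
      (∃ c ∈ Neg s, B = {c} ∧ A.image (S.key s) ∈ S.quads s c) := by
  classical
  have hloop := loop_bound hP s (A ∪ B)
  have hform := S.ph_expo_formula hA (hB.trans ph_Free_subset)
  by_cases hF : S.Free s A = ∅
  · -- no free negative crossing
    left
    have hB0 : B = ∅ := by
      rw [hF] at hB
      exact Finset.subset_empty.1 hB
    refine ⟨hB0, ?_⟩
    subst hB0
    have hAne : A.Nonempty := by
      rw [Finset.nonempty_iff_ne_empty]
      rintro rfl
      have := (free_empty hP hs).2
      omega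
    obtain ⟨a, ha⟩ := hAne
    rw [Finset.union_empty] at hform hloop
    rw [hF, Finset.card_empty] at hform
    -- the rank of a positive crossing is one
    have hra : S.phrk s {a} = 1 := by
      rw [ph_rk_indep, Finset.card_singleton]
      · rfl
      · intro D hD hDa
        apply ph_cut_empty_of_card hs hD
        have h1 := Finset.card_le_card (Finset.inter_subset_left.trans hDa :
          D ∩ Pos s ⊆ ({a} : Finset ι))
        rw [Finset.card_singleton] at h1
        omega
    have hrA : S.phrk s {a} ≤ S.phrk s A := ph_rk_mono (Finset.singleton_subset_iff.2 ha)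
    have hrA1 : S.phrk s A = 1 := by
      push_cast at hform
      omega
    rw [Finset.card_eq_one]
    refine ⟨S.key s a, ?_⟩
    ext κ
    rw [Finset.mem_image, Finset.mem_singleton]
    constructor
    · rintro ⟨b, hb, rfl⟩
      rw [ph_key_eq_iff (hA ha)]
      by_cases hab : b = a
      · exact Or.inl hab
      have hab1 : S.phrk s (insert b {a}) ≤ S.phrk s A :=
        ph_rk_mono (Finset.insert_subset hb (Finset.singleton_subset_iff.2 ha))
      have hbr : ¬ S.Bridge s {a} b := by
        intro hbr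
        rw [ph_rk_insert_bridge (by simpa using hab) hbr] at hab1
        omega
      obtain ⟨D, hD, hDab, hbD⟩ := ph_not_bridge_iff.1 hbr
      right
      have hDe : D = {b, a} := by
        apply Finset.Subset.antisymm hDab
        intro x hx
        rw [Finset.mem_insert, Finset.mem_singleton] at hx
        rcases hx with rfl | rfl
        · exact hbD
        · by_contra hxD
          have hD1 : D ⊆ {b} := by
            intro y hy
            have := hDab hy
            rw [Finset.mem_insert, Finset.mem_singleton] at this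
            rcases this with rfl | rfl
            · simp
            · exact absurd hy hxD
          have h1 := Finset.card_le_card (Finset.inter_subset_left.trans hD1 :
            D ∩ Pos s ⊆ ({b} : Finset ι))
          rw [Finset.card_singleton] at h1
          have := ph_cut_empty_of_card hs hD (by omega)
          rw [this] at hbD
          simp at hbD
      rw [← hDe]
      exact hD
    · rintro rfl
      exact ⟨a, ha, rfl⟩
  · -- there is a free negative crossing
    right
    obtain ⟨c, hc⟩ := Finset.nonempty_iff_ne_empty.2 hF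
    set F := S.Free s A with hFdef
    have hFN : F ⊆ Neg s := ph_Free_subset
    -- every free crossing is on a cycle of `A ∪ F`
    have hnb : ∀ d ∈ F, ∃ D, S.PhCut s D ∧ D ⊆ A ∪ F ∧ d ∈ D := by
      intro d hd
      obtain ⟨_, D, hD, hDA, hdD⟩ := ph_mem_Free.1 hd
      refine ⟨D, hD, fun x hx => ?_, hdD⟩
      rcases Finset.mem_union.1 (hDA hx) with h | h
      · exact Finset.mem_union_left _ h
      · exact Finset.mem_union_right _ (ph_mem_Free.2 ⟨h, D, hD, hDA, hx⟩)
    have hnb' : ∀ d ∈ F, ¬ S.Bridge s (A ∪ F) d := by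
      intro d hd
      obtain ⟨D, hD, h1, h2⟩ := hnb d hd
      exact ph_not_bridge_iff.2 ⟨D, hD, h1.trans (Finset.subset_insert _ _), h2⟩
    have hXN : (A ∪ F) ∩ Neg s = F := by
      ext x
      rw [Finset.mem_inter, Finset.mem_union]
      constructor
      · rintro ⟨h | h, h'⟩
        · exact absurd h' (ph_Pos_not_Neg (hA h))
        · exact h
      · intro h
        exact ⟨Or.inr h, hFN h⟩
    have hXP : (A ∪ F) ∩ Pos s = A := by
      ext x
      rw [Finset.mem_inter, Finset.mem_union]
      constructor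
      · rintro ⟨h | h, h'⟩
        · exact h
        · exact absurd (hFN h) (ph_Pos_not_Neg h')
      · intro h
        exact ⟨Or.inl h, hA h⟩
    have hcb := cells_bound (S := S) hs (A ∪ F) (fun d hd => hnb' d (by rwa [hXN] at hd))
      ⟨c, Finset.mem_union_right _ hc, hnb' c hc⟩
    rw [hXN, hXP] at hcb
    have hfl := Finset.card_filter_le A fun c => ¬ S.Bridge s (A ∪ F) c
    have hXc : (A ∪ F).card = A.card + F.card := Finset.card_union_of_disjoint
      (Finset.disjoint_of_subset_left hA (Finset.disjoint_of_subset_right hFN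
        (ph_disjoint_Pos_Neg s)))
    have hBc : (A ∪ B).card = A.card + B.card := Finset.card_union_of_disjoint
      (Finset.disjoint_of_subset_left hA (Finset.disjoint_of_subset_right (hB.trans hFN)
        (ph_disjoint_Pos_Neg s)))
    have hsub : A ∪ B ⊆ A ∪ F := Finset.union_subset_union_right hB
    have hr1 := ph_rk_le_add (S := S) (s := s) hsub
    have hrX : S.phrk s (A ∪ F) = (A ∪ F).card + S.full s - S.cl (off s (A ∪ F)) := rfl
    have hnonneg : (0 : ℤ) ≤ 2 * (S.cl (off s (A ∪ B)) : ℤ) - S.full (sw s (A ∪ B)) -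
        (A ∪ B).card - S.full s := by
      push_cast
      omega
    set G := 2 * (S.cl (off s (A ∪ B)) : ℤ) - S.full (sw s (A ∪ B)) -
        (A ∪ B).card - S.full s with hG
    -- the rank of `A ∪ F`
    have hrX2 : S.phrk s (A ∪ F) = 2 * F.card + 1 := by
      rw [hXc] at hrX hr1
      rw [hBc] at hr1
      push_cast at hrX hr1
      omega
    have hall : ∀ d ∈ A ∪ F, ¬ S.Bridge s (A ∪ F) d := by
      have hcard : (A.filter fun c => ¬ S.Bridge s (A ∪ F) c).card = A.card := by
        rw [hXc] at hrX hr1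
        rw [hBc] at hr1
        push_cast at hrX hr1
        omega
      intro d hd
      rcases Finset.mem_union.1 hd with hd | hd
      · have := (Finset.card_filter_eq_iff.1 hcard) d hd
        exact this
      · exact hnb' d hd
    -- `B = F`
    have hBF : B = F := by
      by_contra hne
      obtain ⟨d, hdF, hdB⟩ : ∃ d ∈ F, d ∉ B := by
        by_contra h
        push Not at h
        exact hne (Finset.Subset.antisymm hB h)
      have h1 : A ∪ B ⊆ (A ∪ F).erase d := by
        intro x hx
        refine Finset.mem_erase.2 ⟨?_, hsub hx⟩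
        rintro rfl
        rcases Finset.mem_union.1 hx with h | h
        · exact ph_Pos_not_Neg (hA h) (hFN hdF)
        · exact hdB h
      have hdX : d ∈ A ∪ F := Finset.mem_union_right _ hdF
      have h2 := ph_rk_le_add (S := S) (s := s) h1
      have h3 : S.phrk s ((A ∪ F).erase d) = S.phrk s (A ∪ F) := by
        have h4 : ¬ S.Bridge s ((A ∪ F).erase d) d := by
          rw [ph_not_bridge_iff]
          obtain ⟨D, hD, h5, h6⟩ := hnb d hdF
          exact ⟨D, hD, by rwa [Finset.insert_erase hdX], h6⟩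
        have := ph_rk_insert_not_bridge h4
        rw [Finset.insert_erase hdX] at this
        exact this.symm
      have h7 := Finset.card_erase_add_one hdX
      rw [hXc] at h7
      rw [h3] at h2
      rw [hBc] at h2
      push_cast at h2
      omega
    -- one free crossing
    have hF1 : F.card = 1 := by
      have hpos : 0 < F.card := Finset.card_pos.2 ⟨c, hc⟩
      by_contra hne
      have h2 : 2 ≤ ((A ∪ F) ∩ Neg s).card := by
        rw [hXN]
        omega
      have := cells_strict (S := S) hs hs' (A ∪ F) hall h2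
      rw [hXN, hXP] at this
      rw [hXc] at hrX
      push_cast at hrX
      omega
    obtain ⟨c', hc'⟩ := Finset.card_eq_one.1 hF1
    have hcc : c' = c := by
      rw [hc'] at hc
      exact (Finset.mem_singleton.1 hc).symm
    subst hcc
    have hrk3 : S.phrk s (A ∪ F) = 3 := by
      rw [hrX2, hF1]
      norm_num
    have hcN : c' ∈ Neg s := hFN hc
    refine ⟨c', hcN, by rw [hBF, hc'], ?_⟩
    -- a minimal cut through `c`
    obtain ⟨D₀, hD₀, hD₀X, hcD₀⟩ := hnb c' hc
    let T : Finset (Finset ι) := (A ∪ F).powerset.filter fun D => S.PhCut s D ∧ c' ∈ D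
    have hTne : T.Nonempty := ⟨D₀, Finset.mem_filter.2 ⟨Finset.mem_powerset.2 hD₀X, hD₀, hcD₀⟩⟩
    obtain ⟨Z, hZT, hZmin⟩ := Finset.exists_min_image T Finset.card hTne
    obtain ⟨hZX, hZ, hcZ⟩ := Finset.mem_filter.1 hZT
    rw [Finset.mem_powerset] at hZX
    have hZN : Z ∩ Neg s = {c'} := by
      ext x
      rw [Finset.mem_inter, Finset.mem_singleton]
      constructor
      · rintro ⟨h, h'⟩
        have : x ∈ (A ∪ F) ∩ Neg s := Finset.mem_inter.2 ⟨hZX h, h'⟩
        rw [hXN, hc'] at this
        exact Finset.mem_singleton.1 this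
      · rintro rfl
        exact ⟨hcZ, hcN⟩
    have hZP : Z ∩ Pos s = Z.erase c' := by
      ext x
      rw [Finset.mem_inter, Finset.mem_erase]
      constructor
      · rintro ⟨h, h'⟩
        exact ⟨fun h'' => ph_Pos_not_Neg h' (h'' ▸ hcN), h⟩
      · rintro ⟨h, h'⟩
        refine ⟨h', (ph_mem_Pos_or_Neg s x).resolve_right fun hN => h ?_⟩
        have : x ∈ Z ∩ Neg s := Finset.mem_inter.2 ⟨h', hN⟩
        rw [hZN] at this
        exact Finset.mem_singleton.1 this
    have hZindep : ∀ D, S.PhCut s D → D ⊆ Z.erase c' → D = ∅ := by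
      intro D hD hDZ
      by_contra hne
      have hDne := Finset.nonempty_iff_ne_empty.2 hne
      have hDZ' : D ⊆ Z := hDZ.trans (Finset.erase_subset _ _)
      have hcD : c' ∉ D := fun h => (Finset.mem_erase.1 (hDZ h)).1 rfl
      have e1 : symmDiff Z D = Z \ D := by
        rw [symmDiff_def, Finset.sup_eq_union, Finset.sdiff_eq_empty_iff_subset.2 hDZ',
          Finset.union_empty]
      have h1 : Z \ D ∈ T := by
        refine Finset.mem_filter.2 ⟨Finset.mem_powerset.2 (Finset.sdiff_subset.trans hZX), ?_,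
          Finset.mem_sdiff.2 ⟨hcZ, hcD⟩⟩
        rw [← e1]
        exact hZ.symmDiff hD
      have h2 := hZmin _ h1
      have h3 : (Z \ D).card < Z.card :=
        Finset.card_lt_card (Finset.sdiff_ssubset hDZ' hDne)
      omega
    have hZ3 : (Z.erase c').card = 3 := by
      have h1 := hs.ph_le hZ ⟨c', hcZ⟩
      rw [hZN, hZP, Finset.card_singleton] at h1
      have h2 := ph_rk_indep hZindep
      have h3 : S.phrk s (Z.erase c') ≤ S.phrk s (A ∪ F) :=
        ph_rk_mono ((Finset.erase_subset _ _).trans hZX)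
      rw [h2, hrk3] at h3
      omega
    have hZA : Z.erase c' ⊆ A := by
      intro x hx
      rw [← hZP] at hx
      have : x ∈ (A ∪ F) ∩ Pos s :=
        Finset.mem_inter.2 ⟨hZX (Finset.mem_inter.1 hx).1, (Finset.mem_inter.1 hx).2⟩
      rwa [hXP] at this
    obtain ⟨e₁, e₂, e₃, h12, h13, h23, hZe⟩ := Finset.card_eq_three.1 hZ3
    have hZins : Z = {c', e₁, e₂, e₃} := by
      rw [← Finset.insert_erase hcZ, hZe]
    have he₁ : e₁ ∈ A := hZA (by rw [hZe]; simp)
    have he₂ : e₂ ∈ A := hZA (by rw [hZe]; simp)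
    have he₃ : e₃ ∈ A := hZA (by rw [hZe]; simp)
    -- the keys are different
    have hkey : ∀ x ∈ Z.erase c', ∀ y ∈ Z.erase c', x ≠ y → S.key s x ≠ S.key s y := by
      intro x hx y hy hxy hk
      rw [ph_key_eq_iff (hA (hZA hy))] at hk
      have h1 : S.PhCut s {x, y} := hk.resolve_left hxy
      have h2 := hZindep _ h1 (Finset.insert_subset hx (Finset.singleton_subset_iff.2 hy))
      have : x ∈ ({x, y} : Finset ι) := by simp
      rw [h2] at this
      simp at this
    -- every crossing of `A` is parallel to one of the three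
    have hpar : ∀ f ∈ A, ∃ e ∈ Z.erase c', S.Par s e f := by
      intro f hf
      by_cases hfZ : f ∈ Z.erase c'
      · exact ⟨f, hfZ, ph_par_refl s f⟩
      have h1 : S.phrk s (insert f (Z.erase c')) ≤ S.phrk s (A ∪ F) :=
        ph_rk_mono (Finset.insert_subset (Finset.mem_union_left _ hf)
          ((Finset.erase_subset _ _).trans hZX))
      have hbr : ¬ S.Bridge s (Z.erase c') f := by
        intro hbr
        rw [ph_rk_insert_bridge hfZ hbr, ph_rk_indep hZindep, hZ3, hrk3] at h1
        norm_num at h1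
      obtain ⟨D, hD, hDf, hfD⟩ := ph_not_bridge_iff.1 hbr
      have hfc : f ≠ c' := fun h => ph_Pos_not_Neg (hA hf) (h ▸ hcN)
      have hfZ' : f ∉ Z := fun h => hfZ (Finset.mem_erase.2 ⟨hfc, h⟩)
      have hDA : D ⊆ A := hDf.trans (Finset.insert_subset hf hZA)
      have hDN : D ∩ Neg s = ∅ := by
        rw [Finset.eq_empty_iff_forall_notMem]
        intro x hx
        exact ph_Pos_not_Neg (hA (hDA (Finset.mem_inter.1 hx).1)) (Finset.mem_inter.1 hx).2
      have hDP : D ∩ Pos s = D := Finset.inter_eq_left.2 (hDA.trans hA)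
      have h2 := hs.ph_le hD ⟨f, hfD⟩
      rw [hDN, hDP, Finset.card_empty] at h2
      -- the rest of `D`
      set U := D.erase f with hU
      have hUc : U.card + 1 = D.card := Finset.card_erase_add_one hfD
      have hUZ : U ⊆ Z.erase c' := by
        intro x hx
        obtain ⟨hxf, hxD⟩ := Finset.mem_erase.1 hx
        exact (Finset.mem_insert.1 (hDf hxD)).resolve_left hxf
      have hUle := Finset.card_le_card hUZ
      rw [hZ3] at hUle
      have hDU : D = insert f U := (Finset.insert_erase hfD).symm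
      by_cases hU1 : U.card = 1
      · obtain ⟨e, heU⟩ := Finset.card_eq_one.1 hU1
        refine ⟨e, hUZ (by rw [heU]; simp), Or.inr ?_⟩
        have : D = {e, f} := by
          rw [hDU, heU, Finset.pair_comm]
        rw [← this]
        exact hD
      · exfalso
        have hU2 : 2 ≤ U.card := by omega
        have hZD := hZ.symmDiff hD
        have hcD : c' ∉ D := fun h => ph_Pos_not_Neg (hA (hDA h)) hcN
        have hcZD : c' ∈ symmDiff Z D := Finset.mem_symmDiff.2 (Or.inl ⟨hcZ, hcD⟩)
        have h4 : symmDiff Z D ∩ Pos s ⊆ insert f (Z.erase c' \ U) := by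
          intro x hx
          obtain ⟨hx1, hx2⟩ := Finset.mem_inter.1 hx
          rw [Finset.mem_symmDiff] at hx1
          rw [Finset.mem_insert, Finset.mem_sdiff]
          rcases hx1 with ⟨h5, h6⟩ | ⟨h5, h6⟩
          · right
            refine ⟨Finset.mem_erase.2 ⟨fun h => ph_Pos_not_Neg hx2 (h ▸ hcN), h5⟩, fun h7 => h6 ?_⟩
            exact Finset.mem_of_mem_erase h7
          · left
            by_contra h7
            exact h6 (Finset.mem_of_mem_erase (hUZ (Finset.mem_erase.2 ⟨h7, h5⟩)))
        have h5 := Finset.card_le_card h4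
        have h6 : (Z.erase c' \ U).card = 3 - U.card := by
          rw [Finset.card_sdiff_of_subset hUZ, hZ3]
        have h7 := Finset.card_insert_le f (Z.erase c' \ U)
        have h8 := hs.ph_le hZD ⟨c', hcZD⟩
        have h9 : 1 ≤ (symmDiff Z D ∩ Neg s).card :=
          Finset.card_pos.2 ⟨c', Finset.mem_inter.2 ⟨hcZD, hcN⟩⟩
        omega
    -- the result
    have himg : A.image (S.key s) = {S.key s e₁, S.key s e₂, S.key s e₃} := by
      ext κ
      rw [Finset.mem_image]
      simp only [Finset.mem_insert, Finset.mem_singleton]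
      constructor
      · rintro ⟨f, hf, rfl⟩
        obtain ⟨e, heZ, hef⟩ := hpar f hf
        have hk := (ph_key_eq_iff (hA hf)).2 hef
        rw [← hk]
        rw [hZe] at heZ
        simp only [Finset.mem_insert, Finset.mem_singleton] at heZ
        rcases heZ with rfl | rfl | rfl
        · exact Or.inl rfl
        · exact Or.inr (Or.inl rfl)
        · exact Or.inr (Or.inr rfl)
      · rintro (rfl | rfl | rfl)
        · exact ⟨e₁, he₁, rfl⟩
        · exact ⟨e₂, he₂, rfl⟩
        · exact ⟨e₃, he₃, rfl⟩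
    rw [quads, Finset.mem_filter, Finset.mem_powerset]
    refine ⟨Finset.image_subset_image hA, ?_, e₁, hA he₁, e₂, hA he₂, e₃, hA he₃, himg, ?_⟩
    · rw [himg, Finset.card_eq_three]
      refine ⟨_, _, _, ?_, ?_, ?_, rfl⟩
      · exact hkey _ (by rw [hZe]; simp) _ (by rw [hZe]; simp) h12
      · exact hkey _ (by rw [hZe]; simp) _ (by rw [hZe]; simp) h13
      · exact hkey _ (by rw [hZe]; simp) _ (by rw [hZe]; simp) h23
    · rw [hZins] at hZ
      exact hZ

/-- if the crossings of `A ∪ B` have one colour, the formula for the exponent is exact -/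
theorem ph_expo_exact (hP : S.IsPlanar χ) {s : ι → Bool} {A B : Finset ι} (hA : A ⊆ Pos s)
    (hB : B ⊆ Neg s)
    (hcol : ∀ c ∈ A ∪ B, ∀ d ∈ A ∪ B, χ (S.p c (s c)).1 = χ (S.p d (s d)).1) :
    S.topDeg s - S.expo s A B = 4 * (S.phrk s (A ∪ B) - B.card - (S.Free s A).card) := by
  have h1 := S.ph_expo_formula hA hB
  have h2 := loop_exact hP s (A ∪ B) hcol
  omega

/-- first case of the converse -/
theorem ph_phi_mpr_one (hP : S.IsPlanar χ) {s : ι → Bool} (hs : S.Sparse s) {A : Finset ι}
    (hA : A ⊆ Pos s) (h : (A.image (S.key s)).card = 1) :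
    S.expo s A ∅ = S.topDeg s - 4 := by
  classical
  obtain ⟨κ, hκ⟩ := Finset.card_eq_one.1 h
  have hAne : A.Nonempty := by
    rw [Finset.nonempty_iff_ne_empty]
    rintro rfl
    simp at h
  obtain ⟨a, ha⟩ := hAne
  have hpar : ∀ f ∈ A, S.Par s a f := by
    intro f hf
    rw [← ph_key_eq_iff (hA hf)]
    have h1 : S.key s a ∈ A.image (S.key s) := Finset.mem_image_of_mem _ ha
    have h2 : S.key s f ∈ A.image (S.key s) := Finset.mem_image_of_mem _ hf
    rw [hκ, Finset.mem_singleton] at h1 h2
    rw [h1, h2]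
  have hFree : S.Free s A = ∅ := by
    rw [Finset.eq_empty_iff_forall_notMem]
    intro c hc
    obtain ⟨hcN, D, hD, hDA, hcD⟩ := ph_mem_Free.1 hc
    have hDP : D ∩ Pos s ⊆ A := by
      intro x hx
      obtain ⟨h1, h2⟩ := Finset.mem_inter.1 hx
      exact (Finset.mem_union.1 (hDA h1)).resolve_right (ph_Pos_not_Neg h2)
    obtain ⟨D', hD', h1, h2⟩ := ph_reduce hA (Finset.singleton_subset_iff.2 ha)
      (fun f hf => ⟨a, Finset.mem_singleton_self a, hpar f hf⟩) _ D hD hDP rfl
    have h3 : c ∈ D' ∩ Neg s := by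
      rw [h1]
      exact Finset.mem_inter.2 ⟨hcD, hcN⟩
    have h4 := Finset.card_le_card h2
    rw [Finset.card_singleton] at h4
    have h5 := ph_cut_empty_of_card hs hD' (by omega)
    rw [h5] at h3
    simp at h3
  have hcol : ∀ c ∈ A ∪ ∅, ∀ d ∈ A ∪ ∅, χ (S.p c (s c)).1 = χ (S.p d (s d)).1 := by
    rw [Finset.union_empty]
    intro c hc d hd
    rw [← ph_par_colour hP hs (hpar c hc), ← ph_par_colour hP hs (hpar d hd)]
  have h1 := ph_expo_exact hP hA (Finset.empty_subset _) hcol
  rw [Finset.union_empty, hFree] at h1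
  have h2 : S.phrk s A = S.phrk s {a} := by
    apply ph_rk_span (Finset.singleton_subset_iff.2 ha)
    intro y hy hya
    have hne : a ≠ y := fun h => hya (by simp [h])
    refine ⟨{a, y}, (hpar y hy).resolve_left hne, ?_, by simp⟩
    rw [Finset.pair_comm]
  have h3 : S.phrk s {a} = 1 := by
    rw [ph_rk_indep, Finset.card_singleton]
    · rfl
    · intro D hD hDa
      apply ph_cut_empty_of_card hs hD
      have h1 := Finset.card_le_card (Finset.inter_subset_left.trans hDa :
        D ∩ Pos s ⊆ ({a} : Finset ι))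
      rw [Finset.card_singleton] at h1
      omega
  rw [h2, h3] at h1
  simp only [Finset.card_empty] at h1
  push_cast at h1
  omega

/-- replacing a crossing of a cut by a parallel one -/
theorem ph_cut_replace {s : ι → Bool} {C : Finset ι} (hC : S.PhCut s C) {e a : ι} (he : e ∈ C)
    (ha : a ∈ C → a = e) (h : S.Par s e a) : S.PhCut s (insert a (C.erase e)) := by
  by_cases hea : e = a
  · subst hea
    rwa [Finset.insert_erase he]
  have haC : a ∉ C := fun h' => hea (ha h').symm
  have h1 := hC.symmDiff (h.resolve_left hea)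
  have h2 : symmDiff C {e, a} = insert a (C.erase e) := by
    ext x
    simp only [Finset.mem_symmDiff, Finset.mem_insert, Finset.mem_singleton, Finset.mem_erase]
    constructor
    · rintro (⟨h, h'⟩ | ⟨rfl | rfl, h'⟩)
      · push Not at h'
        exact Or.inr ⟨h'.1, h⟩
      · exact absurd he h'
      · exact Or.inl rfl
    · rintro (rfl | ⟨h, h'⟩)
      · exact Or.inr ⟨Or.inr rfl, haC⟩
      · refine Or.inl ⟨h', ?_⟩
        rintro (h3 | h3)
        · exact h h3
        · exact haC (h3 ▸ h')
  rwa [h2] at h1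

/-- the representatives of a 4-cycle can be chosen in `A` -/
theorem ph_quad_in {s : ι → Bool} {A : Finset ι} (hA : A ⊆ Pos s) {c : ι} (hc : c ∈ Neg s)
    (h : A.image (S.key s) ∈ S.quads s c) : ∃ E : Finset ι, E ⊆ A ∧ E.card = 3 ∧
      S.PhCut s (insert c E) ∧ (∀ f ∈ A, ∃ e ∈ E, S.Par s e f) ∧
      ∀ x ∈ E, ∀ y ∈ E, x ≠ y → ¬ S.Par s x y := by
  classical
  rw [quads, Finset.mem_filter, Finset.mem_powerset] at h
  obtain ⟨-, h3, e₁, he₁, e₂, he₂, e₃, he₃, himg, W, hW⟩ := h
  have hcut : S.PhCut s {c, e₁, e₂, e₃} := ⟨W, hW⟩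
  -- representatives
  have hrep : ∀ e, S.key s e ∈ A.image (S.key s) → ∃ a ∈ A, S.Par s e a := by
    intro e he
    obtain ⟨a, ha, hk⟩ := Finset.mem_image.1 he
    exact ⟨a, ha, (ph_key_eq_iff (hA ha)).1 hk.symm⟩
  obtain ⟨a₁, ha₁, hp₁⟩ := hrep e₁ (by rw [himg]; simp)
  obtain ⟨a₂, ha₂, hp₂⟩ := hrep e₂ (by rw [himg]; simp)
  obtain ⟨a₃, ha₃, hp₃⟩ := hrep e₃ (by rw [himg]; simp)
  have hk₁ := (ph_key_eq_iff (hA ha₁)).2 hp₁
  have hk₂ := (ph_key_eq_iff (hA ha₂)).2 hp₂
  have hk₃ := (ph_key_eq_iff (hA ha₃)).2 hp₃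
  rw [himg] at h3
  have h12 : S.key s e₁ ≠ S.key s e₂ := by
    intro h
    rw [h] at h3
    simp only [Finset.insert_eq_of_mem, Finset.mem_insert, true_or] at h3
    have := Finset.card_le_two (a := S.key s e₂) (b := S.key s e₃)
    omega
  have h13 : S.key s e₁ ≠ S.key s e₃ := by
    intro h
    rw [h, Finset.insert_eq_of_mem (by simp)] at h3
    have := Finset.card_le_two (a := S.key s e₂) (b := S.key s e₃)
    omega
  have h23 : S.key s e₂ ≠ S.key s e₃ := by
    intro h
    rw [h] at h3
    have : ({S.key s e₁, S.key s e₃, S.key s e₃} : Finset (Finset ι)) =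
        {S.key s e₁, S.key s e₃} := by
      simp
    rw [this] at h3
    have := Finset.card_le_two (a := S.key s e₁) (b := S.key s e₃)
    omega
  -- all the elements are different
  have hne : ∀ x y : ι, S.key s x ≠ S.key s y → x ≠ y := fun x y h h' => h (by rw [h'])
  have hcP : ∀ x ∈ Pos s, x ≠ c := fun x hx h => ph_Pos_not_Neg hx (h ▸ hc)
  have a12 : a₁ ≠ a₂ := hne _ _ (by rw [← hk₁, ← hk₂]; exact h12)
  have a13 : a₁ ≠ a₃ := hne _ _ (by rw [← hk₁, ← hk₃]; exact h13)
  have a23 : a₂ ≠ a₃ := hne _ _ (by rw [← hk₂, ← hk₃]; exact h23)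
  have e12 : e₁ ≠ e₂ := hne _ _ h12
  have e13 : e₁ ≠ e₃ := hne _ _ h13
  have e23 : e₂ ≠ e₃ := hne _ _ h23
  have a1e2 : a₁ ≠ e₂ := hne _ _ (by rw [← hk₁]; exact h12)
  have a1e3 : a₁ ≠ e₃ := hne _ _ (by rw [← hk₁]; exact h13)
  have a2e1 : a₂ ≠ e₁ := hne _ _ (by rw [← hk₂]; exact h12.symm)
  have a2e3 : a₂ ≠ e₃ := hne _ _ (by rw [← hk₂]; exact h23)
  have a3e1 : a₃ ≠ e₁ := hne _ _ (by rw [← hk₃]; exact h13.symm)
  have a3e2 : a₃ ≠ e₂ := hne _ _ (by rw [← hk₃]; exact h23.symm)
  have c1 := hcP a₁ (hA ha₁)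
  have c2 := hcP a₂ (hA ha₂)
  have c3 := hcP a₃ (hA ha₃)
  have d1 := hcP e₁ he₁
  have d2 := hcP e₂ he₂
  have d3 := hcP e₃ he₃
  have s1 : S.PhCut s {c, a₁, e₂, e₃} := by
    have := ph_cut_replace hcut (e := e₁) (a := a₁) (by simp)
      (by simp [c1, a1e2, a1e3]) hp₁
    have e : insert a₁ (({c, e₁, e₂, e₃} : Finset ι).erase e₁) = {c, a₁, e₂, e₃} := by
      ext x
      simp only [Finset.mem_insert, Finset.mem_erase, Finset.mem_singleton]
      constructor
      · rintro (h | ⟨h, h' | h' | h' | h'⟩) <;> simp_all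
      · rintro (h | h | h | h) <;> subst h <;> simp_all [Ne.symm]
    rwa [e] at this
  have s2 : S.PhCut s {c, a₁, a₂, e₃} := by
    have := ph_cut_replace s1 (e := e₂) (a := a₂) (by simp)
      (by simp [c2, a12.symm, a2e3]) hp₂
    have e : insert a₂ (({c, a₁, e₂, e₃} : Finset ι).erase e₂) = {c, a₁, a₂, e₃} := by
      ext x
      simp only [Finset.mem_insert, Finset.mem_erase, Finset.mem_singleton]
      constructor
      · rintro (h | ⟨h, h' | h' | h' | h'⟩) <;> simp_all
      · rintro (h | h | h | h) <;> subst h <;> simp_all [Ne.symm]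
    rwa [e] at this
  have s3 : S.PhCut s {c, a₁, a₂, a₃} := by
    have := ph_cut_replace s2 (e := e₃) (a := a₃) (by simp)
      (by simp [c3, a13.symm, a23.symm]) hp₃
    have e : insert a₃ (({c, a₁, a₂, e₃} : Finset ι).erase e₃) = {c, a₁, a₂, a₃} := by
      ext x
      simp only [Finset.mem_insert, Finset.mem_erase, Finset.mem_singleton]
      constructor
      · rintro (h | ⟨h, h' | h' | h' | h'⟩) <;> simp_all
      · rintro (h | h | h | h) <;> subst h <;> simp_all [Ne.symm]
    rwa [e] at this
  refine ⟨{a₁, a₂, a₃}, ?_, Finset.card_eq_three.2 ⟨a₁, a₂, a₃, a12, a13, a23, rfl⟩, s3, ?_, ?_⟩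
  · intro x hx
    simp only [Finset.mem_insert, Finset.mem_singleton] at hx
    rcases hx with rfl | rfl | rfl <;> assumption
  · intro f hf
    have h1 : S.key s f ∈ A.image (S.key s) := Finset.mem_image_of_mem _ hf
    rw [himg] at h1
    simp only [Finset.mem_insert, Finset.mem_singleton] at h1
    rcases h1 with h1 | h1 | h1
    · refine ⟨a₁, by simp, (ph_key_eq_iff (hA hf)).1 ?_⟩
      rw [← hk₁, h1]
    · refine ⟨a₂, by simp, (ph_key_eq_iff (hA hf)).1 ?_⟩
      rw [← hk₂, h1]
    · refine ⟨a₃, by simp, (ph_key_eq_iff (hA hf)).1 ?_⟩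
      rw [← hk₃, h1]
  · have k12 : S.key s a₁ ≠ S.key s a₂ := by rw [← hk₁, ← hk₂]; exact h12
    have k13 : S.key s a₁ ≠ S.key s a₃ := by rw [← hk₁, ← hk₃]; exact h13
    have k23 : S.key s a₂ ≠ S.key s a₃ := by rw [← hk₂, ← hk₃]; exact h23
    intro x hx y hy hxy hp
    have hyA : y ∈ Pos s := by
      simp only [Finset.mem_insert, Finset.mem_singleton] at hy
      rcases hy with rfl | rfl | rfl
      · exact hA ha₁
      · exact hA ha₂
      · exact hA ha₃
    have hk := (ph_key_eq_iff hyA).2 hp
    simp only [Finset.mem_insert, Finset.mem_singleton] at hx hy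
    rcases hx with rfl | rfl | rfl <;> rcases hy with rfl | rfl | rfl
    · exact hxy rfl
    · exact k12 hk
    · exact k13 hk
    · exact k12 hk.symm
    · exact hxy rfl
    · exact k23 hk
    · exact k13 hk.symm
    · exact k23 hk.symm
    · exact hxy rfl

/-- second case of the converse -/
theorem ph_phi_mpr_two (hP : S.IsPlanar χ) {s : ι → Bool} (hs : S.Sparse s) {A : Finset ι}
    (hA : A ⊆ Pos s) {c : ι} (hc : c ∈ Neg s) (h : A.image (S.key s) ∈ S.quads s c) :
    {c} ⊆ S.Free s A ∧ S.expo s A {c} = S.topDeg s - 4 := by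
  classical
  obtain ⟨E, hEA, hE3, hcut, hAE, hEE⟩ := ph_quad_in hA hc h
  have hcE : c ∉ E := fun h => ph_Pos_not_Neg (hA (hEA h)) hc
  have hcF : c ∈ S.Free s A := by
    refine ph_mem_Free.2 ⟨hc, _, hcut, ?_, Finset.mem_insert_self _ _⟩
    exact Finset.insert_subset (Finset.mem_union_right _ hc)
      (hEA.trans Finset.subset_union_left)
  have hEP : insert c E ∩ Pos s = E := by
    ext x
    rw [Finset.mem_inter, Finset.mem_insert]
    constructor
    · rintro ⟨h | h, h'⟩
      · exact absurd (h ▸ hc) (ph_Pos_not_Neg h')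
      · exact h
    · exact fun h => ⟨Or.inr h, hA (hEA h)⟩
  have hEN : insert c E ∩ Neg s = {c} := by
    ext x
    rw [Finset.mem_inter, Finset.mem_insert, Finset.mem_singleton]
    constructor
    · rintro ⟨h | h, h'⟩
      · exact h
      · exact absurd h' (ph_Pos_not_Neg (hA (hEA h)))
    · rintro rfl
      exact ⟨Or.inl rfl, hc⟩
  have hFree : S.Free s A = {c} := by
    apply Finset.Subset.antisymm _ (Finset.singleton_subset_iff.2 hcF)
    intro c' hc'
    obtain ⟨hcN', D, hD, hDA, hcD⟩ := ph_mem_Free.1 hc'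
    have hDP : D ∩ Pos s ⊆ A := by
      intro x hx
      obtain ⟨h1, h2⟩ := Finset.mem_inter.1 hx
      exact (Finset.mem_union.1 (hDA h1)).resolve_right (ph_Pos_not_Neg h2)
    obtain ⟨D', hD', h1, h2⟩ := ph_reduce hA hEA hAE _ D hD hDP rfl
    have h3 : c' ∈ D' ∩ Neg s := by
      rw [h1]
      exact Finset.mem_inter.2 ⟨hcD, hcN'⟩
    have h4 := Finset.card_le_card h2
    have h5 := hs.ph_le hD' ⟨c', (Finset.mem_inter.1 h3).1⟩
    have h6 : 1 ≤ (D' ∩ Neg s).card := Finset.card_pos.2 ⟨c', h3⟩
    have h7 : (D' ∩ Neg s).card = 1 := by omega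
    have h8 : D' ∩ Pos s = E := Finset.eq_of_subset_of_card_le h2 (by omega)
    have h9 : D' ∩ Neg s = {c'} := by
      obtain ⟨x, hx⟩ := Finset.card_eq_one.1 h7
      rw [hx] at h3
      rw [hx, Finset.mem_singleton.1 h3]
    by_contra hne
    rw [Finset.mem_singleton] at hne
    have h10 := hcut.symmDiff hD'
    have h11 : symmDiff (insert c E) D' ∩ Pos s = ∅ := by
      rw [Finset.eq_empty_iff_forall_notMem]
      intro x hx
      obtain ⟨hx1, hx2⟩ := Finset.mem_inter.1 hx
      rcases Finset.mem_symmDiff.1 hx1 with ⟨h12, h13⟩ | ⟨h12, h13⟩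
      · have : x ∈ D' ∩ Pos s := by
          rw [h8, ← hEP]
          exact Finset.mem_inter.2 ⟨h12, hx2⟩
        exact h13 (Finset.mem_inter.1 this).1
      · have : x ∈ insert c E ∩ Pos s := by
          rw [hEP, ← h8]
          exact Finset.mem_inter.2 ⟨h12, hx2⟩
        exact h13 (Finset.mem_inter.1 this).1
    have h12 := ph_cut_empty_of_card hs h10 (by rw [h11]; simp)
    have h13 : c' ∈ symmDiff (insert c E) D' := by
      refine Finset.mem_symmDiff.2 (Or.inr ⟨(Finset.mem_inter.1 h3).1, fun h14 => ?_⟩)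
      have : c' ∈ insert c E ∩ Neg s := Finset.mem_inter.2 ⟨h14, hcN'⟩
      rw [hEN, Finset.mem_singleton] at this
      exact hne this
    rw [h12] at h13
    simp at h13
  refine ⟨Finset.singleton_subset_iff.2 hcF, ?_⟩
  -- the colours
  have hcolE : ∀ x ∈ insert c E, χ (S.p x (s x)).1 = χ (S.p c (s c)).1 := by
    have h1 := ph_isCut_colour hP hcut (χ (S.p c (s c)).1)
    set C := (insert c E).filter fun x => χ (S.p x (s x)).1 = χ (S.p c (s c)).1 with hC
    have hcC : c ∈ C := Finset.mem_filter.2 ⟨Finset.mem_insert_self _ _, rfl⟩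
    have h2 := hs.ph_le h1 ⟨c, hcC⟩
    have h3 : 1 ≤ (C ∩ Neg s).card := Finset.card_pos.2 ⟨c, Finset.mem_inter.2 ⟨hcC, hc⟩⟩
    have h4 : C ∩ Pos s ⊆ E := by
      rw [← hEP]
      exact Finset.inter_subset_inter_right (Finset.filter_subset _ _)
    have h5 : C ∩ Pos s = E := Finset.eq_of_subset_of_card_le h4 (by omega)
    intro x hx
    rcases Finset.mem_insert.1 hx with rfl | hx
    · rfl
    · rw [← h5] at hx
      exact (Finset.mem_filter.1 (Finset.mem_inter.1 hx).1).2
  have hcol' : ∀ x ∈ A ∪ {c}, χ (S.p x (s x)).1 = χ (S.p c (s c)).1 := by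
    intro x hx
    rcases Finset.mem_union.1 hx with hx | hx
    · obtain ⟨e, he, hp⟩ := hAE x hx
      rw [← ph_par_colour hP hs hp]
      exact hcolE e (Finset.mem_insert_of_mem he)
    · rw [Finset.mem_singleton.1 hx]
  have h1 := ph_expo_exact hP hA (Finset.singleton_subset_iff.2 hc)
    (fun x hx y hy => (hcol' x hx).trans (hcol' y hy).symm)
  have h2 : S.phrk s (A ∪ {c}) = S.phrk s E := by
    apply ph_rk_span (hEA.trans Finset.subset_union_left)
    intro y hy hyE
    rcases Finset.mem_union.1 hy with hy | hy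
    · obtain ⟨e, he, hp⟩ := hAE y hy
      have hne : e ≠ y := fun h => hyE (h ▸ he)
      refine ⟨{e, y}, hp.resolve_left hne, ?_, by simp⟩
      rw [Finset.pair_comm]
      exact Finset.insert_subset_insert _ (Finset.singleton_subset_iff.2 he)
    · rw [Finset.mem_singleton.1 hy]
      exact ⟨_, hcut, subset_rfl, Finset.mem_insert_self _ _⟩
  have h3 : S.phrk s E = 3 := by
    rw [ph_rk_indep, hE3]
    · rfl
    · intro D hD hDE
      by_contra hne
      have hDne := Finset.nonempty_iff_ne_empty.2 hne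
      have hDP : D ∩ Pos s = D := Finset.inter_eq_left.2 ((hDE.trans hEA).trans hA)
      have h4 := hs.ph_le hD hDne
      rw [hDP] at h4
      have h5 := Finset.card_le_card hDE
      by_cases h6 : D.card = 2
      · obtain ⟨x, y, hxy, hDxy⟩ := Finset.card_eq_two.1 h6
        have hx : x ∈ E := hDE (by rw [hDxy]; simp)
        have hy : y ∈ E := hDE (by rw [hDxy]; simp)
        rw [hDxy] at hD
        exact hEE x hx y hy hxy (Or.inr hD)
      · have h7 : D = E := Finset.eq_of_subset_of_card_le hDE (by omega)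
        have h8 := hcut.symmDiff hD
        rw [h7] at h8
        have h9 : symmDiff (insert c E) E ∩ Pos s = ∅ := by
          rw [Finset.eq_empty_iff_forall_notMem]
          intro x hx
          obtain ⟨hx1, hx2⟩ := Finset.mem_inter.1 hx
          rcases Finset.mem_symmDiff.1 hx1 with ⟨h12, h13⟩ | ⟨h12, h13⟩
          · have : x ∈ insert c E ∩ Pos s := Finset.mem_inter.2 ⟨h12, hx2⟩
            rw [hEP] at this
            exact h13 this
          · exact h13 (Finset.mem_insert_of_mem h12)
        have h10 := ph_cut_empty_of_card hs h8 (by rw [h9]; simp)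
        have h11 : c ∈ symmDiff (insert c E) E :=
          Finset.mem_symmDiff.2 (Or.inl ⟨Finset.mem_insert_self _ _, hcE⟩)
        rw [h10] at h11
        simp at h11
  rw [h2, h3, hFree, Finset.card_singleton] at h1
  push_cast at h1
  omega

theorem phi_iff (hP : S.IsPlanar χ) {s : ι → Bool} (hs : S.Sparse s) (hs' : S.Strict s)
    {A B : Finset ι} (hA : A ⊆ Pos s) :
    (B ⊆ S.Free s A ∧ S.expo s A B = S.topDeg s - 4) ↔
      (B = ∅ ∧ (A.image (S.key s)).card = 1) ∨
      (∃ c ∈ Neg s, B = {c} ∧ A.image (S.key s) ∈ S.quads s c) := by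
  constructor
  · rintro ⟨h1, h2⟩
    exact ph_phi_mp hP hs hs' hA h1 h2
  · rintro (⟨rfl, h⟩ | ⟨c, hc, rfl, h⟩)
    · exact ⟨Finset.empty_subset _, ph_phi_mpr_one hP hs hA h⟩
    · exact ph_phi_mpr_two hP hs hA hc h

theorem phi_sum (hP : S.IsPlanar χ) {s : ι → Bool} (hs : S.Sparse s) (hs' : S.Strict s) :
    (∑ A ∈ (Pos s).powerset, ∑ B ∈ (S.Free s A).powerset,
      if S.expo s A B = S.topDeg s - 4 then (-1 : ℤ) ^ (A.card + B.card) else 0) =
      -(((Pos s).image (S.key s)).card : ℤ) + ∑ c ∈ Neg s, ((S.quads s c).card : ℤ) := by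
  classical
  -- the inner sum
  have h1 : ∀ A ∈ (Pos s).powerset, (∑ B ∈ (S.Free s A).powerset,
      if S.expo s A B = S.topDeg s - 4 then (-1 : ℤ) ^ (A.card + B.card) else 0) =
      (∑ κ ∈ (Pos s).image (S.key s), if A.image (S.key s) = {κ} then (-1 : ℤ) ^ A.card else 0) -
      ∑ c ∈ Neg s, ∑ 𝒯 ∈ S.quads s c, if A.image (S.key s) = 𝒯 then (-1 : ℤ) ^ A.card else 0 := by
    intro A hA
    rw [Finset.mem_powerset] at hA
    have e1 : (∑ B ∈ (S.Free s A).powerset,
        if S.expo s A B = S.topDeg s - 4 then (-1 : ℤ) ^ (A.card + B.card) else 0) =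
        ∑ B ∈ (Finset.univ : Finset (Finset ι)),
          if (B ⊆ S.Free s A ∧ S.expo s A B = S.topDeg s - 4) then
            (-1 : ℤ) ^ (A.card + B.card) else 0 := by
      rw [← Finset.sum_filter, ← Finset.sum_filter]
      refine Finset.sum_congr ?_ fun _ _ => rfl
      ext B
      simp only [Finset.mem_filter, Finset.mem_powerset, Finset.mem_univ, true_and]
    have e2 : ∀ B : Finset ι, (if (B ⊆ S.Free s A ∧ S.expo s A B = S.topDeg s - 4) then
            (-1 : ℤ) ^ (A.card + B.card) else 0) =
        (if B = ∅ then (if (A.image (S.key s)).card = 1 then (-1 : ℤ) ^ A.card else 0) else 0) -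
        ∑ c ∈ Neg s, if B = {c} then
          (if A.image (S.key s) ∈ S.quads s c then (-1 : ℤ) ^ A.card else 0) else 0 := by
      intro B
      have hiff := phi_iff hP hs hs' (A := A) (B := B) hA
      rw [if_congr hiff rfl rfl]
      by_cases hB : B = ∅
      · subst hB
        have e3 : ∑ c ∈ Neg s, (if (∅ : Finset ι) = {c} then
            (if A.image (S.key s) ∈ S.quads s c then (-1 : ℤ) ^ A.card else 0) else 0) = 0 := by
          refine Finset.sum_eq_zero fun c _ => ?_
          rw [if_neg (Finset.singleton_ne_empty c).symm]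
        rw [e3, if_pos rfl, sub_zero]
        refine if_congr ?_ (by simp) rfl
        constructor
        · rintro (⟨_, h⟩ | ⟨c, _, h, _⟩)
          · exact h
          · exact absurd h.symm (Finset.singleton_ne_empty c)
        · exact fun h => Or.inl ⟨rfl, h⟩
      · rw [if_neg hB, zero_sub]
        by_cases hB1 : ∃ c ∈ Neg s, B = {c}
        · obtain ⟨c, hc, rfl⟩ := hB1
          rw [Finset.sum_eq_single c]
          · rw [if_pos rfl]
            by_cases hq : A.image (S.key s) ∈ S.quads s c
            · rw [if_pos hq, if_pos (Or.inr ⟨c, hc, rfl, hq⟩), Finset.card_singleton, pow_succ]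
              ring
            · rw [if_neg hq, if_neg]
              · simp
              · rintro (⟨h, _⟩ | ⟨d, _, h, h'⟩)
                · exact hB h
                · rw [Finset.singleton_inj] at h
                  subst h
                  exact hq h'
          · intro d _ hdc
            rw [if_neg]
            intro h
            rw [Finset.singleton_inj] at h
            exact hdc h.symm
          · intro h
            exact absurd hc h
        · rw [if_neg, Finset.sum_eq_zero, neg_zero]
          · intro c hc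
            rw [if_neg]
            exact fun h => hB1 ⟨c, hc, h⟩
          · rintro (⟨h, _⟩ | ⟨c, hc, h, _⟩)
            · exact hB h
            · exact hB1 ⟨c, hc, h⟩
    rw [e1, Finset.sum_congr rfl fun B _ => e2 B, Finset.sum_sub_distrib, Finset.sum_comm]
    have e4 : ∑ B : Finset ι, (if B = ∅ then
        (if (A.image (S.key s)).card = 1 then (-1 : ℤ) ^ A.card else 0) else 0) =
        ∑ κ ∈ (Pos s).image (S.key s),
          if A.image (S.key s) = {κ} then (-1 : ℤ) ^ A.card else 0 := by
      rw [Finset.sum_ite_eq', if_pos (Finset.mem_univ _)]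
      by_cases h1 : (A.image (S.key s)).card = 1
      · rw [if_pos h1]
        obtain ⟨κ, hκ⟩ := Finset.card_eq_one.1 h1
        have hκP : κ ∈ (Pos s).image (S.key s) := by
          apply Finset.image_subset_image hA
          rw [hκ]
          simp
        rw [hκ, Finset.sum_eq_single_of_mem κ hκP, if_pos rfl]
        intro κ' _ hne
        rw [if_neg]
        intro h
        rw [Finset.singleton_inj] at h
        exact hne h.symm
      · rw [if_neg h1, Finset.sum_eq_zero]
        intro κ _
        rw [if_neg]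
        intro h
        rw [h] at h1
        simp at h1
    have e5 : ∑ c ∈ Neg s, ∑ B : Finset ι, (if B = {c} then
        (if A.image (S.key s) ∈ S.quads s c then (-1 : ℤ) ^ A.card else 0) else 0) =
        ∑ c ∈ Neg s, ∑ 𝒯 ∈ S.quads s c,
          if A.image (S.key s) = 𝒯 then (-1 : ℤ) ^ A.card else 0 := by
      refine Finset.sum_congr rfl fun c _ => ?_
      rw [Finset.sum_ite_eq', if_pos (Finset.mem_univ _), Finset.sum_ite_eq]
    rw [e4]
    rw [e5]
  rw [Finset.sum_congr rfl h1, Finset.sum_sub_distrib, Finset.sum_comm]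
  have h2 : ∑ κ ∈ (Pos s).image (S.key s), ∑ A ∈ (Pos s).powerset,
      (if A.image (S.key s) = {κ} then (-1 : ℤ) ^ A.card else 0) =
      -(((Pos s).image (S.key s)).card : ℤ) := by
    rw [Finset.sum_congr rfl fun κ hκ =>
      sum_image_eq (Pos s) (S.key s) {κ} (Finset.singleton_subset_iff.2 hκ)]
    simp
  have h3 : ∑ A ∈ (Pos s).powerset, ∑ c ∈ Neg s, ∑ 𝒯 ∈ S.quads s c,
      (if A.image (S.key s) = 𝒯 then (-1 : ℤ) ^ A.card else 0) =
      -∑ c ∈ Neg s, ((S.quads s c).card : ℤ) := by
    rw [Finset.sum_comm, ← Finset.sum_neg_distrib]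
    refine Finset.sum_congr rfl fun c _ => ?_
    rw [Finset.sum_comm]
    have : ∀ 𝒯 ∈ S.quads s c, ∑ A ∈ (Pos s).powerset,
        (if A.image (S.key s) = 𝒯 then (-1 : ℤ) ^ A.card else 0) = -1 := by
      intro 𝒯 h𝒯
      rw [quads, Finset.mem_filter, Finset.mem_powerset] at h𝒯
      rw [sum_image_eq (Pos s) (S.key s) 𝒯 h𝒯.1, h𝒯.2.1]
      norm_num
    rw [Finset.sum_congr rfl this, Finset.sum_const]
    simp
  rw [h2, h3]
  ring

end Sys

end Pool.Agent.Helper16.Jones
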