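import Pool.Agent.Helper16.Jones.Unb1
import Pool.Agent.Helper16.Jones.Phi

set_option autoImplicit false
set_option linter.unusedSectionVars false

/-! # Classification of the sets contributing to the second coefficient (weak hypotheses) -/

namespace Pool.Agent.Helper16.Jones

open LaurentPolynomial Pool.Agent.Helper16.Knotoid

variable {ι R : Type} [Fintype ι] [DecidableEq ι] [Fintype R] [DecidableEq R]
  {S : Sys ι R} {χ : R → Bool}

namespace Sys

theorem inter_neg_of_pos {s : ι → Bool} {D : Finset ι} (h : D ⊆ Pos s) : D ∩ Neg s = ∅ := by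
  rw [Finset.eq_empty_iff_forall_notMem]
  intro x hx
  exact ph_Pos_not_Neg (h (Finset.mem_inter.1 hx).1) (Finset.mem_inter.1 hx).2

/-- cuts without negative crossings -/
theorem Weak1.zero {s : ι → Bool} (hs : S.Weak1 s) {D : Finset ι} (hD : S.PhCut s D)
    (hP : D ⊆ Pos s) (h : D.card ≤ 1) : D = ∅ := by
  obtain ⟨W, rfl⟩ := hD
  by_contra hne
  have h1 := inter_neg_of_pos hP
  have h2 := hs W (Finset.nonempty_iff_ne_empty.2 hne) (by rw [h1]; simp)
  rw [h1, Finset.inter_eq_left.2 hP] at h2
  simp at h2
  omega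

/-- cuts with exactly one negative crossing -/
theorem Weak1.one {s : ι → Bool} (hs : S.Weak1 s) {D : Finset ι} (hD : S.PhCut s D) {b : ι}
    (hb : b ∈ Neg s) (hbD : b ∈ D) (h : ∀ x ∈ D, x ≠ b → x ∈ Pos s) :
    3 ≤ (D.erase b).card := by
  obtain ⟨W, rfl⟩ := hD
  have h1 : S.cut s W ∩ Neg s = {b} := by
    ext x
    rw [Finset.mem_inter, Finset.mem_singleton]
    constructor
    · rintro ⟨h2, h3⟩
      by_contra hne
      exact ph_Pos_not_Neg (h x h2 hne) h3
    · rintro rfl
      exact ⟨hbD, hb⟩
  have h2 := hs W ⟨b, hbD⟩ (by rw [h1, Finset.card_singleton])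
  have h3 : S.cut s W ∩ Pos s ⊆ (S.cut s W).erase b := by
    intro x hx
    obtain ⟨h4, h5⟩ := Finset.mem_inter.1 hx
    exact Finset.mem_erase.2 ⟨fun h6 => ph_Pos_not_Neg h5 (h6 ▸ hb), h4⟩
  have h4 := Finset.card_le_card h3
  rw [h1, Finset.card_singleton] at h2
  omega

theorem par_colour_w (hP : S.IsPlanar χ) {s : ι → Bool} (hs : S.Weak1 s) {e f : ι}
    (he : e ∈ Pos s) (h : S.Par s e f) : χ (S.p e (s e)).1 = χ (S.p f (s f)).1 := by
  by_contra hne
  rcases h with h | h
  · exact hne (by rw [h])
  have hc := ph_isCut_colour hP h (χ (S.p e (s e)).1)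
  have h2 : ({e, f} : Finset ι).filter (fun c => χ (S.p c (s c)).1 = χ (S.p e (s e)).1) = {e} := by
    ext x
    rw [Finset.mem_filter, Finset.mem_insert, Finset.mem_singleton, Finset.mem_singleton]
    constructor
    · rintro ⟨rfl | rfl, hx⟩
      · rfl
      · exact absurd hx.symm hne
    · rintro rfl
      exact ⟨Or.inl rfl, rfl⟩
  rw [h2] at hc
  have h3 := hs.zero hc (Finset.singleton_subset_iff.2 he) (by simp)
  simp at h3

/-! ### the rank -/

theorem two_card_sub_ex (hP : S.IsPlanar χ) (s : ι → Bool) (Y : Finset ι) :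
    2 * (Y.card : ℤ) - S.ex s Y = 2 * S.phrk s Y +
      (2 * (S.cl (off s Y) : ℤ) - S.full (sw s Y) - Y.card - S.full s) := by
  have h1 := ex_add hP s Y
  unfold ex phrk
  omega

theorem defect_nonneg (hP : S.IsPlanar χ) (s : ι → Bool) (Y : Finset ι) :
    0 ≤ 2 * (S.cl (off s Y) : ℤ) - S.full (sw s Y) - Y.card - S.full s := by
  have h := loop_bound hP s Y
  omega

theorem ex_exact (hP : S.IsPlanar χ) {s : ι → Bool} {Y : Finset ι}
    (hcol : ∀ c ∈ Y, ∀ d ∈ Y, χ (S.p c (s c)).1 = χ (S.p d (s d)).1) :
    2 * (Y.card : ℤ) - S.ex s Y = 2 * S.phrk s Y := by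
  have h1 := two_card_sub_ex hP s Y
  have h2 := loop_exact hP s Y hcol
  omega

theorem rk_singleton {s : ι → Bool} (hs : S.Weak1 s) {a : ι} (ha : a ∈ Pos s) :
    S.phrk s {a} = 1 := by
  rw [ph_rk_indep, Finset.card_singleton]
  · rfl
  · intro D hD hDa
    apply hs.zero hD (hDa.trans (Finset.singleton_subset_iff.2 ha))
    exact (Finset.card_le_card hDa).trans (by simp)

theorem exa_zero_lt (hP : S.IsPlanar χ) {s : ι → Bool} (hs : S.Weak1 s) {Y : Finset ι}
    (hY : Y ⊆ Pos s) (hne : Y.Nonempty) : S.ex s Y + 2 ≤ 2 * Y.card := by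
  obtain ⟨a, ha⟩ := hne
  have h1 := rk_singleton hs (hY ha)
  have h2 : S.phrk s {a} ≤ S.phrk s Y := ph_rk_mono (Finset.singleton_subset_iff.2 ha)
  have h3 := two_card_sub_ex hP s Y
  have h4 := defect_nonneg hP s Y
  omega

/-- two positive crossings of a set of rank one are parallel -/
theorem par_of_pair {s : ι → Bool} (hs : S.Weak1 s) {a b : ι} (ha : a ∈ Pos s) (hb : b ∈ Pos s)
    (h : ¬ S.Bridge s {a} b) : S.Par s a b := by
  by_cases hab : a = b
  · exact Or.inl hab
  obtain ⟨D, hD, hDab, hbD⟩ := ph_not_bridge_iff.1 h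
  right
  have hDP : D ⊆ Pos s := by
    intro x hx
    have := hDab hx
    rw [Finset.mem_insert, Finset.mem_singleton] at this
    rcases this with rfl | rfl
    · exact hb
    · exact ha
  have hDe : D = {a, b} := by
    apply Finset.Subset.antisymm
    · intro x hx
      have := hDab hx
      rw [Finset.mem_insert, Finset.mem_singleton] at this
      rw [Finset.mem_insert, Finset.mem_singleton]
      exact this.symm
    · intro x hx
      rw [Finset.mem_insert, Finset.mem_singleton] at hx
      rcases hx with rfl | rfl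
      · by_contra hxD
        have hD1 : D ⊆ {b} := by
          intro y hy
          have := hDab hy
          rw [Finset.mem_insert, Finset.mem_singleton] at this
          rcases this with rfl | rfl
          · simp
          · exact absurd hy hxD
        have := hs.zero hD hDP ((Finset.card_le_card hD1).trans (by simp))
        rw [this] at hbD
        simp at hbD
      · exact hbD
  rw [← hDe]
  exact hD

theorem exa_one_iff (hP : S.IsPlanar χ) {s : ι → Bool} (hs : S.Weak1 s) {Y : Finset ι}
    (hY : Y ⊆ Pos s) : S.ex s Y + 2 = 2 * Y.card ↔ (Y.image (S.key s)).card = 1 := by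
  constructor
  · intro h
    have hne : Y.Nonempty := by
      rw [Finset.nonempty_iff_ne_empty]
      rintro rfl
      simp at h
    obtain ⟨a, ha⟩ := hne
    have h1 := rk_singleton hs (hY ha)
    have h3 := two_card_sub_ex hP s Y
    have h4 := defect_nonneg hP s Y
    have h2 : S.phrk s {a} ≤ S.phrk s Y := ph_rk_mono (Finset.singleton_subset_iff.2 ha)
    rw [Finset.card_eq_one]
    refine ⟨S.key s a, ?_⟩
    ext κ
    rw [Finset.mem_image, Finset.mem_singleton]
    constructor
    · rintro ⟨b, hb, rfl⟩
      rw [ph_key_eq_iff (hY ha)]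
      by_cases hab : b = a
      · exact Or.inl hab
      apply ph_par_symm
      apply par_of_pair hs (hY ha) (hY hb)
      intro hbr
      have h5 := ph_rk_insert_bridge (S := S) (s := s) (Y := {a}) (c := b) (by simpa using hab) hbr
      have h6 : S.phrk s (insert b {a}) ≤ S.phrk s Y :=
        ph_rk_mono (Finset.insert_subset hb (Finset.singleton_subset_iff.2 ha))
      omega
    · rintro rfl
      exact ⟨a, ha, rfl⟩
  · intro h
    obtain ⟨κ, hκ⟩ := Finset.card_eq_one.1 h
    have hAne : Y.Nonempty := by
      rw [Finset.nonempty_iff_ne_empty]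
      rintro rfl
      simp at h
    obtain ⟨a, ha⟩ := hAne
    have hpar : ∀ f ∈ Y, S.Par s a f := by
      intro f hf
      rw [← ph_key_eq_iff (hY hf)]
      have h1 : S.key s a ∈ Y.image (S.key s) := Finset.mem_image_of_mem _ ha
      have h2 : S.key s f ∈ Y.image (S.key s) := Finset.mem_image_of_mem _ hf
      rw [hκ, Finset.mem_singleton] at h1 h2
      rw [h1, h2]
    have h1 := ex_exact hP (s := s) (Y := Y) (by
      intro c hc d hd
      rw [← par_colour_w hP hs (hY ha) (hpar c hc), ← par_colour_w hP hs (hY ha) (hpar d hd)])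
    have h2 : S.phrk s Y = S.phrk s {a} := by
      apply ph_rk_span (Finset.singleton_subset_iff.2 ha)
      intro y hy hya
      have hne : a ≠ y := fun h => hya (by simp [h])
      refine ⟨{a, y}, (hpar y hy).resolve_left hne, ?_, by simp⟩
      rw [Finset.pair_comm]
    rw [h2, rk_singleton hs (hY ha)] at h1
    omega

/-- a minimal cycle through the negative crossing `b` -/
theorem exists_min_cycle (hP : S.IsPlanar χ) {s : ι → Bool} (hs : S.Weak1 s) {Y : Finset ι}
    (hY : Y ⊆ Pos s) {b : ι} (hb : b ∈ Neg s) (h : S.ex s (insert b Y) = S.ex s Y + 2) :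
    ∃ E : Finset ι, E ⊆ Y ∧ S.PhCut s (insert b E) ∧ 3 ≤ E.card ∧
      (∀ D, S.PhCut s D → D ⊆ E → D = ∅) := by
  have hbY : b ∉ Y := fun h' => ph_Pos_not_Neg (hY h') hb
  have hnb : ¬ S.Bridge s Y b := by
    intro hbr
    have := ex_insert_bridge hP hbY hbr
    omega
  obtain ⟨D₀, hD₀, hD₀', hbD₀⟩ := ph_not_bridge_iff.1 hnb
  classical
  obtain ⟨D, hD, hmin⟩ := Finset.exists_min_image
    ((insert b Y).powerset.filter fun D => S.PhCut s D ∧ b ∈ D) Finset.card
    ⟨D₀, Finset.mem_filter.2 ⟨Finset.mem_powerset.2 hD₀', hD₀, hbD₀⟩⟩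
  rw [Finset.mem_filter, Finset.mem_powerset] at hD
  obtain ⟨hDY, hDc, hbD⟩ := hD
  have hEY : D.erase b ⊆ Y := by
    intro x hx
    obtain ⟨h1, h2⟩ := Finset.mem_erase.1 hx
    exact (Finset.mem_insert.1 (hDY h2)).resolve_left h1
  refine ⟨D.erase b, hEY, by rwa [Finset.insert_erase hbD], ?_, ?_⟩
  · exact hs.one hDc hb hbD fun x hx hne => hY (hEY (Finset.mem_erase.2 ⟨hne, hx⟩))
  · intro D' hD' hD'E
    by_contra hne
    have h1 := hDc.symmDiff hD'
    have h2 : symmDiff D D' = D \ D' := by
      ext x
      rw [Finset.mem_symmDiff, Finset.mem_sdiff]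
      constructor
      · rintro (h3 | ⟨h3, h4⟩)
        · exact h3
        · exact absurd (Finset.mem_of_mem_erase (hD'E h3)) h4
      · exact Or.inl
    rw [h2] at h1
    have h3 : b ∈ D \ D' := Finset.mem_sdiff.2 ⟨hbD, fun h4 => Finset.notMem_erase b D (hD'E h4)⟩
    have h4 := hmin (D \ D') (Finset.mem_filter.2 ⟨Finset.mem_powerset.2
      (Finset.sdiff_subset.trans hDY), h1, h3⟩)
    have h5 : (D \ D').card < D.card := by
      apply Finset.card_lt_card
      rw [Finset.ssubset_iff_subset_ne]
      refine ⟨Finset.sdiff_subset, fun h6 => hne ?_⟩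
      rw [Finset.eq_empty_iff_forall_notMem]
      intro x hx
      have h7 : x ∈ D := Finset.mem_of_mem_erase (hD'E hx)
      rw [← h6, Finset.mem_sdiff] at h7
      exact h7.2 hx
    omega

theorem exa_three_le (hP : S.IsPlanar χ) {s : ι → Bool} (hs : S.Weak1 s) {Y : Finset ι}
    (hY : Y ⊆ Pos s) {b : ι} (hb : b ∈ Neg s) (h : S.ex s (insert b Y) = S.ex s Y + 2) :
    S.ex s Y + 6 ≤ 2 * Y.card := by
  obtain ⟨E, hEY, -, hE3, hE⟩ := exists_min_cycle hP hs hY hb h
  have h1 := ph_rk_indep hE
  have h2 : S.phrk s E ≤ S.phrk s Y := ph_rk_mono hEY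
  have h3 := two_card_sub_ex hP s Y
  have h4 := defect_nonneg hP s Y
  omega

open Classical in
theorem exa_three_iff (hP : S.IsPlanar χ) {s : ι → Bool} (hs : S.Weak1 s) {Y : Finset ι}
    (hY : Y ⊆ Pos s) {b : ι} (hb : b ∈ Neg s) :
    (S.ex s (insert b Y) = S.ex s Y + 2 ∧ S.ex s Y + 6 = 2 * Y.card) ↔
      Y.image (S.key s) ∈ S.quads s b := by
  have hbY : b ∉ Y := fun h' => ph_Pos_not_Neg (hY h') hb
  constructor
  · rintro ⟨h, h6⟩
    obtain ⟨E, hEY, hcut, hE3, hE⟩ := exists_min_cycle hP hs hY hb h
    have h1 := ph_rk_indep hE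
    have h2 : S.phrk s E ≤ S.phrk s Y := ph_rk_mono hEY
    have h3 := two_card_sub_ex hP s Y
    have h4 := defect_nonneg hP s Y
    have hEc : E.card = 3 := by omega
    have hrk : S.phrk s Y = S.phrk s E := by omega
    have hbE : b ∉ E := fun h' => hbY (hEY h')
    -- every crossing of `Y` is parallel to one of `E`
    have hpar : ∀ y ∈ Y, ∃ e ∈ E, S.Par s e y := by
      intro y hy
      by_cases hyE : y ∈ E
      · exact ⟨y, hyE, Or.inl rfl⟩
      have hnb : ¬ S.Bridge s E y := by
        intro hbr
        have h5 := ph_rk_insert_bridge (S := S) hyE hbr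
        have h7 : S.phrk s (insert y E) ≤ S.phrk s Y := ph_rk_mono (Finset.insert_subset hy hEY)
        omega
      obtain ⟨D, hD, hDE, hyD⟩ := ph_not_bridge_iff.1 hnb
      have hDP : D ⊆ Pos s := hDE.trans (Finset.insert_subset (hY hy) (hEY.trans hY))
      -- the other cycle
      have h5 := hD.symmDiff hcut
      have hyb : y ≠ b := fun h' => hbY (h' ▸ hy)
      have hbD : b ∉ D := fun h' => ph_Pos_not_Neg (hDP h') hb
      have h7 := hs.one h5 hb (Finset.mem_symmDiff.2 (Or.inr ⟨Finset.mem_insert_self b E, hbD⟩))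
        (by
          intro x hx hxb
          rcases Finset.mem_symmDiff.1 hx with ⟨h8, -⟩ | ⟨h8, -⟩
          · exact hDP h8
          · exact hY (hEY ((Finset.mem_insert.1 h8).resolve_left hxb)))
      have h8 : (symmDiff D (insert b E)).erase b = insert y (E \ D) := by
        ext x
        rw [Finset.mem_erase, Finset.mem_symmDiff, Finset.mem_insert, Finset.mem_insert,
          Finset.mem_sdiff]
        constructor
        · rintro ⟨h9, ⟨h10, h11⟩ | ⟨h10, h11⟩⟩
          · left
            rcases Finset.mem_insert.1 (hDE h10) with h12 | h12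
            · exact h12
            · exact absurd (Or.inr h12) h11
          · exact Or.inr ⟨h10.resolve_left h9, h11⟩
        · rintro (rfl | ⟨h9, h10⟩)
          · exact ⟨hyb, Or.inl ⟨hyD, by rintro (h9 | h9); exacts [hyb h9, hyE h9]⟩⟩
          · exact ⟨fun h11 => hbE (h11 ▸ h9), Or.inr ⟨Or.inr h9, h10⟩⟩
      rw [h8, Finset.card_insert_of_notMem (fun h9 => hyE (Finset.mem_sdiff.1 h9).1)] at h7
      have h9 : (D \ {y}) ⊆ E := by
        intro x hx
        rw [Finset.mem_sdiff, Finset.mem_singleton] at hx
        exact (Finset.mem_insert.1 (hDE hx.1)).resolve_left hx.2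
      have h10 : (E \ D).card + (D \ {y}).card ≤ 3 := by
        rw [← hEc, ← Finset.card_union_of_disjoint]
        · apply Finset.card_le_card
          exact Finset.union_subset Finset.sdiff_subset h9
        · rw [Finset.disjoint_left]
          intro x hx hx'
          exact (Finset.mem_sdiff.1 hx).2 (Finset.mem_sdiff.1 hx').1
      have h11 : (D \ {y}).card + 1 = D.card := by
        rw [Finset.sdiff_singleton_eq_erase, Finset.card_erase_of_mem hyD]
        have := Finset.card_pos.2 ⟨y, hyD⟩
        omega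
      have h12 : ¬ D.card ≤ 1 := by
        intro h13
        have := hs.zero hD hDP h13
        rw [this] at hyD
        simp at hyD
      have h13 : (D \ {y}).card = 1 := by omega
      obtain ⟨e, he⟩ := Finset.card_eq_one.1 h13
      have h14 : D = {e, y} := by
        have h15 : D = insert y (D \ {y}) := by
          rw [Finset.sdiff_singleton_eq_erase, Finset.insert_erase hyD]
        rw [h15, he, Finset.pair_comm]
      refine ⟨e, h9 (by rw [he]; exact Finset.mem_singleton_self e), Or.inr ?_⟩
      rw [← h14]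
      exact hD
    obtain ⟨e₁, e₂, e₃, n12, n13, n23, hE123⟩ := Finset.card_eq_three.1 hEc
    have m1 : e₁ ∈ E := by rw [hE123]; simp
    have m2 : e₂ ∈ E := by rw [hE123]; simp
    have m3 : e₃ ∈ E := by rw [hE123]; simp
    have hk : ∀ x ∈ E, ∀ y ∈ E, x ≠ y → S.key s x ≠ S.key s y := by
      intro x hx y hy hxy hk
      have h5 := (ph_key_eq_iff (hY (hEY hy))).1 hk
      have h7 := hE _ (h5.resolve_left hxy) (by
        intro z hz
        rw [Finset.mem_insert, Finset.mem_singleton] at hz
        rcases hz with rfl | rfl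
        · exact hx
        · exact hy)
      exact absurd h7 (Finset.insert_ne_empty _ _)
    have himg : Y.image (S.key s) = {S.key s e₁, S.key s e₂, S.key s e₃} := by
      ext κ
      rw [Finset.mem_image, Finset.mem_insert, Finset.mem_insert, Finset.mem_singleton]
      constructor
      · rintro ⟨y, hy, rfl⟩
        obtain ⟨e, he, hp⟩ := hpar y hy
        have h5 := (ph_key_eq_iff (hY hy)).2 hp
        rw [← h5]
        rw [hE123, Finset.mem_insert, Finset.mem_insert, Finset.mem_singleton] at he
        rcases he with rfl | rfl | rfl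
        · exact Or.inl rfl
        · exact Or.inr (Or.inl rfl)
        · exact Or.inr (Or.inr rfl)
      · rintro (rfl | rfl | rfl)
        · exact ⟨e₁, hEY m1, rfl⟩
        · exact ⟨e₂, hEY m2, rfl⟩
        · exact ⟨e₃, hEY m3, rfl⟩
    rw [quads, Finset.mem_filter, Finset.mem_powerset]
    refine ⟨Finset.image_subset_image hY, ?_, e₁, hY (hEY m1), e₂, hY (hEY m2), e₃, hY (hEY m3),
      himg, ?_⟩
    · rw [himg]
      exact Finset.card_eq_three.2 ⟨_, _, _, hk e₁ m1 e₂ m2 n12, hk e₁ m1 e₃ m3 n13,
        hk e₂ m2 e₃ m3 n23, rfl⟩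
    · rw [hE123] at hcut
      exact hcut
  · intro h
    obtain ⟨E, hEA, hE3, hcut, hAE, hEE⟩ := ph_quad_in hY hb h
    have hbE : b ∉ E := fun h => ph_Pos_not_Neg (hY (hEA h)) hb
    -- independence of `E`
    have hrkE : S.phrk s E = 3 := by
      rw [ph_rk_indep, hE3]
      · rfl
      · intro D hD hDE
        by_contra hne
        have hDP : D ⊆ Pos s := (hDE.trans hEA).trans hY
        have h5 := Finset.card_le_card hDE
        have h4 : ¬ D.card ≤ 1 := fun h' => hne (hs.zero hD hDP h')
        by_cases h6 : D.card = 2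
        · obtain ⟨x, y, hxy, hDxy⟩ := Finset.card_eq_two.1 h6
          have hx : x ∈ E := hDE (by rw [hDxy]; simp)
          have hy : y ∈ E := hDE (by rw [hDxy]; simp)
          rw [hDxy] at hD
          exact hEE x hx y hy hxy (Or.inr hD)
        · have h7 : D = E := Finset.eq_of_subset_of_card_le hDE (by omega)
          have h8 := hcut.symmDiff hD
          rw [h7] at h8
          have h9 : symmDiff (insert b E) E = {b} := by
            ext x
            rw [Finset.mem_symmDiff, Finset.mem_insert, Finset.mem_singleton]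
            constructor
            · rintro (⟨h10 | h10, h11⟩ | ⟨h10, h11⟩)
              · exact h10
              · exact absurd h10 h11
              · exact absurd (Or.inr h10) h11
            · rintro rfl
              exact Or.inl ⟨Or.inl rfl, hbE⟩
          rw [h9] at h8
          have h10 := hs.one h8 hb (Finset.mem_singleton_self b) (by
            intro x hx hxb
            exact absurd (Finset.mem_singleton.1 hx) hxb)
          simp at h10
    -- the colours
    have hcolE : ∀ x ∈ insert b E, χ (S.p x (s x)).1 = χ (S.p b (s b)).1 := by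
      have h1 := ph_isCut_colour hP hcut (χ (S.p b (s b)).1)
      set C := (insert b E).filter fun x => χ (S.p x (s x)).1 = χ (S.p b (s b)).1 with hC
      have hbC : b ∈ C := Finset.mem_filter.2 ⟨Finset.mem_insert_self _ _, rfl⟩
      have h2 := hs.one h1 hb hbC (by
        intro x hx hxb
        exact hY (hEA ((Finset.mem_insert.1 (Finset.mem_filter.1 hx).1).resolve_left hxb)))
      have h3 : C.erase b ⊆ E := by
        intro x hx
        obtain ⟨h4, h5⟩ := Finset.mem_erase.1 hx
        exact (Finset.mem_insert.1 (Finset.mem_filter.1 h5).1).resolve_left h4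
      have h5 : C.erase b = E := Finset.eq_of_subset_of_card_le h3 (by omega)
      intro x hx
      rcases Finset.mem_insert.1 hx with rfl | hx
      · rfl
      · rw [← h5] at hx
        exact (Finset.mem_filter.1 (Finset.mem_erase.1 hx).2).2
    have hcol : ∀ x ∈ insert b Y, χ (S.p x (s x)).1 = χ (S.p b (s b)).1 := by
      intro x hx
      rcases Finset.mem_insert.1 hx with rfl | hx
      · rfl
      · obtain ⟨e, he, hp⟩ := hAE x hx
        rw [← par_colour_w hP hs (hY (hEA he)) hp]
        exact hcolE e (Finset.mem_insert_of_mem he)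
    have h1 := ex_exact hP (s := s) (Y := insert b Y)
      (fun x hx y hy => (hcol x hx).trans (hcol y hy).symm)
    have h2 := ex_exact hP (s := s) (Y := Y)
      (fun x hx y hy => (hcol x (Finset.mem_insert_of_mem hx)).trans
        (hcol y (Finset.mem_insert_of_mem hy)).symm)
    have h3 : S.phrk s Y = S.phrk s E := by
      apply ph_rk_span hEA
      intro y hy hyE
      obtain ⟨e, he, hp⟩ := hAE y hy
      have hne : e ≠ y := fun h => hyE (h ▸ he)
      refine ⟨{e, y}, hp.resolve_left hne, ?_, by simp⟩
      rw [Finset.pair_comm]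
      exact Finset.insert_subset_insert _ (Finset.singleton_subset_iff.2 he)
    have h4 : S.phrk s (insert b Y) = S.phrk s Y := by
      apply ph_rk_insert_not_bridge
      exact ph_not_bridge_iff.2 ⟨_, hcut, Finset.insert_subset_insert _ hEA,
        Finset.mem_insert_self _ _⟩
    rw [Finset.card_insert_of_notMem hbY] at h1
    push_cast at h1
    constructor <;> omega

end Sys

end Pool.Agent.Helper16.Jones
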