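import Pool.Agent.Helper16.Jones.Unb1
import Pool.Agent.Helper16.Jones.UnbClass

set_option autoImplicit false
set_option linter.unusedSectionVars false

/-! # The second coefficient of the resummed bracket -/

namespace Pool.Agent.Helper16.Jones

open LaurentPolynomial Pool.Agent.Helper16.Knotoid

/-- the polynomial `1 + A⁻⁴` -/
noncomputable def uu : LaurentPolynomial ℤ := 1 + T (-4)

theorem coeff_uu_succ (M : ℕ) (j : ℤ) :
    (uu ^ (M + 1)).coeff j = (uu ^ M).coeff j + (uu ^ M).coeff (j + 4) := by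
  have h : uu ^ (M + 1) = uu ^ M + T (-4) * uu ^ M := by
    rw [pow_succ, uu]; ring
  have h2 : ∀ p q : LaurentPolynomial ℤ, (p + q).coeff j = p.coeff j + q.coeff j :=
    fun _ _ => rfl
  rw [h, h2, coeff_T_mul, sub_neg_eq_add]

theorem coeff_uu_pos (M : ℕ) : ∀ j : ℤ, 0 < j → (uu ^ M).coeff j = 0 := by
  induction M with
  | zero =>
    intro j hj
    rw [pow_zero, ← T_zero, T_apply, if_neg (by omega)]
  | succ M ih =>
    intro j hj
    rw [coeff_uu_succ, ih j hj, ih (j + 4) (by omega), add_zero]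

theorem coeff_uu_zero (M : ℕ) : (uu ^ M).coeff 0 = 1 := by
  induction M with
  | zero => rw [pow_zero, ← T_zero, T_apply, if_pos rfl]
  | succ M ih => rw [coeff_uu_succ, ih, coeff_uu_pos M _ (by norm_num), add_zero]

theorem coeff_uu_four (M : ℕ) : (uu ^ M).coeff (-4) = M := by
  induction M with
  | zero =>
    rw [pow_zero, ← T_zero, T_apply, if_neg (by norm_num)]
    rfl
  | succ M ih =>
    rw [coeff_uu_succ, ih, show (-4 : ℤ) + 4 = 0 by norm_num, coeff_uu_zero]
    push_cast
    ring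

theorem coeff_sign_mul (k : ℕ) (p : LaurentPolynomial ℤ) (j : ℤ) :
    ((-1) ^ k * p).coeff j = (-1) ^ k * p.coeff j := by
  rcases neg_one_pow_eq_or (LaurentPolynomial ℤ) k with h | h
  · have h' : (-1 : ℤ) ^ k = 1 := by
      rcases neg_one_pow_eq_or ℤ k with h1 | h1
      · exact h1
      · exfalso
        have h2 : Odd k := by
          by_contra h3
          rw [Nat.not_odd_iff_even] at h3
          rw [h3.neg_one_pow] at h1
          norm_num at h1
        rw [h2.neg_one_pow] at h
        have h3 := congrArg (fun p : LaurentPolynomial ℤ => p.coeff 0) h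
        have h4 : (1 : LaurentPolynomial ℤ).coeff 0 = 1 := by
          rw [← T_zero, T_apply, if_pos rfl]
        have h5 : (-1 : LaurentPolynomial ℤ).coeff 0 = -((1 : LaurentPolynomial ℤ).coeff 0) := rfl
        rw [h5, h4] at h3
        norm_num at h3
    rw [h, h', one_mul, one_mul]
  · have h' : (-1 : ℤ) ^ k = -1 := by
      rcases neg_one_pow_eq_or ℤ k with h1 | h1
      · exfalso
        have h2 : Even k := by
          by_contra h3
          rw [Nat.not_even_iff_odd] at h3
          rw [h3.neg_one_pow] at h1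
          norm_num at h1
        rw [h2.neg_one_pow] at h
        have h3 := congrArg (fun p : LaurentPolynomial ℤ => p.coeff 0) h
        have h4 : (1 : LaurentPolynomial ℤ).coeff 0 = 1 := by
          rw [← T_zero, T_apply, if_pos rfl]
        have h5 : (-1 : LaurentPolynomial ℤ).coeff 0 = -((1 : LaurentPolynomial ℤ).coeff 0) := rfl
        rw [h5, h4] at h3
        norm_num at h3
      · exact h1
    rw [h, h', neg_mul, one_mul, neg_mul, one_mul]
    rfl

theorem dd_even (N : ℕ) : dd ^ (2 * N) = T (4 * (N : ℤ)) * uu ^ (2 * N) := by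
  have h : dd ^ 2 = T 4 * uu ^ 2 := by
    have e1 : (T 2 : LaurentPolynomial ℤ) * T 2 = T 4 := by rw [← T_add]; norm_num
    have e2 : (T 2 : LaurentPolynomial ℤ) * T (-2) = 1 := by rw [← T_add]; norm_num
    have e3 : (T (-2) : LaurentPolynomial ℤ) * T (-2) = T (-4) := by rw [← T_add]; norm_num
    have e4 : (T 4 : LaurentPolynomial ℤ) * T (-4) = 1 := by rw [← T_add]; norm_num
    unfold dd uu
    linear_combination e1 + 2 * e2 + e3 - (2 + T (-4)) * e4
  rw [pow_mul, h, mul_pow, pow_mul]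
  congr 1
  induction N with
  | zero => simp
  | succ N ih =>
    rw [pow_succ, ih, ← T_add]
    congr 1

section

variable {ι R : Type} [Fintype ι] [DecidableEq ι] [Fintype R] [DecidableEq R]

namespace Sys

variable {S : Sys ι R} {χ : R → Bool}

theorem ex_even (hP : S.IsPlanar χ) (s : ι → Bool) (Y : Finset ι) : ∃ N, S.ex s Y = 2 * N := by
  induction Y using Finset.induction_on with
  | empty => exact ⟨0, by rw [ex_empty]⟩
  | insert c Y hc ih =>
    obtain ⟨N, hN⟩ := ih
    rcases ex_insert hP (s := s) hc with h | h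
    · exact ⟨N, by omega⟩
    · exact ⟨N + 1, by omega⟩

theorem prod_wt_pos {s : ι → Bool} {Y : Finset ι} (hY : Y ⊆ Pos s) :
    ∏ c ∈ Y, wt s c = T (-4 * (Y.card : ℤ)) := by
  rw [prod_wt]
  congr 2
  unfold sg
  have h1 : Y ∩ Pos s = Y := Finset.inter_eq_left.2 hY
  have h2 : Y ∩ Neg s = ∅ := by
    ext c
    simp only [Finset.mem_inter, Finset.notMem_empty, iff_false, not_and]
    intro hc hc'
    have h3 := (Finset.mem_filter.1 (hY hc)).2
    have h4 := (Finset.mem_filter.1 hc').2
    rw [h3] at h4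
    exact absurd h4 (by decide)
  rw [h1, h2]
  simp

theorem prod_one_wt {s : ι → Bool} {Y : Finset ι} (hY : Y ⊆ Pos s) :
    ∏ c ∈ Pos s \ Y, (1 + wt s c) = uu ^ ((Pos s).card - Y.card) := by
  rw [← Finset.card_sdiff_of_subset hY, ← Finset.prod_const]
  refine Finset.prod_congr rfl fun c hc => ?_
  have h1 := (Finset.mem_filter.1 (Finset.mem_sdiff.1 hc).1).2
  unfold wt uu
  rw [if_pos h1]

/-- the terms of the first sum -/
theorem coeff_term_pos {s : ι → Bool} {Y : Finset ι} (hY : Y ⊆ Pos s) {N : ℕ}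
    (hN : S.ex s Y = 2 * N) (j : ℤ) :
    (((-1) ^ Y.card * dd ^ S.ex s Y) * (∏ c ∈ Y, wt s c) * ∏ c ∈ Pos s \ Y, (1 + wt s c)).coeff j =
      (-1) ^ Y.card * (uu ^ (2 * N + ((Pos s).card - Y.card))).coeff (j + 4 * Y.card - 4 * N) := by
  rw [prod_wt_pos hY, prod_one_wt hY, hN, dd_even]
  have h1 : ((-1) ^ Y.card * (T (4 * (N : ℤ)) * uu ^ (2 * N)) * T (-4 * (Y.card : ℤ)) *
      uu ^ ((Pos s).card - Y.card) : LaurentPolynomial ℤ) =
      (-1) ^ Y.card * (T (4 * (N : ℤ) + -4 * (Y.card : ℤ)) *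
        uu ^ (2 * N + ((Pos s).card - Y.card))) := by
    rw [T_add, pow_add]
    ring
  rw [h1, coeff_sign_mul, coeff_T_mul]
  congr 2
  ring

open Classical in
theorem sum_pos (hP : S.IsPlanar χ) {s : ι → Bool} (hs : S.Weak1 s) :
    (∑ Z ∈ (Pos s).powerset, (∏ c ∈ Z, wt s c) * S.hh s Z).coeff (-4) =
      ((Pos s).card : ℤ) - ((Pos s).image (S.key s)).card := by
  unfold hh
  rw [resum, coeff_sum_apply]
  have h1 : ∀ Y ∈ (Pos s).powerset, (((-1) ^ Y.card * dd ^ S.ex s Y) * (∏ c ∈ Y, wt s c) *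
      ∏ c ∈ Pos s \ Y, (1 + wt s c) : LaurentPolynomial ℤ).coeff (-4) =
      (if Y = ∅ then ((Pos s).card : ℤ) else 0) +
      ∑ κ ∈ (Pos s).image (S.key s), if Y.image (S.key s) = {κ} then (-1 : ℤ) ^ Y.card else 0 := by
    intro Y hY
    rw [Finset.mem_powerset] at hY
    obtain ⟨N, hN⟩ := ex_even hP s Y
    rw [coeff_term_pos hY hN]
    rcases Y.eq_empty_or_nonempty with rfl | hne
    · have hN0 : N = 0 := by
        rw [ex_empty] at hN
        omega
      subst hN0
      rw [if_pos rfl, Finset.sum_eq_zero, add_zero, Finset.card_empty]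
      · have e : (-4 : ℤ) + 4 * ((0 : ℕ) : ℤ) - 4 * ((0 : ℕ) : ℤ) = -4 := by norm_num
        rw [e, coeff_uu_four]
        simp
      · intro κ _
        rw [if_neg]
        rw [Finset.image_empty]
        exact (Finset.singleton_ne_empty κ).symm
    · have h2 := exa_zero_lt hP hs hY hne
      rw [if_neg hne.ne_empty, zero_add]
      by_cases h3 : S.ex s Y + 2 = 2 * Y.card
      · have h4 := (exa_one_iff hP hs hY).1 h3
        obtain ⟨κ, hκ⟩ := Finset.card_eq_one.1 h4
        rw [Finset.sum_eq_single κ, if_pos hκ]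
        · have e : (-4 : ℤ) + 4 * (Y.card : ℤ) - 4 * (N : ℤ) = 0 := by omega
          rw [e, coeff_uu_zero, mul_one]
        · intro κ' _ hne'
          rw [if_neg]
          rw [hκ]
          intro h
          exact hne' (Finset.singleton_injective h).symm
        · intro hκ'
          exfalso
          apply hκ'
          have h5 : κ ∈ Y.image (S.key s) := by rw [hκ]; exact Finset.mem_singleton_self κ
          exact Finset.image_subset_image hY h5
      · rw [coeff_uu_pos _ _ (by omega), mul_zero, Finset.sum_eq_zero]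
        intro κ _
        rw [if_neg]
        intro h
        exact h3 ((exa_one_iff hP hs hY).2 (by rw [h, Finset.card_singleton]))
  rw [Finset.sum_congr rfl h1, Finset.sum_add_distrib, Finset.sum_ite_eq' (Pos s).powerset ∅,
    if_pos (Finset.empty_mem_powerset _), Finset.sum_comm]
  have h2 : ∀ κ ∈ (Pos s).image (S.key s), (∑ Y ∈ (Pos s).powerset,
      if Y.image (S.key s) = {κ} then (-1 : ℤ) ^ Y.card else 0) = -1 := by
    intro κ hκ
    rw [sum_image_eq (Pos s) (S.key s) {κ} (Finset.singleton_subset_iff.2 hκ),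
      Finset.card_singleton, pow_one]
  rw [Finset.sum_congr rfl h2, Finset.sum_const, nsmul_eq_mul]
  ring

open Classical in
theorem sum_neg_one (hP : S.IsPlanar χ) {s : ι → Bool} (hs : S.Weak1 s) {b : ι} (hb : b ∈ Neg s) :
    (∑ Z ∈ (Pos s).powerset, (∏ c ∈ insert b Z, wt s c) * S.hh s (insert b Z)).coeff (-4) =
      ((S.quads s b).card : ℤ) := by
  have hbs : s b = false := (Finset.mem_filter.1 hb).2
  have hbP : ∀ Y ⊆ Pos s, b ∉ Y := by
    intro Y hY h
    have := (Finset.mem_filter.1 (hY h)).2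
    rw [hbs] at this
    exact absurd this (by decide)
  have h1 : ∀ Z ∈ (Pos s).powerset, (∏ c ∈ insert b Z, wt s c) * S.hh s (insert b Z) =
      T 4 * ((∏ c ∈ Z, wt s c) * ∑ Y ∈ Z.powerset,
        (-1) ^ Y.card * (dd ^ S.ex s Y - dd ^ S.ex s (insert b Y))) := by
    intro Z hZ
    rw [Finset.mem_powerset] at hZ
    have hbZ := hbP Z hZ
    rw [Finset.prod_insert hbZ]
    unfold hh
    rw [Finset.sum_powerset_insert hbZ, ← Finset.sum_add_distrib]
    have h2 : ∀ Y ∈ Z.powerset, ((-1) ^ Y.card * dd ^ S.ex s Y +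
        (-1) ^ (insert b Y).card * dd ^ S.ex s (insert b Y) : LaurentPolynomial ℤ) =
        (-1) ^ Y.card * (dd ^ S.ex s Y - dd ^ S.ex s (insert b Y)) := by
      intro Y hY
      rw [Finset.card_insert_of_notMem (hbP Y ((Finset.mem_powerset.1 hY).trans hZ)), pow_succ]
      ring
    rw [Finset.sum_congr rfl h2]
    have h3 : wt s b = T 4 := by
      unfold wt
      rw [hbs]
      simp
    rw [h3]
    ring
  rw [Finset.sum_congr rfl h1, ← Finset.mul_sum, resum, Finset.mul_sum, coeff_sum_apply]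
  have h4 : ∀ Y ∈ (Pos s).powerset, (T 4 * ((-1) ^ Y.card *
      (dd ^ S.ex s Y - dd ^ S.ex s (insert b Y)) * (∏ c ∈ Y, wt s c) *
      ∏ c ∈ Pos s \ Y, (1 + wt s c)) : LaurentPolynomial ℤ).coeff (-4) =
      -∑ 𝒯 ∈ S.quads s b, if Y.image (S.key s) = 𝒯 then (-1 : ℤ) ^ Y.card else 0 := by
    intro Y hY
    rw [Finset.mem_powerset] at hY
    obtain ⟨N, hN⟩ := ex_even hP s Y
    have hkey : (∑ 𝒯 ∈ S.quads s b, if Y.image (S.key s) = 𝒯 then (-1 : ℤ) ^ Y.card else 0) =
        if Y.image (S.key s) ∈ S.quads s b then (-1 : ℤ) ^ Y.card else 0 := by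
      rw [Finset.sum_ite_eq]
    rw [hkey]
    rcases ex_insert hP (s := s) (hbP Y hY) with h | h
    · rw [h, sub_self, mul_zero, zero_mul, zero_mul, mul_zero, if_neg]
      · rw [neg_zero]; rfl
      · intro h'
        have := ((exa_three_iff hP hs hY hb).2 h').1
        omega
    · have h5 := exa_three_le hP hs hY hb h
      have h6 : (T 4 * ((-1) ^ Y.card * (dd ^ S.ex s Y - dd ^ S.ex s (insert b Y)) *
          (∏ c ∈ Y, wt s c) * ∏ c ∈ Pos s \ Y, (1 + wt s c)) : LaurentPolynomial ℤ) =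
          -(T 8 * ((-1) ^ Y.card * dd ^ S.ex s Y * (∏ c ∈ Y, wt s c) *
              ∏ c ∈ Pos s \ Y, (1 + wt s c))) -
          T 4 * ((-1) ^ Y.card * dd ^ S.ex s Y * (∏ c ∈ Y, wt s c) *
              ∏ c ∈ Pos s \ Y, (1 + wt s c)) -
          T 0 * ((-1) ^ Y.card * dd ^ S.ex s Y * (∏ c ∈ Y, wt s c) *
              ∏ c ∈ Pos s \ Y, (1 + wt s c)) := by
        rw [h, pow_add]
        have e1 : (T 2 : LaurentPolynomial ℤ) * T 2 = T 4 := by rw [← T_add]; norm_num
        have e2 : (T 2 : LaurentPolynomial ℤ) * T (-2) = 1 := by rw [← T_add]; norm_num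
        have e3 : (T (-2) : LaurentPolynomial ℤ) * T (-2) = T (-4) := by rw [← T_add]; norm_num
        have e4 : (T 4 : LaurentPolynomial ℤ) * T (-4) = 1 := by rw [← T_add]; norm_num
        have e5 : (T 4 : LaurentPolynomial ℤ) * T 4 = T 8 := by rw [← T_add]; norm_num
        have e6 : (T 4 : LaurentPolynomial ℤ) * (1 - dd ^ 2) = -T 8 - T 4 - T 0 := by
          unfold dd
          rw [T_zero]
          linear_combination -(T 4) * e1 - 2 * T 4 * e2 - T 4 * e3 - e4 - e5
        linear_combination ((-1) ^ Y.card * dd ^ S.ex s Y * (∏ c ∈ Y, wt s c) *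
              ∏ c ∈ Pos s \ Y, (1 + wt s c)) * e6
      have h7 : ∀ p q : LaurentPolynomial ℤ, (p - q).coeff (-4) = p.coeff (-4) - q.coeff (-4) :=
        fun _ _ => rfl
      have h8 : ∀ p : LaurentPolynomial ℤ, (-p).coeff (-4) = -p.coeff (-4) := fun _ => rfl
      rw [h6, h7, h7, h8, coeff_T_mul, coeff_T_mul, coeff_T_mul, coeff_term_pos hY hN,
        coeff_term_pos hY hN, coeff_term_pos hY hN]
      rw [coeff_uu_pos _ (-4 - 4 + 4 * (Y.card : ℤ) - 4 * (N : ℤ)) (by omega),
        coeff_uu_pos _ (-4 - 0 + 4 * (Y.card : ℤ) - 4 * (N : ℤ)) (by omega)]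
      by_cases h9 : S.ex s Y + 6 = 2 * Y.card
      · rw [if_pos ((exa_three_iff hP hs hY hb).1 ⟨h, h9⟩),
          show (-4 : ℤ) - 8 + 4 * (Y.card : ℤ) - 4 * (N : ℤ) = 0 by omega, coeff_uu_zero]
        ring
      · rw [if_neg, coeff_uu_pos _ (-4 - 8 + 4 * (Y.card : ℤ) - 4 * (N : ℤ)) (by omega)]
        · ring
        · intro h'
          exact h9 ((exa_three_iff hP hs hY hb).2 h').2
  rw [Finset.sum_congr rfl h4, Finset.sum_neg_distrib, Finset.sum_comm]
  have h5 : ∀ 𝒯 ∈ S.quads s b, (∑ Y ∈ (Pos s).powerset,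
      if Y.image (S.key s) = 𝒯 then (-1 : ℤ) ^ Y.card else 0) = -1 := by
    intro 𝒯 h𝒯
    have h6 := (Finset.mem_filter.1 h𝒯)
    rw [sum_image_eq (Pos s) (S.key s) 𝒯 (Finset.mem_powerset.1 h6.1), h6.2.1]
    norm_num
  rw [Finset.sum_congr rfl h5, Finset.sum_const, nsmul_eq_mul]
  ring

/-- splitting the sum over the sets with at most one negative crossing -/
theorem sum_split {M : Type*} [AddCommMonoid M] (s : ι → Bool) (F : Finset ι → M) :
    ∑ Z ∈ (Finset.univ : Finset ι).powerset.filter (fun Z => (Z ∩ Neg s).card ≤ 1), F Z =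
      ∑ Z ∈ (Pos s).powerset, F Z + ∑ b ∈ Neg s, ∑ Z ∈ (Pos s).powerset, F (insert b Z) := by
  classical
  have hPN : ∀ c, c ∈ Pos s ↔ c ∉ Neg s := by
    intro c
    unfold Pos Neg
    simp only [Finset.mem_filter, Finset.mem_univ, true_and]
    cases s c <;> simp
  rw [← Finset.sum_product' (Neg s) (Pos s).powerset fun b Z => F (insert b Z)]
  have h1 : (Finset.univ : Finset ι).powerset.filter (fun Z => (Z ∩ Neg s).card ≤ 1) =
      (Pos s).powerset ∪ ((Neg s) ×ˢ (Pos s).powerset).image (fun x => insert x.1 x.2) := by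
    ext Z
    simp only [Finset.mem_filter, Finset.mem_powerset, Finset.subset_univ, true_and,
      Finset.mem_union, Finset.mem_image, Finset.mem_product, Prod.exists]
    constructor
    · intro h
      rcases Nat.lt_or_ge (Z ∩ Neg s).card 1 with h2 | h2
      · left
        intro c hc
        rw [hPN]
        intro hc'
        have h3 : c ∈ Z ∩ Neg s := Finset.mem_inter.2 ⟨hc, hc'⟩
        have h4 := Finset.card_pos.2 ⟨c, h3⟩
        omega
      · right
        obtain ⟨b, hb⟩ := Finset.card_eq_one.1 (le_antisymm h h2)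
        have hbm : b ∈ Z ∩ Neg s := by rw [hb]; exact Finset.mem_singleton_self b
        refine ⟨b, Z.erase b, ⟨(Finset.mem_inter.1 hbm).2, ?_⟩,
          Finset.insert_erase (Finset.mem_inter.1 hbm).1⟩
        intro c hc
        rw [hPN]
        intro hc'
        have h3 : c ∈ Z ∩ Neg s := Finset.mem_inter.2 ⟨Finset.mem_of_mem_erase hc, hc'⟩
        rw [hb, Finset.mem_singleton] at h3
        exact (Finset.ne_of_mem_erase hc) h3
    · rintro (h | ⟨b, Z', ⟨hb, hZ'⟩, rfl⟩)
      · have h2 : Z ∩ Neg s = ∅ := by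
          ext c
          simp only [Finset.mem_inter, Finset.notMem_empty, iff_false, not_and]
          intro hc
          exact (hPN c).1 (h hc)
        rw [h2]
        simp
      · have h2 : insert b Z' ∩ Neg s ⊆ {b} := by
          intro c hc
          rw [Finset.mem_inter, Finset.mem_insert] at hc
          rcases hc.1 with h3 | h3
          · rw [h3]; exact Finset.mem_singleton_self b
          · exact absurd hc.2 ((hPN c).1 (hZ' h3))
        exact (Finset.card_le_card h2).trans (by simp)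
  rw [h1, Finset.sum_union, Finset.sum_image]
  · intro x hx y hy hxy
    simp only [Finset.coe_product, Finset.coe_powerset, Set.mem_prod, Finset.mem_coe,
      Set.mem_preimage, Set.mem_powerset_iff, Finset.coe_subset] at hx hy
    replace hxy : insert x.1 x.2 = insert y.1 y.2 := hxy
    have hx1 : x.1 ∉ x.2 := fun h => (hPN _).1 (hx.2 h) hx.1
    have hy1 : y.1 ∉ y.2 := fun h => (hPN _).1 (hy.2 h) hy.1
    have h2 : x.1 = y.1 := by
      have h3 : x.1 ∈ insert y.1 y.2 := by rw [← hxy]; exact Finset.mem_insert_self _ _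
      rcases Finset.mem_insert.1 h3 with h4 | h4
      · exact h4
      · exact absurd hx.1 ((hPN _).1 (hy.2 h4))
    have h3 : x.2 = y.2 := by
      have h4 := congrArg (fun U => Finset.erase U x.1) hxy
      rw [Finset.erase_insert hx1, h2, Finset.erase_insert hy1] at h4
      exact h4
    exact Prod.ext h2 h3
  · rw [Finset.disjoint_left]
    intro Z hZ hZ'
    rw [Finset.mem_powerset] at hZ
    rw [Finset.mem_image] at hZ'
    obtain ⟨x, hx, rfl⟩ := hZ'
    exact (hPN _).1 (hZ (Finset.mem_insert_self _ _)) (Finset.mem_product.1 hx).1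

open Classical in
theorem weak_sum (hP : S.IsPlanar χ) {s : ι → Bool} (hs : S.Weak1 s) :
    (∑ Z ∈ (Finset.univ : Finset ι).powerset.filter
      (fun Z => (Z ∩ Neg s).card ≤ 1), (∏ c ∈ Z, wt s c) * S.hh s Z).coeff (-4) =
      ((Pos s).card : ℤ) - ((Pos s).image (S.key s)).card +
        ∑ c ∈ Neg s, ((S.quads s c).card : ℤ) := by
  have h2 : ∀ p q : LaurentPolynomial ℤ, (p + q).coeff (-4) = p.coeff (-4) + q.coeff (-4) :=
    fun _ _ => rfl
  rw [sum_split, h2, sum_pos hP hs, coeff_sum_apply]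
  congr 1
  exact Finset.sum_congr rfl fun b hb => sum_neg_one hP hs hb

end Sys

end

end Pool.Agent.Helper16.Jones
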