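import Mathlib

set_option autoImplicit false

/-!
# Knot diagrams as planar Gauss diagrams, Kauffman states and their state graphs

An oriented knot diagram with `n` crossings is recorded by its signed Gauss diagram: starting from a
base point on an edge, the knot goes `2n` times through a crossing (the passages `0, …, 2n-1`), each
crossing having one over-passage and one under-passage, and every crossing has a sign.  The base
point and the passages cut the knot into the pieces `0, …, 2n`: passage `p` comes after piece `p`
(`p.castSucc`) and before piece `p+1` (`p.succ`), and the pieces `0` and `2n` are the two parts of
the edge containing the base point.  The diagram so described lies in `S²` if and only if its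
regions, computed from the rotation system at the crossings, number `n+2` (Euler's formula with `n`
vertices and `2n` edges).
-/

namespace Pool.Agent.Helper16.Jones

open LaurentPolynomial

/-- The signed Gauss diagram of an oriented knot diagram with `n` crossings. -/
structure KnotDiagram (n : ℕ) where
  /-- `pos (c, true)` / `pos (c, false)`: the passage (number `0, …, 2n-1` along the knot from the
  base point) at which the knot runs over / under at the crossing `c`. -/
  pos : Fin n × Bool ≃ Fin (2 * n)
  /-- `true` if the crossing is positive, `false` if it is negative -/
  sign : Fin n → Bool

namespace KnotDiagram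

variable {n : ℕ} (D : KnotDiagram n)

/-- The passage at which the over-strand goes through crossing `c`. -/
def overPass (c : Fin n) : Fin (2 * n) := D.pos (c, true)

/-- The passage at which the under-strand goes through crossing `c`. -/
def underPass (c : Fin n) : Fin (2 * n) := D.pos (c, false)

/-- `D.Join s a b`: the state `s` (`true` = `A`-smoothing, `false` = `B`-smoothing) joins an end of
piece `a` to an end of piece `b`, at the base point or at some crossing.  At a positive crossing the
`A`-smoothing, at a negative crossing the `B`-smoothing, is the one respecting the orientation: it
joins the piece arriving at one passage to the piece leaving the other passage.  The other smoothing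
joins the two arriving pieces, and the two leaving pieces. -/
inductive Join (s : Fin n → Bool) : Fin (2 * n + 1) → Fin (2 * n + 1) → Prop
  | base : Join s 0 (Fin.last (2 * n))
  | oriented₁ (c : Fin n) (h : s c = D.sign c) : Join s (D.overPass c).castSucc (D.underPass c).succ
  | oriented₂ (c : Fin n) (h : s c = D.sign c) : Join s (D.underPass c).castSucc (D.overPass c).succ
  | unoriented₁ (c : Fin n) (h : s c ≠ D.sign c) :
      Join s (D.overPass c).castSucc (D.underPass c).castSucc
  | unoriented₂ (c : Fin n) (h : s c ≠ D.sign c) : Join s (D.overPass c).succ (D.underPass c).succ

/-- The circles of the state `s`. -/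
abbrev Circle (s : Fin n → Bool) : Type := Quot (D.Join s)

/-- The number `|s|` of circles of the state `s`. -/
noncomputable def circles (s : Fin n → Bool) : ℕ := Nat.card (D.Circle s)

/-- `σ(s)`: the number of `A`-smoothings minus the number of `B`-smoothings. -/
def stateSign {n : ℕ} (s : Fin n → Bool) : ℤ := ∑ c, if s c then 1 else -1

/-- The bracket polynomial `⟨D⟩ = ∑_s A^{σ(s)} (-A²-A⁻²)^{|s|-1}`, with `A = T 1`. -/
noncomputable def bracket : LaurentPolynomial ℤ :=
  ∑ s : Fin n → Bool, T (stateSign s) * (-T 2 - T (-2)) ^ (D.circles s - 1)

/-- The writhe, the sum of the crossing signs. -/
def writhe : ℤ := ∑ c, if D.sign c then 1 else -1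

/-- The f-polynomial `f = (-A³)^{-w} ⟨D⟩ = (-A⁻³)^w ⟨D⟩`. -/
noncomputable def fPoly : LaurentPolynomial ℤ :=
  (-1) ^ D.writhe.natAbs * T (-3 * D.writhe) * D.bracket

/-- The passage of crossing `c` which is crossed from right to left by the other passage: the
over-passage if the crossing is positive, the under-passage if it is negative. -/
def fst (c : Fin n) : Fin (2 * n) := D.pos (c, D.sign c)

/-- The passage of crossing `c` which is crossed from left to right by the other passage. -/
def snd (c : Fin n) : Fin (2 * n) := D.pos (c, !D.sign c)

/-- Sides of pieces: `(k, true)` is the left side and `(k, false)` the right side of piece `k`.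
`D.Corner x y`: the sides `x` and `y` meet at a corner of the diagram or at the base point.
Heading north at the passage `fst c`, the other strand `snd c` goes from east to west; the four
corners are SW, NW, NE, SE in this order. -/
inductive Corner : Fin (2 * n + 1) × Bool → Fin (2 * n + 1) × Bool → Prop
  | base (b : Bool) : Corner (0, b) (Fin.last (2 * n), b)
  | sw (c : Fin n) : Corner ((D.fst c).castSucc, true) ((D.snd c).succ, true)
  | nw (c : Fin n) : Corner ((D.fst c).succ, true) ((D.snd c).succ, false)
  | ne (c : Fin n) : Corner ((D.fst c).succ, false) ((D.snd c).castSucc, false)
  | se (c : Fin n) : Corner ((D.fst c).castSucc, false) ((D.snd c).castSucc, true)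

/-- The number of regions of the diagram. -/
noncomputable def regions : ℕ := Nat.card (Quot D.Corner)

/-- The Gauss diagram is that of a knot diagram in `S²` (Euler characteristic `2`). -/
def Planar : Prop := D.regions = n + 2

/-- One of the two circles of the state `s` which the crossing `c` connects in the state graph, the
one containing the piece arriving at the over-passage. -/
def end₁ (s : Fin n → Bool) (c : Fin n) : D.Circle s := Quot.mk _ (D.overPass c).castSucc

/-- The other circle which the crossing `c` connects in the state graph, the one containing the
piece leaving the over-passage. -/
def end₂ (s : Fin n → Bool) (c : Fin n) : D.Circle s := Quot.mk _ (D.overPass c).succ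

open Classical in
/-- The set `C` of crossings is an even subgraph of the state graph of `s` (vertices: the circles of
`s`; edges: the crossings), i.e. a union of edge-disjoint cycles. -/
def IsEven (s : Fin n → Bool) (C : Finset (Fin n)) : Prop :=
  ∀ q : D.Circle s, Even ((C.filter fun c => D.end₁ s c = q).card +
    (C.filter fun c => D.end₂ s c = q).card)

/-- The number of crossings of `C` at which the smoothing of `s` is of type `X`
(`true` = `A`, `false` = `B`). -/
def num {n : ℕ} (s : Fin n → Bool) (X : Bool) (C : Finset (Fin n)) : ℕ :=
  (C.filter fun c => s c = X).card

/-- The state `s` is `X`-sparse: every cycle of its state graph contains at least two more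
smoothings of type `X` than of the other type.  (In terms of even subgraphs; these are the unions of
edge-disjoint cycles.) -/
def Sparse (X : Bool) (s : Fin n → Bool) : Prop :=
  ∀ C : Finset (Fin n), C.Nonempty → D.IsEven s C → num s (!X) C + 2 ≤ num s X C

/-- The state `s` is strictly `X`-sparse: it is `X`-sparse, and the cycles containing at least two
smoothings of the other type contain at least three more smoothings of type `X`. -/
def StrictlySparse (X : Bool) (s : Fin n → Bool) : Prop :=
  D.Sparse X s ∧ ∀ C : Finset (Fin n), D.IsEven s C → 2 ≤ num s (!X) C →
    num s (!X) C + 3 ≤ num s X C

/-- The Gauss word: the crossings in the order in which the knot goes through them. -/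
def word : List (Fin n) := List.ofFn fun p : Fin (2 * n) => (D.pos.symm p).1

end KnotDiagram

/-- A word is `R1Trivial` if it is obtained from the empty word by inserting successively pairs
`a a` of equal adjacent letters.  For the word of a knot diagram this says that the diagram is
obtained from the circle without crossings by Reidemeister moves of type I. -/
inductive R1Trivial {α : Type*} : List α → Prop
  | nil : R1Trivial []
  | insert (u v : List α) (a : α) : R1Trivial (u ++ v) → R1Trivial (u ++ a :: a :: v)

end Pool.Agent.Helper16.Jones
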