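import Pool.Agent.Helper16.Jones.Defs
import Pool.Agent.Helper16.Knotoid.Switch
import Pool.Agent.Helper16.Knotoid.R1
import Pool.Agent.Helper16.Knotoid.Even

set_option autoImplicit false

/-!
# Knot diagrams and their long versions
-/

namespace Pool.Agent.Helper16.Jones

open LaurentPolynomial Module Pool.Agent.Helper16.Knotoid
open Pool.Agent.Helper16.Knotoid.GaussDiagram (jump jump_over_under)

namespace KnotDiagram

variable {n : ℕ} (D : KnotDiagram n)

/-- the same data as a knotoid diagram -/
def long : GaussDiagram n := ⟨D.pos, D.sign⟩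

theorem long_fst (c : Fin n) : D.long.fst c = D.fst c := rfl
theorem long_snd (c : Fin n) : D.long.snd c = D.snd c := rfl
theorem long_over (c : Fin n) : D.long.overPass c = D.overPass c := rfl
theorem long_under (c : Fin n) : D.long.underPass c = D.underPass c := rfl

/-- corner functions as long corner functions -/
theorem mem_long {ψ : Fin (2 * n + 1) × Bool → ZMod 2} (hψ : ψ ∈ compat D.Corner)
    (h0 : ψ (0, true) = ψ (0, false)) : ψ ∈ compat D.long.Corner := by
  rw [mem_compat] at hψ ⊢
  intro a b hab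
  cases hab with
  | tail => exact h0
  | head => rw [← hψ _ _ (Corner.base true), ← hψ _ _ (Corner.base false), h0]
  | sw c => exact hψ _ _ (Corner.sw c)
  | nw c => exact hψ _ _ (Corner.nw c)
  | ne c => exact hψ _ _ (Corner.ne c)
  | se c => exact hψ _ _ (Corner.se c)

/-- the closed corner functions without jump at the base point -/
def U : Submodule (ZMod 2) (Fin (2 * n + 1) × Bool → ZMod 2) :=
  compat D.Corner ⊓ compat D.long.Corner

theorem finrank_long_le : finrank (ZMod 2) (compat D.long.Corner) ≤ n + 1 := by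
  have h2 : finrank (ZMod 2) (LinearMap.ker D.long.jumpMap) ≤ 1 := by
    set ev0 : LinearMap.ker D.long.jumpMap →ₗ[ZMod 2] ZMod 2 :=
      { toFun := fun ψ => ψ.1.1 (0, true)
        map_add' := fun _ _ => rfl
        map_smul' := fun _ _ => rfl } with hev
    have hinj : Function.Injective ev0 := by
      rw [← LinearMap.ker_eq_bot, LinearMap.ker_eq_bot']
      intro ψ hψ
      have hψ' : ψ.1.1 (0, true) = 0 := hψ
      have hk := LinearMap.mem_ker.1 ψ.2
      have := D.long.const_of_jump ψ.1.2 (fun c => congrFun hk c)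
      apply Subtype.ext
      apply Subtype.ext
      funext ⟨k, b⟩
      rw [this k b, hψ']
      rfl
    have := LinearMap.finrank_le_finrank_of_injective hinj
    rw [finrank_self] at this
    exact this
  have h3 := LinearMap.finrank_range_add_finrank_ker D.long.jumpMap
  have h5 : finrank (ZMod 2) (LinearMap.range D.long.jumpMap) ≤
      finrank (ZMod 2) (Fin n → ZMod 2) := Submodule.finrank_le _
  rw [finrank_fintype_fun_eq_card, Fintype.card_fin] at h5
  omega

variable {D}

theorem finrank_corner (hD : D.Planar) : finrank (ZMod 2) (compat D.Corner) = n + 2 := by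
  rw [finrank_compat]
  exact hD

/-- the functional `ψ ↦ jump ψ 0` -/
def jump0 (D : KnotDiagram n) : compat D.Corner →ₗ[ZMod 2] ZMod 2 where
  toFun ψ := jump ψ.1 0
  map_add' φ ψ := by
    simp only [jump, Submodule.coe_add, Pi.add_apply]
    ring
  map_smul' a ψ := by
    simp only [jump, Submodule.coe_smul, Pi.smul_apply, smul_eq_mul, RingHom.id_apply]
    ring

theorem add_eq_zero_iff {a b : ZMod 2} : a + b = 0 ↔ a = b := by
  revert a b
  decide

/-- the kernel of `jump0` embeds into the long corner functions -/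
noncomputable def kerEmb (D : KnotDiagram n) :
    LinearMap.ker (jump0 D) →ₗ[ZMod 2] compat D.long.Corner where
  toFun ψ := ⟨ψ.1.1, D.mem_long ψ.1.2 (add_eq_zero_iff.1 (LinearMap.mem_ker.1 ψ.2))⟩
  map_add' _ _ := rfl
  map_smul' _ _ := rfl

theorem kerEmb_inj : Function.Injective (kerEmb D) := by
  intro a b h
  apply Subtype.ext
  apply Subtype.ext
  have h1 : (kerEmb D a).1 = (kerEmb D b).1 := congrArg Subtype.val h
  exact h1

theorem finrank_ker_jump0 (hD : D.Planar) :
    finrank (ZMod 2) (LinearMap.ker (jump0 D)) = n + 1 ∧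
      finrank (ZMod 2) (compat D.long.Corner) = n + 1 ∧
      ∃ ψ ∈ compat D.Corner, jump ψ 0 = 1 := by
  have h1 := LinearMap.finrank_range_add_finrank_ker (jump0 D)
  rw [finrank_corner hD] at h1
  have h2 : finrank (ZMod 2) (LinearMap.range (jump0 D)) ≤ 1 := by
    have := Submodule.finrank_le (LinearMap.range (jump0 D))
    rwa [finrank_self] at this
  have h3 := LinearMap.finrank_le_finrank_of_injective (kerEmb_inj (D := D))
  have h4 := D.finrank_long_le
  refine ⟨by omega, by omega, ?_⟩
  have h5 : finrank (ZMod 2) (LinearMap.range (jump0 D)) = 1 := by omega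
  have h6 : LinearMap.range (jump0 D) = ⊤ := by
    apply Submodule.eq_top_of_finrank_eq
    rw [h5, finrank_self]
  obtain ⟨ψ, hψ⟩ := LinearMap.range_eq_top.1 h6 1
  exact ⟨ψ.1, ψ.2, hψ⟩

theorem long_planar (hD : D.Planar) : D.long.Planar := by
  have := (finrank_ker_jump0 hD).2.1
  rw [finrank_compat] at this
  exact this

/-- long corner functions are corner functions -/
theorem long_mem (hD : D.Planar) {ψ : Fin (2 * n + 1) × Bool → ZMod 2}
    (hψ : ψ ∈ compat D.long.Corner) : ψ ∈ compat D.Corner := by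
  have h := finrank_ker_jump0 hD
  have h1 : LinearMap.range (kerEmb D) = ⊤ := by
    apply Submodule.eq_top_of_finrank_eq
    rw [LinearMap.finrank_range_of_inj kerEmb_inj, h.1, h.2.1]
  obtain ⟨φ, hφ⟩ := LinearMap.range_eq_top.1 h1 ⟨ψ, hψ⟩
  have h2 : φ.1.1 = ψ := congrArg Subtype.val hφ
  rw [← h2]
  exact φ.1.2

theorem long_region (hD : D.Planar) : D.long.tailRegion = D.long.headRegion := by
  classical
  by_contra hne
  set ψ : Fin (2 * n + 1) × Bool → ZMod 2 :=
    fun y => if Quot.mk D.long.Corner y = D.long.tailRegion then 1 else 0 with hψ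
  have hc : ψ ∈ compat D.long.Corner := by
    rw [mem_compat]
    intro a b hab
    rw [hψ]
    simp only
    rw [Quot.sound hab]
  have h1 := (mem_compat.1 (long_mem hD hc)) _ _ (Corner.base true)
  have h2 : ψ (0, true) = 1 := by
    rw [hψ]
    exact if_pos rfl
  have h3 : ψ (Fin.last (2 * n), true) = 0 := by
    rw [hψ]
    exact if_neg fun h' => hne h'.symm
  rw [h2, h3] at h1
  exact absurd h1 (by decide)

/-- the join relations of the closed and of the long diagram have the same functions -/
theorem compat_join (s : Fin n → Bool) : compat (D.Join s) = compat (D.long.Join s) := by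
  apply le_antisymm
  · intro φ hφ
    rw [mem_compat] at hφ ⊢
    intro a b hab
    cases hab with
    | oriented₁ c h => exact hφ _ _ (Join.oriented₁ c h)
    | oriented₂ c h => exact hφ _ _ (Join.oriented₂ c h)
    | unoriented₁ c h => exact hφ _ _ (Join.unoriented₁ c h)
    | unoriented₂ c h => exact hφ _ _ (Join.unoriented₂ c h)
  · intro φ hφ
    have hφ' := hφ
    rw [D.long.compat_join s, arcCond_eq_map D.long.pass_inj] at hφ'
    rw [mem_compat] at hφ ⊢
    intro a b hab
    cases hab with
    | base =>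
      obtain ⟨z, -, hz⟩ := hφ'
      rw [← hz, arcParam_apply, arcParam_apply]
      unfold arcFun
      congr 1
      refine Finset.sum_congr rfl fun f _ => ?_
      unfold cnt
      have h1 := (D.long.overPass f).2
      have h2 := (D.long.underPass f).2
      simp only [Fin.val_zero, Fin.val_last, not_lt_zero, if_false, h1, h2, if_true]
      congr 1
    | oriented₁ c h => exact hφ _ _ (GaussDiagram.Join.oriented₁ c h)
    | oriented₂ c h => exact hφ _ _ (GaussDiagram.Join.oriented₂ c h)
    | unoriented₁ c h => exact hφ _ _ (GaussDiagram.Join.unoriented₁ c h)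
    | unoriented₂ c h => exact hφ _ _ (GaussDiagram.Join.unoriented₂ c h)

theorem circles_eq (s : Fin n → Bool) : D.circles s = D.long.comps s := by
  rw [D.long.comps_eq_finrank, ← compat_join, finrank_compat]
  rfl

theorem circles_pos (s : Fin n → Bool) : 1 ≤ D.circles s := by
  rw [circles_eq]
  exact D.long.comps_pos s

theorem circles_switch (hD : D.Planar) (s : Fin n → Bool) (c : Fin n) :
    D.circles (Function.update s c (!(s c))) ≠ D.circles s := by
  have h := D.long.switch_dim (long_planar hD) (long_region hD) s c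
  rw [circles_eq, circles_eq]
  unfold GaussDiagram.swc at h
  omega

variable (D) in
/-- the change of the jump at a crossing -/
def chg (ψ : Fin (2 * n + 1) × Bool → ZMod 2) (c : Fin n) : ZMod 2 :=
  jump ψ (D.overPass c).castSucc + jump ψ (D.overPass c).succ

theorem chg_fst {ψ : Fin (2 * n + 1) × Bool → ZMod 2} (hψ : ψ ∈ compat D.Corner) (c : Fin n) :
    jump ψ (D.fst c).castSucc + jump ψ (D.fst c).succ =
      jump ψ (D.snd c).castSucc + jump ψ (D.snd c).succ := by
  rw [mem_compat] at hψ
  unfold jump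
  rw [hψ _ _ (Corner.sw c), hψ _ _ (Corner.nw c), hψ _ _ (Corner.ne c), hψ _ _ (Corner.se c)]
  ring

theorem chg_under {ψ : Fin (2 * n + 1) × Bool → ZMod 2} (hψ : ψ ∈ compat D.Corner) (c : Fin n) :
    D.chg ψ c = jump ψ (D.underPass c).castSucc + jump ψ (D.underPass c).succ := by
  have h := chg_fst hψ c
  unfold fst snd at h
  unfold chg overPass underPass
  cases hs : D.sign c
  · rw [hs] at h
    exact h.symm
  · rw [hs] at h
    exact h

/-- the jump function of a corner function -/
theorem jump_eq {ψ : Fin (2 * n + 1) × Bool → ZMod 2} (hψ : ψ ∈ compat D.Corner) :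
    ∀ k : ℕ, ∀ hk : k < 2 * n + 1, jump ψ ⟨k, hk⟩ =
      arcFun D.overPass D.underPass (jump ψ 0) (D.chg ψ) k := by
  intro k
  induction k with
  | zero =>
    intro hk
    rw [arcFun_zero]
    rfl
  | succ k ih =>
    intro hk
    have ih' := ih (by omega)
    have hk' : k < 2 * n := by omega
    have e1 : ∀ p : Fin (2 * n), (p : ℕ) = k → (⟨k, by omega⟩ : Fin (2 * n + 1)) = p.castSucc :=
      fun p hp => by
      ext
      simp [hp]
    have e2 : ∀ p : Fin (2 * n), (p : ℕ) = k → (⟨k + 1, hk⟩ : Fin (2 * n + 1)) = p.succ :=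
      fun p hp => by
      ext
      simp [hp]
    have key : ∀ a b : ZMod 2, b = a + (a + b) := by decide
    rcases D.long.pass_surj ⟨k, hk'⟩ with ⟨c, hc⟩ | ⟨c, hc⟩
    · have hp : (D.overPass c : ℕ) = k := by
        rw [← long_over, hc]
      have h := arcFun_succ_P D.long.pass_inj (jump ψ 0) (D.chg ψ) c
      rw [long_over, hp] at h
      have h' : arcFun D.overPass D.underPass (jump ψ 0) (D.chg ψ) (k + 1) =
        arcFun D.overPass D.underPass (jump ψ 0) (D.chg ψ) k + D.chg ψ c := h
      rw [h', ← ih', e1 _ hp, e2 _ hp]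
      exact key _ _
    · have hp : (D.underPass c : ℕ) = k := by
        rw [← long_under, hc]
      have h := arcFun_succ_Q D.long.pass_inj (jump ψ 0) (D.chg ψ) c
      rw [long_under, hp] at h
      have h' : arcFun D.overPass D.underPass (jump ψ 0) (D.chg ψ) (k + 1) =
        arcFun D.overPass D.underPass (jump ψ 0) (D.chg ψ) k + D.chg ψ c := h
      rw [h', ← ih', e1 _ hp, e2 _ hp, chg_under hψ c]
      exact key _ _

theorem jump_add (ψ φ : Fin (2 * n + 1) × Bool → ZMod 2) (k : Fin (2 * n + 1)) :
    jump (ψ + φ) k = jump ψ k + jump φ k := by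
  simp only [jump, Pi.add_apply]
  ring

/-- corner functions with prescribed jumps -/
theorem exists_corner (hD : D.Planar) (a : ZMod 2) (x : Fin n → ZMod 2) :
    ∃ ψ ∈ compat D.Corner, jump ψ 0 = a ∧ D.chg ψ = x ∧ ∀ k : Fin (2 * n + 1),
      jump ψ k = arcFun D.overPass D.underPass a x k := by
  obtain ⟨ψ₁, h1, h1'⟩ : ∃ ψ ∈ compat D.Corner, jump ψ 0 = a := by
    by_cases ha : a = 0
    · exact ⟨0, Submodule.zero_mem _, by rw [ha]; rfl⟩
    · obtain ⟨ψ, h, h'⟩ := (finrank_ker_jump0 hD).2.2
      refine ⟨ψ, h, ?_⟩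
      rw [h']
      revert ha
      revert a
      decide
  obtain ⟨ψ₂, h2, h2'⟩ := D.long.exists_face_function (long_planar hD) (fun c => x c + D.chg ψ₁ c)
  have h3 : jump ψ₂ 0 = 0 := by
    have := (mem_compat.1 h2) _ _ GaussDiagram.Corner.tail
    unfold jump
    rw [this]
    exact CharTwo.add_self_eq_zero _
  have h4 : ψ₁ + ψ₂ ∈ compat D.Corner := Submodule.add_mem _ h1 (long_mem hD h2)
  have h5 : jump (ψ₁ + ψ₂) 0 = a := by rw [jump_add, h1', h3, add_zero]
  have h6 : D.chg (ψ₁ + ψ₂) = x := by
    funext c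
    unfold chg
    rw [jump_add, jump_add]
    have e := h2' c
    rw [long_over] at e
    have key : ∀ a b c d y : ZMod 2, c + d = y + (a + b) → a + c + (b + d) = y := by decide
    exact key _ _ _ _ _ e
  refine ⟨ψ₁ + ψ₂, h4, h5, h6, fun k => ?_⟩
  have := jump_eq h4 k k.2
  rw [h5, h6] at this
  exact this

theorem const_of_jump {ψ : Fin (2 * n + 1) × Bool → ZMod 2}
    (hψ : ψ ∈ compat D.Corner) (h0 : jump ψ 0 = 0) (hx : D.chg ψ = 0) :
    ∀ k b, ψ (k, b) = ψ (0, true) :=
  D.long.const_of_jump (D.mem_long hψ (add_eq_zero_iff.1 h0)) (fun c => congrFun hx c)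

/-! ## the merged corners -/

variable (D) in
/-- the two corners merged by the smoothing `b` at `c` -/
def mc (c : Fin n) (b : Bool) : (Fin (2 * n + 1) × Bool) × (Fin (2 * n + 1) × Bool) :=
  if b = D.sign c then (((D.fst c).castSucc, false), ((D.fst c).succ, true))
  else (((D.fst c).castSucc, true), ((D.fst c).succ, false))

variable (D) in
/-- the cut of a corner function at a crossing -/
def dlt (s : Fin n → Bool) (ψ : Fin (2 * n + 1) × Bool → ZMod 2) (c : Fin n) : ZMod 2 :=
  ψ (D.mc c (s c)).1 + ψ (D.mc c (s c)).2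

/-- the four edges at a crossing, in terms of the four corners -/
theorem four {ψ : Fin (2 * n + 1) × Bool → ZMod 2} (hψ : ψ ∈ compat D.Corner) (c : Fin n) :
    jump ψ (D.fst c).castSucc = ψ ((D.fst c).castSucc, true) + ψ ((D.fst c).castSucc, false) ∧
    jump ψ (D.fst c).succ = ψ ((D.fst c).succ, true) + ψ ((D.fst c).succ, false) ∧
    jump ψ (D.snd c).castSucc = ψ ((D.fst c).castSucc, false) + ψ ((D.fst c).succ, false) ∧
    jump ψ (D.snd c).succ = ψ ((D.fst c).castSucc, true) + ψ ((D.fst c).succ, true) := by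
  rw [mem_compat] at hψ
  refine ⟨rfl, rfl, ?_, ?_⟩
  · unfold jump
    rw [← hψ _ _ (Corner.se c), ← hψ _ _ (Corner.ne c)]
  · unfold jump
    rw [← hψ _ _ (Corner.sw c), ← hψ _ _ (Corner.nw c)]

theorem fst_snd (c : Fin n) : (D.fst c = D.overPass c ∧ D.snd c = D.underPass c) ∨
    (D.fst c = D.underPass c ∧ D.snd c = D.overPass c) := by
  unfold fst snd overPass underPass
  cases D.sign c
  · exact Or.inr ⟨rfl, rfl⟩
  · exact Or.inl ⟨rfl, rfl⟩

/-- a function compatible with a state, in terms of `fst` and `snd` -/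
theorem mem_join {s : Fin n → Bool} {φ : Fin (2 * n + 1) → ZMod 2} :
    φ ∈ compat (D.Join s) ↔ φ 0 = φ (Fin.last (2 * n)) ∧ ∀ c,
      (s c = D.sign c → φ (D.fst c).castSucc = φ (D.snd c).succ ∧
        φ (D.snd c).castSucc = φ (D.fst c).succ) ∧
      (s c ≠ D.sign c → φ (D.fst c).castSucc = φ (D.snd c).castSucc ∧
        φ (D.fst c).succ = φ (D.snd c).succ) := by
  rw [mem_compat]
  constructor
  · intro h
    refine ⟨h _ _ Join.base, fun c => ⟨fun hc => ?_, fun hc => ?_⟩⟩
    · have h1 := h _ _ (Join.oriented₁ c hc)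
      have h2 := h _ _ (Join.oriented₂ c hc)
      rcases D.fst_snd c with ⟨a, b⟩ | ⟨a, b⟩
      · rw [a, b]
        exact ⟨h1, h2⟩
      · rw [a, b]
        exact ⟨h2, h1⟩
    · have h1 := h _ _ (Join.unoriented₁ c hc)
      have h2 := h _ _ (Join.unoriented₂ c hc)
      rcases D.fst_snd c with ⟨a, b⟩ | ⟨a, b⟩
      · rw [a, b]
        exact ⟨h1, h2⟩
      · rw [a, b]
        exact ⟨h1.symm, h2.symm⟩
  · rintro ⟨h0, h⟩ a b hab
    cases hab with
    | base => exact h0
    | oriented₁ c hc =>
      have h1 := (h c).1 hc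
      rcases D.fst_snd c with ⟨a, b⟩ | ⟨a, b⟩
      · rw [a, b] at h1
        exact h1.1
      · rw [a, b] at h1
        exact h1.2
    | oriented₂ c hc =>
      have h1 := (h c).1 hc
      rcases D.fst_snd c with ⟨a, b⟩ | ⟨a, b⟩
      · rw [a, b] at h1
        exact h1.2
      · rw [a, b] at h1
        exact h1.1
    | unoriented₁ c hc =>
      have h1 := (h c).2 hc
      rcases D.fst_snd c with ⟨a, b⟩ | ⟨a, b⟩
      · rw [a, b] at h1
        exact h1.1
      · rw [a, b] at h1
        exact h1.1.symm
    | unoriented₂ c hc =>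
      have h1 := (h c).2 hc
      rcases D.fst_snd c with ⟨a, b⟩ | ⟨a, b⟩
      · rw [a, b] at h1
        exact h1.2
      · rw [a, b] at h1
        exact h1.2.symm

/-- the jump of a corner function is compatible with a state iff the function is compatible with
the mergings of the state -/
theorem jump_mem_join {s : Fin n → Bool} {ψ : Fin (2 * n + 1) × Bool → ZMod 2}
    (hψ : ψ ∈ compat D.Corner) : jump ψ ∈ compat (D.Join s) ↔ ∀ c, D.dlt s ψ c = 0 := by
  rw [mem_join]
  have h0 : jump ψ 0 = jump ψ (Fin.last (2 * n)) := by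
    unfold jump
    rw [(mem_compat.1 hψ) _ _ (Corner.base true), (mem_compat.1 hψ) _ _ (Corner.base false)]
  constructor
  · rintro ⟨-, h⟩ c
    obtain ⟨f1, f2, f3, f4⟩ := four hψ c
    unfold dlt mc
    by_cases hc : s c = D.sign c
    · rw [if_pos hc]
      have h1 := ((h c).1 hc).1
      rw [f1, f4] at h1
      have key : ∀ a b c : ZMod 2, a + b = a + c → b + c = 0 := by decide
      exact key _ _ _ h1
    · rw [if_neg hc]
      have h1 := ((h c).2 hc).1
      rw [f1, f3] at h1
      have key : ∀ a b c : ZMod 2, a + b = b + c → a + c = 0 := by decide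
      exact key _ _ _ h1
  · intro h
    refine ⟨h0, fun c => ?_⟩
    obtain ⟨f1, f2, f3, f4⟩ := four hψ c
    have hc' := h c
    unfold dlt mc at hc'
    refine ⟨fun hc => ?_, fun hc => ?_⟩
    · rw [if_pos hc] at hc'
      rw [f1, f2, f3, f4, add_eq_zero_iff.1 hc']
      exact ⟨rfl, rfl⟩
    · rw [if_neg hc] at hc'
      rw [f1, f2, f3, f4, add_eq_zero_iff.1 hc']
      exact ⟨add_comm _ _, add_comm _ _⟩

end KnotDiagram

end Pool.Agent.Helper16.Jones
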