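import Pool.Agent.Helper16.Knotoid.Poly

set_option autoImplicit false

/-!
# Region systems

An abstract version of a planar link diagram: every crossing `c ∈ ι` and every smoothing `b` at `c`
merges a pair `p c b` of regions.
-/

namespace Pool.Agent.Helper16.Jones

open LaurentPolynomial Pool.Agent.Helper16.Knotoid

/-- A region system: the smoothing `b` of the crossing `c` merges the two regions `p c b`. -/
structure Sys (ι R : Type) where
  p : ι → Bool → R × R

variable {ι R : Type} [Fintype ι] [DecidableEq ι] [Fintype R] [DecidableEq R]

/-- switch the smoothings of a state at the crossings of `Y` -/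
def sw (s : ι → Bool) (Y : Finset ι) : ι → Bool := fun c => if c ∈ Y then !(s c) else s c

/-- the state `s` outside `Y`, no smoothing at the crossings of `Y` -/
def off (s : ι → Bool) (Y : Finset ι) : ι → Option Bool := fun c => if c ∈ Y then none else some (s c)

/-- the crossings of the majority type (`A`) -/
def Pos (s : ι → Bool) : Finset ι := Finset.univ.filter fun c => s c = true

/-- the crossings of the minority type (`B`) -/
def Neg (s : ι → Bool) : Finset ι := Finset.univ.filter fun c => s c = false

namespace Sys

variable (S : Sys ι R)

/-- the relation generated by a partial state -/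
def Rel (u : ι → Option Bool) (x y : R) : Prop := ∃ c b, u c = some b ∧ S.p c b = (x, y)

/-- the number of classes of regions of a partial state -/
noncomputable def cl (u : ι → Option Bool) : ℕ := Nat.card (Quot (S.Rel u))

/-- the number of classes of regions of a state -/
noncomputable def full (s : ι → Bool) : ℕ := S.cl fun c => some (s c)

/-- the crossings at which `s` merges a region in `W` with a region not in `W`
(for diagrams: the unions of cycles of the state graph of `s`) -/
def cut (s : ι → Bool) (W : Finset R) : Finset ι :=
  Finset.univ.filter fun c => ¬ ((S.p c (s c)).1 ∈ W ↔ (S.p c (s c)).2 ∈ W)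

/-- `c` is a bridge of `insert c Y`: its two regions are joined by the smoothings outside -/
def Bridge (s : ι → Bool) (Y : Finset ι) (c : ι) : Prop :=
  Quot.mk (S.Rel (off s (insert c Y))) (S.p c (s c)).1 =
    Quot.mk (S.Rel (off s (insert c Y))) (S.p c (s c)).2

/-- planarity, with a checkerboard colouring `χ` of the regions -/
structure IsPlanar (χ : R → Bool) : Prop where
  card_eq : Fintype.card R = Fintype.card ι + 2
  two_le : ∀ s, 2 ≤ S.full s
  switch : ∀ s c, S.full (sw s {c}) ≠ S.full s
  col : ∀ c b, χ (S.p c b).1 = χ (S.p c b).2
  col_ne : ∀ c, χ (S.p c true).1 ≠ χ (S.p c false).1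

/-- every cycle has at least two more positive than negative crossings -/
def Sparse (s : ι → Bool) : Prop :=
  ∀ W, (S.cut s W).Nonempty → (S.cut s W ∩ Neg s).card + 2 ≤ (S.cut s W ∩ Pos s).card

/-- cycles with two negative crossings have at least three more positive than negative ones -/
def Strict (s : ι → Bool) : Prop :=
  ∀ W, 2 ≤ (S.cut s W ∩ Neg s).card → (S.cut s W ∩ Neg s).card + 3 ≤ (S.cut s W ∩ Pos s).card

/-- the bracket -/
noncomputable def br : LaurentPolynomial ℤ :=
  ∑ s : ι → Bool, T (∑ c, if s c then 1 else -1) * dd ^ (S.full s - 2)

/-- the top degree predicted by a sparse state -/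
noncomputable def topDeg (s : ι → Bool) : ℤ :=
  (Fintype.card ι : ℤ) + 2 * (S.full s : ℤ) - 4 - 6 * (Neg s).card

end Sys

end Pool.Agent.Helper16.Jones
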