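import Pool.Agent.Helper16.Jones.Knot
import Pool.Agent.Helper16.Jones.Sys

set_option autoImplicit false

/-!
# The region system of a knot diagram
-/

namespace Pool.Agent.Helper16.Jones

open LaurentPolynomial Module Pool.Agent.Helper16.Knotoid
open Pool.Agent.Helper16.Knotoid.GaussDiagram (jump telescope)

namespace KnotDiagram

variable {n : ℕ} (D : KnotDiagram n)

/-- the regions -/
abbrev Reg : Type := Quot D.Corner

noncomputable instance : Fintype D.Reg := by
  have : Finite D.Reg := Finite.of_surjective (Quot.mk D.Corner) Quot.mk_surjective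
  exact Fintype.ofFinite _

noncomputable instance : DecidableEq D.Reg := Classical.decEq _

/-- the region system of a knot diagram -/
def sys : Sys (Fin n) D.Reg := ⟨fun c b => (Quot.mk _ (D.mc c b).1, Quot.mk _ (D.mc c b).2)⟩

variable {D}

/-- the corner function of a function on the regions -/
def cf (φ : D.Reg → ZMod 2) : Fin (2 * n + 1) × Bool → ZMod 2 := fun x => φ (Quot.mk _ x)

theorem cf_mem (φ : D.Reg → ZMod 2) : cf φ ∈ compat D.Corner := by
  rw [mem_compat]
  intro a b hab
  exact congrArg φ (Quot.sound hab)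

theorem exists_cf {ψ : Fin (2 * n + 1) × Bool → ZMod 2} (hψ : ψ ∈ compat D.Corner) :
    ∃ φ : D.Reg → ZMod 2, cf φ = ψ :=
  ⟨Quot.lift ψ hψ, rfl⟩

/-- compatibility with the relation of a state -/
theorem mem_rel {s : Fin n → Bool} {φ : D.Reg → ZMod 2} :
    φ ∈ compat (D.sys.Rel fun c => some (s c)) ↔ ∀ c, D.dlt s (cf φ) c = 0 := by
  rw [mem_compat]
  constructor
  · intro h c
    exact add_eq_zero_iff.2 (h _ _ ⟨c, s c, rfl, rfl⟩)
  · rintro h x y ⟨c, b, hb, hp⟩
    rw [Option.some.injEq] at hb
    have h1 := add_eq_zero_iff.1 (h c)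
    rw [hb] at h1
    have h2 : (D.sys.p c b).1 = x := congrArg Prod.fst hp
    have h3 : (D.sys.p c b).2 = y := congrArg Prod.snd hp
    rw [← h2, ← h3]
    exact h1

/-- the jump map -/
noncomputable def JJ (s : Fin n → Bool) :
    compat (D.sys.Rel fun c => some (s c)) →ₗ[ZMod 2] compat (D.Join s) where
  toFun φ := ⟨jump (cf φ.1), (jump_mem_join (cf_mem _)).2 (mem_rel.1 φ.2)⟩
  map_add' φ ψ := by
    apply Subtype.ext
    funext k
    change jump (cf (φ.1 + ψ.1)) k = jump (cf φ.1) k + jump (cf ψ.1) k
    rw [← jump_add]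
    rfl
  map_smul' a φ := by
    apply Subtype.ext
    funext k
    change jump (cf (a • φ.1)) k = a * jump (cf φ.1) k
    unfold jump cf
    simp only [Pi.smul_apply, smul_eq_mul]
    ring

theorem JJ_surj (hD : D.Planar) (s : Fin n → Bool) : Function.Surjective (JJ (D := D) s) := by
  rintro ⟨φ, hφ⟩
  have hφ' := hφ
  rw [compat_join, D.long.compat_join s, arcCond_eq_map D.long.pass_inj] at hφ'
  obtain ⟨z, -, hz⟩ := hφ'
  obtain ⟨ψ, hψ, -, -, h⟩ := exists_corner hD z.1 z.2
  have h1 : jump ψ = φ := by
    funext k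
    rw [h k, ← hz, arcParam_apply]
    rfl
  obtain ⟨χ, rfl⟩ := exists_cf hψ
  have h2 : χ ∈ compat (D.sys.Rel fun c => some (s c)) := by
    rw [mem_rel]
    refine (jump_mem_join hψ).1 ?_
    rw [h1]
    exact hφ
  exact ⟨⟨χ, h2⟩, Subtype.ext h1⟩

theorem cf_const {φ : D.Reg → ZMod 2} (h : ∀ k, jump (cf φ) k = 0) :
    ∀ x, φ x = φ (Quot.mk _ (0, true)) := by
  intro x
  induction x using Quot.ind with
  | _ a =>
    obtain ⟨k, b⟩ := a
    refine const_of_jump (cf_mem φ) (h 0) ?_ k b
    funext c
    unfold chg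
    rw [h, h, add_zero]
    rfl

theorem finrank_ker_JJ (s : Fin n → Bool) :
    finrank (ZMod 2) (LinearMap.ker (JJ (D := D) s)) = 1 := by
  apply le_antisymm
  · set ev0 : LinearMap.ker (JJ (D := D) s) →ₗ[ZMod 2] ZMod 2 :=
      { toFun := fun φ => φ.1.1 (Quot.mk _ (0, true))
        map_add' := fun _ _ => rfl
        map_smul' := fun _ _ => rfl } with hev
    have hinj : Function.Injective ev0 := by
      rw [← LinearMap.ker_eq_bot, LinearMap.ker_eq_bot']
      intro φ hφ
      have hφ' : φ.1.1 (Quot.mk _ (0, true)) = 0 := hφ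
      have hk := LinearMap.mem_ker.1 φ.2
      have hk' : ∀ k, jump (cf φ.1.1) k = 0 := fun k => congrFun (congrArg Subtype.val hk) k
      apply Subtype.ext
      apply Subtype.ext
      funext x
      rw [cf_const hk' x, hφ']
      rfl
    have := LinearMap.finrank_le_finrank_of_injective hinj
    rwa [finrank_self] at this
  · have h1 : (fun _ => 1 : D.Reg → ZMod 2) ∈ compat (D.sys.Rel fun c => some (s c)) :=
      fun _ _ _ => rfl
    have h2 : (⟨_, h1⟩ : compat (D.sys.Rel fun c => some (s c))) ∈
        LinearMap.ker (JJ (D := D) s) := by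
      rw [LinearMap.mem_ker]
      apply Subtype.ext
      funext k
      exact CharTwo.add_self_eq_zero (1 : ZMod 2)
    have : Nontrivial (LinearMap.ker (JJ (D := D) s)) := by
      refine ⟨⟨⟨_, h2⟩, 0, fun h => ?_⟩⟩
      have h3 := congrFun (congrArg Subtype.val (congrArg Subtype.val h)) (Quot.mk _ (0, true))
      exact one_ne_zero h3
    exact Module.finrank_pos

/-- the number of classes of regions of a state -/
theorem full_eq (hD : D.Planar) (s : Fin n → Bool) : D.sys.full s = D.circles s + 1 := by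
  have h1 := LinearMap.finrank_range_add_finrank_ker (JJ (D := D) s)
  rw [finrank_ker_JJ, LinearMap.range_eq_top.2 (JJ_surj hD s), finrank_top, finrank_compat,
    finrank_compat] at h1
  unfold Sys.full Sys.cl circles
  exact h1.symm

/-- the checkerboard colouring -/
theorem exists_chi (hD : D.Planar) : ∃ χ : D.Reg → Bool, D.sys.IsPlanar χ := by
  obtain ⟨ψ, hψ, -, -, h⟩ := exists_corner hD 1 0
  obtain ⟨φ, rfl⟩ := exists_cf hψ
  have hj : ∀ k, jump (cf φ) k = 1 := by
    intro k
    rw [h k]
    unfold arcFun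
    simp
  refine ⟨fun r => decide (φ r = 1), ?_, ?_, ?_, ?_, ?_⟩
  · rw [← Nat.card_eq_fintype_card, Fintype.card_fin]
    exact hD
  · intro s
    rw [full_eq hD]
    have := D.circles_pos s
    omega
  · intro s c
    rw [full_eq hD, full_eq hD]
    have h1 := circles_switch hD s c
    have h2 : sw s {c} = Function.update s c (!(s c)) := by
      funext d
      unfold sw
      by_cases hd : d = c
      · subst hd
        simp
      · rw [if_neg (by simpa using hd), Function.update_of_ne hd]
    rw [h2]
    omega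
  · intro c b
    obtain ⟨f1, f2, f3, f4⟩ := four hψ c
    rw [hj] at f1 f2 f3 f4
    change decide (cf φ (D.mc c b).1 = 1) = decide (cf φ (D.mc c b).2 = 1)
    unfold mc
    split_ifs
    · have key : ∀ a b c d : ZMod 2, 1 = a + b → 1 = a + c → decide (b = 1) = decide (c = 1) := by
        decide
      exact key _ _ _ 0 f1 f4
    · have key : ∀ a b c d : ZMod 2, 1 = a + b → 1 = b + c → decide (a = 1) = decide (c = 1) := by
        decide
      exact key _ _ _ 0 f1 f3
  · intro c
    obtain ⟨f1, f2, f3, f4⟩ := four hψ c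
    rw [hj] at f1
    change decide (cf φ (D.mc c true).1 = 1) ≠ decide (cf φ (D.mc c false).1 = 1)
    unfold mc
    have key : ∀ a b : ZMod 2, 1 = a + b → decide (a = 1) ≠ decide (b = 1) := by decide
    cases hs : D.sign c
    · simp only [Bool.true_eq_false, if_false, if_true]
      exact key _ _ f1
    · simp only [Bool.false_eq_true, if_false, if_true]
      exact (key _ _ f1).symm

/-- the bracket of the diagram is the bracket of its region system -/
theorem bracket_eq (hD : D.Planar) : D.bracket = D.sys.br := by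
  unfold bracket Sys.br
  refine Finset.sum_congr rfl fun s _ => ?_
  rw [full_eq hD, show D.circles s + 1 - 2 = D.circles s - 1 by omega]
  rfl

/-! ## cuts are even sets -/

theorem telescope' (g : Fin (2 * n + 1) → ZMod 2) :
    ∑ p : Fin (2 * n), (g p.castSucc + g p.succ) = g 0 + g (Fin.last (2 * n)) := by
  have h := telescope (2 * n) (fun k => if hk : k < 2 * n + 1 then g ⟨k, hk⟩ else 0)
  rw [dif_pos (by omega), dif_pos (by omega)] at h
  have h0 : (⟨0, by omega⟩ : Fin (2 * n + 1)) = 0 := rfl
  have h1 : (⟨2 * n, by omega⟩ : Fin (2 * n + 1)) = Fin.last (2 * n) := rfl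
  rw [h0, h1] at h
  rw [← h, Finset.sum_range]
  refine Finset.sum_congr rfl fun p _ => ?_
  rw [dif_pos (by omega), dif_pos (by omega)]
  rfl

theorem sum_pass (f : Fin (2 * n) → ZMod 2) :
    ∑ p, f p = ∑ c, (f (D.fst c) + f (D.snd c)) := by
  rw [← D.pos.sum_comp, Fintype.sum_prod_type]
  refine Finset.sum_congr rfl fun c _ => ?_
  rw [Fintype.sum_bool]
  unfold fst snd
  cases D.sign c
  · exact add_comm _ _
  · rfl

/-- the ends of a crossing in the state graph -/
theorem end_fst_snd {s : Fin n → Bool} {φ : Fin (2 * n + 1) → ZMod 2} (hφ : φ ∈ compat (D.Join s))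
    (c : Fin n) : φ (D.overPass c).castSucc + φ (D.overPass c).succ =
      φ (D.fst c).castSucc + φ (D.fst c).succ := by
  have h := (mem_join.1 hφ).2 c
  rcases D.fst_snd c with ⟨a, b⟩ | ⟨a, b⟩
  · rw [a]
  · rw [← b]
    by_cases hc : s c = D.sign c
    · rw [((h.1 hc)).1, ((h.1 hc)).2, add_comm]
    · rw [((h.2 hc)).1, ((h.2 hc)).2]

/-- cuts are orthogonal to coboundaries -/
theorem pairing {s : Fin n → Bool} {ψ : Fin (2 * n + 1) × Bool → ZMod 2}
    (hψ : ψ ∈ compat D.Corner) {φ : Fin (2 * n + 1) → ZMod 2} (hφ : φ ∈ compat (D.Join s)) :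
    ∑ c, D.dlt s ψ c * (φ (D.overPass c).castSucc + φ (D.overPass c).succ) = 0 := by
  have h1 := telescope' (fun k => φ k * jump ψ k)
  have h0 : φ 0 * jump ψ 0 + φ (Fin.last (2 * n)) * jump ψ (Fin.last (2 * n)) = 0 := by
    have h2 : jump ψ 0 = jump ψ (Fin.last (2 * n)) := by
      unfold jump
      rw [(mem_compat.1 hψ) _ _ (Corner.base true), (mem_compat.1 hψ) _ _ (Corner.base false)]
    rw [h2, (mem_join.1 hφ).1]
    exact CharTwo.add_self_eq_zero _
  rw [h0, D.sum_pass] at h1
  rw [← h1]
  refine Finset.sum_congr rfl fun c _ => ?_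
  rw [end_fst_snd hφ]
  have h := (mem_join.1 hφ).2 c
  obtain ⟨f1, f2, f3, f4⟩ := four hψ c
  rw [f1, f2, f3, f4]
  unfold dlt mc
  by_cases hc : s c = D.sign c
  · rw [if_pos hc, ((h.1 hc)).1, ((h.1 hc)).2]
    generalize φ (D.snd c).succ = x
    generalize φ (D.fst c).succ = y
    generalize ψ ((D.fst c).castSucc, true) = a
    generalize ψ ((D.fst c).castSucc, false) = b
    generalize ψ ((D.fst c).succ, true) = d
    generalize ψ ((D.fst c).succ, false) = e
    revert x y a b d e
    decide
  · rw [if_neg hc, ((h.2 hc)).1, ((h.2 hc)).2]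
    generalize φ (D.snd c).succ = x
    generalize φ (D.snd c).castSucc = y
    generalize ψ ((D.fst c).castSucc, true) = a
    generalize ψ ((D.fst c).castSucc, false) = b
    generalize ψ ((D.fst c).succ, true) = d
    generalize ψ ((D.fst c).succ, false) = e
    revert x y a b d e
    decide

/-! ## even sets are cuts -/

open Classical in
/-- indicator function -/
noncomputable def ind {α : Type} (C : Finset α) : α → ZMod 2 := fun c => if c ∈ C then 1 else 0

theorem mem_cut_iff {s : Fin n → Bool} {W : Finset D.Reg} {c : Fin n} :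
    c ∈ D.sys.cut s W ↔ D.dlt s (cf (ind W)) c = 1 := by
  unfold Sys.cut dlt cf ind
  rw [Finset.mem_filter]
  simp only [Finset.mem_univ, true_and]
  have h1 : (D.sys.p c (s c)).1 = Quot.mk _ (D.mc c (s c)).1 := rfl
  have h2 : (D.sys.p c (s c)).2 = Quot.mk _ (D.mc c (s c)).2 := rfl
  rw [h1, h2]
  by_cases a : (Quot.mk D.Corner (D.mc c (s c)).1) ∈ W <;>
    by_cases b : (Quot.mk D.Corner (D.mc c (s c)).2) ∈ W <;>
    simp only [a, b, if_true, if_false, not_true_eq_false, not_false_eq_true, iff_true, iff_false,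
      true_iff, false_iff] <;> decide

theorem ind_cut {s : Fin n → Bool} {W : Finset D.Reg} :
    ind (D.sys.cut s W) = D.dlt s (cf (ind W)) := by
  funext c
  have h := mem_cut_iff (s := s) (W := W) (c := c)
  have key : ∀ a : ZMod 2, a ≠ 1 → 0 = a := by decide
  unfold ind at h ⊢
  by_cases hc : c ∈ D.sys.cut s W
  · rw [if_pos hc, h.1 hc]
  · rw [if_neg hc]
    exact key _ fun h' => hc (h.2 h')

theorem sum_ind {α : Type} [Fintype α] (C : Finset α) (f : α → ZMod 2) :
    ∑ c, ind C c * f c = ∑ c ∈ C, f c := by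
  classical
  unfold ind
  simp only [ite_mul, one_mul, zero_mul]
  rw [← Finset.sum_filter]
  congr 1
  ext c
  simp

noncomputable instance (s : Fin n → Bool) : Fintype (D.Circle s) := by
  have : Finite (D.Circle s) := Finite.of_surjective (Quot.mk (D.Join s)) Quot.mk_surjective
  exact Fintype.ofFinite _

/-- even sets are the sets orthogonal to all coboundaries -/
theorem isEven_iff {s : Fin n → Bool} {C : Finset (Fin n)} :
    D.IsEven s C ↔ ∀ φ ∈ compat (D.Join s),
      ∑ c, ind C c * (φ (D.overPass c).castSucc + φ (D.overPass c).succ) = 0 := by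
  classical
  have count : ∀ (v : Fin n → D.Circle s) (g : D.Circle s → ZMod 2),
      ∑ c ∈ C, g (v c) = ∑ q, g q * ((C.filter fun c => v c = q).card : ZMod 2) := by
    intro v g
    rw [← Finset.sum_fiberwise C v (fun c => g (v c))]
    refine Finset.sum_congr rfl fun q _ => ?_
    rw [Finset.sum_congr rfl (g := fun _ => g q) fun c hc => by rw [(Finset.mem_filter.1 hc).2]]
    rw [Finset.sum_const, nsmul_eq_mul, mul_comm]
  constructor
  · intro h φ hφ
    rw [sum_ind]
    have h1 : ∀ c, φ (D.overPass c).castSucc + φ (D.overPass c).succ =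
        Quot.lift φ hφ (D.end₁ s c) + Quot.lift φ hφ (D.end₂ s c) := fun _ => rfl
    rw [Finset.sum_congr rfl fun c _ => h1 c, Finset.sum_add_distrib, count, count,
      ← Finset.sum_add_distrib]
    refine Finset.sum_eq_zero fun q _ => ?_
    rw [← mul_add, ← Nat.cast_add]
    have h2 := h q
    rw [(ZMod.natCast_eq_zero_iff_even).2 ?_, mul_zero]
    convert h2
  · intro h q
    set g : D.Circle s → ZMod 2 := fun r => if r = q then 1 else 0 with hg
    have hφ : (fun k => g (Quot.mk _ k)) ∈ compat (D.Join s) := by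
      rw [mem_compat]
      intro a b hab
      exact congrArg g (Quot.sound hab)
    have h1 := h _ hφ
    rw [sum_ind] at h1
    have h2 : ∀ c : Fin n, g (Quot.mk _ (D.overPass c).castSucc) +
      g (Quot.mk _ (D.overPass c).succ) = g (D.end₁ s c) + g (D.end₂ s c) := fun _ => rfl
    rw [Finset.sum_congr rfl fun c _ => h2 c, Finset.sum_add_distrib, count, count,
      ← Finset.sum_add_distrib] at h1
    rw [Finset.sum_eq_single q] at h1
    · rw [← mul_add, ← Nat.cast_add, hg] at h1
      simp only [if_true, one_mul] at h1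
      have h3 := (ZMod.natCast_eq_zero_iff_even).1 h1
      convert h3
    · intro r _ hr
      rw [hg]
      simp only
      rw [if_neg hr, zero_mul, zero_mul, add_zero]
    · exact fun h' => absurd (Finset.mem_univ q) h'

/-- the coboundary map -/
def cob (D : KnotDiagram n) (s : Fin n → Bool) :
    compat (D.Join s) →ₗ[ZMod 2] (Fin n → ZMod 2) where
  toFun φ := fun c => φ.1 (D.overPass c).castSucc + φ.1 (D.overPass c).succ
  map_add' φ ψ := by
    funext c
    simp only [Submodule.coe_add, Pi.add_apply]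
    ring
  map_smul' a φ := by
    funext c
    simp only [Submodule.coe_smul, Pi.smul_apply, smul_eq_mul, RingHom.id_apply]
    ring

/-- the cut map -/
def cutMap (D : KnotDiagram n) (s : Fin n → Bool) :
    (D.Reg → ZMod 2) →ₗ[ZMod 2] (Fin n → ZMod 2) where
  toFun φ := D.dlt s (cf φ)
  map_add' φ ψ := by
    funext c
    simp only [dlt, cf, Pi.add_apply]
    ring
  map_smul' a φ := by
    funext c
    simp only [dlt, cf, Pi.smul_apply, smul_eq_mul, RingHom.id_apply]
    ring

theorem finrank_ker_cob (s : Fin n → Bool) :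
    finrank (ZMod 2) (LinearMap.ker (D.cob s)) ≤ 1 := by
  set ev0 : LinearMap.ker (D.cob s) →ₗ[ZMod 2] ZMod 2 :=
    { toFun := fun φ => φ.1.1 0
      map_add' := fun _ _ => rfl
      map_smul' := fun _ _ => rfl } with hev
  have hinj : Function.Injective ev0 := by
    rw [← LinearMap.ker_eq_bot, LinearMap.ker_eq_bot']
    intro φ hφ
    have hφ' : φ.1.1 0 = 0 := hφ
    have hk := LinearMap.mem_ker.1 φ.2
    have hk' : ∀ c, φ.1.1 (D.overPass c).castSucc + φ.1.1 (D.overPass c).succ = 0 :=
      fun c => congrFun hk c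
    have h2 : ∀ p : Fin (2 * n), φ.1.1 p.succ = φ.1.1 p.castSucc := by
      intro p
      obtain ⟨⟨c, b⟩, rfl⟩ := D.pos.surjective p
      have h3 := end_fst_snd φ.1.2 c
      rw [hk' c] at h3
      have h4 : φ.1.1 (D.snd c).castSucc + φ.1.1 (D.snd c).succ = 0 := by
        have h := (mem_join.1 φ.1.2).2 c
        by_cases hc : s c = D.sign c
        · rw [((h.1 hc)).2, ← ((h.1 hc)).1, add_comm, ← h3]
        · rw [← ((h.2 hc)).1, ← ((h.2 hc)).2, ← h3]
      have h5 : (D.pos (c, b) = D.fst c) ∨ (D.pos (c, b) = D.snd c) := by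
        unfold fst snd
        cases b <;> cases D.sign c <;> simp
      rcases h5 with h5 | h5
      · rw [h5]
        exact (add_eq_zero_iff.1 h3.symm).symm
      · rw [h5]
        exact (add_eq_zero_iff.1 h4).symm
    have h3 : ∀ k : ℕ, ∀ hk : k < 2 * n + 1, φ.1.1 ⟨k, hk⟩ = φ.1.1 0 := by
      intro k
      induction k with
      | zero => intro _; rfl
      | succ k ih =>
        intro hk
        rw [← ih (by omega)]
        exact h2 ⟨k, by omega⟩
    apply Subtype.ext
    apply Subtype.ext
    funext k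
    rw [show k = ⟨(k : ℕ), k.2⟩ from rfl, h3 k k.2, hφ']
    rfl
  have := LinearMap.finrank_le_finrank_of_injective hinj
  rwa [finrank_self] at this

/-- the pairing map -/
noncomputable def pairMap (D : KnotDiagram n) (s : Fin n → Bool) :
    (Fin n → ZMod 2) →ₗ[ZMod 2] Module.Dual (ZMod 2) (compat (D.Join s)) :=
  (D.cob s).dualMap ∘ₗ ((Pi.basisFun (ZMod 2) (Fin n)).toDualEquiv : _ →ₗ[ZMod 2] _)

theorem toDual_pi (x y : Fin n → ZMod 2) :
    (Pi.basisFun (ZMod 2) (Fin n)).toDual x y = ∑ c, x c * y c := by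
  conv_lhs => rw [← (Pi.basisFun (ZMod 2) (Fin n)).sum_repr x]
  rw [map_sum, LinearMap.sum_apply]
  refine Finset.sum_congr rfl fun c _ => ?_
  rw [map_smul, LinearMap.smul_apply, Basis.toDual_apply_right]
  rfl

theorem pairMap_apply (s : Fin n → Bool) (x : Fin n → ZMod 2) (φ : compat (D.Join s)) :
    D.pairMap s x φ =
      ∑ c, x c * (φ.1 (D.overPass c).castSucc + φ.1 (D.overPass c).succ) := by
  unfold pairMap
  simp only [LinearMap.comp_apply, LinearMap.dualMap_apply, LinearEquiv.coe_coe,
    Module.Basis.toDualEquiv_apply]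
  exact toDual_pi _ _

theorem finrank_ker_pairMap (s : Fin n → Bool) :
    finrank (ZMod 2) (LinearMap.ker (D.pairMap s)) + D.circles s ≤ n + 1 := by
  have h1 := LinearMap.finrank_range_add_finrank_ker (D.pairMap s)
  have h2 := LinearMap.finrank_range_add_finrank_ker (D.cob s)
  have h3 := D.finrank_ker_cob s
  rw [finrank_fintype_fun_eq_card, Fintype.card_fin] at h1
  rw [finrank_compat] at h2
  have h4 : finrank (ZMod 2) (LinearMap.range (D.pairMap s)) =
      finrank (ZMod 2) (LinearMap.range (D.cob s)) := by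
    rw [← LinearMap.finrank_range_dualMap_eq_finrank_range (D.cob s)]
    unfold pairMap
    rw [LinearMap.range_comp_of_range_eq_top]
    exact LinearEquiv.range _
  have h5 : D.circles s = Nat.card (Quot (D.Join s)) := rfl
  omega

theorem finrank_range_cutMap (hD : D.Planar) (s : Fin n → Bool) :
    finrank (ZMod 2) (LinearMap.range (D.cutMap s)) + D.circles s = n + 1 := by
  have h1 := LinearMap.finrank_range_add_finrank_ker (D.cutMap s)
  have h2 : LinearMap.ker (D.cutMap s) = compat (D.sys.Rel fun c => some (s c)) := by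
    ext φ
    rw [mem_rel, LinearMap.mem_ker]
    exact funext_iff
  have h3 := full_eq hD s
  unfold Sys.full Sys.cl at h3
  rw [h2, finrank_compat, h3, finrank_fintype_fun_eq_card, ← Nat.card_eq_fintype_card,
    show Nat.card D.Reg = n + 2 from hD] at h1
  omega

theorem range_cutMap (hD : D.Planar) (s : Fin n → Bool) :
    LinearMap.range (D.cutMap s) = LinearMap.ker (D.pairMap s) := by
  apply Submodule.eq_of_le_of_finrank_le
  · rintro _ ⟨φ, rfl⟩
    rw [LinearMap.mem_ker]
    ext χ
    rw [pairMap_apply]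
    exact pairing (cf_mem φ) χ.2
  · have h1 := D.finrank_ker_pairMap s
    have h2 := finrank_range_cutMap hD s
    omega

/-- the even sets of the state graph are the cuts -/
theorem exists_cut_iff (hD : D.Planar) (s : Fin n → Bool) (C : Finset (Fin n)) :
    (∃ W, D.sys.cut s W = C) ↔ D.IsEven s C := by
  classical
  rw [isEven_iff]
  have h1 : (∀ φ ∈ compat (D.Join s),
      ∑ c, ind C c * (φ (D.overPass c).castSucc + φ (D.overPass c).succ) = 0) ↔
      ind C ∈ LinearMap.ker (D.pairMap s) := by
    rw [LinearMap.mem_ker]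
    constructor
    · intro h
      ext χ
      rw [pairMap_apply]
      exact h χ.1 χ.2
    · intro h φ hφ
      have h2 := D.pairMap_apply s (ind C) ⟨φ, hφ⟩
      rw [h] at h2
      exact h2.symm
  rw [h1, ← range_cutMap hD]
  constructor
  · rintro ⟨W, rfl⟩
    exact ⟨ind W, ind_cut.symm⟩
  · rintro ⟨φ, hφ⟩
    refine ⟨Finset.univ.filter fun x => φ x = 1, ?_⟩
    have h2 : ind (Finset.univ.filter fun x => φ x = 1) = φ := by
      funext x
      unfold ind
      have key : ∀ a : ZMod 2, a ≠ 1 → 0 = a := by decide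
      by_cases hx : φ x = 1
      · rw [if_pos (by simp [hx]), hx]
      · rw [if_neg (by simp [hx])]
        exact key _ hx
    ext c
    rw [mem_cut_iff, h2]
    have h3 : D.dlt s (cf φ) c = ind C c := congrFun hφ c
    rw [h3]
    unfold ind
    by_cases hc : c ∈ C
    · simp [hc]
    · simp [hc]

end KnotDiagram

end Pool.Agent.Helper16.Jones
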