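import Pool.Agent.Helper16.Jones.PhiDefs
import Pool.Agent.Helper16.Knotoid.Kernel

set_option autoImplicit false

/-! # The 4-cycles through negative crossings are independent (module J5) -/

namespace Pool.Agent.Helper16.Jones

open Module Pool.Agent.Helper16.Knotoid

namespace QuadsAux

/-- indicator function of a finite set, with values in `ZMod 2` -/
def ind {α : Type} [DecidableEq α] (C : Finset α) : α → ZMod 2 := fun c => if c ∈ C then 1 else 0

theorem zmod_cases (a : ZMod 2) : a = 0 ∨ a = 1 := by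
  revert a
  decide

section Graph

variable {ι V : Type} [Fintype ι] [DecidableEq ι]

open Classical in
/-- indicator function of a vertex -/
noncomputable def chi (q : V) : V → ZMod 2 := fun q' => if q = q' then 1 else 0

/-- boundary of an edge -/
noncomputable def dl (v₁ v₂ : ι → V) (e : ι) : V → ZMod 2 := chi (v₁ e) + chi (v₂ e)

/-- boundary of a chain -/
noncomputable def bd (v₁ v₂ : ι → V) : (ι → ZMod 2) →ₗ[ZMod 2] (V → ZMod 2) where
  toFun f := ∑ c, f c • dl v₁ v₂ c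
  map_add' f g := by
    simp only [Pi.add_apply, add_smul, Finset.sum_add_distrib]
  map_smul' a f := by
    simp only [Pi.smul_apply, smul_assoc, Finset.smul_sum, RingHom.id_apply]

variable {v₁ v₂ : ι → V}

theorem bd_single (e : ι) : bd v₁ v₂ (Pi.single e 1) = dl v₁ v₂ e := by
  show ∑ c, (Pi.single e 1 : ι → ZMod 2) c • dl v₁ v₂ c = _
  rw [Finset.sum_eq_single e]
  · simp
  · intro c _ hc
    simp [hc]
  · simp

open Classical in
theorem bd_ind (C : Finset ι) (q : V) : bd v₁ v₂ (ind C) q =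
    (((C.filter fun c => v₁ c = q).card + (C.filter fun c => v₂ c = q).card : ℕ) : ZMod 2) := by
  show (∑ c, (ind C) c • dl v₁ v₂ c) q = _
  rw [Finset.sum_apply]
  have h1 : ∀ c, ((ind C) c • dl v₁ v₂ c) q =
      (if c ∈ C then (if v₁ c = q then (1 : ZMod 2) else 0) else 0) +
      (if c ∈ C then (if v₂ c = q then (1 : ZMod 2) else 0) else 0) := by
    intro c
    simp only [ind, dl, chi, Pi.smul_apply, Pi.add_apply, smul_eq_mul]
    by_cases h : c ∈ C <;> simp [h]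
  rw [Finset.sum_congr rfl fun c _ => h1 c, Finset.sum_add_distrib, Nat.cast_add]
  congr 1
  · rw [Finset.card_filter, Nat.cast_sum]
    rw [← Finset.sum_filter]
    refine Finset.sum_congr (by ext; simp) fun c _ => ?_
    split_ifs <;> simp
  · rw [Finset.card_filter, Nat.cast_sum]
    rw [← Finset.sum_filter]
    refine Finset.sum_congr (by ext; simp) fun c _ => ?_
    split_ifs <;> simp

open Classical in
theorem bd_ind_eq_zero (C : Finset ι) : bd v₁ v₂ (ind C) = 0 ↔ ∀ q : V, Even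
    ((C.filter fun c => v₁ c = q).card + (C.filter fun c => v₂ c = q).card) := by
  rw [funext_iff]
  refine forall_congr' fun q => ?_
  rw [bd_ind, Pi.zero_apply, ZMod.natCast_eq_zero_iff_even]

theorem chi_self (q : V) : chi q q = 1 := by simp [chi]

theorem chi_ne {q q' : V} (h : q ≠ q') : chi q q' = 0 := by simp [chi, h]

theorem chi_eq_one {q q' : V} (h : chi q q' = 1) : q = q' := by
  by_contra hne
  rw [chi_ne hne] at h
  exact zero_ne_one h

theorem chi_inj {q q' : V} (h : chi q = chi q') : q = q' :=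
  (chi_eq_one (by rw [← h]; exact chi_self q)).symm

theorem two_chi (f : V → ZMod 2) : f + f = 0 := by
  funext q
  simp only [Pi.add_apply, Pi.zero_apply]
  exact CharTwo.add_self_eq_zero _

theorem eq_of_add {f g : V → ZMod 2} (h : f + g = 0) : f = g := by
  have := two_chi g
  calc f = f + (g + g) := by rw [this, add_zero]
    _ = (f + g) + g := by rw [add_assoc]
    _ = g := by rw [h, zero_add]

omit [Fintype ι] [DecidableEq ι] in
/-- an edge with an end at `x` -/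
theorem ends {e : ι} {x : V} (h : dl v₁ v₂ e x = 1) : ∃ a, a ≠ x ∧ dl v₁ v₂ e = chi x + chi a := by
  simp only [dl, Pi.add_apply] at h ⊢
  by_cases h1 : v₁ e = x
  · refine ⟨v₂ e, fun h2 => ?_, by rw [h1]⟩
    rw [h1, h2, chi_self] at h
    exact absurd h (by decide)
  · rw [chi_ne h1, zero_add] at h
    have h2 := chi_eq_one h
    exact ⟨v₁ e, h1, by rw [h2, add_comm]⟩

end Graph

section System

variable {ι R V : Type} [Fintype ι] [DecidableEq ι] [Fintype R] [DecidableEq R]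

/-- the coboundary map of a state -/
def cob (S : Sys ι R) (s : ι → Bool) : (R → ZMod 2) →ₗ[ZMod 2] (ι → ZMod 2) where
  toFun ψ c := ψ (S.p c (s c)).1 + ψ (S.p c (s c)).2
  map_add' φ ψ := by
    funext c
    simp only [Pi.add_apply]
    ring
  map_smul' a φ := by
    funext c
    simp only [Pi.smul_apply, smul_eq_mul, RingHom.id_apply]
    ring

variable {S : Sys ι R} {s : ι → Bool} {v₁ v₂ : ι → V}

theorem cob_ind (W : Finset R) : cob S s (ind W) = ind (S.cut s W) := by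
  funext c
  show ind W (S.p c (s c)).1 + ind W (S.p c (s c)).2 = ind (S.cut s W) c
  simp only [ind, Sys.cut, Finset.mem_filter, Finset.mem_univ, true_and]
  by_cases h1 : (S.p c (s c)).1 ∈ W <;> by_cases h2 : (S.p c (s c)).2 ∈ W <;> simp [h1, h2]
  decide

theorem eq_ind {α : Type} [Fintype α] [DecidableEq α] (f : α → ZMod 2) :
    f = ind (Finset.univ.filter fun c => f c ≠ 0) := by
  funext c
  simp only [ind, Finset.mem_filter, Finset.mem_univ, true_and]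
  rcases zmod_cases (f c) with h | h <;> simp [h]

theorem finrank_ker : finrank (ZMod 2) (LinearMap.ker (cob S s)) = S.full s := by
  have h : LinearMap.ker (cob S s) = compat (S.Rel fun c => some (s c)) := by
    ext ψ
    rw [LinearMap.mem_ker, mem_compat, funext_iff]
    constructor
    · rintro h a b ⟨c, x, hx, hp⟩
      have hx' : s c = x := by simpa using hx
      have h1 : ψ (S.p c (s c)).1 + ψ (S.p c (s c)).2 = 0 := h c
      rw [hx', hp] at h1
      exact CharTwo.add_eq_zero.mp h1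
    · intro h c
      exact CharTwo.add_eq_zero.mpr (h _ _ ⟨c, s c, rfl, rfl⟩)
  rw [h, finrank_compat]
  rfl

theorem mem_range_iff_cut (f : ι → ZMod 2) :
    f ∈ LinearMap.range (cob S s) ↔ ∃ W, S.cut s W = Finset.univ.filter fun c => f c ≠ 0 := by
  constructor
  · rintro ⟨ψ, rfl⟩
    refine ⟨Finset.univ.filter fun c => ψ c ≠ 0, ?_⟩
    have h := cob_ind (S := S) (s := s) (Finset.univ.filter fun c => ψ c ≠ 0)
    rw [← eq_ind ψ] at h
    rw [h]
    ext c
    simp only [ind, Finset.mem_filter, Finset.mem_univ, true_and]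
    by_cases hc : c ∈ S.cut s (Finset.univ.filter fun c => ψ c ≠ 0) <;> simp [hc]
  · rintro ⟨W, hW⟩
    refine ⟨ind W, ?_⟩
    rw [cob_ind, hW, ← eq_ind]

open Classical in
/-- the cuts of the state are the even edge sets of the graph -/
def Good (S : Sys ι R) (s : ι → Bool) (v₁ v₂ : ι → V) : Prop :=
  ∀ C : Finset ι, (∃ W, S.cut s W = C) ↔ ∀ q : V, Even
      ((C.filter fun c => v₁ c = q).card + (C.filter fun c => v₂ c = q).card)

theorem mem_range_iff (hv : Good S s v₁ v₂) (f : ι → ZMod 2) :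
    f ∈ LinearMap.range (cob S s) ↔ bd v₁ v₂ f = 0 := by
  rw [mem_range_iff_cut, hv, ← bd_ind_eq_zero, ← eq_ind]

theorem mem_supp_cut {f : ι → ZMod 2} {W : Finset R}
    (hW : S.cut s W = Finset.univ.filter fun c => f c ≠ 0) {c : ι} :
    c ∈ S.cut s W ↔ f c ≠ 0 := by
  rw [hW]
  simp

/-- a cycle through a negative edge has at least three positive edges -/
theorem neg_one (hv : Good S s v₁ v₂) (hs : S.Sparse s) {f : ι → ZMod 2} (hf : bd v₁ v₂ f = 0)
    {c : ι} (hc : c ∈ Neg s) (hfc : f c ≠ 0) (X : Finset ι)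
    (hX : ∀ e ∈ Pos s, f e ≠ 0 → e ∈ X) : 3 ≤ X.card := by
  rw [← mem_range_iff hv, mem_range_iff_cut] at hf
  obtain ⟨W, hW⟩ := hf
  have h1 := hs W ⟨c, (mem_supp_cut hW).2 hfc⟩
  have h2 : (S.cut s W ∩ Neg s).Nonempty :=
    ⟨c, Finset.mem_inter.2 ⟨(mem_supp_cut hW).2 hfc, hc⟩⟩
  have h3 : S.cut s W ∩ Pos s ⊆ X := fun e he =>
    hX e (Finset.mem_inter.1 he).2 ((mem_supp_cut hW).1 (Finset.mem_inter.1 he).1)
  have h4 := Finset.card_le_card h3
  have h5 := h2.card_pos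
  omega

/-- a cycle through two negative edges has at least five positive edges -/
theorem neg_two (hv : Good S s v₁ v₂) (hs' : S.Strict s) {f : ι → ZMod 2}
    (hf : bd v₁ v₂ f = 0) {c c' : ι} (hc : c ∈ Neg s) (hc' : c' ∈ Neg s) (hcc : c ≠ c')
    (hfc : f c ≠ 0) (hfc' : f c' ≠ 0) (X : Finset ι)
    (hX : ∀ e ∈ Pos s, f e ≠ 0 → e ∈ X) : 5 ≤ X.card := by
  rw [← mem_range_iff hv, mem_range_iff_cut] at hf
  obtain ⟨W, hW⟩ := hf
  have h2 : 2 ≤ (S.cut s W ∩ Neg s).card := by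
    rw [← Finset.card_pair hcc]
    refine Finset.card_le_card fun x hx => ?_
    rw [Finset.mem_insert, Finset.mem_singleton] at hx
    rcases hx with rfl | rfl
    · exact Finset.mem_inter.2 ⟨(mem_supp_cut hW).2 hfc, hc⟩
    · exact Finset.mem_inter.2 ⟨(mem_supp_cut hW).2 hfc', hc'⟩
  have h1 := hs' W h2
  have h3 : S.cut s W ∩ Pos s ⊆ X := fun e he =>
    hX e (Finset.mem_inter.1 he).2 ((mem_supp_cut hW).1 (Finset.mem_inter.1 he).1)
  have h4 := Finset.card_le_card h3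
  omega

/-- there are no loops -/
theorem no_loop (hv : Good S s v₁ v₂) (hs : S.Sparse s) (e : ι) : dl v₁ v₂ e ≠ 0 := by
  intro h
  rw [← bd_single, ← mem_range_iff hv, mem_range_iff_cut] at h
  obtain ⟨W, hW⟩ := h
  have h0 : S.cut s W = {e} := by
    rw [hW]
    ext c
    simp [Pi.single_apply]
  have h1 := hs W ⟨e, by rw [h0]; simp⟩
  have h2 : (S.cut s W ∩ Pos s).card ≤ 1 := by
    rw [h0]
    exact (Finset.card_le_card Finset.inter_subset_left).trans (by simp)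
  omega

theorem not_mem_neg {e : ι} (he : e ∈ Pos s) : e ∉ Neg s := by
  simp only [Pos, Neg, Finset.mem_filter, Finset.mem_univ, true_and] at he ⊢
  simp [he]

theorem pos_ne_neg {e c : ι} (he : e ∈ Pos s) (hc : c ∈ Neg s) : c ≠ e := by
  rintro rfl
  exact not_mem_neg he hc

/-- parallel crossings are parallel edges -/
theorem par_iff (hv : Good S s v₁ v₂) {e f : ι} : S.Par s e f ↔ dl v₁ v₂ e = dl v₁ v₂ f := by
  unfold Sys.Par
  by_cases hef : e = f
  · simp [hef]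
  · have h1 : (Finset.univ.filter fun c => (Pi.single e 1 + Pi.single f 1 : ι → ZMod 2) c ≠ 0) =
        {e, f} := by
      ext c
      simp only [Finset.mem_filter, Finset.mem_univ, true_and, Pi.add_apply, Pi.single_apply,
        Finset.mem_insert, Finset.mem_singleton]
      by_cases h1 : c = e
      · subst h1
        simp [hef]
      · by_cases h2 : c = f
        · subst h2
          simp [Ne.symm hef]
        · simp [h1, h2]
    rw [← h1, ← mem_range_iff_cut, mem_range_iff hv, map_add, bd_single, bd_single]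
    constructor
    · rintro (h | h)
      · exact absurd h hef
      · exact eq_of_add h
    · intro h
      right
      rw [h, two_chi]

theorem mem_key (hv : Good S s v₁ v₂) {e f : ι} :
    f ∈ S.key s e ↔ f ∈ Pos s ∧ dl v₁ v₂ e = dl v₁ v₂ f := by
  classical
  unfold Sys.key
  rw [Finset.mem_filter, par_iff hv]

theorem key_eq_iff (hv : Good S s v₁ v₂) {e f : ι} (hf : f ∈ Pos s) :
    S.key s e = S.key s f ↔ dl v₁ v₂ e = dl v₁ v₂ f := by
  constructor
  · intro h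
    have h1 : f ∈ S.key s f := (mem_key hv).2 ⟨hf, rfl⟩
    rw [← h] at h1
    exact ((mem_key hv).1 h1).2
  · intro h
    ext g
    rw [mem_key hv, mem_key hv, h]

/-- the data of a 4-cycle `c, r₁, r₂, r₃` with `r₁` at `v₁ c`, `r₃` at `v₂ c` -/
structure QD (S : Sys ι R) (s : ι → Bool) (v₁ v₂ : ι → V) (ρ : ι → ι) (c : ι)
    (𝒯 : Finset (Finset ι)) (r₁ r₂ r₃ : ι) : Prop where
  p₁ : r₁ ∈ Pos s
  p₂ : r₂ ∈ Pos s
  p₃ : r₃ ∈ Pos s
  ρ₁ : ρ r₁ = r₁
  ρ₂ : ρ r₂ = r₂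
  ρ₃ : ρ r₃ = r₃
  set_eq : 𝒯 = {S.key s r₁, S.key s r₂, S.key s r₃}
  sum_eq : dl v₁ v₂ c + dl v₁ v₂ r₁ + dl v₁ v₂ r₂ + dl v₁ v₂ r₃ = 0
  x₁ : dl v₁ v₂ r₁ (v₁ c) = 1
  x₂ : dl v₁ v₂ r₂ (v₁ c) = 0
  x₃ : dl v₁ v₂ r₃ (v₁ c) = 0
  y₁ : dl v₁ v₂ r₁ (v₂ c) = 0
  y₂ : dl v₁ v₂ r₂ (v₂ c) = 0
  y₃ : dl v₁ v₂ r₃ (v₂ c) = 1

theorem dl_self_left {c : ι} (h : v₁ c ≠ v₂ c) : dl v₁ v₂ c (v₁ c) = 1 := by
  simp only [dl, Pi.add_apply]
  rw [chi_self, chi_ne (Ne.symm h), add_zero]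

theorem dl_self_right {c : ι} (h : v₁ c ≠ v₂ c) : dl v₁ v₂ c (v₂ c) = 1 := by
  simp only [dl, Pi.add_apply]
  rw [chi_self, chi_ne h, zero_add]

theorem ne_ends (hv : Good S s v₁ v₂) (hs : S.Sparse s) (c : ι) : v₁ c ≠ v₂ c := by
  intro h
  apply no_loop hv hs c
  simp only [dl]
  rw [h, two_chi]

/-- an edge with the same two ends as `c` has the same boundary -/
theorem dl_eq_of {e c : ι} (hc : v₁ c ≠ v₂ c) (h1 : dl v₁ v₂ e (v₁ c) = 1)
    (h2 : dl v₁ v₂ e (v₂ c) = 1) : dl v₁ v₂ e = dl v₁ v₂ c := by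
  obtain ⟨a, ha, hda⟩ := ends h1
  rw [hda, Pi.add_apply, chi_ne hc, zero_add] at h2
  rw [hda, chi_eq_one h2]
  rfl

theorem not_both (hv : Good S s v₁ v₂) (hs : S.Sparse s) {c e : ι} (hc : c ∈ Neg s)
    (he : e ∈ Pos s) : ¬ (dl v₁ v₂ e (v₁ c) = 1 ∧ dl v₁ v₂ e (v₂ c) = 1) := by
  rintro ⟨h1, h2⟩
  have h := dl_eq_of (ne_ends hv hs c) h1 h2
  have hce : c ≠ e := pos_ne_neg he hc
  have h3 := neg_one hv hs (f := Pi.single c 1 + Pi.single e 1)
    (by rw [map_add, bd_single, bd_single, h, two_chi]) hc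
    (by simp [hce]) {e} (by
      intro x hx hx2
      rw [Finset.mem_singleton]
      by_contra hne
      apply hx2
      simp [hne, (pos_ne_neg hx hc).symm])
  simp at h3

theorem no_triangle (hv : Good S s v₁ v₂) (hs : S.Sparse s) {c e e' : ι} (hc : c ∈ Neg s)
    (he : e ∈ Pos s) (he' : e' ∈ Pos s) : dl v₁ v₂ c + dl v₁ v₂ e + dl v₁ v₂ e' ≠ 0 := by
  intro h
  have hce : c ≠ e := pos_ne_neg he hc
  have hce' : c ≠ e' := pos_ne_neg he' hc
  have h3 := neg_one hv hs (f := Pi.single c 1 + Pi.single e 1 + Pi.single e' 1)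
    (by rw [map_add, map_add, bd_single, bd_single, bd_single, h]) hc
    (by simp [hce, hce']) {e, e'} (by
      intro x hx hx2
      rw [Finset.mem_insert, Finset.mem_singleton]
      by_contra hne
      push Not at hne
      apply hx2
      simp [hne.1, hne.2, (pos_ne_neg hx hc).symm])
  have h4 := Finset.card_le_two (a := e) (b := e')
  omega

theorem six_cases {a₁ a₂ a₃ b₁ b₂ b₃ : ZMod 2} (ha : 1 + a₁ + a₂ + a₃ = 0)
    (hb : 1 + b₁ + b₂ + b₃ = 0) (h1 : ¬ (a₁ = 1 ∧ b₁ = 1)) (h2 : ¬ (a₂ = 1 ∧ b₂ = 1))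
    (h3 : ¬ (a₃ = 1 ∧ b₃ = 1)) :
    (a₁ = 1 ∧ a₂ = 0 ∧ a₃ = 0 ∧ b₁ = 0 ∧ b₂ = 0 ∧ b₃ = 1) ∨
    (a₁ = 1 ∧ a₃ = 0 ∧ a₂ = 0 ∧ b₁ = 0 ∧ b₃ = 0 ∧ b₂ = 1) ∨
    (a₂ = 1 ∧ a₁ = 0 ∧ a₃ = 0 ∧ b₂ = 0 ∧ b₁ = 0 ∧ b₃ = 1) ∨
    (a₂ = 1 ∧ a₃ = 0 ∧ a₁ = 0 ∧ b₂ = 0 ∧ b₃ = 0 ∧ b₁ = 1) ∨
    (a₃ = 1 ∧ a₁ = 0 ∧ a₂ = 0 ∧ b₃ = 0 ∧ b₁ = 0 ∧ b₂ = 1) ∨
    (a₃ = 1 ∧ a₂ = 0 ∧ a₁ = 0 ∧ b₃ = 0 ∧ b₂ = 0 ∧ b₁ = 1) := by
  rcases zmod_cases a₁ with rfl | rfl <;> rcases zmod_cases a₂ with rfl | rfl <;>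
    rcases zmod_cases a₃ with rfl | rfl <;> rcases zmod_cases b₁ with rfl | rfl <;>
    rcases zmod_cases b₂ with rfl | rfl <;> rcases zmod_cases b₃ with rfl | rfl <;>
    revert ha hb h1 h2 h3 <;> decide

open Classical in
theorem exists_QD (hv : Good S s v₁ v₂) (hs : S.Sparse s) {ρ : ι → ι}
    (hρ : ∀ e ∈ Pos s, ρ e ∈ Pos s ∧ dl v₁ v₂ (ρ e) = dl v₁ v₂ e)
    (hρ' : ∀ e ∈ Pos s, ∀ f ∈ Pos s, dl v₁ v₂ e = dl v₁ v₂ f → ρ e = ρ f)
    {c : ι} (hc : c ∈ Neg s) {𝒯 : Finset (Finset ι)} (h𝒯 : 𝒯 ∈ S.quads s c) :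
    ∃ r₁ r₂ r₃, QD S s v₁ v₂ ρ c 𝒯 r₁ r₂ r₃ := by
  unfold Sys.quads at h𝒯
  rw [Finset.mem_filter] at h𝒯
  obtain ⟨-, hcard, e₁, h₁, e₂, h₂, e₃, h₃, hset, hW⟩ := h𝒯
  have hc₁ : c ≠ e₁ := pos_ne_neg h₁ hc
  have hc₂ : c ≠ e₂ := pos_ne_neg h₂ hc
  have hc₃ : c ≠ e₃ := pos_ne_neg h₃ hc
  have hk : ∀ a b : Finset ι, ({a, b} : Finset (Finset ι)).card ≤ 2 := fun a b =>
    Finset.card_le_two
  have n₁₂ : e₁ ≠ e₂ := by
    rintro rfl
    rw [hset] at hcard
    have := hk (S.key s e₁) (S.key s e₃)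
    simp only [Finset.mem_insert, true_or, Finset.insert_eq_of_mem] at hcard
    omega
  have n₁₃ : e₁ ≠ e₃ := by
    rintro rfl
    rw [hset, Finset.pair_comm] at hcard
    have := hk (S.key s e₁) (S.key s e₂)
    simp only [Finset.mem_insert, true_or, Finset.insert_eq_of_mem] at hcard
    omega
  have n₂₃ : e₂ ≠ e₃ := by
    rintro rfl
    rw [hset] at hcard
    have := hk (S.key s e₁) (S.key s e₂)
    simp only [Finset.mem_singleton, Finset.insert_eq_of_mem] at hcard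
    omega
  have hsup : (Finset.univ.filter fun x =>
      (Pi.single c 1 + Pi.single e₁ 1 + Pi.single e₂ 1 + Pi.single e₃ 1 : ι → ZMod 2) x ≠ 0) =
      {c, e₁, e₂, e₃} := by
    ext x
    simp only [Finset.mem_filter, Finset.mem_univ, true_and, Pi.add_apply, Pi.single_apply,
      Finset.mem_insert, Finset.mem_singleton]
    by_cases hx : x = c
    · subst hx
      simp [hc₁, hc₂, hc₃]
    by_cases hx1 : x = e₁
    · subst hx1
      simp [hx, n₁₂, n₁₃]
    by_cases hx2 : x = e₂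
    · subst hx2
      simp [hx, hx1, n₂₃]
    by_cases hx3 : x = e₃
    · subst hx3
      simp [hx, hx1, hx2]
    simp [hx, hx1, hx2, hx3]
  rw [← hsup, ← mem_range_iff_cut, mem_range_iff hv, map_add, map_add, map_add, bd_single,
    bd_single, bd_single, bd_single] at hW
  obtain ⟨q₁, d₁⟩ := hρ e₁ h₁
  obtain ⟨q₂, d₂⟩ := hρ e₂ h₂
  obtain ⟨q₃, d₃⟩ := hρ e₃ h₃
  have k₁ : S.key s (ρ e₁) = S.key s e₁ := (key_eq_iff hv h₁).2 d₁
  have k₂ : S.key s (ρ e₂) = S.key s e₂ := (key_eq_iff hv h₂).2 d₂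
  have k₃ : S.key s (ρ e₃) = S.key s e₃ := (key_eq_iff hv h₃).2 d₃
  have w₁ : ρ (ρ e₁) = ρ e₁ := hρ' _ q₁ _ h₁ d₁
  have w₂ : ρ (ρ e₂) = ρ e₂ := hρ' _ q₂ _ h₂ d₂
  have w₃ : ρ (ρ e₃) = ρ e₃ := hρ' _ q₃ _ h₃ d₃
  rw [← d₁, ← d₂, ← d₃] at hW
  rw [← k₁, ← k₂, ← k₃] at hset
  generalize ρ e₁ = r₁ at *
  generalize ρ e₂ = r₂ at *
  generalize ρ e₃ = r₃ at *
  have hne := ne_ends hv hs c
  have hx := congrFun hW (v₁ c)
  have hy := congrFun hW (v₂ c)
  simp only [Pi.add_apply, Pi.zero_apply] at hx hy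
  rw [dl_self_left hne] at hx
  rw [dl_self_right hne] at hy
  rcases six_cases hx hy (not_both hv hs hc q₁) (not_both hv hs hc q₂) (not_both hv hs hc q₃) with
    ⟨a₁, a₂, a₃, b₁, b₂, b₃⟩ | ⟨a₁, a₃, a₂, b₁, b₃, b₂⟩ | ⟨a₂, a₁, a₃, b₂, b₁, b₃⟩ |
    ⟨a₂, a₃, a₁, b₂, b₃, b₁⟩ | ⟨a₃, a₁, a₂, b₃, b₁, b₂⟩ | ⟨a₃, a₂, a₁, b₃, b₂, b₁⟩
  · exact ⟨r₁, r₂, r₃, q₁, q₂, q₃, w₁, w₂, w₃, hset, hW, a₁, a₂, a₃, b₁, b₂, b₃⟩
  · exact ⟨r₁, r₃, r₂, q₁, q₃, q₂, w₁, w₃, w₂, by rw [hset]; ext; simp; tauto,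
      by rw [← hW]; abel, a₁, a₃, a₂, b₁, b₃, b₂⟩
  · exact ⟨r₂, r₁, r₃, q₂, q₁, q₃, w₂, w₁, w₃, by rw [hset]; ext; simp; tauto,
      by rw [← hW]; abel, a₂, a₁, a₃, b₂, b₁, b₃⟩
  · exact ⟨r₂, r₃, r₁, q₂, q₃, q₁, w₂, w₃, w₁, by rw [hset]; ext; simp; tauto,
      by rw [← hW]; abel, a₂, a₃, a₁, b₂, b₃, b₁⟩
  · exact ⟨r₃, r₁, r₂, q₃, q₁, q₂, w₃, w₁, w₂, by rw [hset]; ext; simp; tauto,
      by rw [← hW]; abel, a₃, a₁, a₂, b₃, b₁, b₂⟩
  · exact ⟨r₃, r₂, r₁, q₃, q₂, q₁, w₃, w₂, w₁, by rw [hset]; ext; simp; tauto,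
      by rw [← hW]; abel, a₃, a₂, a₁, b₃, b₂, b₁⟩

section Two

variable {ρ : ι → ι} {c c' : ι} {𝒯 𝒯' : Finset (Finset ι)} {r₁ r₂ r₃ r₁' r₂' r₃' : ι}

/-- the middle edge of a 4-cycle through `c` is in no other 4-cycle through `c` -/
theorem QD.same (hv : Good S s v₁ v₂) (hs : S.Sparse s) (hc : c ∈ Neg s)
    (h : QD S s v₁ v₂ ρ c 𝒯 r₁ r₂ r₃) (h' : QD S s v₁ v₂ ρ c 𝒯' r₁' r₂' r₃')
    (hm : r₂' = r₂) : 𝒯 = 𝒯' := by
  subst hm
  obtain ⟨a, ha, da⟩ := ends h.x₁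
  obtain ⟨b, hb, db⟩ := ends h.y₃
  obtain ⟨a', ha', da'⟩ := ends h'.x₁
  obtain ⟨b', hb', db'⟩ := ends h'.y₃
  have hcx : dl v₁ v₂ c = chi (v₁ c) + chi (v₂ c) := rfl
  have hsum := h.sum_eq
  have hsum' := h'.sum_eq
  have hxx := two_chi (chi (v₁ c))
  have hyy := two_chi (chi (v₂ c))
  rw [hcx, da, db] at hsum
  rw [hcx, da', db'] at hsum'
  have e1 : dl v₁ v₂ r₂' = chi a + chi b := by
    symm
    apply eq_of_add
    calc chi a + chi b + dl v₁ v₂ r₂' = (chi (v₁ c) + chi (v₂ c) + (chi (v₁ c) + chi a) +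
          dl v₁ v₂ r₂' + (chi (v₂ c) + chi b)) + (chi (v₁ c) + chi (v₁ c)) +
          (chi (v₂ c) + chi (v₂ c)) - (chi (v₁ c) + chi (v₁ c)) - (chi (v₁ c) + chi (v₁ c))
          - (chi (v₂ c) + chi (v₂ c)) - (chi (v₂ c) + chi (v₂ c)) := by abel
      _ = 0 := by rw [hsum, hxx, hyy]; simp
  have e2 : dl v₁ v₂ r₂' = chi a' + chi b' := by
    symm
    apply eq_of_add
    calc chi a' + chi b' + dl v₁ v₂ r₂' = (chi (v₁ c) + chi (v₂ c) + (chi (v₁ c) + chi a') +
          dl v₁ v₂ r₂' + (chi (v₂ c) + chi b')) + (chi (v₁ c) + chi (v₁ c)) +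
          (chi (v₂ c) + chi (v₂ c)) - (chi (v₁ c) + chi (v₁ c)) - (chi (v₁ c) + chi (v₁ c))
          - (chi (v₂ c) + chi (v₂ c)) - (chi (v₂ c) + chi (v₂ c)) := by abel
      _ = 0 := by rw [hsum', hxx, hyy]; simp
  have hab : a ≠ b := by
    rintro rfl
    exact no_loop hv hs r₂' (by rw [e1, two_chi])
  have e3 : chi a + chi b = chi a' + chi b' := by rw [← e1, e2]
  have e4 := congrFun e3 a
  simp only [Pi.add_apply] at e4
  rw [chi_self, chi_ne hab.symm, add_zero] at e4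
  by_cases haa : a' = a
  · subst haa
    have e5 : chi b = chi b' := by
      have := e3
      exact add_left_cancel this
    have e6 := chi_inj e5
    subst e6
    have k1 : S.key s r₁ = S.key s r₁' := (key_eq_iff hv h'.p₁).2 (by rw [da, da'])
    have k3 : S.key s r₃ = S.key s r₃' := (key_eq_iff hv h'.p₃).2 (by rw [db, db'])
    rw [h.set_eq, h'.set_eq, k1, k3]
  · rw [chi_ne haa, zero_add] at e4
    have e5 := chi_eq_one e4.symm
    subst e5
    exfalso
    apply no_triangle hv hs hc h.p₁ h'.p₃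
    rw [hcx, da, db']
    have haa := two_chi (chi b')
    calc chi (v₁ c) + chi (v₂ c) + (chi (v₁ c) + chi b') + (chi (v₂ c) + chi b') =
          (chi (v₁ c) + chi (v₁ c)) + (chi (v₂ c) + chi (v₂ c)) + (chi b' + chi b') := by abel
      _ = 0 := by rw [hxx, hyy, haa]; simp

theorem QD.two_ne_one (h : QD S s v₁ v₂ ρ c 𝒯 r₁ r₂ r₃)
    (h' : QD S s v₁ v₂ ρ c 𝒯' r₁' r₂' r₃') : r₁ ≠ r₂' := by
  rintro rfl
  have h1 := h.x₁
  rw [h'.x₂] at h1
  exact zero_ne_one h1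

theorem QD.two_ne_three (h : QD S s v₁ v₂ ρ c 𝒯 r₁ r₂ r₃)
    (h' : QD S s v₁ v₂ ρ c 𝒯' r₁' r₂' r₃') : r₃ ≠ r₂' := by
  rintro rfl
  have h1 := h.y₃
  rw [h'.y₂] at h1
  exact zero_ne_one h1

theorem QD.one_ne_three (h : QD S s v₁ v₂ ρ c 𝒯 r₁ r₂ r₃) : r₁ ≠ r₃ := by
  rintro rfl
  have h1 := h.y₃
  rw [h.y₁] at h1
  exact zero_ne_one h1

/-- the vector of a 4-cycle -/
def vec (c r₁ r₂ r₃ : ι) : ι → ZMod 2 :=
  Pi.single c 1 + Pi.single r₁ 1 + Pi.single r₂ 1 + Pi.single r₃ 1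

theorem QD.bd_vec (h : QD S s v₁ v₂ ρ c 𝒯 r₁ r₂ r₃) : bd v₁ v₂ (vec c r₁ r₂ r₃) = 0 := by
  unfold vec
  rw [map_add, map_add, map_add, bd_single, bd_single, bd_single, bd_single, h.sum_eq]

theorem vec_apply_pos (hc : c ∈ Neg s) {x : ι} (hx : x ∈ Pos s) : vec c r₁ r₂ r₃ x =
    (if x = r₁ then 1 else 0) + (if x = r₂ then 1 else 0) + (if x = r₃ then 1 else 0) := by
  have : x ≠ c := (pos_ne_neg hx hc).symm
  simp [vec, Pi.single_apply, this]

theorem vec_apply_neg (h₁ : r₁ ∈ Pos s) (h₂ : r₂ ∈ Pos s) (h₃ : r₃ ∈ Pos s) {x : ι}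
    (hx : x ∈ Neg s) : vec c r₁ r₂ r₃ x = if x = c then 1 else 0 := by
  have e1 : x ≠ r₁ := pos_ne_neg h₁ hx
  have e2 : x ≠ r₂ := pos_ne_neg h₂ hx
  have e3 : x ≠ r₃ := pos_ne_neg h₃ hx
  simp [vec, Pi.single_apply, e1, e2, e3]

/-- 4-cycles through different negative crossings are disjoint -/
theorem QD.diff (hv : Good S s v₁ v₂) (hs' : S.Strict s) (hc : c ∈ Neg s) (hc' : c' ∈ Neg s)
    (hcc : c ≠ c') (h : QD S s v₁ v₂ ρ c 𝒯 r₁ r₂ r₃) (h' : QD S s v₁ v₂ ρ c' 𝒯' r₁' r₂' r₃') :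
    vec c r₁ r₂ r₃ r₂' = 0 := by
  by_contra hne
  have n1 : r₁ ≠ r₂ := h.two_ne_one h
  have n2 : r₃ ≠ r₂ := h.two_ne_three h
  have n3 : r₁ ≠ r₃ := h.one_ne_three
  have n1' : r₁' ≠ r₂' := h'.two_ne_one h'
  have n2' : r₃' ≠ r₂' := h'.two_ne_three h'
  have n3' : r₁' ≠ r₃' := h'.one_ne_three
  have hone : vec c r₁ r₂ r₃ r₂' = 1 := (zmod_cases _).resolve_left hne
  have hone' : vec c' r₁' r₂' r₃' r₂' = 1 := by
    rw [vec_apply_pos hc' h'.p₂]
    simp [n1'.symm, n2'.symm]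
  have hmem : r₂' ∈ ({r₁, r₂, r₃} : Finset ι) := by
    by_contra hnm
    simp only [Finset.mem_insert, Finset.mem_singleton, not_or] at hnm
    apply hne
    rw [vec_apply_pos hc h'.p₂]
    simp [hnm.1, hnm.2.1, hnm.2.2]
  have h5 := neg_two hv hs' (f := vec c r₁ r₂ r₃ + vec c' r₁' r₂' r₃')
    (by rw [map_add, h.bd_vec, h'.bd_vec, add_zero]) hc hc' hcc
    (by
      rw [Pi.add_apply, vec_apply_neg h.p₁ h.p₂ h.p₃ hc, vec_apply_neg h'.p₁ h'.p₂ h'.p₃ hc]
      simp [hcc])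
    (by
      rw [Pi.add_apply, vec_apply_neg h.p₁ h.p₂ h.p₃ hc', vec_apply_neg h'.p₁ h'.p₂ h'.p₃ hc']
      simp [hcc.symm])
    ((({r₁, r₂, r₃} : Finset ι).erase r₂') ∪ (({r₁', r₂', r₃'} : Finset ι).erase r₂')) (by
      intro x hx hx2
      rw [← Finset.erase_union_distrib, Finset.mem_erase]
      refine ⟨?_, ?_⟩
      · rintro rfl
        apply hx2
        rw [Pi.add_apply, hone, hone']
        decide
      · by_contra hnm
        simp only [Finset.mem_union, Finset.mem_insert, Finset.mem_singleton, not_or] at hnm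
        apply hx2
        rw [Pi.add_apply, vec_apply_pos hc hx, vec_apply_pos hc' hx]
        simp [hnm.1.1, hnm.1.2.1, hnm.1.2.2, hnm.2.1, hnm.2.2.1, hnm.2.2.2])
  have h6 : (({r₁, r₂, r₃} : Finset ι).erase r₂').card = 2 := by
    rw [Finset.card_erase_of_mem hmem, Finset.card_eq_three.2 ⟨r₁, r₂, r₃, n1, n3, n2.symm, rfl⟩]
  have h7 : (({r₁', r₂', r₃'} : Finset ι).erase r₂').card = 2 := by
    rw [Finset.card_erase_of_mem (by simp),
      Finset.card_eq_three.2 ⟨r₁', r₂', r₃', n1', n3', n2'.symm, rfl⟩]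
  have h8 := Finset.card_union_le (({r₁, r₂, r₃} : Finset ι).erase r₂')
    (({r₁', r₂', r₃'} : Finset ι).erase r₂')
  omega

end Two

end System

/-- the sum of the coordinates -/
def tot {ι : Type} [Fintype ι] : (ι → ZMod 2) →ₗ[ZMod 2] ZMod 2 where
  toFun f := ∑ c, f c
  map_add' f g := by
    simp only [Pi.add_apply, Finset.sum_add_distrib]
  map_smul' a f := by
    simp only [Pi.smul_apply, smul_eq_mul, Finset.mul_sum, RingHom.id_apply]

theorem tot_single {ι : Type} [Fintype ι] [DecidableEq ι] (e : ι) :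
    tot (Pi.single e 1 : ι → ZMod 2) = 1 := by
  show ∑ c, (Pi.single e 1 : ι → ZMod 2) c = 1
  rw [Finset.sum_pi_single']
  simp

theorem tot_ind {ι : Type} [Fintype ι] [DecidableEq ι] (C : Finset ι) :
    tot (ind C) = (C.card : ZMod 2) := by
  show ∑ c, ind C c = _
  simp [ind]

end QuadsAux

namespace Sys

open QuadsAux

variable {ι R : Type} [Fintype ι] [DecidableEq ι] [Fintype R] [DecidableEq R]
  {S : Sys ι R} {χ : R → Bool}

open Classical in
theorem even_of_count (hP : S.IsPlanar χ) {s : ι → Bool} (hs : S.Sparse s) (hs' : S.Strict s)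
    {V : Type} (v₁ v₂ : ι → V)
    (hv : ∀ C : Finset ι, (∃ W, S.cut s W = C) ↔ ∀ q : V, Even
      ((C.filter fun c => v₁ c = q).card + (C.filter fun c => v₂ c = q).card))
    (h0 : ((S.full s : ℤ) - 2 - (Neg s).card) - (((Pos s).image (S.key s)).card : ℤ) +
      ∑ c ∈ Neg s, ((S.quads s c).card : ℤ) = 0) :
    ∀ W, Even (S.cut s W).card := by
  have hg : Good S s v₁ v₂ := hv
  -- representatives
  obtain ⟨ρ, hρ, hρ'⟩ : ∃ ρ : ι → ι,
      (∀ e ∈ Pos s, ρ e ∈ Pos s ∧ dl v₁ v₂ (ρ e) = dl v₁ v₂ e) ∧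
      (∀ e ∈ Pos s, ∀ f ∈ Pos s, dl v₁ v₂ e = dl v₁ v₂ f → ρ e = ρ f) := by
    by_cases hne : Nonempty ι
    · refine ⟨fun e => Function.invFunOn (dl v₁ v₂) (Pos s : Set ι) (dl v₁ v₂ e),
        fun e he => ?_, fun e _ f _ h => by simp only [h]⟩
      have hex : ∃ a ∈ (Pos s : Set ι), dl v₁ v₂ a = dl v₁ v₂ e := ⟨e, he, rfl⟩
      exact ⟨Function.invFunOn_mem hex, Function.invFunOn_eq hex⟩
    · exact ⟨fun e => e, fun e _ => (hne ⟨e⟩).elim, fun e _ => (hne ⟨e⟩).elim⟩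
  have hQ : ∀ x : (Σ c : {c // c ∈ Neg s}, {𝒯 // 𝒯 ∈ S.quads s c.1}), ∃ r : ι × ι × ι,
      QD S s v₁ v₂ ρ x.1.1 x.2.1 r.1 r.2.1 r.2.2 := by
    intro x
    obtain ⟨r₁, r₂, r₃, h⟩ := exists_QD hg hs hρ hρ' x.1.2 x.2.2
    exact ⟨(r₁, r₂, r₃), h⟩
  choose r hr using hQ
  let v : ({e // e ∈ (Pos s).filter fun e => ρ e ≠ e} ⊕
      (Σ c : {c // c ∈ Neg s}, {𝒯 // 𝒯 ∈ S.quads s c.1})) → (ι → ZMod 2) :=
    Sum.elim (fun e => Pi.single e.1 1 + Pi.single (ρ e.1) 1)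
      (fun x => vec x.1.1 (r x).1 (r x).2.1 (r x).2.2)
  have hmem : ∀ i, v i ∈ LinearMap.range (cob S s) := by
    intro i
    rw [mem_range_iff hg]
    rcases i with e | x
    · show bd v₁ v₂ (Pi.single e.1 1 + Pi.single (ρ e.1) 1) = 0
      rw [map_add, bd_single, bd_single, (hρ e.1 (Finset.mem_filter.1 e.2).1).2, two_chi]
    · exact (hr x).bd_vec
  have htot : ∀ i, v i ∈ LinearMap.ker (tot : (ι → ZMod 2) →ₗ[ZMod 2] ZMod 2) := by
    intro i
    rw [LinearMap.mem_ker]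
    rcases i with e | x
    · show tot (Pi.single e.1 1 + Pi.single (ρ e.1) 1) = 0
      rw [map_add, tot_single, tot_single]
      decide
    · show tot (vec x.1.1 (r x).1 (r x).2.1 (r x).2.2) = 0
      unfold vec
      rw [map_add, map_add, map_add, tot_single, tot_single, tot_single, tot_single]
      decide
  have hρρ : ∀ e ∈ Pos s, ρ (ρ e) = ρ e := fun e he => hρ' _ (hρ e he).1 _ he (hρ e he).2
  have hlin : LinearIndependent (ZMod 2) v := by
    rw [Fintype.linearIndependent_iff]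
    intro g hg0
    rw [Fintype.sum_sum_type] at hg0
    have h1 : ∀ e, g (Sum.inl e) = 0 := by
      intro e'
      have hp' := (Finset.mem_filter.1 e'.2).1
      have hn' := (Finset.mem_filter.1 e'.2).2
      have h := congrFun hg0 e'.1
      rw [Pi.add_apply, Finset.sum_apply, Finset.sum_apply, Pi.zero_apply] at h
      rw [Finset.sum_eq_single e', Finset.sum_eq_zero, add_zero] at h
      · have h2 : v (Sum.inl e') e'.1 = 1 := by
          show (Pi.single e'.1 1 + Pi.single (ρ e'.1) 1 : ι → ZMod 2) e'.1 = 1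
          simp [Ne.symm hn']
        rw [Pi.smul_apply, h2, smul_eq_mul, mul_one] at h
        exact h
      · intro x _
        have h2 : v (Sum.inr x) e'.1 = 0 := by
          show vec x.1.1 (r x).1 (r x).2.1 (r x).2.2 e'.1 = 0
          rw [vec_apply_pos x.1.2 hp']
          have a1 : e'.1 ≠ (r x).1 := fun h => hn' (by rw [h]; exact (hr x).ρ₁)
          have a2 : e'.1 ≠ (r x).2.1 := fun h => hn' (by rw [h]; exact (hr x).ρ₂)
          have a3 : e'.1 ≠ (r x).2.2 := fun h => hn' (by rw [h]; exact (hr x).ρ₃)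
          simp [a1, a2, a3]
        rw [Pi.smul_apply, h2, smul_zero]
      · intro e _ hne
        have h2 : v (Sum.inl e) e'.1 = 0 := by
          show (Pi.single e.1 1 + Pi.single (ρ e.1) 1 : ι → ZMod 2) e'.1 = 0
          have a1 : e'.1 ≠ e.1 := fun h => hne (Subtype.ext h.symm)
          have a2 : e'.1 ≠ ρ e.1 := fun h => hn' (by
            rw [h]
            exact hρρ _ (Finset.mem_filter.1 e.2).1)
          simp [a1, a2]
        rw [Pi.smul_apply, h2, smul_zero]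
      · intro h
        exact absurd (Finset.mem_univ _) h
    have h2 : ∀ x, g (Sum.inr x) = 0 := by
      intro x'
      have h := congrFun hg0 (r x').2.1
      rw [Pi.add_apply, Finset.sum_apply, Finset.sum_apply, Pi.zero_apply] at h
      rw [Finset.sum_eq_zero, zero_add, Finset.sum_eq_single x'] at h
      · have h2 : v (Sum.inr x') (r x').2.1 = 1 := by
          show vec x'.1.1 (r x').1 (r x').2.1 (r x').2.2 (r x').2.1 = 1
          rw [vec_apply_pos x'.1.2 (hr x').p₂]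
          simp [((hr x').two_ne_one (hr x')).symm, ((hr x').two_ne_three (hr x')).symm]
        rw [Pi.smul_apply, h2, smul_eq_mul, mul_one] at h
        exact h
      · intro x _ hne
        have h2 : v (Sum.inr x) (r x').2.1 = 0 := by
          show vec x.1.1 (r x).1 (r x).2.1 (r x).2.2 (r x').2.1 = 0
          obtain ⟨⟨c, hc⟩, ⟨T, hT⟩⟩ := x
          obtain ⟨⟨c', hc'⟩, ⟨T', hT'⟩⟩ := x'
          by_cases hcc : c = c'
          · subst hcc
            have hTT : T ≠ T' := by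
              rintro rfl
              exact hne rfl
            have q := hr ⟨⟨c, hc⟩, ⟨T, hT⟩⟩
            have q' := hr ⟨⟨c, hc⟩, ⟨T', hT'⟩⟩
            have b2 := fun h => hTT (q.same hg hs hc q' h)
            have b1 := q.two_ne_one q'
            have b3 := q.two_ne_three q'
            rw [vec_apply_pos hc q'.p₂]
            simp only [Ne.symm b1, Ne.symm b3, if_false]
            rw [if_neg b2]
            simp
          · exact (hr ⟨⟨c, hc⟩, ⟨T, hT⟩⟩).diff hg hs' hc hc' hcc (hr ⟨⟨c', hc'⟩, ⟨T', hT'⟩⟩)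
        rw [Pi.smul_apply, h2, smul_zero]
      · intro h
        exact absurd (Finset.mem_univ _) h
      · intro e _
        rw [h1 e, zero_smul]
        rfl
    intro i
    rcases i with e | x
    · exact h1 e
    · exact h2 x
  -- the number of vectors
  have hreps : ((Pos s).filter fun e => ρ e = e).card = ((Pos s).image (S.key s)).card := by
    have h1 : ((Pos s).filter fun e => ρ e = e).image (S.key s) = (Pos s).image (S.key s) := by
      ext K
      rw [Finset.mem_image, Finset.mem_image]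
      constructor
      · rintro ⟨e, he, rfl⟩
        exact ⟨e, (Finset.mem_filter.1 he).1, rfl⟩
      · rintro ⟨e, he, rfl⟩
        exact ⟨ρ e, Finset.mem_filter.2 ⟨(hρ e he).1, hρρ e he⟩,
          (key_eq_iff hg he).2 (hρ e he).2⟩
    rw [← h1, Finset.card_image_of_injOn]
    intro e he f hf hef
    have he' := Finset.mem_filter.1 he
    have hf' := Finset.mem_filter.1 hf
    rw [← he'.2, ← hf'.2]
    exact hρ' e he'.1 f hf'.1 ((key_eq_iff hg hf'.1).1 hef)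
  have hsplit : ((Pos s).filter fun e => ρ e = e).card + ((Pos s).filter fun e => ρ e ≠ e).card =
      (Pos s).card := Finset.card_filter_add_card_filter_not _
  have hPN : (Pos s).card + (Neg s).card = Fintype.card ι := by
    have h1 := Finset.card_filter_add_card_filter_not (s := (Finset.univ : Finset ι))
      (fun c => s c = true)
    rw [Finset.card_univ] at h1
    rw [← h1]
    congr 2
    ext c
    simp [Neg]
  have hrank := LinearMap.finrank_range_add_finrank_ker (cob S s)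
  rw [finrank_ker, finrank_fintype_fun_eq_card, hP.card_eq] at hrank
  have hcard : Fintype.card ({e // e ∈ (Pos s).filter fun e => ρ e ≠ e} ⊕
      (Σ c : {c // c ∈ Neg s}, {𝒯 // 𝒯 ∈ S.quads s c.1})) =
      finrank (ZMod 2) (LinearMap.range (cob S s)) := by
    rw [Fintype.card_sum, Fintype.card_coe, Fintype.card_sigma]
    have h1 : ∑ c : {c // c ∈ Neg s}, Fintype.card {𝒯 // 𝒯 ∈ S.quads s c.1} =
        ∑ c ∈ Neg s, (S.quads s c).card := by
      rw [← Finset.sum_coe_sort (Neg s) fun c => (S.quads s c).card]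
      exact Finset.sum_congr rfl fun c _ => Fintype.card_coe _
    rw [h1]
    have h2 : (∑ c ∈ Neg s, ((S.quads s c).card : ℤ)) =
        ((∑ c ∈ Neg s, (S.quads s c).card : ℕ) : ℤ) := by
      rw [Nat.cast_sum]
    rw [h2] at h0
    omega
  have hspan : Submodule.span (ZMod 2) (Set.range v) = LinearMap.range (cob S s) := by
    apply Submodule.eq_of_le_of_finrank_eq
    · rw [Submodule.span_le]
      rintro _ ⟨i, rfl⟩
      exact hmem i
    · rw [finrank_span_eq_card hlin, hcard]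
  have hle : LinearMap.range (cob S s) ≤ LinearMap.ker (tot : (ι → ZMod 2) →ₗ[ZMod 2] ZMod 2) := by
    rw [← hspan, Submodule.span_le]
    rintro _ ⟨i, rfl⟩
    exact htot i
  intro W
  have h1 : cob S s (ind W) ∈ LinearMap.ker (tot : (ι → ZMod 2) →ₗ[ZMod 2] ZMod 2) :=
    hle ⟨_, rfl⟩
  rw [cob_ind, LinearMap.mem_ker, tot_ind, ZMod.natCast_eq_zero_iff_even] at h1
  exact h1

end Sys

end Pool.Agent.Helper16.Jones
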