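import Pool.Agent.Helper16.Jones.KnotSys
import Pool.Agent.Helper16.Knotoid.Main

set_option autoImplicit false

/-!
# States whose state graph is bipartite, and diagrams with trivial f-polynomial
-/

namespace Pool.Agent.Helper16.Jones

open LaurentPolynomial Module Pool.Agent.Helper16.Knotoid
open Pool.Agent.Helper16.Knotoid.GaussDiagram (jump telescope)

namespace KnotDiagram

variable {n : ℕ} {D : KnotDiagram n}

/-- the cuts of the Seifert state are even -/
theorem sum_dlt_sign {ψ : Fin (2 * n + 1) × Bool → ZMod 2} (hψ : ψ ∈ compat D.Corner) :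
    ∑ c, D.dlt D.sign ψ c = 0 := by
  have h1 := telescope' (fun k => ψ (k, true))
  rw [(mem_compat.1 hψ) _ _ (Corner.base true), CharTwo.add_self_eq_zero, D.sum_pass] at h1
  rw [← h1]
  refine Finset.sum_congr rfl fun c _ => ?_
  rw [← (mem_compat.1 hψ) _ _ (Corner.se c), ← (mem_compat.1 hψ) _ _ (Corner.sw c)]
  unfold dlt mc
  rw [if_pos rfl]
  have key : ∀ a b c : ZMod 2, a + b = c + b + (a + c) := by decide
  exact key _ _ _

theorem dlt_add {s : Fin n → Bool} {ψ : Fin (2 * n + 1) × Bool → ZMod 2}
    (hψ : ψ ∈ compat D.Corner) (c : Fin n) :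
    D.dlt s ψ c + D.dlt D.sign ψ c = if s c = D.sign c then 0 else D.chg ψ c := by
  by_cases hc : s c = D.sign c
  · rw [if_pos hc]
    unfold dlt
    rw [hc]
    exact CharTwo.add_self_eq_zero _
  · rw [if_neg hc]
    obtain ⟨f1, f2, f3, f4⟩ := four hψ c
    have h1 := chg_fst hψ c
    have h2 : D.chg ψ c = jump ψ (D.fst c).castSucc + jump ψ (D.fst c).succ := by
      rcases D.fst_snd c with ⟨a, b⟩ | ⟨a, b⟩
      · unfold chg
        rw [a]
      · rw [h1]
        unfold chg
        rw [b]
    rw [h2, f1, f2]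
    unfold dlt mc
    rw [if_neg hc, if_pos rfl]
    have key : ∀ a b c d : ZMod 2, a + b + (c + d) = a + c + (d + b) := by decide
    exact key _ _ _ _

/-- if all cuts are even then the state is the Seifert state -/
theorem eq_sign_of_even (hD : D.Planar) {s : Fin n → Bool}
    (h : ∀ W, Even (D.sys.cut s W).card) : s = D.sign := by
  classical
  funext c
  by_contra hc
  obtain ⟨ψ, hψ, -, hx, -⟩ := exists_corner hD 0 (Pi.single c 1)
  obtain ⟨φ, rfl⟩ := exists_cf hψ
  have h1 : ∑ d, D.dlt s (cf φ) d = 0 := by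
    set W : Finset D.Reg := Finset.univ.filter fun x => φ x = 1 with hW
    have h2 : ind W = φ := by
      funext x
      unfold ind
      have key : ∀ a : ZMod 2, a ≠ 1 → 0 = a := by decide
      by_cases hx : φ x = 1
      · rw [if_pos (by simp [hW, hx]), hx]
      · rw [if_neg (by simp [hW, hx])]
        exact key _ hx
    have h3 := ind_cut (D := D) (s := s) (W := W)
    rw [h2] at h3
    rw [← h3]
    have h4 := sum_ind (D.sys.cut s W) (fun _ => 1)
    simp only [mul_one, Finset.sum_const, nsmul_eq_mul] at h4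
    rw [h4]
    exact ZMod.natCast_eq_zero_iff_even.2 (h W)
  have h2 : ∑ d, (D.dlt s (cf φ) d + D.dlt D.sign (cf φ) d) = 0 := by
    rw [Finset.sum_add_distrib, h1, sum_dlt_sign hψ, add_zero]
  rw [Finset.sum_congr rfl fun d _ => dlt_add hψ d, Finset.sum_eq_single c] at h2
  · rw [if_neg hc, hx, Pi.single_eq_same] at h2
    exact one_ne_zero h2
  · intro d _ hd
    rw [hx, Pi.single_eq_of_ne hd]
    split_ifs <;> rfl
  · intro h'
    exact absurd (Finset.mem_univ c) h'

theorem r1_conv {α : Type*} {L : List α} (h : Knotoid.R1Trivial L) : R1Trivial L := by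
  induction h with
  | nil => exact R1Trivial.nil
  | insert u v a _ ih => exact R1Trivial.insert u v a ih

/-- a diagram with a state with `n+1` circles is trivial -/
theorem r1_of_circles {s : Fin n → Bool} (h : D.circles s = n + 1) : R1Trivial D.word := by
  have hrank : (D.long.gmat s).rank = 0 := by
    have h1 := D.long.comps_add_rank s
    rw [← circles_eq] at h1
    omega
  have hzero : D.long.gmat s = 0 := by
    have h7 : LinearMap.range (D.long.gmat s).mulVecLin = ⊥ := Submodule.finrank_eq_zero.1 hrank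
    rw [LinearMap.range_eq_bot] at h7
    ext e f
    have h8 := congrArg (fun g => g (Pi.single f 1) e) h7
    simpa using h8
  exact r1_conv (D.long.r1_of_gmat s fun e f _ => by rw [hzero]; rfl)

/-- if `f = 1` then the bracket is a monomial -/
theorem bracket_of_f (hf : D.fPoly = 1) :
    ∃ ε : ℤ, ∀ j, D.bracket.coeff j = if j = 3 * D.writhe then ε else 0 := by
  unfold fPoly at hf
  have h1 : D.bracket = (-1) ^ D.writhe.natAbs * T (3 * D.writhe) := by
    have h2 : ((-1 : LaurentPolynomial ℤ) ^ D.writhe.natAbs) * (-1) ^ D.writhe.natAbs = 1 := by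
      rw [← mul_pow]
      simp
    have h3 : (T (3 * D.writhe) : LaurentPolynomial ℤ) * T (-3 * D.writhe) = 1 := by
      rw [← T_add]
      have : 3 * D.writhe + -3 * D.writhe = 0 := by ring
      rw [this, T_zero]
    calc D.bracket = (((-1 : LaurentPolynomial ℤ) ^ D.writhe.natAbs) * (-1) ^ D.writhe.natAbs) *
          (T (3 * D.writhe) * T (-3 * D.writhe)) * D.bracket := by rw [h2, h3]; ring
      _ = (-1) ^ D.writhe.natAbs * T (3 * D.writhe) *
          ((-1) ^ D.writhe.natAbs * T (-3 * D.writhe) * D.bracket) := by ring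
      _ = (-1) ^ D.writhe.natAbs * T (3 * D.writhe) := by rw [hf, mul_one]
  rcases neg_one_pow_eq_or (LaurentPolynomial ℤ) D.writhe.natAbs with h | h
  · refine ⟨1, fun j => ?_⟩
    rw [h1, h, one_mul, T_apply]
    simp only [eq_comm]
  · refine ⟨-1, fun j => ?_⟩
    have h3 : ∀ p : LaurentPolynomial ℤ, (-p).coeff j = -p.coeff j := fun _ => rfl
    rw [h1, h, neg_one_mul, h3, T_apply]
    by_cases hj : j = 3 * D.writhe
    · rw [if_pos hj, if_pos hj.symm]
    · rw [if_neg hj, if_neg (Ne.symm hj)]
      simp

/-- the writhe in terms of the number of negative crossings -/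
theorem writhe_eq : D.writhe = (n : ℤ) - 2 * (Neg D.sign).card := by
  classical
  have h1 : D.writhe = ∑ c : Fin n, ((1 : ℤ) - 2 * (if D.sign c = false then 1 else 0)) := by
    unfold writhe
    refine Finset.sum_congr rfl fun c _ => ?_
    cases D.sign c <;> simp
  rw [h1, Finset.sum_sub_distrib, ← Finset.mul_sum]
  unfold Neg
  rw [Finset.card_filter]
  simp

end KnotDiagram

end Pool.Agent.Helper16.Jones
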