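import Pool.Agent.Helper16.Jones.TwoSided
import Pool.Agent.Helper16.Jones.Seifert
import Pool.Agent.Helper16.Jones.Phi
import Pool.Agent.Helper16.Jones.Quads

set_option autoImplicit false
set_option linter.unusedSectionVars false

/-!
# The theorem on sparse states
-/

namespace Pool.Agent.Helper16.Jones

open LaurentPolynomial Pool.Agent.Helper16.Knotoid

section
variable {ι R : Type} [Fintype ι] [DecidableEq ι] [Fintype R] [DecidableEq R]

namespace Sys

variable {S : Sys ι R} {χ : R → Bool}

theorem topDeg_eq (hP : S.IsPlanar χ) {s : ι → Bool} (hs : S.Sparse s) {e ε : ℤ}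
    (hmono : ∀ j, S.br.coeff j = if j = e then ε else 0) : S.topDeg s = e := by
  by_contra h
  have h2 := br_coeff_top hP hs
  rw [hmono, if_neg h] at h2
  exact pow_ne_zero _ (by norm_num) h2.symm

open Classical in
theorem strict_even (hP : S.IsPlanar χ) {s : ι → Bool} (hs : S.Sparse s) (hs' : S.Strict s)
    {V : Type} (v₁ v₂ : ι → V)
    (hv : ∀ C : Finset ι, (∃ W, S.cut s W = C) ↔ ∀ q : V, Even
      ((C.filter fun c => v₁ c = q).card + (C.filter fun c => v₂ c = q).card))
    {e ε : ℤ} (hmono : ∀ j, S.br.coeff j = if j = e then ε else 0) :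
    ∀ W, Even (S.cut s W).card := by
  apply even_of_count hP hs hs' v₁ v₂ hv
  have h1 := topDeg_eq hP hs hmono
  have h2 := br_coeff_second hP hs
  rw [hmono, if_neg (by omega), phi_sum hP hs hs'] at h2
  have h3 : ((-1 : ℤ) ^ S.full s) ≠ 0 := pow_ne_zero _ (by norm_num)
  have h4 := (mul_eq_zero.1 h2.symm).resolve_left h3
  linarith

end Sys

end

namespace KnotDiagram

variable {n : ℕ} {D : KnotDiagram n}

theorem card_inter_pos (s : Fin n → Bool) (C : Finset (Fin n)) :
    (C ∩ Pos s).card = num s true C := by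
  unfold num Pos
  congr 1
  ext c
  simp

theorem card_inter_neg (s : Fin n → Bool) (C : Finset (Fin n)) :
    (C ∩ Neg s).card = num s false C := by
  unfold num Neg
  congr 1
  ext c
  simp

theorem sparse_true (hD : D.Planar) {s : Fin n → Bool} (h : D.Sparse true s) :
    D.sys.Sparse s := by
  intro W hW
  rw [card_inter_pos, card_inter_neg]
  exact h _ hW ((exists_cut_iff hD s _).1 ⟨W, rfl⟩)

theorem sparse_false (hD : D.Planar) {s : Fin n → Bool} (h : D.Sparse false s) :
    D.sys.mir.Sparse (nt s) := by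
  intro W hW
  rw [D.sys.mir_cut] at hW ⊢
  rw [neg_nt, pos_nt, card_inter_pos, card_inter_neg]
  exact h _ hW ((exists_cut_iff hD s _).1 ⟨W, rfl⟩)

theorem strict_true (hD : D.Planar) {s : Fin n → Bool} (h : D.StrictlySparse true s) :
    D.sys.Strict s := by
  intro W hW
  rw [card_inter_neg] at hW
  rw [card_inter_pos, card_inter_neg]
  exact h.2 _ ((exists_cut_iff hD s _).1 ⟨W, rfl⟩) hW

theorem strict_false (hD : D.Planar) {s : Fin n → Bool} (h : D.StrictlySparse false s) :
    D.sys.mir.Strict (nt s) := by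
  intro W hW
  rw [D.sys.mir_cut] at hW ⊢
  rw [neg_nt, card_inter_pos] at hW
  rw [neg_nt, pos_nt, card_inter_pos, card_inter_neg]
  exact h.2 _ ((exists_cut_iff hD s _).1 ⟨W, rfl⟩) hW

theorem card_pos_add (s : Fin n → Bool) : (Pos s).card + (Neg s).card = n := by
  have h := Finset.card_filter_add_card_filter_not (s := (Finset.univ : Finset (Fin n)))
    (fun c => s c = true)
  have h1 : (Finset.univ.filter fun c => ¬ (s c = true)) = Neg s := by
    unfold Neg
    ext c
    simp
  rw [h1, Finset.card_univ, Fintype.card_fin] at h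
  exact h

/-- the bracket at a sparse state -/
theorem coeff_true (hD : D.Planar) {s : Fin n → Bool} (h : D.Sparse true s) :
    (∀ j, (n : ℤ) + 2 * D.circles s - 2 - 6 * num s false Finset.univ < j →
      D.bracket.coeff j = 0) ∧
    D.bracket.coeff ((n : ℤ) + 2 * D.circles s - 2 - 6 * num s false Finset.univ) =
      (-1) ^ (D.circles s - 1) := by
  obtain ⟨χ, hP⟩ := exists_chi hD
  have hs := sparse_true hD h
  have h1 : D.sys.topDeg s = (n : ℤ) + 2 * D.circles s - 2 - 6 * num s false Finset.univ := by
    unfold Sys.topDeg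
    rw [full_eq hD, Fintype.card_fin, ← card_inter_neg, Finset.univ_inter]
    push_cast
    ring
  rw [← h1, bracket_eq hD]
  refine ⟨fun j hj => Sys.br_coeff_gt hP hs j hj, ?_⟩
  rw [Sys.br_coeff_top hP hs, full_eq hD]
  have h2 := D.circles_pos s
  obtain ⟨m, hm⟩ := Nat.exists_eq_add_of_le h2
  rw [hm, show 1 + m + 1 = (m + 2) by ring, show 1 + m - 1 = m by omega, pow_add]
  norm_num

theorem coeff_false (hD : D.Planar) {s : Fin n → Bool} (h : D.Sparse false s) :
    (∀ j, j < -((n : ℤ) + 2 * D.circles s - 2 - 6 * num s true Finset.univ) →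
      D.bracket.coeff j = 0) ∧
    D.bracket.coeff (-((n : ℤ) + 2 * D.circles s - 2 - 6 * num s true Finset.univ)) =
      (-1) ^ (D.circles s - 1) := by
  obtain ⟨χ, hP⟩ := exists_chi hD
  have hP' := D.sys.mir_planar hP
  have hs := sparse_false hD h
  have h1 : D.sys.mir.topDeg (nt s) =
      (n : ℤ) + 2 * D.circles s - 2 - 6 * num s true Finset.univ := by
    rw [Sys.mir_topDeg, full_eq hD, Fintype.card_fin, ← card_inter_pos, Finset.univ_inter]
    push_cast
    ring
  rw [← h1, bracket_eq hD]
  refine ⟨fun j hj => ?_, ?_⟩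
  · have h2 := Sys.br_coeff_gt hP' hs (-j) (by omega)
    rw [Sys.mir_coeff, neg_neg] at h2
    exact h2
  · rw [← Sys.mir_coeff, Sys.br_coeff_top hP' hs, Sys.mir_full, full_eq hD]
    have h2 := D.circles_pos s
    obtain ⟨m, hm⟩ := Nat.exists_eq_add_of_le h2
    rw [hm, show 1 + m + 1 = (m + 2) by ring, show 1 + m - 1 = m by omega, pow_add]
    norm_num

/-- a sparse Seifert state -/
theorem seifert (hD : D.Planar) (hf : D.fPoly = 1) (X : Bool) (h : D.Sparse X D.sign) :
    R1Trivial D.word := by
  obtain ⟨χ, hP⟩ := exists_chi hD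
  obtain ⟨ε, hε⟩ := bracket_of_f hf
  rw [bracket_eq hD] at hε
  have hw := D.writhe_eq
  have hc := card_pos_add D.sign
  apply r1_of_circles (s := D.sign)
  have hfull := full_eq hD D.sign
  cases X
  · have hs := sparse_false hD h
    have h1 := Sys.topDeg_eq (D.sys.mir_planar hP) hs (e := -(3 * D.writhe)) (ε := ε) (by
      intro j
      rw [Sys.mir_coeff, hε]
      exact if_congr (by constructor <;> intro h <;> omega) rfl rfl)
    rw [Sys.mir_topDeg, hfull, Fintype.card_fin] at h1
    push_cast at h1
    omega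
  · have hs := sparse_true hD h
    have h1 := Sys.topDeg_eq hP hs hε
    unfold Sys.topDeg at h1
    rw [hfull, Fintype.card_fin] at h1
    push_cast at h1
    omega

theorem two_sided (hD : D.Planar) (hf : D.fPoly = 1) {s t : Fin n → Bool}
    (hs : D.Sparse true s) (ht : D.Sparse false t) : R1Trivial D.word := by
  obtain ⟨χ, hP⟩ := exists_chi hD
  obtain ⟨ε, hε⟩ := bracket_of_f hf
  rw [bracket_eq hD] at hε
  apply r1_of_circles (s := s)
  have h1 := Sys.two_sided hP (sparse_true hD hs) (sparse_false hD ht) _ _ hε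
  rw [full_eq hD, Fintype.card_fin] at h1
  omega

theorem strict (hD : D.Planar) (hf : D.fPoly = 1) (X : Bool) {s : Fin n → Bool}
    (h : D.StrictlySparse X s) : R1Trivial D.word := by
  obtain ⟨χ, hP⟩ := exists_chi hD
  obtain ⟨ε, hε⟩ := bracket_of_f hf
  rw [bracket_eq hD] at hε
  have key : s = D.sign := by
    apply eq_sign_of_even hD
    cases X
    · have h1 := Sys.strict_even (D.sys.mir_planar hP) (sparse_false hD h.1) (strict_false hD h)
        (D.end₁ s) (D.end₂ s) (by
          intro C
          rw [show (∃ W, D.sys.mir.cut (nt s) W = C) ↔ ∃ W, D.sys.cut s W = C by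
            simp only [D.sys.mir_cut]]
          exact exists_cut_iff hD s C) (e := -(3 * D.writhe)) (ε := ε) (by
      intro j
      rw [Sys.mir_coeff, hε]
      exact if_congr (by constructor <;> intro h <;> omega) rfl rfl)
      intro W
      rw [← D.sys.mir_cut]
      exact h1 W
    · exact Sys.strict_even hP (sparse_true hD h.1) (strict_true hD h)
        (D.end₁ s) (D.end₂ s) (fun C => exists_cut_iff hD s C) hε
  apply seifert hD hf X
  rw [← key]
  exact h.1

end KnotDiagram

end Pool.Agent.Helper16.Jones
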