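import Pool.Agent.Helper16.Jones.Sys
import Pool.Agent.Helper16.Knotoid.Main

set_option autoImplicit false
set_option linter.unusedSectionVars false

/-!
# The mirror image of a region system
-/

namespace Pool.Agent.Helper16.Jones

open LaurentPolynomial Pool.Agent.Helper16.Knotoid

variable {ι R : Type} [Fintype ι] [DecidableEq ι] [Fintype R] [DecidableEq R]

/-- all smoothings changed -/
def nt (s : ι → Bool) : ι → Bool := fun c => !(s c)

theorem nt_nt (s : ι → Bool) : nt (nt s) = s := by
  funext c
  simp [nt]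

theorem neg_nt (s : ι → Bool) : Neg (nt s) = Pos s := by
  unfold Neg Pos nt
  ext c
  simp

theorem pos_nt (s : ι → Bool) : Pos (nt s) = Neg s := by
  unfold Neg Pos nt
  ext c
  simp

theorem nt_sw (s : ι → Bool) (Y : Finset ι) : nt (sw s Y) = sw (nt s) Y := by
  funext c
  unfold nt sw
  split_ifs <;> rfl

namespace Sys

variable (S : Sys ι R)

/-- the mirror image -/
def mir : Sys ι R := ⟨fun c b => S.p c (!b)⟩

theorem mir_rel (s : ι → Bool) :
    S.mir.Rel (fun c => some (nt s c)) = S.Rel (fun c => some (s c)) := by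
  funext x y
  apply propext
  unfold Rel mir nt
  constructor
  · rintro ⟨c, b, h1, h2⟩
    refine ⟨c, s c, rfl, ?_⟩
    rw [Option.some.injEq] at h1
    rw [← h2, ← h1]
    simp only [Bool.not_not]
  · rintro ⟨c, b, h1, h2⟩
    refine ⟨c, !s c, rfl, ?_⟩
    rw [Option.some.injEq] at h1
    rw [← h2, ← h1]
    simp only [Bool.not_not]

theorem mir_full (s : ι → Bool) : S.mir.full (nt s) = S.full s := by
  unfold full cl
  rw [mir_rel]

theorem mir_full' (s : ι → Bool) : S.mir.full s = S.full (nt s) := by
  rw [← S.mir_full (nt s), nt_nt]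

theorem mir_cut (s : ι → Bool) (W : Finset R) : S.mir.cut (nt s) W = S.cut s W := by
  unfold cut mir nt
  simp only [Bool.not_not]

theorem mir_planar {χ : R → Bool} (h : S.IsPlanar χ) : S.mir.IsPlanar χ := by
  refine ⟨h.card_eq, fun s => ?_, fun s c => ?_, fun c b => h.col c _, fun c => ?_⟩
  · rw [mir_full']
    exact h.two_le _
  · rw [mir_full', mir_full', nt_sw]
    exact h.switch _ _
  · exact (h.col_ne c).symm

theorem mir_br : S.mir.br = invert S.br := by
  unfold br
  rw [map_sum]
  refine Finset.sum_bij' (fun s _ => nt s) (fun s _ => nt s) (fun _ _ => Finset.mem_univ _)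
    (fun _ _ => Finset.mem_univ _) (fun s _ => nt_nt s) (fun s _ => nt_nt s) ?_
  intro s _
  rw [map_mul, map_pow, GaussDiagram.invert_dd, invert_T, mir_full']
  congr 2
  rw [← Finset.sum_neg_distrib]
  refine Finset.sum_congr rfl fun c _ => ?_
  unfold nt
  cases s c <;> simp

theorem mir_coeff (j : ℤ) : S.mir.br.coeff j = S.br.coeff (-j) := by
  rw [mir_br, invert_apply]

theorem mir_topDeg (s : ι → Bool) : S.mir.topDeg (nt s) =
    (Fintype.card ι : ℤ) + 2 * (S.full s : ℤ) - 4 - 6 * (Pos s).card := by
  unfold topDeg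
  rw [mir_full, neg_nt]

end Sys

end Pool.Agent.Helper16.Jones
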