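import Pool.Agent.Helper16.Jones.Expand
import Pool.Agent.Helper16.Jones.Mirror

set_option autoImplicit false
set_option linter.unusedSectionVars false

/-!
# Diagrams with sparse states of both types
-/

namespace Pool.Agent.Helper16.Jones

open LaurentPolynomial Pool.Agent.Helper16.Knotoid

variable {ι R : Type} [Fintype ι] [DecidableEq ι] [Fintype R] [DecidableEq R]

namespace Sys

variable {S : Sys ι R} {χ : R → Bool}

theorem bridge_univ {s : ι → Bool} {c : ι} :
    S.Bridge s Finset.univ c ↔ (S.p c (s c)).1 = (S.p c (s c)).2 := by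
  constructor
  · intro h
    have h1 := S.lift_eq (u := off s (insert c Finset.univ)) (fun x => x) (by
      intro d b hd
      exact absurd (Finset.mem_insert_of_mem (Finset.mem_univ d)) (of_off hd).1) h
    exact h1
  · intro h
    unfold Bridge
    rw [h]

theorem cut_ne_singleton {s : ι → Bool} (hs : S.Sparse s) (c : ι) (W : Finset R) :
    S.cut s W ≠ {c} := by
  intro h
  have h1 := hs W (by rw [h]; exact Finset.singleton_nonempty c)
  have h2 : (S.cut s W ∩ Pos s).card ≤ (S.cut s W).card :=
    Finset.card_le_card Finset.inter_subset_left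
  rw [h, Finset.card_singleton] at h2
  rw [h] at h1
  omega

/-- a smoothing merging a region with itself is forced in a sparse state -/
theorem eq_of_bridge (hP : S.IsPlanar χ) {t : ι → Bool} (ht : ∀ c W, S.cut t W ≠ {c}) {c : ι}
    {b : Bool} (h : (S.p c b).1 = (S.p c b).2) : t c = b := by
  by_contra hne
  have hb : b = !(t c) := by
    revert hne
    cases b <;> cases t c <;> simp
  have hnb : S.Bridge t ∅ c := by
    rw [bridge_iff_cut]
    intro W hW hc
    apply ht c W
    apply Finset.Subset.antisymm hW
    exact Finset.insert_subset hc (Finset.empty_subset _)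
  have h1 := full_sw_insert_bridge hP (Finset.notMem_empty c) hnb
  have h2 := S.cl_update (hole t ∅ c) c (t c) (hole_self t ∅ c)
  have h3 := S.cl_update (hole t ∅ c) c (!t c) (hole_self t ∅ c)
  rw [← full_sw (Finset.notMem_empty c)] at h2
  rw [← full_sw_insert (Finset.notMem_empty c)] at h3
  rw [← hb, h] at h3
  rcases h3 with ⟨h3, -⟩ | ⟨-, h3⟩
  · omega
  · exact h3 rfl

/-- the crossings at which `s` merges a region with itself -/
def Bd (S : Sys ι R) (s : ι → Bool) : Finset ι :=
  Finset.univ.filter fun c => (S.p c (s c)).1 = (S.p c (s c)).2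

theorem mem_Bd {s : ι → Bool} {c : ι} : c ∈ S.Bd s ↔ (S.p c (s c)).1 = (S.p c (s c)).2 := by
  unfold Bd
  rw [Finset.mem_filter]
  simp

theorem cl_off_univ (s : ι → Bool) : S.cl (off s Finset.univ) = Fintype.card R := by
  rw [← Nat.card_eq_fintype_card]
  unfold cl
  symm
  apply Nat.card_congr
  refine Equiv.ofBijective (Quot.mk _) ⟨?_, Quot.mk_surjective⟩
  intro x y h
  exact S.lift_eq (u := off s Finset.univ) (fun x => x) (by
    intro d b hd
    exact absurd (Finset.mem_univ d) (of_off hd).1) h

theorem cl_off_compl (s : ι → Bool) (Z : Finset ι) (hZ : Z ⊆ S.Bd s) :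
    S.cl (off s (Finset.univ \ Z)) = Fintype.card R := by
  induction Z using Finset.induction_on with
  | empty => rw [Finset.sdiff_empty, cl_off_univ]
  | insert c Z hc ih =>
    rw [← ih ((Finset.subset_insert c Z).trans hZ)]
    have h1 : Finset.univ \ Z = insert c (Finset.univ \ insert c Z) := by
      ext d
      simp only [Finset.mem_sdiff, Finset.mem_univ, true_and, Finset.mem_insert]
      by_cases hd : d = c
      · subst hd
        simp [hc]
      · simp [hd]
    have h2 : S.Bridge s (Finset.univ \ insert c Z) c :=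
      S.bridge_mono (Finset.subset_univ _)
        (bridge_univ.2 (mem_Bd.1 (hZ (Finset.mem_insert_self c Z))))
    rw [h1, S.cl_off_insert (by simp), if_pos h2, add_zero]

theorem nb_bound (hP : S.IsPlanar χ) {s : ι → Bool} (hs : S.Sparse s)
    (hne : S.Bd s ≠ Finset.univ) :
    (S.Bd s).card + 3 + 2 * (Neg s \ S.Bd s).card ≤ S.full s := by
  classical
  set B := S.Bd s with hB
  set X := Finset.univ \ (Neg s ∩ B) with hX
  have hnb : ∀ c, c ∉ B → ¬ S.Bridge s X c := by
    intro c hc hbr
    have h1 : ¬ S.Bridge s Finset.univ c := fun h => hc (mem_Bd.2 (bridge_univ.1 h))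
    rw [bridge_iff_cut] at h1 hbr
    apply h1
    intro W _
    apply hbr W
    intro d hd
    rw [Finset.mem_insert, hX, Finset.mem_sdiff]
    right
    refine ⟨Finset.mem_univ d, fun h => ?_⟩
    have h2 := mem_Bd.1 (Finset.mem_inter.1 h).2
    rw [mem_cut, h2] at hd
    exact hd Iff.rfl
  have h1 : ∀ c ∈ X ∩ Neg s, ¬ S.Bridge s X c := by
    intro c hc
    apply hnb
    intro h
    rw [Finset.mem_inter, hX, Finset.mem_sdiff] at hc
    exact hc.1.2 (Finset.mem_inter.2 ⟨hc.2, h⟩)
  have h2 : ∃ c ∈ X, ¬ S.Bridge s X c := by
    by_contra h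
    push Not at h
    apply hne
    rw [Finset.eq_univ_iff_forall]
    intro c
    by_contra hc
    refine hnb c hc (h c ?_)
    rw [hX, Finset.mem_sdiff]
    exact ⟨Finset.mem_univ c, fun h' => hc (Finset.mem_inter.1 h').2⟩
  have h3 := S.cells_bound hs X h1 h2
  rw [cl_off_compl s (Neg s ∩ B) Finset.inter_subset_right, hP.card_eq] at h3
  have h4 : (Neg s \ B).card ≤ (X ∩ Neg s).card := by
    apply Finset.card_le_card
    intro c hc
    rw [Finset.mem_sdiff] at hc
    rw [Finset.mem_inter, hX, Finset.mem_sdiff]
    exact ⟨⟨Finset.mem_univ c, fun h' => hc.2 (Finset.mem_inter.1 h').2⟩, hc.1⟩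
  have h5 : ((X ∩ Pos s).filter fun c => ¬ S.Bridge s X c).card ≤ (Pos s \ B).card := by
    apply Finset.card_le_card
    intro c hc
    rw [Finset.mem_filter, Finset.mem_inter] at hc
    rw [Finset.mem_sdiff]
    exact ⟨hc.1.2, fun h => hc.2 (S.bridge_mono (Finset.subset_univ _)
      (bridge_univ.2 (mem_Bd.1 h)))⟩
  have h6 : (Neg s \ B).card + (Pos s \ B).card + B.card = Fintype.card ι := by
    rw [← Finset.card_union_of_disjoint, ← Finset.card_union_of_disjoint, ← Finset.card_univ]
    · congr 1
      ext c
      simp only [Finset.mem_union, Finset.mem_sdiff, Finset.mem_univ, iff_true, Neg, Pos,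
        Finset.mem_filter, true_and]
      cases s c <;> by_cases hc : c ∈ B <;> simp [hc]
    · rw [Finset.disjoint_left]
      intro c hc hcB
      rw [Finset.mem_union, Finset.mem_sdiff, Finset.mem_sdiff] at hc
      rcases hc with h | h
      · exact h.2 hcB
      · exact h.2 hcB
    · rw [Finset.disjoint_left]
      intro c hc hc'
      simp only [Finset.mem_sdiff, Neg, Pos, Finset.mem_filter, Finset.mem_univ, true_and] at hc hc'
      rw [hc.1] at hc'
      exact absurd hc'.1 (by simp)
  omega

theorem full_le (hP : S.IsPlanar χ) (s : ι → Bool) : S.full s ≤ Fintype.card ι + 2 := by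
  rw [← hP.card_eq, ← Nat.card_eq_fintype_card]
  exact Nat.card_le_card_of_surjective (Quot.mk _) Quot.mk_surjective

/-- **two-sided theorem** -/
theorem two_sided (hP : S.IsPlanar χ) {s t : ι → Bool} (hs : S.Sparse s)
    (ht : S.mir.Sparse (nt t)) (e ε : ℤ) (hmono : ∀ j, S.br.coeff j = if j = e then ε else 0) :
    S.full s = Fintype.card ι + 2 := by
  classical
  have hPm := S.mir_planar hP
  have h1 : S.topDeg s = e := by
    by_contra h
    have h2 := br_coeff_top hP hs
    rw [hmono, if_neg h] at h2
    exact pow_ne_zero _ (by norm_num) h2.symm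
  have h2 : -S.mir.topDeg (nt t) = e := by
    by_contra h
    have h2 := br_coeff_top hPm ht
    rw [mir_coeff, hmono, if_neg h] at h2
    exact pow_ne_zero _ (by norm_num) h2.symm
  rw [mir_topDeg] at h2
  unfold topDeg at h1
  -- the bridges
  have ht' : ∀ c W, S.cut t W ≠ {c} := by
    intro c W
    rw [← S.mir_cut]
    exact cut_ne_singleton ht c W
  have hBd : S.Bd s = S.Bd t := by
    ext c
    rw [mem_Bd, mem_Bd]
    constructor
    · intro h
      rw [eq_of_bridge hP ht' h]
      exact h
    · intro h
      rw [eq_of_bridge hP (cut_ne_singleton hs) h]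
      exact h
  have hBm : S.mir.Bd (nt t) = S.Bd t := by
    ext c
    rw [mem_Bd, mem_Bd]
    unfold mir nt
    simp only [Bool.not_not]
  by_cases hne : S.Bd s = Finset.univ
  · have h3 := S.cl_off_of_bridges (s := s) Finset.univ (by
      intro c _
      rw [bridge_univ, ← mem_Bd, hne]
      exact Finset.mem_univ c)
    rw [cl_off_univ, hP.card_eq] at h3
    exact h3.symm
  · exfalso
    have h3 := nb_bound hP hs hne
    have h4 := nb_bound hPm ht (by rw [hBm, ← hBd]; exact hne)
    rw [hBm, ← hBd, mir_full, neg_nt] at h4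
    have h5 := full_le hP s
    have h6 := full_le hP t
    -- counting the minority crossings
    have h7 : (Neg s).card + (Pos t).card = (Neg s \ S.Bd s).card + (Pos t \ S.Bd s).card +
        (S.Bd s).card := by
      have a1 : (Neg s).card = (Neg s \ S.Bd s).card + (Neg s ∩ S.Bd s).card := by
        rw [Finset.card_sdiff_add_card_inter]
      have a2 : (Pos t).card = (Pos t \ S.Bd s).card + (Pos t ∩ S.Bd s).card := by
        rw [Finset.card_sdiff_add_card_inter]
      have a3 : (Neg s ∩ S.Bd s).card + (Pos t ∩ S.Bd s).card = (S.Bd s).card := by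
        rw [← Finset.card_union_of_disjoint]
        · congr 1
          ext c
          simp only [Finset.mem_union, Finset.mem_inter, Neg, Pos, Finset.mem_filter,
            Finset.mem_univ, true_and]
          by_cases hc : c ∈ S.Bd s
          · have h8 : t c = s c := eq_of_bridge hP ht' (mem_Bd.1 hc)
            rw [h8]
            cases s c <;> simp [hc]
          · simp [hc]
        · rw [Finset.disjoint_left]
          intro c hc hc'
          simp only [Finset.mem_inter, Neg, Pos, Finset.mem_filter, Finset.mem_univ,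
            true_and] at hc hc'
          have h8 : t c = s c := eq_of_bridge hP ht' (mem_Bd.1 hc.2)
          rw [h8, hc.1] at hc'
          exact absurd hc'.1 (by simp)
      omega
    have h8 : (Neg s \ S.Bd s).card + (S.Bd s).card ≤ Fintype.card ι := by
      rw [← Finset.card_union_of_disjoint Finset.sdiff_disjoint]
      exact Finset.card_le_univ _
    omega

end Sys

end Pool.Agent.Helper16.Jones
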