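import Pool.Agent.Helper16.Jones.UnbDefs
import Pool.Agent.Helper16.Jones.Classes
import Pool.Agent.Helper16.Jones.Mirror

set_option autoImplicit false
set_option linter.unusedSectionVars false

/-!
# The expansion of the bracket over bridgeless sets of crossings
-/

namespace Pool.Agent.Helper16.Jones

open LaurentPolynomial Pool.Agent.Helper16.Knotoid

/-- resummation -/
theorem resum {ι A : Type*} [DecidableEq ι] [CommRing A] (w : ι → A) (E : Finset ι) :
    ∀ g : Finset ι → A, ∑ Z ∈ E.powerset, (∏ c ∈ Z, w c) * ∑ Y ∈ Z.powerset, g Y =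
      ∑ Y ∈ E.powerset, g Y * (∏ c ∈ Y, w c) * ∏ c ∈ E \ Y, (1 + w c) := by
  induction E using Finset.induction_on with
  | empty => intro g; simp
  | insert a E ha ih =>
    intro g
    rw [Finset.sum_powerset_insert ha, Finset.sum_powerset_insert ha]
    have h1 : ∀ Z ∈ E.powerset, (∏ c ∈ insert a Z, w c) * ∑ Y ∈ (insert a Z).powerset, g Y =
        w a * ((∏ c ∈ Z, w c) * ∑ Y ∈ Z.powerset, g Y) +
        w a * ((∏ c ∈ Z, w c) * ∑ Y ∈ Z.powerset, g (insert a Y)) := by
      intro Z hZ
      have haZ : a ∉ Z := fun h => ha (Finset.mem_powerset.1 hZ h)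
      rw [Finset.prod_insert haZ, Finset.sum_powerset_insert haZ]
      ring
    have h2 : ∀ Y ∈ E.powerset, g Y * (∏ c ∈ Y, w c) * ∏ c ∈ insert a E \ Y, (1 + w c) =
        (1 + w a) * (g Y * (∏ c ∈ Y, w c) * ∏ c ∈ E \ Y, (1 + w c)) := by
      intro Y hY
      have haY : a ∉ Y := fun h => ha (Finset.mem_powerset.1 hY h)
      rw [Finset.insert_sdiff_of_notMem _ haY, Finset.prod_insert (by simp [ha])]
      ring
    have h3 : ∀ Y ∈ E.powerset, g (insert a Y) * (∏ c ∈ insert a Y, w c) *
        ∏ c ∈ insert a E \ insert a Y, (1 + w c) =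
        w a * (g (insert a Y) * (∏ c ∈ Y, w c) * ∏ c ∈ E \ Y, (1 + w c)) := by
      intro Y hY
      have haY : a ∉ Y := fun h => ha (Finset.mem_powerset.1 hY h)
      have h4 : insert a E \ insert a Y = E \ Y := by
        ext x
        simp only [Finset.mem_sdiff, Finset.mem_insert]
        constructor
        · rintro ⟨h | h, h'⟩
          · exact absurd (Or.inl h) h'
          · exact ⟨h, fun h'' => h' (Or.inr h'')⟩
        · rintro ⟨h, h'⟩
          refine ⟨Or.inr h, ?_⟩
          rintro (h'' | h'')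
          · exact ha (h'' ▸ h)
          · exact h' h''
      rw [Finset.prod_insert haY, h4]
      ring
    rw [Finset.sum_congr rfl h1, Finset.sum_congr rfl h2, Finset.sum_congr rfl h3,
      Finset.sum_add_distrib, ← Finset.mul_sum, ← Finset.mul_sum, ← Finset.mul_sum,
      ← Finset.mul_sum, ih g, ih fun Y => g (insert a Y)]
    ring

theorem T_sum {α : Type*} (E : Finset α) (f : α → ℤ) :
    (T (∑ c ∈ E, f c) : LaurentPolynomial ℤ) = ∏ c ∈ E, T (f c) := by
  classical
  induction E using Finset.induction_on with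
  | empty => simp
  | insert a E ha ih => rw [Finset.sum_insert ha, Finset.prod_insert ha, T_add, ih]

/-! ## the coefficients of the powers of a circle -/

theorem coeff_dd_neg (m : ℕ) (j : ℤ) : (dd ^ m).coeff (-j) = (dd ^ m).coeff j := by
  have h : invert (dd ^ m) = dd ^ m := by rw [map_pow, GaussDiagram.invert_dd]
  conv_rhs => rw [← h]
  rw [invert_apply]

theorem coeff_dd_abs (m : ℕ) (j : ℤ) (h : 2 * (m : ℤ) < |j|) : (dd ^ m).coeff j = 0 := by
  rcases abs_cases j with ⟨h1, -⟩ | ⟨h1, -⟩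
  · exact coeff_dd_pow_of_lt m j (by omega)
  · rw [← coeff_dd_neg]
    exact coeff_dd_pow_of_lt m (-j) (by omega)

theorem coeff_dd_choose (m : ℕ) : ∀ i : ℕ, (dd ^ m).coeff (2 * (m : ℤ) - 4 * i) =
    (-1) ^ m * (m.choose i : ℤ) := by
  induction m with
  | zero =>
    intro i
    rw [coeff_dd_pow_zero]
    rcases i with _ | i
    · simp
    · rw [if_neg (by push_cast; omega)]
      simp
  | succ m ih =>
    intro i
    rw [coeff_dd_pow_succ]
    have e1 : 2 * ((m + 1 : ℕ) : ℤ) - 4 * (i : ℤ) - 2 = 2 * (m : ℤ) - 4 * (i : ℤ) := by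
      push_cast; ring
    rw [e1, ih i]
    rcases i with _ | i
    · have e2 : (2 * ((m + 1 : ℕ) : ℤ) - 4 * ((0 : ℕ) : ℤ) + 2) = 2 * (m : ℤ) + 4 := by
        push_cast; ring
      rw [e2, coeff_dd_pow_of_lt m _ (by omega)]
      simp [pow_succ]
    · have e2 : (2 * ((m + 1 : ℕ) : ℤ) - 4 * ((i + 1 : ℕ) : ℤ) + 2) = 2 * (m : ℤ) - 4 * (i : ℤ) := by
        push_cast; ring
      rw [e2, ih i, Nat.choose_succ_succ, pow_succ]
      push_cast
      ring

/-- the exponents of `dd ^ m` -/
theorem coeff_dd_ne_zero (m : ℕ) : ∀ j : ℤ, (dd ^ m).coeff j ≠ 0 →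
    ∃ i : ℕ, i ≤ m ∧ j = 2 * (m : ℤ) - 4 * i := by
  induction m with
  | zero =>
    intro j hj
    rw [coeff_dd_pow_zero] at hj
    refine ⟨0, le_rfl, ?_⟩
    by_contra h
    rw [if_neg (by omega)] at hj
    exact hj rfl
  | succ m ih =>
    intro j hj
    rw [coeff_dd_pow_succ] at hj
    by_cases h1 : (dd ^ m).coeff (j - 2) = 0
    · have h2 : (dd ^ m).coeff (j + 2) ≠ 0 := by
        intro h2
        rw [h1, h2] at hj
        simp at hj
      obtain ⟨i, hi, h3⟩ := ih _ h2
      exact ⟨i + 1, by omega, by push_cast; omega⟩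
    · obtain ⟨i, hi, h3⟩ := ih _ h1
      exact ⟨i, by omega, by push_cast; omega⟩

section

variable {ι R : Type} [Fintype ι] [DecidableEq ι] [Fintype R] [DecidableEq R]

theorem sw_bij (s : ι → Bool) : Function.Bijective (sw s) := by
  constructor
  · intro Y Y' h
    ext c
    have h1 := congrFun h c
    unfold sw at h1
    by_cases h2 : c ∈ Y <;> by_cases h3 : c ∈ Y' <;> simp_all
  · intro s'
    refine ⟨Finset.univ.filter fun c => s' c ≠ s c, ?_⟩
    funext c
    unfold sw
    simp only [Finset.mem_filter, Finset.mem_univ, true_and]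
    by_cases h : s' c = s c
    · rw [if_neg (by simp [h]), h]
    · rw [if_pos h]
      revert h
      cases s' c <;> cases s c <;> simp

/-- the sign of a crossing -/
def sgn1 (s : ι → Bool) (c : ι) : ℤ := if s c = true then 1 else -1

theorem sg_eq_sum (s : ι → Bool) (Z : Finset ι) : sg s Z = ∑ c ∈ Z, sgn1 s c := by
  unfold sg sgn1
  rw [Finset.sum_ite, Finset.sum_const, Finset.sum_const]
  have h1 : Z ∩ Pos s = Z.filter fun c => s c = true := by
    ext c; simp [Pos]
  have h2 : Z ∩ Neg s = Z.filter fun c => ¬ (s c = true) := by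
    ext c; simp [Neg]
  rw [h1, h2]
  simp
  ring

theorem prod_wt (s : ι → Bool) (Z : Finset ι) : ∏ c ∈ Z, wt s c = T (-4 * sg s Z) := by
  rw [sg_eq_sum, Finset.mul_sum, T_sum]
  refine Finset.prod_congr rfl fun c _ => ?_
  unfold wt sgn1
  split_ifs <;> simp

namespace Sys

variable {S : Sys ι R} {χ : R → Bool}

theorem ex_add (hP : S.IsPlanar χ) (s : ι → Bool) (Y : Finset ι) :
    S.full s ≤ S.full (sw s Y) + Y.card := by
  induction Y using Finset.induction_on with
  | empty => rw [sw_empty]; simp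
  | insert c Y hc ih =>
    rw [Finset.card_insert_of_notMem hc]
    have := S.full_sw_le (s := s) hc
    omega

theorem ex_empty (s : ι → Bool) : S.ex s ∅ = 0 := by
  unfold ex
  rw [sw_empty]
  simp

theorem ex_insert (hP : S.IsPlanar χ) {s : ι → Bool} {Y : Finset ι} {c : ι} (hc : c ∉ Y) :
    S.ex s (insert c Y) = S.ex s Y ∨ S.ex s (insert c Y) = S.ex s Y + 2 := by
  unfold ex
  rw [Finset.card_insert_of_notMem hc]
  have h1 := S.full_sw_le (s := s) hc
  have h2 := S.full_sw_insert_le (s := s) hc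
  have h3 := full_ne hP (s := s) hc
  have h4 := ex_add hP s Y
  omega

theorem ex_insert_bridge (hP : S.IsPlanar χ) {s : ι → Bool} {Y : Finset ι} {c : ι} (hc : c ∉ Y)
    (hb : S.Bridge s Y c) : S.ex s (insert c Y) = S.ex s Y := by
  unfold ex
  rw [Finset.card_insert_of_notMem hc]
  have h1 := full_sw_insert_bridge hP hc hb
  have h4 := ex_add hP s Y
  omega

theorem ex_mono (hP : S.IsPlanar χ) {s : ι → Bool} {Y Z : Finset ι} (h : Y ⊆ Z) :
    S.ex s Y ≤ S.ex s Z := by
  have key : ∀ X : Finset ι, S.ex s Y ≤ S.ex s (X ∪ Y) := by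
    intro X
    induction X using Finset.induction_on with
    | empty => simp
    | insert a X _ ih =>
      rw [Finset.insert_union]
      by_cases ha : a ∈ X ∪ Y
      · rw [Finset.insert_eq_of_mem ha]; exact ih
      · rcases ex_insert hP (s := s) ha with h1 | h1 <;> omega
  have := key Z
  rwa [Finset.union_eq_left.2 h] at this

theorem hh_empty (s : ι → Bool) : S.hh s ∅ = 1 := by
  unfold hh
  rw [Finset.powerset_empty, Finset.sum_singleton, ex_empty]
  simp

theorem hh_bridge (hP : S.IsPlanar χ) {s : ι → Bool} {Z : Finset ι} {c : ι} (hc : c ∈ Z)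
    (hb : S.Bridge s Z c) : S.hh s Z = 0 := by
  have hZ : Z = insert c (Z.erase c) := (Finset.insert_erase hc).symm
  unfold hh
  conv_lhs => rw [hZ]
  rw [Finset.sum_powerset_insert (Finset.notMem_erase c Z), ← Finset.sum_add_distrib]
  refine Finset.sum_eq_zero fun Y hY => ?_
  have h1 : Y ⊆ Z.erase c := Finset.mem_powerset.1 hY
  have h2 : c ∉ Y := fun h => Finset.notMem_erase c Z (h1 h)
  have h3 : S.Bridge s Y c := S.bridge_mono (h1.trans (Finset.erase_subset c Z)) hb
  rw [Finset.card_insert_of_notMem h2, ex_insert_bridge hP h2 h3, pow_succ]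
  ring

theorem hh_coeff (hP : S.IsPlanar χ) {s : ι → Bool} {Z : Finset ι} {j : ℤ}
    (hj : 2 * (S.ex s Z : ℤ) < |j|) : (S.hh s Z).coeff j = 0 := by
  unfold hh
  rw [coeff_sum_apply]
  refine Finset.sum_eq_zero fun Y hY => ?_
  have h1 := ex_mono hP (s := s) (Finset.mem_powerset.1 hY)
  have h2 : (dd ^ S.ex s Y).coeff j = 0 := by
    apply coeff_dd_abs
    omega
  rcases neg_one_pow_eq_or (LaurentPolynomial ℤ) Y.card with h | h
  · rw [h, one_mul, h2]
  · rw [h, neg_mul, one_mul]
    show -((dd ^ S.ex s Y).coeff j) = 0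
    rw [h2, neg_zero]

/-- the resummed bracket -/
noncomputable def KK (S : Sys ι R) (s : ι → Bool) : LaurentPolynomial ℤ :=
  ∑ Z ∈ (Finset.univ : Finset ι).powerset, (∏ c ∈ Z, wt s c) * S.hh s Z

theorem term_Y (s : ι → Bool) (Y : Finset ι) :
    (T (∑ c, if sw s Y c then 1 else -1) : LaurentPolynomial ℤ) * dd ^ (Fintype.card ι - Y.card) =
      (-1) ^ (Fintype.card ι) * T (3 * sg s Finset.univ) * ((-1) ^ Y.card * (∏ c ∈ Y, wt s c) *
        ∏ c ∈ Finset.univ \ Y, (1 + wt s c)) := by
  have hcard : (Finset.univ \ Y).card = Fintype.card ι - Y.card := by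
    rw [Finset.card_sdiff_of_subset (Finset.subset_univ Y), Finset.card_univ]
  have hcard' : Fintype.card ι = Y.card + (Finset.univ \ Y).card := by
    have := Finset.card_le_univ Y
    omega
  have h1 : (T (∑ c, if sw s Y c then 1 else -1) : LaurentPolynomial ℤ) =
      (∏ c ∈ Y, T (-sgn1 s c)) * ∏ c ∈ Finset.univ \ Y, T (sgn1 s c) := by
    rw [T_sum, ← Finset.prod_sdiff (Finset.subset_univ Y), mul_comm]
    congr 1
    · refine Finset.prod_congr rfl fun c hc => ?_
      unfold sw sgn1
      rw [if_pos hc]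
      cases s c <;> simp
    · refine Finset.prod_congr rfl fun c hc => ?_
      unfold sw sgn1
      rw [if_neg (Finset.mem_sdiff.1 hc).2]
  have h2 : (T (3 * sg s Finset.univ) : LaurentPolynomial ℤ) =
      (∏ c ∈ Y, T (3 * sgn1 s c)) * ∏ c ∈ Finset.univ \ Y, T (3 * sgn1 s c) := by
    rw [sg_eq_sum, Finset.mul_sum, T_sum, ← Finset.prod_sdiff (Finset.subset_univ Y), mul_comm]
  have h3 : (dd : LaurentPolynomial ℤ) ^ (Fintype.card ι - Y.card) =
      ∏ _c ∈ Finset.univ \ Y, dd := by
    rw [Finset.prod_const, hcard]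
  have h4 : ((-1 : LaurentPolynomial ℤ) ^ (Fintype.card ι)) * (-1) ^ Y.card =
      ∏ _c ∈ Finset.univ \ Y, (-1) := by
    rw [Finset.prod_const, ← pow_add]
    conv_lhs => rw [hcard']
    have : Y.card + (Finset.univ \ Y).card + Y.card = 2 * Y.card + (Finset.univ \ Y).card := by ring
    rw [this, pow_add, pow_mul]
    simp
  have h5 : ∀ c, (T (-sgn1 s c) : LaurentPolynomial ℤ) = T (3 * sgn1 s c) * wt s c := by
    intro c
    unfold sgn1 wt
    rw [← T_add]
    congr 1
    split_ifs <;> norm_num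
  have h6 : ∀ c, (T (sgn1 s c) : LaurentPolynomial ℤ) * dd =
      (-1) * T (3 * sgn1 s c) * (1 + wt s c) := by
    intro c
    unfold sgn1 wt dd
    split_ifs
    · have e1 : (T 1 : LaurentPolynomial ℤ) * T 2 = T 3 := by rw [← T_add]; norm_num
      have e2 : (T 1 : LaurentPolynomial ℤ) * T (-2) = T (-1) := by rw [← T_add]; norm_num
      have e3 : (T (3 * 1) : LaurentPolynomial ℤ) * T (-4) = T (-1) := by rw [← T_add]; norm_num
      have e4 : (T (3 * 1) : LaurentPolynomial ℤ) = T 3 := by norm_num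
      linear_combination -e1 - e2 + e3 + e4
    · have e1 : (T (-1) : LaurentPolynomial ℤ) * T 2 = T 1 := by rw [← T_add]; norm_num
      have e2 : (T (-1) : LaurentPolynomial ℤ) * T (-2) = T (-3) := by rw [← T_add]; norm_num
      have e3 : (T (3 * -1) : LaurentPolynomial ℤ) * T 4 = T 1 := by rw [← T_add]; norm_num
      have e4 : (T (3 * -1) : LaurentPolynomial ℤ) = T (-3) := by norm_num
      linear_combination -e1 - e2 + e3 + e4
  calc _ = (∏ c ∈ Y, T (-sgn1 s c)) * ∏ c ∈ Finset.univ \ Y, (T (sgn1 s c) * dd) := by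
        rw [h1, h3, mul_assoc, ← Finset.prod_mul_distrib]
    _ = (∏ c ∈ Y, (T (3 * sgn1 s c) * wt s c)) *
          ∏ c ∈ Finset.univ \ Y, ((-1) * T (3 * sgn1 s c) * (1 + wt s c)) := by
        rw [Finset.prod_congr rfl fun c _ => h5 c,
          Finset.prod_congr (s₁ := Finset.univ \ Y) rfl fun c _ => h6 c]
    _ = _ := by
        rw [Finset.prod_mul_distrib, Finset.prod_mul_distrib, Finset.prod_mul_distrib, ← h4, h2]
        ring

theorem dd_mul_br (hP : S.IsPlanar χ) (s : ι → Bool) {β : ℕ}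
    (hβ : β + S.full s = Fintype.card ι + 2) :
    dd ^ β * S.br = (-1) ^ (Fintype.card ι) * T (3 * sg s Finset.univ) * KK S s := by
  unfold br KK hh
  rw [resum, ← (sw_bij s).sum_comp, Finset.mul_sum, Finset.mul_sum, ← Finset.powerset_univ]
  refine Finset.sum_congr rfl fun Y _ => ?_
  have h1 := term_Y s Y
  have h2 : β + (S.full (sw s Y) - 2) = (Fintype.card ι - Y.card) + S.ex s Y := by
    have h3 := hP.two_le (sw s Y)
    have h4 := ex_add hP s Y
    have h5 := Finset.card_le_univ Y
    unfold ex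
    omega
  calc dd ^ β * (T (∑ c, if sw s Y c then 1 else -1) * dd ^ (S.full (sw s Y) - 2)) =
        (T (∑ c, if sw s Y c then 1 else -1) * dd ^ (Fintype.card ι - Y.card)) *
          dd ^ S.ex s Y := by
        rw [mul_assoc, ← pow_add, ← h2, pow_add]
        ring
    _ = _ := by
        rw [h1]
        ring

theorem KK_term_coeff (hP : S.IsPlanar χ) {s : ι → Bool} {Z : Finset ι} {j : ℤ}
    (hj : S.Bridgeless s Z → 2 * (S.ex s Z : ℤ) < |j + 4 * sg s Z|) :
    ((∏ c ∈ Z, wt s c) * S.hh s Z).coeff j = 0 := by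
  by_cases hb : S.Bridgeless s Z
  · rw [prod_wt, coeff_T_mul]
    apply hh_coeff hP
    have := hj hb
    rwa [show j - -4 * sg s Z = j + 4 * sg s Z by ring]
  · unfold Bridgeless at hb
    push Not at hb
    obtain ⟨c, hc, hb⟩ := hb
    rw [hh_bridge hP hc hb, mul_zero]
    rfl

theorem KK_zero (hP : S.IsPlanar χ) {s : ι → Bool} (hU : S.Unb s) : (KK S s).coeff 0 = 1 := by
  unfold KK
  rw [coeff_sum_apply, Finset.sum_eq_single ∅]
  · rw [hh_empty]
    simp
  · intro Z _ hZ
    apply KK_term_coeff hP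
    intro hb
    have := hU Z (Finset.nonempty_iff_ne_empty.2 hZ) hb
    rw [zero_add, abs_mul]
    norm_num
    omega
  · simp

theorem KK_four (hP : S.IsPlanar χ) {s : ι → Bool} (hU : S.Unb s) (hS : S.SUnb s) :
    (KK S s).coeff (-4) = (∑ Z ∈ (Finset.univ : Finset ι).powerset.filter
      (fun Z => (Z ∩ Neg s).card ≤ 1), (∏ c ∈ Z, wt s c) * S.hh s Z).coeff (-4) := by
  unfold KK
  rw [coeff_sum_apply, coeff_sum_apply, Finset.sum_filter]
  refine Finset.sum_congr rfl fun Z _ => ?_
  by_cases hZ : (Z ∩ Neg s).card ≤ 1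
  · rw [if_pos hZ]
  · rw [if_neg hZ]
    apply KK_term_coeff hP
    intro hb
    have hne : Z.Nonempty := by
      by_contra h
      rw [Finset.not_nonempty_iff_eq_empty] at h
      subst h
      simp at hZ
    have h1 := hU Z hne hb
    push Not at hZ
    have h4 : -4 + 4 * sg s Z = 4 * (sg s Z - 1) := by ring
    rw [h4, abs_mul]
    norm_num
    rcases le_or_gt (sg s Z) 0 with h0 | h0
    · rw [abs_of_nonpos h0] at h1
      rw [abs_of_neg (by omega)]
      omega
    · rw [abs_of_pos h0] at h1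
      have h5 : 2 ≤ (Z ∩ Pos s).card := by
        unfold sg at h0
        omega
      have h6 := hS Z hb h5 (by omega)
      rw [abs_of_pos h0] at h6
      rw [abs_of_nonneg (by omega)]
      omega

/-- the coefficients of the resummed bracket if the bracket is a monomial -/
theorem KK_mono (hP : S.IsPlanar χ) (s : ι → Bool) {β : ℕ}
    (hβ : β + S.full s = Fintype.card ι + 2) {e ε : ℤ}
    (hmono : ∀ j, S.br.coeff j = if j = e then ε else 0) (j : ℤ) :
    (KK S s).coeff j = (-1) ^ (Fintype.card ι) * ε *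
      (dd ^ β).coeff (j + 3 * sg s Finset.univ - e) := by
  have h1 := dd_mul_br hP s hβ
  have h2 : S.br = C ε * T e := by
    ext j
    rw [hmono, ← single_eq_C_mul_T]
    show _ = (Finsupp.single e ε) j
    rw [Finsupp.single_apply]
    simp only [eq_comm]
  have h3 : KK S s = (-1) ^ (Fintype.card ι) * T (-(3 * sg s Finset.univ)) * (dd ^ β * S.br) := by
    rw [h1]
    have h4 : ((-1 : LaurentPolynomial ℤ) ^ (Fintype.card ι)) * (-1) ^ (Fintype.card ι) = 1 := by
      rw [← mul_pow]; simp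
    have h5 : (T (-(3 * sg s Finset.univ)) : LaurentPolynomial ℤ) * T (3 * sg s Finset.univ) = 1 := by
      rw [← T_add, neg_add_cancel, T_zero]
    linear_combination (-(1:LaurentPolynomial ℤ)) * (KK S s) * T (-(3 * sg s Finset.univ)) *
      T (3 * sg s Finset.univ) * h4 - (KK S s) * h5
  rw [h3, h2]
  have h6 : ((-1 : LaurentPolynomial ℤ) ^ (Fintype.card ι)) = C ((-1) ^ (Fintype.card ι)) := by
    simp
  have h7 : (-1 : LaurentPolynomial ℤ) ^ (Fintype.card ι) * T (-(3 * sg s Finset.univ)) *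
      (dd ^ β * (C ε * T e)) =
      C ((-1) ^ (Fintype.card ι) * ε) * (T (e - 3 * sg s Finset.univ) * dd ^ β) := by
    rw [h6, map_mul, show e - 3 * sg s Finset.univ = -(3 * sg s Finset.univ) + e by ring, T_add]
    ring
  rw [h7]
  have h8 : ∀ (a : ℤ) (p : LaurentPolynomial ℤ), (C a * p).coeff j = a * p.coeff j := by
    intro a p
    rw [← smul_eq_C_mul]
    rfl
  rw [h8, coeff_T_mul]
  congr 2
  ring

/-- if the bracket is a monomial -/
theorem KK_cases (hP : S.IsPlanar χ) {s : ι → Bool} (hU : S.Unb s) {β : ℕ}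
    (hβ : β + S.full s = Fintype.card ι + 2) {e ε : ℤ}
    (hmono : ∀ j, S.br.coeff j = if j = e then ε else 0) :
    (3 * sg s Finset.univ - e = 2 * β ∧ (KK S s).coeff (-4) = β ∧ (KK S s).coeff 4 = 0) ∨
    (3 * sg s Finset.univ - e = -(2 * β) ∧ (KK S s).coeff 4 = β ∧ (KK S s).coeff (-4) = 0) := by
  have h1 := KK_mono hP s hβ hmono
  have h0 := h1 0
  rw [KK_zero hP hU] at h0
  have hne : (dd ^ β).coeff (0 + 3 * sg s Finset.univ - e) ≠ 0 := by
    intro h
    rw [h, mul_zero] at h0
    exact one_ne_zero h0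
  obtain ⟨i, hi, hi'⟩ := coeff_dd_ne_zero β _ hne
  rw [hi', coeff_dd_choose] at h0
  have hunit : ((β.choose i : ℕ) : ℤ) = 1 := by
    have h2 : ((β.choose i : ℕ) : ℤ) ∣ 1 := ⟨(-1) ^ (Fintype.card ι) * ε * (-1) ^ β, by
      linear_combination h0⟩
    exact Int.eq_one_of_dvd_one (by positivity) h2
  have hE : (-1) ^ (Fintype.card ι) * ε * (-1) ^ β = 1 := by
    rw [hunit] at h0
    linear_combination -h0
  have hci : i = 0 ∨ i = β := by
    have h3 : β.choose i = 1 := by exact_mod_cast hunit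
    rcases Nat.eq_zero_or_pos i with h | h
    · exact Or.inl h
    · right
      by_contra hne2
      have h4 : i < β := by omega
      have h5 := Nat.choose_le_choose i (show i + 1 ≤ β by omega)
      rw [Nat.choose_succ_self_right, h3] at h5
      omega
  rcases hci with rfl | rfl
  · left
    refine ⟨by push_cast at hi'; omega, ?_, ?_⟩
    · rw [h1, show (-4 : ℤ) + 3 * sg s Finset.univ - e = 2 * (β : ℤ) - 4 * (1 : ℕ) by
        push_cast at hi' ⊢; omega, coeff_dd_choose, Nat.choose_one_right]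
      linear_combination (β : ℤ) * hE
    · rw [h1, coeff_dd_pow_of_lt β _ (by push_cast at hi'; omega), mul_zero]
  · right
    refine ⟨by push_cast at hi'; omega, ?_, ?_⟩
    · rw [h1]
      rcases Nat.eq_zero_or_pos i with h | h
      · subst h
        rw [coeff_dd_abs 0 _ (by
          push_cast at hi' ⊢
          rw [show (4 : ℤ) + 3 * sg s Finset.univ - e = 4 by omega]
          norm_num), mul_zero]
        simp
      · obtain ⟨k, rfl⟩ : ∃ k, i = k + 1 := ⟨i - 1, by omega⟩
        rw [show (4 : ℤ) + 3 * sg s Finset.univ - e = 2 * ((k + 1 : ℕ) : ℤ) - 4 * (k : ℕ) by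
          push_cast at hi' ⊢; omega, coeff_dd_choose, Nat.choose_succ_self_right]
        linear_combination ((k + 1 : ℕ) : ℤ) * hE
    · rw [h1, coeff_dd_abs i _ (by
        push_cast at hi'
        rw [show (-4 : ℤ) + 3 * sg s Finset.univ - e = -(2 * i + 4) by omega, abs_neg,
          abs_of_nonneg (by omega)]
        omega), mul_zero]

end Sys

end

end Pool.Agent.Helper16.Jones
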