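import Pool.Agent.Helper16.Jones.Unb1
import Pool.Agent.Helper16.Jones.Cells

set_option autoImplicit false

/-! # Sparse states are unbalanced -/

namespace Pool.Agent.Helper16.Jones

open LaurentPolynomial Pool.Agent.Helper16.Knotoid

variable {ι R : Type} [Fintype ι] [DecidableEq ι] [Fintype R] [DecidableEq R]
  {S : Sys ι R} {χ : R → Bool}

namespace Sys

theorem unb_of_sparse (hP : S.IsPlanar χ) {s : ι → Bool} (hs : S.Sparse s) : S.Unb s := by
  intro Z hne hb
  have h1 := S.cells_bound hs Z (fun c hc => hb c (Finset.mem_inter.1 hc).1)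
    (by obtain ⟨c, hc⟩ := hne; exact ⟨c, hc, hb c hc⟩)
  have h2 := loop_bound hP s Z
  have h5 := ex_add hP s Z
  have h3 : (Z ∩ Neg s).card + S.cl (off s Z) + 1 ≤ (Z ∩ Pos s).card + S.full s := by
    refine h1.trans (Nat.add_le_add_right (Finset.card_le_card ?_) _)
    intro x hx
    simp only [Finset.mem_filter] at hx
    exact hx.1
  have h4 : (S.ex s Z : ℤ) + 2 ≤ 2 * sg s Z := by
    unfold ex sg
    omega
  exact h4.trans (by have := le_abs_self (sg s Z); omega)

theorem sunb_of_strict (hP : S.IsPlanar χ) {s : ι → Bool} (hs : S.Sparse s) (hs' : S.Strict s) :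
    S.SUnb s := by
  intro Z hb _ hn
  have h1 := S.cells_strict hs hs' Z hb hn
  have h2 := loop_bound hP s Z
  have h5 := ex_add hP s Z
  have h4 : (S.ex s Z : ℤ) + 4 ≤ 2 * sg s Z := by
    unfold ex sg
    omega
  exact h4.trans (by have := le_abs_self (sg s Z); omega)

end Sys

end Pool.Agent.Helper16.Jones
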