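import Pool.Agent.Helper16.Jones.PhiDefs

set_option autoImplicit false

/-! # Unbalanced states: definitions for the expansion over bridgeless sets of crossings -/

namespace Pool.Agent.Helper16.Jones

open LaurentPolynomial Pool.Agent.Helper16.Knotoid

variable {ι R : Type} [Fintype ι] [DecidableEq ι] [Fintype R] [DecidableEq R]

/-- positive minus negative crossings in `Z` -/
def sg (s : ι → Bool) (Z : Finset ι) : ℤ := ((Z ∩ Pos s).card : ℤ) - (Z ∩ Neg s).card

/-- the weight of a crossing -/
noncomputable def wt (s : ι → Bool) (c : ι) : LaurentPolynomial ℤ := T (if s c = true then -4 else 4)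

namespace Sys

variable (S : Sys ι R)

/-- twice the number of independent cycles minus the genus:
`|s_Y| + |Y| - |s|`, `s_Y` being `s` switched on `Y` -/
noncomputable def ex (s : ι → Bool) (Y : Finset ι) : ℕ := S.full (sw s Y) + Y.card - S.full s

/-- the flow-like polynomial of `Z` -/
noncomputable def hh (s : ι → Bool) (Z : Finset ι) : LaurentPolynomial ℤ :=
  ∑ Y ∈ Z.powerset, (-1) ^ Y.card * dd ^ S.ex s Y

/-- no crossing of `Z` is a bridge of `Z` -/
def Bridgeless (s : ι → Bool) (Z : Finset ι) : Prop := ∀ c ∈ Z, ¬ S.Bridge s Z c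

/-- every nonempty bridgeless set is unbalanced -/
def Unb (s : ι → Bool) : Prop :=
  ∀ Z : Finset ι, Z.Nonempty → S.Bridgeless s Z → (S.ex s Z : ℤ) + 2 ≤ 2 * |sg s Z|

/-- strictly unbalanced if there are two crossings of each type -/
def SUnb (s : ι → Bool) : Prop :=
  ∀ Z : Finset ι, S.Bridgeless s Z → 2 ≤ (Z ∩ Pos s).card → 2 ≤ (Z ∩ Neg s).card →
    (S.ex s Z : ℤ) + 4 ≤ 2 * |sg s Z|

/-- cycles with at most one negative crossing have at least two more positive crossings -/
def Weak1 (s : ι → Bool) : Prop :=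
  ∀ W, (S.cut s W).Nonempty → (S.cut s W ∩ Neg s).card ≤ 1 →
    (S.cut s W ∩ Neg s).card + 2 ≤ (S.cut s W ∩ Pos s).card

/-- cycles with two negative crossings have at least five positive ones -/
def Weak2 (s : ι → Bool) : Prop :=
  ∀ W, (S.cut s W ∩ Neg s).card = 2 → 5 ≤ (S.cut s W ∩ Pos s).card

end Sys

end Pool.Agent.Helper16.Jones
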