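import Pool.Agent.Helper16.Jones.Main
import Pool.Agent.Helper16.Jones.DefsU
import Pool.Agent.Helper16.Jones.UnbSum
import Pool.Agent.Helper16.Jones.UnbQuads
import Pool.Agent.Helper16.Jones.UnbCells

set_option autoImplicit false
set_option linter.unusedSectionVars false

/-!
# The theorem on unbalanced states
-/

namespace Pool.Agent.Helper16.Jones

open LaurentPolynomial Pool.Agent.Helper16.Knotoid

section
variable {ι R : Type} [Fintype ι] [DecidableEq ι] [Fintype R] [DecidableEq R]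

theorem sg_nt (s : ι → Bool) (Z : Finset ι) : sg (nt s) Z = -sg s Z := by
  unfold sg
  rw [pos_nt, neg_nt]
  ring

theorem card_pos_neg (s : ι → Bool) : (Pos s).card + (Neg s).card = Fintype.card ι := by
  have h := Finset.card_filter_add_card_filter_not (s := (Finset.univ : Finset ι))
    (fun c => s c = true)
  have h1 : (Finset.univ.filter fun c => ¬ (s c = true)) = Neg s := by
    unfold Neg
    ext c
    simp
  rw [h1, Finset.card_univ] at h
  exact h

namespace Sys

variable {S : Sys ι R} {χ : R → Bool}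

theorem bridgeless_iff {s : ι → Bool} {Z : Finset ι} :
    S.Bridgeless s Z ↔ ∀ c ∈ Z, ∃ W, S.cut s W ⊆ Z ∧ c ∈ S.cut s W := by
  unfold Bridgeless
  refine forall₂_congr fun c hc => ?_
  rw [ph_not_bridge_iff]
  constructor
  · rintro ⟨D, ⟨W, rfl⟩, h1, h2⟩
    rw [Finset.insert_eq_of_mem hc] at h1
    exact ⟨W, h1, h2⟩
  · rintro ⟨W, h1, h2⟩
    exact ⟨_, ⟨W, rfl⟩, h1.trans (Finset.subset_insert _ _), h2⟩

theorem bridgeless_cut (s : ι → Bool) (W : Finset R) : S.Bridgeless s (S.cut s W) :=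
  bridgeless_iff.2 fun _ hc => ⟨W, subset_rfl, hc⟩

/-- a nonempty cycle has positive excess -/
theorem two_le_ex (hP : S.IsPlanar χ) {s : ι → Bool} {W : Finset R}
    (hne : (S.cut s W).Nonempty) : 2 ≤ S.ex s (S.cut s W) := by
  obtain ⟨c, hc⟩ := hne
  have h1 := ph_isCut_colour hP ⟨W, rfl⟩ (χ (S.p c (s c)).1) (s := s)
  set C := (S.cut s W).filter fun x => χ (S.p x (s x)).1 = χ (S.p c (s c)).1 with hC
  have hcC : c ∈ C := Finset.mem_filter.2 ⟨hc, rfl⟩
  have h2 := ex_exact hP (s := s) (Y := C) (fun x hx y hy =>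
    (Finset.mem_filter.1 hx).2.trans (Finset.mem_filter.1 hy).2.symm)
  have h3 : S.phrk s C = S.phrk s (C.erase c) := by
    conv_lhs => rw [← Finset.insert_erase hcC]
    apply ph_rk_insert_not_bridge
    exact ph_not_bridge_iff.2 ⟨C, h1, by rw [Finset.insert_erase hcC], hcC⟩
  have h4 := ph_rk_le_add (S := S) (s := s) (Finset.empty_subset (C.erase c))
  rw [ph_rk_empty, Finset.card_erase_of_mem hcC] at h4
  have h5 : 1 ≤ C.card := Finset.card_pos.2 ⟨c, hcC⟩
  have h6 : S.ex s C ≤ S.ex s (S.cut s W) := ex_mono hP (Finset.filter_subset _ _)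
  have h7 : ((C.card - 1 : ℕ) : ℤ) = C.card - 1 := by omega
  rw [h7] at h4
  push_cast at h4
  omega

theorem weak1_of_unb (hP : S.IsPlanar χ) {s : ι → Bool} (hU : S.Unb s) : S.Weak1 s := by
  intro W hne h1
  have h2 := hU _ hne (bridgeless_cut s W)
  have h3 := two_le_ex hP hne
  unfold sg at h2
  rcases abs_cases (((S.cut s W ∩ Pos s).card : ℤ) - (S.cut s W ∩ Neg s).card) with ⟨h4, -⟩ | ⟨h4, -⟩
  · rw [h4] at h2; omega
  · rw [h4] at h2; omega

theorem mir_mir (S : Sys ι R) : S.mir.mir = S := by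
  unfold mir
  simp

theorem mir_bridgeless {s : ι → Bool} {Z : Finset ι} :
    S.mir.Bridgeless (nt s) Z ↔ S.Bridgeless s Z := by
  rw [bridgeless_iff, bridgeless_iff]
  simp only [mir_cut]

theorem mir_ex (s : ι → Bool) (Z : Finset ι) : S.mir.ex (nt s) Z = S.ex s Z := by
  unfold ex
  rw [← nt_sw, mir_full, mir_full]

theorem mir_unb {s : ι → Bool} (hU : S.Unb s) : S.mir.Unb (nt s) := by
  intro Z hne hb
  rw [mir_ex, sg_nt, abs_neg]
  exact hU Z hne (mir_bridgeless.1 hb)

theorem mir_sunb {s : ι → Bool} (hU : S.SUnb s) : S.mir.SUnb (nt s) := by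
  intro Z hb h1 h2
  rw [mir_ex, sg_nt, abs_neg]
  rw [pos_nt] at h1
  rw [neg_nt] at h2
  exact hU Z (mir_bridgeless.1 hb) h2 h1

open Classical in
theorem KK_second (hP : S.IsPlanar χ) {s : ι → Bool} (hU : S.Unb s) (hS : S.SUnb s) :
    (KK S s).coeff (-4) = ((Pos s).card : ℤ) - ((Pos s).image (S.key s)).card +
        ∑ c ∈ Neg s, ((S.quads s c).card : ℤ) := by
  rw [KK_four hP hU hS, weak_sum hP (weak1_of_unb hP hU)]

open Classical in
/-- no two parallel crossings of the second kind -/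
theorem not_par_of_zero (hP : S.IsPlanar χ) {s : ι → Bool} (hU : S.Unb s) (hS : S.SUnb s)
    (h : (KK S.mir (nt s)).coeff (-4) = 0) {c d : ι} (hc : c ∈ Neg s) (hd : d ∈ Neg s)
    (hcd : c ≠ d) (W : Finset R) : S.cut s W ≠ {c, d} := by
  intro hW
  have h1 := KK_second (S.mir_planar hP) (mir_unb hU) (mir_sunb hS)
  rw [h, pos_nt, neg_nt] at h1
  have h2 : ((Neg s).image (S.mir.key (nt s))).card ≤ (Neg s).card := Finset.card_image_le
  have h3 : (0 : ℤ) ≤ ∑ c ∈ Pos s, ((S.mir.quads (nt s) c).card : ℤ) :=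
    Finset.sum_nonneg fun _ _ => Int.natCast_nonneg _
  have h4 : ((Neg s).image (S.mir.key (nt s))).card = (Neg s).card := by omega
  have h5 := Finset.card_image_iff.1 h4
  apply hcd
  apply h5 hc hd
  rw [ph_key_eq_iff (by rw [pos_nt]; exact hd)]
  right
  exact ⟨W, by rw [mir_cut]; exact hW⟩

theorem weak2_of_unb (hP : S.IsPlanar χ) {s : ι → Bool} (hU : S.Unb s) (hS : S.SUnb s)
    (h : (KK S.mir (nt s)).coeff (-4) = 0) : S.Weak2 s := by
  intro W h2
  have hne : (S.cut s W).Nonempty := by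
    rw [Finset.nonempty_iff_ne_empty]
    intro h0
    rw [h0] at h2
    simp at h2
  have hb := bridgeless_cut (S := S) s W
  have h3 := hU _ hne hb
  have h4 := two_le_ex hP hne
  have h5 := hS _ hb
  have h6 : (S.cut s W ∩ Pos s).card ≠ 0 := by
    intro h0
    obtain ⟨c, d, hcd, hW⟩ := Finset.card_eq_two.1 h2
    have hc : c ∈ S.cut s W ∩ Neg s := by rw [hW]; simp
    have hd : d ∈ S.cut s W ∩ Neg s := by rw [hW]; simp
    apply not_par_of_zero hP hU hS h (Finset.mem_inter.1 hc).2 (Finset.mem_inter.1 hd).2 hcd W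
    rw [← hW]
    ext x
    rw [Finset.mem_inter]
    constructor
    · intro hx
      refine ⟨hx, ?_⟩
      rcases ph_mem_Pos_or_Neg s x with hx' | hx'
      · have : x ∈ S.cut s W ∩ Pos s := Finset.mem_inter.2 ⟨hx, hx'⟩
        rw [Finset.card_eq_zero.1 h0] at this
        simp at this
      · exact hx'
    · exact fun hx => hx.1
  unfold sg at h3 h5
  rw [h2] at h3 h5
  rcases abs_cases (((S.cut s W ∩ Pos s).card : ℤ) - (2 : ℕ)) with ⟨h7, h8⟩ | ⟨h7, h8⟩
  · rw [h7] at h3 h5
    by_cases h9 : 2 ≤ (S.cut s W ∩ Pos s).card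
    · have := h5 h9 le_rfl
      omega
    · push_cast at h8 h3
      omega
  · rw [h7] at h3 h5
    push_cast at h8 h3
    omega

open Classical in
theorem unb_even_aux (hP : S.IsPlanar χ) {s : ι → Bool} (hU : S.Unb s) (hS : S.SUnb s)
    {V : Type} (v₁ v₂ : ι → V)
    (hv : ∀ C : Finset ι, (∃ W, S.cut s W = C) ↔ ∀ q : V, Even
      ((C.filter fun c => v₁ c = q).card + (C.filter fun c => v₂ c = q).card))
    {β : ℕ} (hβ : β + S.full s = Fintype.card ι + 2) (h1 : (KK S s).coeff (-4) = β)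
    (h2 : (KK S.mir (nt s)).coeff (-4) = 0) : ∀ W, Even (S.cut s W).card := by
  apply weak_even_of_count hP (weak1_of_unb hP hU) (weak2_of_unb hP hU hS h2) v₁ v₂ hv
  rw [KK_second hP hU hS] at h1
  have h3 := card_pos_neg s
  have h4 : (β : ℤ) + S.full s = Fintype.card ι + 2 := by exact_mod_cast hβ
  have h5 : ((Pos s).card : ℤ) + (Neg s).card = Fintype.card ι := by exact_mod_cast h3
  linarith

open Classical in
/-- if the bracket is a monomial, the cycles of a strictly unbalanced state are even -/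
theorem unb_even (hP : S.IsPlanar χ) {s : ι → Bool} (hU : S.Unb s) (hS : S.SUnb s)
    {V : Type} (v₁ v₂ : ι → V)
    (hv : ∀ C : Finset ι, (∃ W, S.cut s W = C) ↔ ∀ q : V, Even
      ((C.filter fun c => v₁ c = q).card + (C.filter fun c => v₂ c = q).card))
    {β : ℕ} (hβ : β + S.full s = Fintype.card ι + 2) (hβ0 : 0 < β) {e ε : ℤ}
    (hmono : ∀ j, S.br.coeff j = if j = e then ε else 0) : ∀ W, Even (S.cut s W).card := by
  have hP' := S.mir_planar hP
  have hmono' : ∀ j, S.mir.br.coeff j = if j = -e then ε else 0 := by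
    intro j
    rw [mir_coeff, hmono]
    exact if_congr (by constructor <;> intro h <;> omega) rfl rfl
  have hβ' : β + S.mir.full (nt s) = Fintype.card ι + 2 := by rw [mir_full]; exact hβ
  have h1 := KK_cases hP hU hβ hmono
  have h2 := KK_cases hP' (mir_unb hU) hβ' hmono'
  rw [sg_nt] at h2
  rcases h1 with ⟨h3, h4, -⟩ | ⟨h3, -, h4⟩
  · have h5 : (KK S.mir (nt s)).coeff (-4) = 0 := by
      rcases h2 with ⟨h6, -, -⟩ | ⟨-, -, h6⟩
      · omega
      · exact h6
    exact unb_even_aux hP hU hS v₁ v₂ hv hβ h4 h5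
  · have h5 : (KK S.mir (nt s)).coeff (-4) = β := by
      rcases h2 with ⟨-, h6, -⟩ | ⟨h6, -, -⟩
      · exact h6
      · omega
    have h7 := unb_even_aux hP' (mir_unb hU) (mir_sunb hS) v₁ v₂ (by
      intro C
      rw [← hv]
      simp only [mir_cut]) hβ' h5 (by
        rw [nt_nt, mir_mir]
        exact h4)
    intro W
    rw [← S.mir_cut]
    exact h7 W

/-- the excess of a union of series classes -/
theorem ex_le_classes (hP : S.IsPlanar χ) {s : ι → Bool} {m : ℕ} (r : ι → Fin m)
    (hr : ∀ W, ∀ c d, r c = r d → c ∈ S.cut s W → d ∈ S.cut s W) (Z : Finset ι) :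
    S.ex s Z ≤ 2 * (Z.image r).card := by
  classical
  rcases Z.eq_empty_or_nonempty with rfl | ⟨z, hz⟩
  · rw [ex_empty]
    exact Nat.zero_le _
  haveI : Nonempty ι := ⟨z⟩
  have hex : ∀ i : Fin m, i ∈ Z.image r → ∃ c ∈ Z, r c = i := fun i hi => Finset.mem_image.1 hi
  choose! t ht ht' using hex
  set T := (Z.image r).image t with hT
  have hTZ : T ⊆ Z := by
    intro x hx
    obtain ⟨i, hi, rfl⟩ := Finset.mem_image.1 hx
    exact ht i hi
  have hTc : T.card = (Z.image r).card := by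
    rw [hT]
    apply Finset.card_image_of_injOn
    intro i hi j hj hij
    have h1 := ht' i hi
    have h2 := ht' j hj
    rw [← h1, ← h2, hij]
  have hind : S.phrk s (Z \ T) = (Z \ T).card := by
    apply ph_rk_indep
    rintro _ ⟨W, rfl⟩ hWZ
    rw [Finset.eq_empty_iff_forall_notMem]
    intro c hc
    have h1 : c ∈ Z := (Finset.mem_sdiff.1 (hWZ hc)).1
    have h2 : r c ∈ Z.image r := Finset.mem_image_of_mem r h1
    have h3 := hr W c (t (r c)) (ht' _ h2).symm hc
    exact (Finset.mem_sdiff.1 (hWZ h3)).2 (Finset.mem_image_of_mem t h2)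
  have h1 := two_card_sub_ex hP s Z
  have h2 := defect_nonneg hP s Z
  have h3 : S.phrk s (Z \ T) ≤ S.phrk s Z := ph_rk_mono Finset.sdiff_subset
  have h4 : (Z \ T).card + T.card = Z.card := Finset.card_sdiff_add_card_eq_card hTZ
  omega

end Sys

end

namespace KnotDiagram

variable {n : ℕ} {D : KnotDiagram n}

theorem change_eq (s : Fin n → Bool) (Z : Finset (Fin n)) : change s Z = sw s Z := rfl

theorem sg_eq_num (s : Fin n → Bool) (Z : Finset (Fin n)) :
    sg s Z = (num s true Z : ℤ) - num s false Z := by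
  unfold sg
  rw [card_inter_pos, card_inter_neg]

theorem ex_eq (hD : D.Planar) {χ : D.Reg → Bool} (hP : D.sys.IsPlanar χ) (s : Fin n → Bool)
    (Z : Finset (Fin n)) : (D.sys.ex s Z : ℤ) = D.excess s Z := by
  have h1 := Sys.ex_add hP s Z
  have h2 := full_eq hD s
  have h3 := full_eq hD (sw s Z)
  unfold Sys.ex excess
  rw [change_eq]
  omega

theorem cycleUnion_iff (hD : D.Planar) {s : Fin n → Bool} {Z : Finset (Fin n)} :
    D.IsCycleUnion s Z ↔ Z.Nonempty ∧ D.sys.Bridgeless s Z := by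
  unfold IsCycleUnion
  rw [Sys.bridgeless_iff]
  refine and_congr_right fun _ => forall₂_congr fun c _ => ?_
  constructor
  · rintro ⟨C, hC, hE, hc⟩
    obtain ⟨W, rfl⟩ := (exists_cut_iff hD s C).2 hE
    exact ⟨W, hC, hc⟩
  · rintro ⟨W, hW, hc⟩
    exact ⟨_, hW, (exists_cut_iff hD s _).1 ⟨W, rfl⟩, hc⟩

theorem unb_iff (hD : D.Planar) {χ : D.Reg → Bool} (hP : D.sys.IsPlanar χ) {s : Fin n → Bool} :
    D.Unbalanced s ↔ D.sys.Unb s := by
  unfold Unbalanced Sys.Unb
  refine forall_congr' fun Z => ?_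
  rw [cycleUnion_iff hD, and_imp, ← ex_eq hD hP, ← sg_eq_num]
  obtain ⟨N, hN⟩ := Sys.ex_even hP s Z
  rw [hN]
  refine forall₂_congr fun _ _ => ?_
  push_cast
  omega

theorem sunb_iff (hD : D.Planar) {χ : D.Reg → Bool} (hP : D.sys.IsPlanar χ) {s : Fin n → Bool} :
    D.StrictlyUnbalanced s ↔ D.sys.Unb s ∧ D.sys.SUnb s := by
  unfold StrictlyUnbalanced
  rw [unb_iff hD hP]
  refine and_congr_right fun _ => ?_
  unfold Sys.SUnb
  refine forall_congr' fun Z => ?_
  rw [cycleUnion_iff hD, and_imp, ← ex_eq hD hP, ← sg_eq_num, card_inter_pos, card_inter_neg]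
  obtain ⟨N, hN⟩ := Sys.ex_even hP s Z
  rw [hN]
  constructor
  · intro h hb h1 h2
    have hne : Z.Nonempty := by
      rw [Finset.nonempty_iff_ne_empty]
      rintro rfl
      simp [num] at h1
    have := h hne hb h1 h2
    push_cast at this ⊢
    omega
  · intro h _ hb h1 h2
    have := h hb h1 h2
    push_cast at this ⊢
    omega

/-- sparse states are unbalanced -/
theorem unbalanced_of_sparse (hD : D.Planar) {X : Bool} {s : Fin n → Bool} (h : D.Sparse X s) :
    D.Unbalanced s := by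
  obtain ⟨χ, hP⟩ := exists_chi hD
  rw [unb_iff hD hP]
  cases X
  · have h1 := Sys.mir_unb (Sys.unb_of_sparse (D.sys.mir_planar hP) (sparse_false hD h))
    rw [nt_nt, Sys.mir_mir] at h1
    exact h1
  · exact Sys.unb_of_sparse hP (sparse_true hD h)

theorem strictlyUnbalanced_of_sparse (hD : D.Planar) {X : Bool} {s : Fin n → Bool}
    (h : D.StrictlySparse X s) : D.StrictlyUnbalanced s := by
  obtain ⟨χ, hP⟩ := exists_chi hD
  rw [sunb_iff hD hP]
  cases X
  · have h1 := Sys.mir_unb (Sys.unb_of_sparse (D.sys.mir_planar hP) (sparse_false hD h.1))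
    have h2 := Sys.mir_sunb (Sys.sunb_of_strict (D.sys.mir_planar hP) (sparse_false hD h.1)
      (strict_false hD h))
    rw [nt_nt, Sys.mir_mir] at h1 h2
    exact ⟨h1, h2⟩
  · exact ⟨Sys.unb_of_sparse hP (sparse_true hD h.1),
      Sys.sunb_of_strict hP (sparse_true hD h.1) (strict_true hD h)⟩

/-- states all of whose unions of series classes are unbalanced -/
theorem strictlyUnbalanced_of_series (hD : D.Planar) {s : Fin n → Bool} {m : ℕ}
    {r : Fin n → Fin m} (hr : D.Series s r)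
    (h : ∀ C : Finset (Fin n), C.Nonempty → (∀ c d, r c = r d → c ∈ C → d ∈ C) →
      ((C.image r).card : ℤ) + 2 ≤ |(num s true C : ℤ) - num s false C|) :
    D.StrictlyUnbalanced s := by
  obtain ⟨χ, hP⟩ := exists_chi hD
  have key : ∀ Z : Finset (Fin n), D.IsCycleUnion s Z →
      D.excess s Z + 4 ≤ 2 * |(num s true Z : ℤ) - num s false Z| := by
    intro Z hZ
    have h1 := Sys.ex_le_classes hP (s := s) r (by
      intro W c d hcd hc
      exact hr _ ((exists_cut_iff hD s _).1 ⟨W, rfl⟩) c d hcd hc) Z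
    have h2 := h Z hZ.1 (by
      intro c d hcd hc
      obtain ⟨C, hC, hE, hcC⟩ := hZ.2 c hc
      exact hC (hr C hE c d hcd hcC))
    have h3 := ex_eq hD hP s Z
    have h4 : (D.sys.ex s Z : ℤ) ≤ 2 * (Z.image r).card := by exact_mod_cast h1
    omega
  refine ⟨fun Z hZ => ?_, fun Z hZ _ _ => ?_⟩
  · have := key Z hZ
    omega
  · have := key Z hZ
    omega

theorem circles_le (hD : D.Planar) (s : Fin n → Bool) : D.circles s ≤ n + 1 := by
  have h := finrank_range_cutMap hD s
  omega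

/-- an unbalanced Seifert state -/
theorem unb_seifert (hD : D.Planar) (hf : D.fPoly = 1) (h : D.Unbalanced D.sign) :
    R1Trivial D.word := by
  obtain ⟨χ, hP⟩ := exists_chi hD
  obtain ⟨ε, hε⟩ := bracket_of_f hf
  rw [bracket_eq hD] at hε
  have hw := D.writhe_eq
  have hc := card_pos_add D.sign
  have hle := circles_le hD D.sign
  apply r1_of_circles (s := D.sign)
  have hfull := full_eq hD D.sign
  have h1 := Sys.KK_cases hP ((unb_iff hD hP).1 h) (β := n + 1 - D.circles D.sign)
    (by rw [hfull, Fintype.card_fin]; omega) hε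
  have h2 : sg D.sign Finset.univ = D.writhe := by
    unfold sg
    rw [Finset.univ_inter, Finset.univ_inter, hw]
    omega
  rw [h2] at h1
  rcases h1 with ⟨h3, -⟩ | ⟨h3, -⟩ <;> omega

/-- a strictly unbalanced state -/
theorem unb_strict (hD : D.Planar) (hf : D.fPoly = 1) {s : Fin n → Bool}
    (h : D.StrictlyUnbalanced s) : R1Trivial D.word := by
  obtain ⟨χ, hP⟩ := exists_chi hD
  have hle := circles_le hD s
  rcases Nat.eq_zero_or_pos (n + 1 - D.circles s) with h0 | h0
  · exact r1_of_circles (s := s) (by omega)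
  obtain ⟨ε, hε⟩ := bracket_of_f hf
  rw [bracket_eq hD] at hε
  obtain ⟨hU, hS⟩ := (sunb_iff hD hP).1 h
  have key : s = D.sign := by
    apply eq_sign_of_even hD
    exact Sys.unb_even hP hU hS (D.end₁ s) (D.end₂ s) (fun C => exists_cut_iff hD s C)
      (β := n + 1 - D.circles s) (by rw [full_eq hD, Fintype.card_fin]; omega) h0 hε
  apply unb_seifert hD hf
  rw [← key]
  exact h.1

end KnotDiagram

end Pool.Agent.Helper16.Jones
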